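import Pool.Agent.GPC.Defs
import Pool.Agent.OHG.All

set_option autoImplicit false

open PowerSeries Finset MeasureTheory

namespace Pool.Agent.GPC

open Pool.Agent.OHG

variable {V : Type} [Fintype V] [DecidableEq V]

private theorem A1_norm_exp {z : ℂ} (x : ℝ) (hz : z = (x : ℂ) * Complex.I) :
    ‖Complex.exp z‖ = 1 := by
  rw [hz]
  exact Complex.norm_exp_ofReal_mul_I x

/-- the algebra of the product, with the powers of `τ` as abstract numbers -/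
private theorem A1_aux {f g c c' e e' A A' : ℂ} {t t' u r C C' a a' : ℝ}
    (he : ‖e‖ = 1) (he' : ‖e'‖ = 1) (hA : ‖A‖ ≤ a) (hA' : ‖A'‖ ≤ a') (ht : 0 ≤ t) (ht' : 0 ≤ t')
    (hu : 0 ≤ u) (hu1 : u ≤ 1) (hr : 0 ≤ r) (hr1 : r ≤ 1) (hur : u * u = r)
    (hf : ‖f - c * (t : ℂ) * e * (1 + (u : ℂ) * A)‖ ≤ C * (t * r))
    (hg : ‖g - c' * (t' : ℂ) * e' * (1 + (u : ℂ) * A')‖ ≤ C' * (t' * r)) :
    ‖f * g - c * c' * ((t * t' : ℝ) : ℂ) * (e * e') * (1 + (u : ℂ) * (A + A'))‖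
      ≤ (|C| * |C'| + ‖c‖ * (1 + a) * |C'| + |C| * (‖c'‖ * (1 + a')) + ‖c‖ * ‖c'‖ * (a * a')) *
        (t * t' * r) := by
  have ha : 0 ≤ a := (norm_nonneg _).trans hA
  have ha' : 0 ≤ a' := (norm_nonneg _).trans hA'
  obtain ⟨F, hF⟩ : ∃ F, F = c * (t : ℂ) * e * (1 + (u : ℂ) * A) := ⟨_, rfl⟩
  obtain ⟨G, hG⟩ : ∃ G, G = c' * (t' : ℂ) * e' * (1 + (u : ℂ) * A') := ⟨_, rfl⟩
  rw [← hF] at hf
  rw [← hG] at hg
  have hf' : ‖f - F‖ ≤ |C| * (t * r) :=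
    hf.trans (mul_le_mul_of_nonneg_right (le_abs_self C) (mul_nonneg ht hr))
  have hg' : ‖g - G‖ ≤ |C'| * (t' * r) :=
    hg.trans (mul_le_mul_of_nonneg_right (le_abs_self C') (mul_nonneg ht' hr))
  have h1A : ‖1 + (u : ℂ) * A‖ ≤ 1 + a := by
    refine (norm_add_le _ _).trans ?_
    rw [norm_one, norm_mul, Complex.norm_real, Real.norm_eq_abs, abs_of_nonneg hu]
    have : u * ‖A‖ ≤ 1 * a := mul_le_mul hu1 hA (norm_nonneg _) zero_le_one
    linarith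
  have h1A' : ‖1 + (u : ℂ) * A'‖ ≤ 1 + a' := by
    refine (norm_add_le _ _).trans ?_
    rw [norm_one, norm_mul, Complex.norm_real, Real.norm_eq_abs, abs_of_nonneg hu]
    have : u * ‖A'‖ ≤ 1 * a' := mul_le_mul hu1 hA' (norm_nonneg _) zero_le_one
    linarith
  have hFn : ‖F‖ ≤ ‖c‖ * (1 + a) * t := by
    rw [hF, norm_mul, norm_mul, norm_mul, he, mul_one, Complex.norm_real, Real.norm_eq_abs,
      abs_of_nonneg ht]
    calc ‖c‖ * t * ‖1 + (u : ℂ) * A‖ ≤ ‖c‖ * t * (1 + a) :=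
          mul_le_mul_of_nonneg_left h1A (by positivity)
      _ = ‖c‖ * (1 + a) * t := by ring
  have hGn : ‖G‖ ≤ ‖c'‖ * (1 + a') * t' := by
    rw [hG, norm_mul, norm_mul, norm_mul, he', mul_one, Complex.norm_real, Real.norm_eq_abs,
      abs_of_nonneg ht']
    calc ‖c'‖ * t' * ‖1 + (u : ℂ) * A'‖ ≤ ‖c'‖ * t' * (1 + a') :=
          mul_le_mul_of_nonneg_left h1A' (by positivity)
      _ = ‖c'‖ * (1 + a') * t' := by ring
  have hur' : (u : ℂ) * (u : ℂ) = (r : ℂ) := by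
    rw [← hur]
    push_cast
    ring
  have key : f * g - c * c' * ((t * t' : ℝ) : ℂ) * (e * e') * (1 + (u : ℂ) * (A + A'))
      = (f - F) * (g - G) + F * (g - G) + (f - F) * G
        + c * c' * ((t * t' : ℝ) : ℂ) * (e * e') * ((r : ℂ) * (A * A')) := by
    rw [← hur', hF, hG]
    push_cast
    ring
  have hlast : ‖c * c' * ((t * t' : ℝ) : ℂ) * (e * e') * ((r : ℂ) * (A * A'))‖
      ≤ ‖c‖ * ‖c'‖ * (a * a') * (t * t' * r) := by
    rw [norm_mul, norm_mul, norm_mul, norm_mul, norm_mul, norm_mul, norm_mul, he, he',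
      Complex.norm_real, Complex.norm_real, Real.norm_eq_abs, Real.norm_eq_abs,
      abs_of_nonneg (mul_nonneg ht ht'), abs_of_nonneg hr]
    have h2 : ‖A‖ * ‖A'‖ ≤ a * a' := mul_le_mul hA hA' (norm_nonneg _) ha
    calc ‖c‖ * ‖c'‖ * (t * t') * (1 * 1) * (r * (‖A‖ * ‖A'‖))
        = ‖c‖ * ‖c'‖ * (t * t' * r) * (‖A‖ * ‖A'‖) := by ring
      _ ≤ ‖c‖ * ‖c'‖ * (t * t' * r) * (a * a') :=
          mul_le_mul_of_nonneg_left h2 (by positivity)
      _ = ‖c‖ * ‖c'‖ * (a * a') * (t * t' * r) := by ring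
  have h3 : ‖(f - F) * (g - G)‖ ≤ |C| * |C'| * (t * t' * r) := by
    rw [norm_mul]
    calc ‖f - F‖ * ‖g - G‖ ≤ (|C| * (t * r)) * (|C'| * (t' * r)) :=
          mul_le_mul hf' hg' (norm_nonneg _) (by positivity)
      _ = |C| * |C'| * (t * t' * r) * r := by ring
      _ ≤ |C| * |C'| * (t * t' * r) * 1 := mul_le_mul_of_nonneg_left hr1 (by positivity)
      _ = |C| * |C'| * (t * t' * r) := by ring
  have h4 : ‖F * (g - G)‖ ≤ ‖c‖ * (1 + a) * |C'| * (t * t' * r) := by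
    rw [norm_mul]
    calc ‖F‖ * ‖g - G‖ ≤ (‖c‖ * (1 + a) * t) * (|C'| * (t' * r)) :=
          mul_le_mul hFn hg' (norm_nonneg _) (by positivity)
      _ = ‖c‖ * (1 + a) * |C'| * (t * t' * r) := by ring
  have h5 : ‖(f - F) * G‖ ≤ |C| * (‖c'‖ * (1 + a')) * (t * t' * r) := by
    rw [norm_mul]
    calc ‖f - F‖ * ‖G‖ ≤ (|C| * (t * r)) * (‖c'‖ * (1 + a') * t') :=
          mul_le_mul hf' hGn (norm_nonneg _) (by positivity)
      _ = |C| * (‖c'‖ * (1 + a')) * (t * t' * r) := by ring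
  rw [key]
  refine (norm_add_le _ _).trans ?_
  refine (add_le_add (norm_add_le _ _) le_rfl).trans ?_
  refine (add_le_add (add_le_add (norm_add_le _ _) le_rfl) le_rfl).trans ?_
  calc ‖(f - F) * (g - G)‖ + ‖F * (g - G)‖ + ‖(f - F) * G‖
        + ‖c * c' * ((t * t' : ℝ) : ℂ) * (e * e') * ((r : ℂ) * (A * A'))‖
      ≤ |C| * |C'| * (t * t' * r) + ‖c‖ * (1 + a) * |C'| * (t * t' * r)
        + |C| * (‖c'‖ * (1 + a')) * (t * t' * r) + ‖c‖ * ‖c'‖ * (a * a') * (t * t' * r) :=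
        add_le_add (add_le_add (add_le_add h3 h4) h5) hlast
    _ = _ := by ring

theorem Asy.mul {f g : ℂ → ℂ} {E E' ω ω' : ℝ} {α α' β β' : ℂ} (hf : Asy f E ω α β)
    (hg : Asy g E' ω' α' β') :
    Asy (fun h => f h * g h) (E + E') (ω + ω') (α + α') (β + β') := by
  obtain ⟨c, hc, C, hC⟩ := hf
  obtain ⟨c', hc', C', hC'⟩ := hg
  refine ⟨c * c', mul_ne_zero hc hc', |C| * |C'| + ‖c‖ * (1 + (‖α‖ + ‖β‖)) * |C'| +
    |C| * (‖c'‖ * (1 + (‖α'‖ + ‖β'‖))) + ‖c‖ * ‖c'‖ * ((‖α‖ + ‖β‖) * (‖α'‖ + ‖β'‖)), ?_⟩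
  intro τ hτ
  have hτ0 : 0 < τ := by linarith
  have hE1 : τ ^ (-E - 1) = τ ^ (-E) * τ ^ (-1 : ℝ) := by
    rw [← Real.rpow_add hτ0]
    congr 1
  have hE1' : τ ^ (-E' - 1) = τ ^ (-E') * τ ^ (-1 : ℝ) := by
    rw [← Real.rpow_add hτ0]
    congr 1
  have hEE : τ ^ (-(E + E')) = τ ^ (-E) * τ ^ (-E') := by
    rw [← Real.rpow_add hτ0]
    congr 1
    ring
  have hEE1 : τ ^ (-(E + E') - 1) = τ ^ (-E) * τ ^ (-E') * τ ^ (-1 : ℝ) := by
    rw [← Real.rpow_add hτ0, ← Real.rpow_add hτ0]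
    congr 1
    ring
  have hhalf : τ ^ (-(1 / 2) : ℝ) * τ ^ (-(1 / 2) : ℝ) = τ ^ (-1 : ℝ) := by
    rw [← Real.rpow_add hτ0]
    norm_num
  have hm : ‖Complex.exp (-(Complex.I * τ / 120))‖ = 1 := by
    apply A1_norm_exp (-(τ / 120))
    push_cast
    ring
  have hp : ‖Complex.exp (Complex.I * τ / 120)‖ = 1 := by
    apply A1_norm_exp (τ / 120)
    push_cast
    ring
  have hA : ∀ x y : ℂ, ‖x * Complex.exp (-(Complex.I * τ / 120)) +
      y * Complex.exp (Complex.I * τ / 120)‖ ≤ ‖x‖ + ‖y‖ := by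
    intro x y
    refine (norm_add_le _ _).trans ?_
    rw [norm_mul, norm_mul, hm, hp, mul_one, mul_one]
  have h1 := hC τ hτ
  have h2 := hC' τ hτ
  rw [hE1] at h1
  rw [hE1'] at h2
  have hexp : Complex.exp (Complex.I * ((ω + ω' : ℝ) : ℂ) * τ)
      = Complex.exp (Complex.I * ω * τ) * Complex.exp (Complex.I * ω' * τ) := by
    rw [← Complex.exp_add]
    congr 1
    push_cast
    ring
  have h3 := A1_aux (A1_norm_exp (ω * τ) (by push_cast; ring))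
    (A1_norm_exp (ω' * τ) (by push_cast; ring)) (hA α β) (hA α' β')
    (Real.rpow_nonneg hτ0.le (-E)) (Real.rpow_nonneg hτ0.le (-E'))
    (Real.rpow_nonneg hτ0.le (-(1 / 2)))
    (Real.rpow_le_one_of_one_le_of_nonpos hτ (by norm_num))
    (Real.rpow_nonneg hτ0.le (-1))
    (Real.rpow_le_one_of_one_le_of_nonpos hτ (by norm_num)) hhalf h1 h2
  rw [hexp, hEE, hEE1]
  have hsum : (α + α') * Complex.exp (-(Complex.I * τ / 120)) +
      (β + β') * Complex.exp (Complex.I * τ / 120)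
      = (α * Complex.exp (-(Complex.I * τ / 120)) + β * Complex.exp (Complex.I * τ / 120)) +
        (α' * Complex.exp (-(Complex.I * τ / 120)) + β' * Complex.exp (Complex.I * τ / 120)) := by
    ring
  rw [hsum]
  exact h3

end Pool.Agent.GPC
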