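import Pool.Agent.GPC.Defs
import Pool.Agent.OHG.All

set_option autoImplicit false

open PowerSeries Finset MeasureTheory

namespace Pool.Agent.GPC

open Pool.Agent.OHG

variable {V : Type} [Fintype V] [DecidableEq V]

open Filter Topology

private theorem a2_norm_exp (a : ℝ) : ‖Complex.exp (Complex.I * a)‖ = 1 := by
  rw [mul_comm]
  exact Complex.norm_exp_ofReal_mul_I a

private theorem a2_norm_exp' (a τ : ℝ) : ‖Complex.exp (Complex.I * a * τ)‖ = 1 := by
  have h := a2_norm_exp (a * τ)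
  push_cast at h
  rwa [← mul_assoc] at h

private theorem a2_scale {f : ℂ → ℂ} {E ω : ℝ} {α β c : ℂ} {C : ℝ}
    (hC : ∀ τ : ℝ, 1 ≤ τ →
      ‖f (Complex.I * τ) - c * ((τ ^ (-E) : ℝ) : ℂ) * Complex.exp (Complex.I * ω * τ) *
        (1 + ((τ ^ (-(1 / 2) : ℝ) : ℝ) : ℂ) * (α * Complex.exp (-(Complex.I * τ / 120)) +
          β * Complex.exp (Complex.I * τ / 120)))‖ ≤ C * τ ^ (-E - 1)) (τ : ℝ) (hτ : 1 ≤ τ) :
    ‖((τ ^ E : ℝ) : ℂ) * f (Complex.I * τ) - c * Complex.exp (Complex.I * ω * τ) *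
        (1 + ((τ ^ (-(1 / 2) : ℝ) : ℝ) : ℂ) * (α * Complex.exp (-(Complex.I * τ / 120)) +
          β * Complex.exp (Complex.I * τ / 120)))‖ ≤ C * τ ^ (-1 : ℝ) := by
  have h0 : 0 < τ := lt_of_lt_of_le one_pos hτ
  have h1 : ((τ ^ E : ℝ) : ℂ) * ((τ ^ (-E) : ℝ) : ℂ) = 1 := by
    rw [← Complex.ofReal_mul, ← Real.rpow_add h0, add_neg_cancel, Real.rpow_zero, Complex.ofReal_one]
  have h2 : τ ^ E * τ ^ (-E - 1) = τ ^ (-1 : ℝ) := by
    rw [← Real.rpow_add h0]
    congr 1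
    ring
  have h3 : ((τ ^ E : ℝ) : ℂ) * f (Complex.I * τ) - c * Complex.exp (Complex.I * ω * τ) *
        (1 + ((τ ^ (-(1 / 2) : ℝ) : ℝ) : ℂ) * (α * Complex.exp (-(Complex.I * τ / 120)) +
          β * Complex.exp (Complex.I * τ / 120))) =
      ((τ ^ E : ℝ) : ℂ) * (f (Complex.I * τ) - c * ((τ ^ (-E) : ℝ) : ℂ) *
        Complex.exp (Complex.I * ω * τ) *
        (1 + ((τ ^ (-(1 / 2) : ℝ) : ℝ) : ℂ) * (α * Complex.exp (-(Complex.I * τ / 120)) +
          β * Complex.exp (Complex.I * τ / 120)))) := by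
    linear_combination (c * Complex.exp (Complex.I * ω * τ) *
        (1 + ((τ ^ (-(1 / 2) : ℝ) : ℝ) : ℂ) * (α * Complex.exp (-(Complex.I * τ / 120)) +
          β * Complex.exp (Complex.I * τ / 120)))) * h1
  rw [h3, norm_mul, Complex.norm_real, Real.norm_of_nonneg (Real.rpow_nonneg h0.le _)]
  calc τ ^ E * _ ≤ τ ^ E * (C * τ ^ (-E - 1)) :=
        mul_le_mul_of_nonneg_left (hC τ hτ) (Real.rpow_nonneg h0.le _)
    _ = C * τ ^ (-1 : ℝ) := by rw [← h2]; ring

private theorem a2_p_le (α β : ℂ) (τ : ℝ) :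
    ‖α * Complex.exp (-(Complex.I * τ / 120)) + β * Complex.exp (Complex.I * τ / 120)‖ ≤
      ‖α‖ + ‖β‖ := by
  have e1 : ‖Complex.exp (-(Complex.I * τ / 120))‖ = 1 := by
    have h := a2_norm_exp (-(τ / 120))
    have h' : Complex.I * ((-(τ / 120) : ℝ) : ℂ) = -(Complex.I * τ / 120) := by
      push_cast
      ring
    rwa [h'] at h
  have e2 : ‖Complex.exp (Complex.I * τ / 120)‖ = 1 := by
    have h := a2_norm_exp (τ / 120)
    have h' : Complex.I * ((τ / 120 : ℝ) : ℂ) = Complex.I * τ / 120 := by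
      push_cast
      ring
    rwa [h'] at h
  refine (norm_add_le _ _).trans ?_
  rw [norm_mul, norm_mul, e1, e2, mul_one, mul_one]

private theorem a2_tendsto {f : ℂ → ℂ} {E ω : ℝ} {α β c : ℂ} {C : ℝ}
    (hC : ∀ τ : ℝ, 1 ≤ τ →
      ‖((τ ^ E : ℝ) : ℂ) * f (Complex.I * τ) - c * Complex.exp (Complex.I * ω * τ) *
        (1 + ((τ ^ (-(1 / 2) : ℝ) : ℝ) : ℂ) * (α * Complex.exp (-(Complex.I * τ / 120)) +
          β * Complex.exp (Complex.I * τ / 120)))‖ ≤ C * τ ^ (-1 : ℝ)) :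
    Tendsto (fun τ : ℝ => ((τ ^ E : ℝ) : ℂ) * f (Complex.I * τ) *
      Complex.exp (-(Complex.I * ω * τ))) atTop (𝓝 c) := by
  rw [tendsto_iff_norm_sub_tendsto_zero]
  have hlim : Tendsto (fun τ : ℝ => C * τ ^ (-1 : ℝ) +
      ‖c‖ * (‖α‖ + ‖β‖) * τ ^ (-(1 / 2) : ℝ)) atTop (𝓝 0) := by
    have h1 : Tendsto (fun τ : ℝ => τ ^ (-1 : ℝ)) atTop (𝓝 0) :=
      tendsto_rpow_neg_atTop one_pos
    have h2 : Tendsto (fun τ : ℝ => τ ^ (-(1 / 2) : ℝ)) atTop (𝓝 0) :=
      tendsto_rpow_neg_atTop (by norm_num)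
    have h3 := (h1.const_mul C).add (h2.const_mul (‖c‖ * (‖α‖ + ‖β‖)))
    simpa using h3
  refine squeeze_zero' (Eventually.of_forall fun _ => norm_nonneg _) ?_ hlim
  filter_upwards [eventually_ge_atTop (1 : ℝ)] with τ hτ
  have h0 : 0 < τ := lt_of_lt_of_le one_pos hτ
  have hE : Complex.exp (Complex.I * ω * τ) * Complex.exp (-(Complex.I * ω * τ)) = 1 := by
    rw [← Complex.exp_add, add_neg_cancel, Complex.exp_zero]
  have hn : ‖Complex.exp (-(Complex.I * ω * τ))‖ = 1 := by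
    rw [Complex.exp_neg, norm_inv, a2_norm_exp', inv_one]
  have e1 : ((τ ^ E : ℝ) : ℂ) * f (Complex.I * τ) * Complex.exp (-(Complex.I * ω * τ)) - c =
      (((τ ^ E : ℝ) : ℂ) * f (Complex.I * τ) - c * Complex.exp (Complex.I * ω * τ) *
        (1 + ((τ ^ (-(1 / 2) : ℝ) : ℝ) : ℂ) * (α * Complex.exp (-(Complex.I * τ / 120)) +
          β * Complex.exp (Complex.I * τ / 120)))) * Complex.exp (-(Complex.I * ω * τ)) +
      c * (((τ ^ (-(1 / 2) : ℝ) : ℝ) : ℂ) * (α * Complex.exp (-(Complex.I * τ / 120)) +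
          β * Complex.exp (Complex.I * τ / 120))) := by
    linear_combination (c * (1 + ((τ ^ (-(1 / 2) : ℝ) : ℝ) : ℂ) *
      (α * Complex.exp (-(Complex.I * τ / 120)) + β * Complex.exp (Complex.I * τ / 120)))) * hE
  rw [e1]
  refine (norm_add_le _ _).trans (add_le_add ?_ ?_)
  · rw [norm_mul, hn, mul_one]
    exact hC τ hτ
  · rw [norm_mul, norm_mul, Complex.norm_real, Real.norm_of_nonneg (Real.rpow_nonneg h0.le _)]
    have h1 := a2_p_le α β τ
    have h2 : 0 ≤ τ ^ (-(1 / 2) : ℝ) := Real.rpow_nonneg h0.le _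
    calc ‖c‖ * (τ ^ (-(1 / 2) : ℝ) * _) ≤ ‖c‖ * (τ ^ (-(1 / 2) : ℝ) * (‖α‖ + ‖β‖)) := by gcongr
      _ = ‖c‖ * (‖α‖ + ‖β‖) * τ ^ (-(1 / 2) : ℝ) := by ring

private theorem a2_exp {δ : ℝ} {L : ℂ}
    (h : Tendsto (fun τ : ℝ => Complex.exp (Complex.I * δ * τ)) atTop (𝓝 L)) : δ = 0 := by
  by_contra hδ
  have h1 : Tendsto (fun τ : ℝ => Complex.exp (Complex.I * δ * ((τ + Real.pi / δ : ℝ) : ℂ)))
      atTop (𝓝 L) := h.comp (tendsto_atTop_add_const_right _ _ tendsto_id)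
  have h2 : (fun τ : ℝ => Complex.exp (Complex.I * δ * ((τ + Real.pi / δ : ℝ) : ℂ))) =
      fun τ : ℝ => -Complex.exp (Complex.I * δ * τ) := by
    funext τ
    have hδ' : (δ : ℂ) ≠ 0 := by exact_mod_cast hδ
    have : Complex.I * δ * ((τ + Real.pi / δ : ℝ) : ℂ) =
        Complex.I * δ * τ + Real.pi * Complex.I := by
      push_cast
      field_simp
    rw [this, Complex.exp_add, Complex.exp_pi_mul_I]
    ring
  rw [h2] at h1
  have h3 : L = -L := tendsto_nhds_unique h1 h.neg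
  have h4 : L = 0 := by
    have h5 : (2 : ℂ) * L = 0 := by linear_combination h3
    simpa using h5
  have h5 : Tendsto (fun τ : ℝ => ‖Complex.exp (Complex.I * δ * τ)‖) atTop (𝓝 ‖L‖) := h.norm
  simp only [a2_norm_exp'] at h5
  have h6 := tendsto_nhds_unique h5 tendsto_const_nhds
  rw [h4, norm_zero] at h6
  exact zero_ne_one h6

private theorem a2_two {a b : ℂ}
    (h : Tendsto (fun τ : ℝ => a * Complex.exp (-(Complex.I * τ / 120)) +
      b * Complex.exp (Complex.I * τ / 120)) atTop (𝓝 0)) : a = 0 ∧ b = 0 := by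
  have h1 : Tendsto (fun τ : ℝ => a + b * Complex.exp (Complex.I * ((1 / 60 : ℝ) : ℂ) * τ))
      atTop (𝓝 0) := by
    rw [tendsto_zero_iff_norm_tendsto_zero] at h ⊢
    have e : (fun τ : ℝ => ‖a + b * Complex.exp (Complex.I * ((1 / 60 : ℝ) : ℂ) * τ)‖) =
        fun τ : ℝ => ‖a * Complex.exp (-(Complex.I * τ / 120)) +
          b * Complex.exp (Complex.I * τ / 120)‖ := by
      funext τ
      have hn : ‖Complex.exp (Complex.I * τ / 120)‖ = 1 := by
        have h := a2_norm_exp (τ / 120)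
        have h' : Complex.I * ((τ / 120 : ℝ) : ℂ) = Complex.I * τ / 120 := by
          push_cast
          ring
        rwa [h'] at h
      have e1 : a + b * Complex.exp (Complex.I * ((1 / 60 : ℝ) : ℂ) * τ) =
          (a * Complex.exp (-(Complex.I * τ / 120)) + b * Complex.exp (Complex.I * τ / 120)) *
            Complex.exp (Complex.I * τ / 120) := by
        have e2 : Complex.exp (-(Complex.I * τ / 120)) * Complex.exp (Complex.I * τ / 120) = 1 := by
          rw [← Complex.exp_add, neg_add_cancel, Complex.exp_zero]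
        have e3 : Complex.exp (Complex.I * τ / 120) * Complex.exp (Complex.I * τ / 120) =
            Complex.exp (Complex.I * ((1 / 60 : ℝ) : ℂ) * τ) := by
          rw [← Complex.exp_add]
          congr 1
          push_cast
          ring
        linear_combination (-a) * e2 - b * e3
      rw [e1, norm_mul, hn, mul_one]
    rw [e]
    exact h
  have h2 : Tendsto (fun τ : ℝ => a + b * Complex.exp (Complex.I * ((1 / 60 : ℝ) : ℂ) *
      ((τ + 60 * Real.pi : ℝ) : ℂ))) atTop (𝓝 0) :=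
    h1.comp (tendsto_atTop_add_const_right _ _ tendsto_id)
  have h3 : (fun τ : ℝ => a + b * Complex.exp (Complex.I * ((1 / 60 : ℝ) : ℂ) *
      ((τ + 60 * Real.pi : ℝ) : ℂ))) =
      fun τ : ℝ => a - b * Complex.exp (Complex.I * ((1 / 60 : ℝ) : ℂ) * τ) := by
    funext τ
    have : Complex.I * ((1 / 60 : ℝ) : ℂ) * ((τ + 60 * Real.pi : ℝ) : ℂ) =
        Complex.I * ((1 / 60 : ℝ) : ℂ) * τ + Real.pi * Complex.I := by
      push_cast
      ring
    rw [this, Complex.exp_add, Complex.exp_pi_mul_I]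
    ring
  rw [h3] at h2
  have h4 : Tendsto (fun _ : ℝ => 2 * a) atTop (𝓝 0) := by
    have h5 := h1.add h2
    rw [add_zero] at h5
    refine h5.congr fun τ => ?_
    ring
  have ha : a = 0 := by
    have h5 := tendsto_nhds_unique h4 tendsto_const_nhds
    have h6 : (2 : ℂ) * a = 0 := h5.symm
    simpa using h6
  refine ⟨ha, ?_⟩
  have h5 : Tendsto (fun τ : ℝ => ‖a + b * Complex.exp (Complex.I * ((1 / 60 : ℝ) : ℂ) * τ)‖)
      atTop (𝓝 0) := by
    rw [← tendsto_zero_iff_norm_tendsto_zero]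
    exact h1
  have h6 : (fun τ : ℝ => ‖a + b * Complex.exp (Complex.I * ((1 / 60 : ℝ) : ℂ) * τ)‖) =
      fun _ : ℝ => ‖b‖ := by
    funext τ
    rw [ha, zero_add, norm_mul, a2_norm_exp', mul_one]
  rw [h6] at h5
  have h7 := tendsto_nhds_unique h5 tendsto_const_nhds
  exact norm_eq_zero.1 h7.symm

private theorem a2_le {f : ℂ → ℂ} {E E' ω ω' : ℝ} {α α' β β' : ℂ} (hf : Asy f E ω α β)
    (hg : Asy f E' ω' α' β') : E' ≤ E := by
  obtain ⟨c, hc, C, hC⟩ := hf
  obtain ⟨c', _, C', hC'⟩ := hg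
  have t1 := (a2_tendsto (a2_scale hC)).norm
  have t2 := (a2_tendsto (a2_scale hC')).norm
  by_contra hlt
  rw [not_le] at hlt
  have t3 : Tendsto (fun τ : ℝ => τ ^ (-(E' - E))) atTop (𝓝 0) :=
    tendsto_rpow_neg_atTop (by linarith)
  have t4 := t3.mul t2
  rw [zero_mul] at t4
  have t5 : Tendsto (fun τ : ℝ => ‖((τ ^ E : ℝ) : ℂ) * f (Complex.I * τ) *
      Complex.exp (-(Complex.I * ω * τ))‖) atTop (𝓝 0) := by
    refine t4.congr' ?_
    filter_upwards [eventually_ge_atTop (1 : ℝ)] with τ hτ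
    have h0 : 0 < τ := lt_of_lt_of_le one_pos hτ
    have hn : ∀ w : ℝ, ‖Complex.exp (-(Complex.I * w * τ))‖ = 1 := by
      intro w
      rw [Complex.exp_neg, norm_inv, a2_norm_exp', inv_one]
    rw [norm_mul, norm_mul, norm_mul, norm_mul, hn, hn, mul_one, mul_one, Complex.norm_real,
      Complex.norm_real, Real.norm_of_nonneg (Real.rpow_nonneg h0.le _),
      Real.norm_of_nonneg (Real.rpow_nonneg h0.le _), ← mul_assoc, ← Real.rpow_add h0]
    congr 2
    ring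
  have t6 := tendsto_nhds_unique t1 t5
  exact hc (norm_eq_zero.1 t6)

theorem Asy.unique {f : ℂ → ℂ} {E E' ω ω' : ℝ} {α α' β β' : ℂ} (hf : Asy f E ω α β)
    (hg : Asy f E' ω' α' β') : E = E' ∧ ω = ω' ∧ α = α' ∧ β = β' := by
  have hE : E = E' := le_antisymm (a2_le hg hf) (a2_le hf hg)
  subst hE
  obtain ⟨c, hc, C, hC⟩ := hf
  obtain ⟨c', hc', C', hC'⟩ := hg
  have s1 := a2_scale hC
  have s2 := a2_scale hC'
  have t1 := a2_tendsto s1
  have t2 := a2_tendsto s2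
  have t3 := t2.div t1 hc
  have hev := t1.eventually_ne hc
  have t4 : Tendsto (fun τ : ℝ => Complex.exp (Complex.I * ((ω - ω' : ℝ) : ℂ) * τ)) atTop
      (𝓝 (c' / c)) := by
    refine t3.congr' ?_
    filter_upwards [hev] with τ hτ
    have hx : ((τ ^ E : ℝ) : ℂ) * f (Complex.I * τ) ≠ 0 := left_ne_zero_of_mul hτ
    change (((τ ^ E : ℝ) : ℂ) * f (Complex.I * τ) * Complex.exp (-(Complex.I * ω' * τ))) /
      (((τ ^ E : ℝ) : ℂ) * f (Complex.I * τ) * Complex.exp (-(Complex.I * ω * τ))) = _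
    rw [mul_div_mul_left _ _ hx, ← Complex.exp_sub]
    congr 1
    push_cast
    ring
  have hω : ω - ω' = 0 := a2_exp t4
  have hω' : ω = ω' := by linarith
  subst hω'
  have hcc : c = c' := tendsto_nhds_unique t1 t2
  subst hcc
  have t5 : Tendsto (fun τ : ℝ => (α - α') * Complex.exp (-(Complex.I * τ / 120)) +
      (β - β') * Complex.exp (Complex.I * τ / 120)) atTop (𝓝 0) := by
    rw [tendsto_zero_iff_norm_tendsto_zero]
    have hlim : Tendsto (fun τ : ℝ => (C + C') / ‖c‖ * τ ^ (-(1 / 2) : ℝ)) atTop (𝓝 0) := by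
      have h2 : Tendsto (fun τ : ℝ => τ ^ (-(1 / 2) : ℝ)) atTop (𝓝 0) :=
        tendsto_rpow_neg_atTop (by norm_num)
      simpa using h2.const_mul ((C + C') / ‖c‖)
    refine squeeze_zero' (Eventually.of_forall fun _ => norm_nonneg _) ?_ hlim
    filter_upwards [eventually_ge_atTop (1 : ℝ)] with τ hτ
    have h0 : 0 < τ := lt_of_lt_of_le one_pos hτ
    have hcn : 0 < ‖c‖ := norm_pos_iff.2 hc
    have hsum := (norm_sub_le _ _).trans (add_le_add (s2 τ hτ) (s1 τ hτ))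
    have e1 : (((τ ^ E : ℝ) : ℂ) * f (Complex.I * τ) - c * Complex.exp (Complex.I * ω * τ) *
        (1 + ((τ ^ (-(1 / 2) : ℝ) : ℝ) : ℂ) * (α' * Complex.exp (-(Complex.I * τ / 120)) +
          β' * Complex.exp (Complex.I * τ / 120)))) -
        (((τ ^ E : ℝ) : ℂ) * f (Complex.I * τ) - c * Complex.exp (Complex.I * ω * τ) *
        (1 + ((τ ^ (-(1 / 2) : ℝ) : ℝ) : ℂ) * (α * Complex.exp (-(Complex.I * τ / 120)) +
          β * Complex.exp (Complex.I * τ / 120)))) =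
        c * Complex.exp (Complex.I * ω * τ) * (((τ ^ (-(1 / 2) : ℝ) : ℝ) : ℂ) *
          ((α - α') * Complex.exp (-(Complex.I * τ / 120)) +
            (β - β') * Complex.exp (Complex.I * τ / 120))) := by
      ring
    rw [e1, norm_mul, norm_mul, norm_mul, a2_norm_exp', mul_one, Complex.norm_real,
      Real.norm_of_nonneg (Real.rpow_nonneg h0.le _)] at hsum
    have e2 : τ ^ (-1 : ℝ) = τ ^ (-(1 / 2) : ℝ) * τ ^ (-(1 / 2) : ℝ) := by
      rw [← Real.rpow_add h0]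
      congr 1
      norm_num
    have hp : 0 < τ ^ (-(1 / 2) : ℝ) := Real.rpow_pos_of_pos h0 _
    rw [e2] at hsum
    rw [div_mul_eq_mul_div, le_div_iff₀ hcn]
    have h3 : τ ^ (-(1 / 2) : ℝ) * (‖(α - α') * Complex.exp (-(Complex.I * τ / 120)) +
            (β - β') * Complex.exp (Complex.I * τ / 120)‖ * ‖c‖) ≤
        τ ^ (-(1 / 2) : ℝ) * ((C + C') * τ ^ (-(1 / 2) : ℝ)) := by
      calc _ = ‖c‖ * (τ ^ (-(1 / 2) : ℝ) * ‖(α - α') * Complex.exp (-(Complex.I * τ / 120)) +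
            (β - β') * Complex.exp (Complex.I * τ / 120)‖) := by ring
        _ ≤ _ := hsum
        _ = _ := by ring
    exact le_of_mul_le_mul_left h3 hp
  obtain ⟨ha, hb⟩ := a2_two t5
  exact ⟨rfl, rfl, sub_eq_zero.1 ha, sub_eq_zero.1 hb⟩

end Pool.Agent.GPC
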