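import Pool.Agent.GPC.Defs
import Pool.Agent.OHG.All

set_option autoImplicit false

open PowerSeries Finset MeasureTheory

namespace Pool.Agent.GPC

open Pool.Agent.OHG

variable {V : Type} [Fintype V] [DecidableEq V]

theorem asy_exp (κ : ℝ) : Asy (fun h => Complex.exp (κ * h)) 0 κ 0 0 := by
  refine ⟨1, one_ne_zero, 0, fun τ hτ => ?_⟩
  have h1 : Complex.exp ((κ : ℂ) * (Complex.I * τ)) = Complex.exp (Complex.I * κ * τ) := by
    congr 1; ring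
  simp [h1]

theorem asy_one : Asy (fun _ => 1) 0 0 0 0 := by
  refine ⟨1, one_ne_zero, 0, fun τ hτ => ?_⟩
  simp

theorem Asy.congr {f g : ℂ → ℂ} {E ω : ℝ} {α β : ℂ} (hf : Asy f E ω α β)
    (h : ∀ τ : ℝ, 1 ≤ τ → f (Complex.I * τ) = g (Complex.I * τ)) : Asy g E ω α β := by
  obtain ⟨c, hc, C, hC⟩ := hf
  refine ⟨c, hc, C, fun τ hτ => ?_⟩
  rw [← h τ hτ]
  exact hC τ hτ

theorem Asy.ne_zero {f : ℂ → ℂ} {E ω : ℝ} {α β : ℂ} (hf : Asy f E ω α β) :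
    ∃ T : ℝ, ∀ τ : ℝ, T ≤ τ → f (Complex.I * τ) ≠ 0 := by
  obtain ⟨c, hc, C, hC⟩ := hf
  have hc0 : 0 < ‖c‖ := norm_pos_iff.2 hc
  set M : ℝ := ‖α‖ + ‖β‖ with hM
  have hM0 : 0 ≤ M := by positivity
  refine ⟨max 1 (max ((4 * M) ^ 2) (4 * |C| / ‖c‖)), fun τ hτ h0 => ?_⟩
  have h1 : 1 ≤ τ := le_trans (le_max_left _ _) hτ
  have h2 : (4 * M) ^ 2 ≤ τ := le_trans (le_trans (le_max_left _ _) (le_max_right _ _)) hτ
  have h3 : 4 * |C| / ‖c‖ ≤ τ := le_trans (le_trans (le_max_right _ _) (le_max_right _ _)) hτ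
  have hτ0 : 0 < τ := by linarith
  have hb := hC τ h1
  rw [h0, zero_sub, norm_neg, norm_mul, norm_mul, norm_mul] at hb
  have he : ‖Complex.exp (Complex.I * ω * τ)‖ = 1 := by
    have : Complex.I * (ω : ℂ) * τ = ((ω * τ : ℝ) : ℂ) * Complex.I := by push_cast; ring
    rw [this, Complex.norm_exp_ofReal_mul_I]
  have he1 : ‖Complex.exp (-(Complex.I * τ / 120))‖ = 1 := by
    have : -(Complex.I * (τ : ℂ) / 120) = ((-(τ / 120) : ℝ) : ℂ) * Complex.I := by push_cast; ring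
    rw [this, Complex.norm_exp_ofReal_mul_I]
  have he2 : ‖Complex.exp (Complex.I * τ / 120)‖ = 1 := by
    have : (Complex.I * (τ : ℂ) / 120) = ((τ / 120 : ℝ) : ℂ) * Complex.I := by push_cast; ring
    rw [this, Complex.norm_exp_ofReal_mul_I]
  have hp : 0 < τ ^ (-E) := Real.rpow_pos_of_pos hτ0 _
  rw [he, mul_one, Complex.norm_real, Real.norm_of_nonneg hp.le,
    show (-E - 1 : ℝ) = -E + (-1) by ring, Real.rpow_add hτ0, Real.rpow_neg_one] at hb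
  set X : ℂ := α * Complex.exp (-(Complex.I * τ / 120)) + β * Complex.exp (Complex.I * τ / 120)
    with hX
  have hXn : ‖X‖ ≤ M := by
    refine le_trans (norm_add_le _ _) ?_
    rw [norm_mul, norm_mul, he1, he2, mul_one, mul_one]
  have hs : τ ^ (-(1 / 2) : ℝ) * M ≤ 1 / 4 := by
    rw [Real.rpow_neg hτ0.le, ← Real.sqrt_eq_rpow]
    have hsq : 4 * M ≤ Real.sqrt τ := Real.le_sqrt_of_sq_le h2
    have hsp : 0 < Real.sqrt τ := Real.sqrt_pos.2 hτ0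
    rw [inv_mul_le_iff₀ hsp]
    linarith
  have hlow : 3 / 4 ≤ ‖1 + ((τ ^ (-(1 / 2) : ℝ) : ℝ) : ℂ) * X‖ := by
    have ha : ‖((τ ^ (-(1 / 2) : ℝ) : ℝ) : ℂ) * X‖ ≤ 1 / 4 := by
      rw [norm_mul, Complex.norm_real, Real.norm_of_nonneg (Real.rpow_nonneg hτ0.le _)]
      exact le_trans (mul_le_mul_of_nonneg_left hXn (Real.rpow_nonneg hτ0.le _)) hs
    have hb' : (1 : ℝ) ≤ ‖1 + ((τ ^ (-(1 / 2) : ℝ) : ℝ) : ℂ) * X‖ +
        ‖((τ ^ (-(1 / 2) : ℝ) : ℝ) : ℂ) * X‖ := by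
      have := norm_sub_le (1 + ((τ ^ (-(1 / 2) : ℝ) : ℝ) : ℂ) * X)
        (((τ ^ (-(1 / 2) : ℝ) : ℝ) : ℂ) * X)
      rwa [add_sub_cancel_right, norm_one] at this
    linarith
  have hkey : ‖c‖ * (3 / 4) ≤ C * τ⁻¹ := by
    have h5 : ‖c‖ * τ ^ (-E) * (3 / 4) ≤ C * (τ ^ (-E) * τ⁻¹) :=
      le_trans (mul_le_mul_of_nonneg_left hlow (by positivity)) hb
    have h6 : τ ^ (-E) * (‖c‖ * (3 / 4)) ≤ τ ^ (-E) * (C * τ⁻¹) := by nlinarith
    exact le_of_mul_le_mul_left h6 hp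
  have h7 : C * τ⁻¹ ≤ ‖c‖ / 4 := by
    have h8 : C * τ⁻¹ ≤ |C| * τ⁻¹ := mul_le_mul_of_nonneg_right (le_abs_self C) (by positivity)
    have h9 : 4 * |C| ≤ τ * ‖c‖ := by rwa [div_le_iff₀ hc0] at h3
    have h10 : |C| * τ⁻¹ ≤ ‖c‖ / 4 := by
      rw [mul_inv_le_iff₀ hτ0]
      linarith
    linarith
  linarith

end Pool.Agent.GPC
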