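import Pool.Agent.GPC.Defs
import Pool.Agent.OHG.All

set_option autoImplicit false

open PowerSeries Finset MeasureTheory

namespace Pool.Agent.GPC

open Pool.Agent.OHG

private theorem b1_lap_apply (D : Data (Fin 1)) (p : MvPolynomial (Fin 1 × Fin 3) ℝ) :
    lap D p = (D.lk 0 0 : ℝ) • ∑ i : Fin 3,
      MvPolynomial.pderiv (0, i) (MvPolynomial.pderiv (0, i) p) := by
  simp [lap, LinearMap.sum_apply, LinearMap.smul_apply]

private theorem b1_pd_nsq (i : Fin 3) :
    MvPolynomial.pderiv ((0 : Fin 1), i) (nsq (0 : Fin 1)) = 2 * MvPolynomial.X (0, i) := by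
  unfold nsq
  rw [map_sum, Finset.sum_eq_single i]
  · rw [Derivation.leibniz_pow]
    simp
  · intro j _ hj
    rw [Derivation.leibniz_pow, MvPolynomial.pderiv_X, Pi.single_apply, if_neg (by simpa using hj)]
    simp
  · simp

private theorem b1_lap_pow (D : Data (Fin 1)) (n : ℕ) :
    lap D (nsq 0 ^ (n + 1)) =
      ((2 * (n + 1) * (2 * (n + 1) + 1) : ℝ) * (D.lk 0 0 : ℝ)) • nsq 0 ^ n := by
  rw [b1_lap_apply]
  have h : ∀ i : Fin 3, MvPolynomial.pderiv ((0 : Fin 1), i) (MvPolynomial.pderiv (0, i)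
      (nsq (0 : Fin 1) ^ (n + 1))) =
      (4 * ((n : MvPolynomial (Fin 1 × Fin 3) ℝ) + 1) * (n : MvPolynomial (Fin 1 × Fin 3) ℝ) *
        nsq 0 ^ (n - 1)) * MvPolynomial.X (0, i) ^ 2 +
        2 * ((n : MvPolynomial (Fin 1 × Fin 3) ℝ) + 1) * nsq 0 ^ n := by
    intro i
    rw [Derivation.leibniz_pow, b1_pd_nsq, map_nsmul, smul_eq_mul, Derivation.leibniz,
      Derivation.leibniz_pow, b1_pd_nsq, Derivation.leibniz]
    simp only [Nat.add_sub_cancel, smul_eq_mul, nsmul_eq_mul, MvPolynomial.pderiv_X_self]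
    have h2 : MvPolynomial.pderiv ((0 : Fin 1), i) (2 : MvPolynomial (Fin 1 × Fin 3) ℝ) = 0 := by
      have := MvPolynomial.pderiv_C (R := ℝ) (a := 2) (i := ((0 : Fin 1), i))
      rwa [map_ofNat] at this
    rw [h2]
    push_cast
    ring
  rw [Finset.sum_congr rfl fun i _ => h i, Finset.sum_add_distrib, ← Finset.mul_sum,
    Finset.sum_const, Finset.card_univ, Fintype.card_fin]
  have h3 : (∑ i : Fin 3, (MvPolynomial.X ((0 : Fin 1), i) : MvPolynomial (Fin 1 × Fin 3) ℝ) ^ 2) =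
      nsq 0 := rfl
  rw [h3]
  have h4 : (n : MvPolynomial (Fin 1 × Fin 3) ℝ) * nsq 0 ^ (n - 1) * nsq 0 =
      (n : MvPolynomial (Fin 1 × Fin 3) ℝ) * nsq 0 ^ n := by
    rcases Nat.eq_zero_or_pos n with rfl | hn
    · simp
    · obtain ⟨m, rfl⟩ := Nat.exists_eq_succ_of_ne_zero hn.ne'
      simp only [Nat.succ_eq_add_one, Nat.add_sub_cancel]
      ring
  simp only [MvPolynomial.smul_eq_C_mul, nsmul_eq_mul, map_mul, map_add, map_ofNat, map_natCast,
    map_one]
  push_cast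
  linear_combination (MvPolynomial.C (D.lk 0 0 : ℝ) * 4 *
    ((n : MvPolynomial (Fin 1 × Fin 3) ℝ) + 1)) * h4

private theorem b1_iter (D : Data (Fin 1)) (n : ℕ) :
    (lap D ^ n) (nsq 0 ^ n) = MvPolynomial.C (((2 * n + 1).factorial : ℝ) * (D.lk 0 0 : ℝ) ^ n) := by
  induction n with
  | zero => simp
  | succ n ih =>
    rw [pow_succ (lap D), Module.End.mul_apply, b1_lap_pow, map_smul, ih,
      MvPolynomial.smul_eq_C_mul, ← map_mul]
    congr 1
    have e : (2 * (n + 1) + 1).factorial =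
        ((2 * n + 1) + 1 + 1) * (((2 * n + 1) + 1) * (2 * n + 1).factorial) := by
      rw [show 2 * (n + 1) + 1 = (2 * n + 1) + 1 + 1 by ring, Nat.factorial_succ,
        Nat.factorial_succ]
    rw [e]
    push_cast
    ring

private theorem b1_moment (D : Data (Fin 1)) (n : ℕ) :
    moment D (fun _ => n) = ((2 * n + 1).factorial : ℝ) / n.factorial * (D.lk 0 0 : ℝ) ^ n := by
  unfold moment
  simp only [Finset.univ_unique, Finset.sum_singleton, Finset.prod_singleton, Fin.default_eq_zero]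
  rw [b1_iter, MvPolynomial.constantCoeff_C]
  ring

private theorem b1_part (D : Data (Fin 1)) (n : ℕ) :
    coeff n (part D) = coeff n (node D 0) *
      (((2 * n + 1).factorial : ℝ) / n.factorial * (D.lk 0 0 : ℝ) ^ n) := by
  unfold part
  rw [coeff_mk]
  have h : (univ : Finset (Fin 1)).piAntidiag n = {fun _ => n} := by
    ext f
    simp only [Finset.mem_piAntidiag, Finset.mem_singleton, Finset.univ_unique,
      Finset.sum_singleton, Fin.default_eq_zero]
    constructor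
    · rintro ⟨h1, _⟩
      funext i
      rw [Subsingleton.elim i 0, h1]
    · rintro rfl
      exact ⟨rfl, fun i _ => Subsingleton.elim _ _⟩
  rw [h, Finset.sum_singleton, b1_moment]
  simp

private theorem b1_sinhc (k : ℕ) : sinhc k = sa (1 / (2 * k : ℝ)) := by
  ext m
  simp only [sinhc, sa, coeff_mk]
  rw [div_pow, one_pow, div_div]

/-- The series of `cosh`. -/
private noncomputable def b1_ca (a : ℝ) : ℝ⟦X⟧ :=
  PowerSeries.mk fun m => a ^ (2 * m) / ((2 * m).factorial : ℝ)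

private noncomputable def b1_E (a : ℝ) : ℝ⟦X⟧ := rescale a (PowerSeries.exp ℝ)

private theorem b1_E_coeff (a : ℝ) (n : ℕ) : coeff n (b1_E a) = a ^ n / (n.factorial : ℝ) := by
  unfold b1_E
  rw [coeff_rescale, coeff_exp]
  simp [div_eq_mul_inv]

private theorem b1_E_mul (a b : ℝ) : b1_E a * b1_E b = b1_E (a + b) :=
  exp_mul_exp_eq_exp_add a b

private noncomputable def b1_ps : ℝ⟦X⟧ →ₐ[ℝ] ℝ⟦X⟧ := expand 2 two_ne_zero

private theorem b1_ps_inj : Function.Injective b1_ps := by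
  intro f g h
  ext m
  have := congrArg (coeff (2 * m)) h
  simpa [b1_ps, coeff_expand_mul] using this

private theorem b1_sh (a : ℝ) :
    C (2 * a) * (X * b1_ps (sa a)) = b1_E a - b1_E (-a) := by
  ext n
  rw [coeff_C_mul, map_sub, b1_E_coeff, b1_E_coeff]
  cases n with
  | zero => simp
  | succ n =>
    rw [coeff_succ_X_mul]
    unfold b1_ps
    rw [coeff_expand]
    split_ifs with h
    · obtain ⟨m, rfl⟩ := h
      rw [Nat.mul_div_cancel_left _ (by norm_num : 0 < 2)]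
      simp only [sa, coeff_mk]
      have : (-a) ^ (2 * m + 1) = -(a ^ (2 * m + 1)) := Odd.neg_pow ⟨m, rfl⟩ a
      rw [this]
      ring
    · have ho : Even (n + 1) := by
        rcases Nat.even_or_odd n with h1 | h1
        · exact absurd h1.two_dvd h
        · exact h1.add_one
      rw [ho.neg_pow]
      simp

private theorem b1_ch (a : ℝ) :
    C 2 * b1_ps (b1_ca a) = b1_E a + b1_E (-a) := by
  ext n
  rw [coeff_C_mul, map_add, b1_E_coeff, b1_E_coeff]
  unfold b1_ps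
  rw [coeff_expand]
  split_ifs with h
  · obtain ⟨m, rfl⟩ := h
    rw [Nat.mul_div_cancel_left _ (by norm_num : 0 < 2)]
    simp only [b1_ca, coeff_mk]
    have : (-a) ^ (2 * m) = a ^ (2 * m) := Even.neg_pow (even_two_mul m) a
    rw [this]
    ring
  · have ho : Odd n := by
      rcases Nat.even_or_odd n with h1 | h1
      · exact absurd h1.two_dvd h
      · exact h1
    rw [ho.neg_pow]
    ring

private theorem b1_E3 {a b c d : ℝ} (h : a + b + c = d) :
    b1_E a * b1_E b * b1_E c = b1_E d := by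
  rw [b1_E_mul, b1_E_mul, h]

private theorem b1_E2 {a b d : ℝ} (h : a + b = d) : b1_E a * b1_E b = b1_E d := by
  rw [b1_E_mul, h]

private theorem b1_key :
    X * (sa (1 / 4) * sa (1 / 6) * sa (1 / 10)) =
      60 * b1_ca (1 / 60) * sa (1 / 2) -
        30 * (C (1 / 30) * sa (1 / 60) + C (11 / 30) * sa (11 / 60) + C (19 / 30) * sa (19 / 60) +
          C (29 / 30) * sa (29 / 60)) := by
  apply b1_ps_inj
  apply mul_left_cancel₀ (X_ne_zero : (X : ℝ⟦X⟧) ≠ 0)
  have hC : ∀ r : ℝ, b1_ps (C r) = C r := fun r => expand_C 2 two_ne_zero r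
  have hX : b1_ps X = X ^ 2 := expand_X 2 two_ne_zero
  simp only [map_mul, map_sub, map_add, hC, hX, map_ofNat]
  have two (a b : ℝ) (h : a * b = 1) : C a * C b = (1 : ℝ⟦X⟧) := by rw [← map_mul, h, map_one]
  have n2 : (C (1 / 2) : ℝ⟦X⟧) * 2 = 1 := by
    rw [← map_ofNat (C (R := ℝ)) 2]; exact two _ _ (by norm_num)
  have n3 : (C (1 / 3) : ℝ⟦X⟧) * 3 = 1 := by
    rw [← map_ofNat (C (R := ℝ)) 3]; exact two _ _ (by norm_num)
  have n5 : (C (1 / 5) : ℝ⟦X⟧) * 5 = 1 := by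
    rw [← map_ofNat (C (R := ℝ)) 5]; exact two _ _ (by norm_num)
  have s4 : X * b1_ps (sa (1 / 4)) = 2 * (b1_E (1 / 4) - b1_E (-(1 / 4))) := by
    have h := b1_sh (1 / 4)
    rw [show (2 * (1 / 4) : ℝ) = 1 / 2 by norm_num] at h
    linear_combination 2 * h - X * b1_ps (sa (1 / 4)) * n2
  have s6 : X * b1_ps (sa (1 / 6)) = 3 * (b1_E (1 / 6) - b1_E (-(1 / 6))) := by
    have h := b1_sh (1 / 6)
    rw [show (2 * (1 / 6) : ℝ) = 1 / 3 by norm_num] at h
    linear_combination 3 * h - X * b1_ps (sa (1 / 6)) * n3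
  have s10 : X * b1_ps (sa (1 / 10)) = 5 * (b1_E (1 / 10) - b1_E (-(1 / 10))) := by
    have h := b1_sh (1 / 10)
    rw [show (2 * (1 / 10) : ℝ) = 1 / 5 by norm_num] at h
    linear_combination 5 * h - X * b1_ps (sa (1 / 10)) * n5
  have s2 : X * b1_ps (sa (1 / 2)) = b1_E (1 / 2) - b1_E (-(1 / 2)) := by
    have h := b1_sh (1 / 2)
    rw [show (2 * (1 / 2) : ℝ) = 1 by norm_num, map_one, one_mul] at h
    exact h
  have c1 : 2 * b1_ps (b1_ca (1 / 60)) = b1_E (1 / 60) + b1_E (-(1 / 60)) := by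
    have h := b1_ch (1 / 60)
    rwa [map_ofNat] at h
  have t1 : C (1 / 30) * (X * b1_ps (sa (1 / 60))) = b1_E (1 / 60) - b1_E (-(1 / 60)) := by
    have h := b1_sh (1 / 60)
    rwa [show (2 * (1 / 60) : ℝ) = 1 / 30 by norm_num] at h
  have t11 : C (11 / 30) * (X * b1_ps (sa (11 / 60))) = b1_E (11 / 60) - b1_E (-(11 / 60)) := by
    have h := b1_sh (11 / 60)
    rwa [show (2 * (11 / 60) : ℝ) = 11 / 30 by norm_num] at h
  have t19 : C (19 / 30) * (X * b1_ps (sa (19 / 60))) = b1_E (19 / 60) - b1_E (-(19 / 60)) := by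
    have h := b1_sh (19 / 60)
    rwa [show (2 * (19 / 60) : ℝ) = 19 / 30 by norm_num] at h
  have t29 : C (29 / 30) * (X * b1_ps (sa (29 / 60))) = b1_E (29 / 60) - b1_E (-(29 / 60)) := by
    have h := b1_sh (29 / 60)
    rwa [show (2 * (29 / 60) : ℝ) = 29 / 30 by norm_num] at h
  have e : (b1_E (1 / 4) - b1_E (-(1 / 4))) * (b1_E (1 / 6) - b1_E (-(1 / 6))) *
      (b1_E (1 / 10) - b1_E (-(1 / 10))) = (b1_E (1 / 60) + b1_E (-(1 / 60))) *
        (b1_E (1 / 2) - b1_E (-(1 / 2))) - ((b1_E (1 / 60) - b1_E (-(1 / 60))) +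
        (b1_E (11 / 60) - b1_E (-(11 / 60))) + (b1_E (19 / 60) - b1_E (-(19 / 60))) +
        (b1_E (29 / 60) - b1_E (-(29 / 60)))) := by
    have a1 : b1_E (1 / 4) * b1_E (1 / 6) * b1_E (1 / 10) = b1_E (31 / 60) := b1_E3 (by norm_num)
    have a2 : b1_E (1 / 4) * b1_E (1 / 6) * b1_E (-(1 / 10)) = b1_E (19 / 60) :=
      b1_E3 (by norm_num)
    have a3 : b1_E (1 / 4) * b1_E (-(1 / 6)) * b1_E (1 / 10) = b1_E (11 / 60) :=
      b1_E3 (by norm_num)
    have a4 : b1_E (1 / 4) * b1_E (-(1 / 6)) * b1_E (-(1 / 10)) = b1_E (-(1 / 60)) :=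
      b1_E3 (by norm_num)
    have a5 : b1_E (-(1 / 4)) * b1_E (1 / 6) * b1_E (1 / 10) = b1_E (1 / 60) :=
      b1_E3 (by norm_num)
    have a6 : b1_E (-(1 / 4)) * b1_E (1 / 6) * b1_E (-(1 / 10)) = b1_E (-(11 / 60)) :=
      b1_E3 (by norm_num)
    have a7 : b1_E (-(1 / 4)) * b1_E (-(1 / 6)) * b1_E (1 / 10) = b1_E (-(19 / 60)) :=
      b1_E3 (by norm_num)
    have a8 : b1_E (-(1 / 4)) * b1_E (-(1 / 6)) * b1_E (-(1 / 10)) = b1_E (-(31 / 60)) :=
      b1_E3 (by norm_num)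
    have d1 : b1_E (1 / 60) * b1_E (1 / 2) = b1_E (31 / 60) := b1_E2 (by norm_num)
    have d2 : b1_E (1 / 60) * b1_E (-(1 / 2)) = b1_E (-(29 / 60)) := b1_E2 (by norm_num)
    have d3 : b1_E (-(1 / 60)) * b1_E (1 / 2) = b1_E (29 / 60) := b1_E2 (by norm_num)
    have d4 : b1_E (-(1 / 60)) * b1_E (-(1 / 2)) = b1_E (-(31 / 60)) := b1_E2 (by norm_num)
    linear_combination a1 - a2 - a3 + a4 - a5 + a6 + a7 - a8 - d1 + d2 - d3 + d4
  calc X * (X ^ 2 * (b1_ps (sa (1 / 4)) * b1_ps (sa (1 / 6)) * b1_ps (sa (1 / 10))))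
      = (X * b1_ps (sa (1 / 4))) * (X * b1_ps (sa (1 / 6))) * (X * b1_ps (sa (1 / 10))) := by ring
    _ = 30 * ((2 * b1_ps (b1_ca (1 / 60))) * (X * b1_ps (sa (1 / 2))) -
        (C (1 / 30) * (X * b1_ps (sa (1 / 60))) + C (11 / 30) * (X * b1_ps (sa (11 / 60))) +
        C (19 / 30) * (X * b1_ps (sa (19 / 60))) + C (29 / 30) * (X * b1_ps (sa (29 / 60))))) := by
        rw [s4, s6, s10, s2, c1, t1, t11, t19, t29]
        linear_combination 30 * e
    _ = _ := by ring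

private theorem b1_cc : constantCoeff (sa (1 / 2)) ≠ 0 := by
  rw [← coeff_zero_eq_constantCoeff_apply, sa, coeff_mk]
  simp

private theorem b1_node {D : Data (Fin 1)} (hl : D.leaf 0 = {2, 3, 5}) :
    X * node D 0 = 30 * (2 * b1_ca (1 / 60) - rr) := by
  have hn : D.nbr 0 = ∅ := by
    ext w
    rw [mem_nbr, Subsingleton.elim w 0]
    simp
  have hv : D.val 0 = 3 := by
    rw [Data.val, hn, hl]
    rfl
  have h1 : sinhc 1 = sa (1 / 2) := by rw [b1_sinhc]; norm_num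
  have h2 : sinhc 2 = sa (1 / 4) := by rw [b1_sinhc]; norm_num
  have h3 : sinhc 3 = sa (1 / 6) := by rw [b1_sinhc]; norm_num
  have h5 : sinhc 5 = sa (1 / 10) := by rw [b1_sinhc]; norm_num
  have hnode : node D 0 = (sa (1 / 4) * sa (1 / 6) * sa (1 / 10)) * (sa (1 / 2))⁻¹ := by
    rw [node, hv, hl, h1, Finset.prod_insert (by decide), Finset.prod_insert (by decide),
      Finset.prod_singleton, h2, h3, h5, pow_one]
    simp only [mul_assoc]
  have hi : sa (1 / 2) * (sa (1 / 2))⁻¹ = 1 := PowerSeries.mul_inv_cancel _ b1_cc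
  rw [hnode, ← mul_assoc, b1_key, rr]
  simp only [PowerSeries.smul_eq_C_mul]
  linear_combination 60 * b1_ca (1 / 60) * hi

private theorem b1_coeff (n : ℕ) : coeff n (30 * (2 * b1_ca (1 / 60) - rr)) =
    30 * (2 * coeff n (b1_ca (1 / 60)) - coeff n rr) := by
  rw [← map_ofNat (C (R := ℝ)) 30, ← map_ofNat (C (R := ℝ)) 2, coeff_C_mul, map_sub, coeff_C_mul]

theorem part_bad {P : Prime} (hP : Bad P) :
    X * part P.D = (P.D.sgn 0 : ℝ) • (rescale ((P.D.sgn 0 : ℝ) / 120) (PowerSeries.exp ℝ) -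
      (1 / 2 : ℝ) • PowerSeries.mk fun n => ((2 * n).factorial : ℝ) / n.factorial *
        (30 * (P.D.sgn 0 : ℝ)) ^ n * coeff n rr) := by
  obtain ⟨m, D, hD⟩ := P
  obtain ⟨hm, hl⟩ := hP
  simp only at hm hl ⊢
  subst hm
  have hs : (D.sgn 0 : ℝ) ^ 2 = 1 := by
    rcases hD.sign 0 with h | h <;> rw [h] <;> norm_num
  have hn : D.nbr 0 = ∅ := by
    ext w
    rw [mem_nbr, Subsingleton.elim (α := Fin 1) w 0]
    simp
  have hlk : (D.lk 0 0 : ℝ) = 30 * (D.sgn 0 : ℝ) := by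
    have h0 : D.leaf 0 = {2, 3, 5} := hl
    rw [lk_self hD, hn, h0, Finset.prod_empty, Finset.prod_insert (by decide),
      Finset.prod_insert (by decide), Finset.prod_singleton]
    push_cast
    ring
  have hk := b1_node hl
  change X * part D = (D.sgn 0 : ℝ) • (rescale ((D.sgn 0 : ℝ) / 120) (PowerSeries.exp ℝ) -
      (1 / 2 : ℝ) • PowerSeries.mk fun n => ((2 * n).factorial : ℝ) / n.factorial *
        (30 * (D.sgn 0 : ℝ)) ^ n * coeff n rr)
  generalize (D.sgn 0 : ℝ) = ε at hs hlk ⊢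
  ext n
  rw [coeff_smul, map_sub, coeff_smul, coeff_rescale, coeff_exp, coeff_mk]
  cases n with
  | zero =>
    have h0 := congrArg (coeff 0) hk
    rw [b1_coeff, coeff_zero_X_mul, b1_ca, coeff_mk] at h0
    rw [coeff_zero_X_mul]
    have h1 : coeff 0 rr = 2 := by
      simp only [mul_zero, pow_zero, Nat.factorial_zero, Nat.cast_one, div_one, mul_one] at h0
      linarith
    rw [h1]
    simp
  | succ n =>
    have h1 := congrArg (coeff (n + 1)) hk
    rw [b1_coeff, coeff_succ_X_mul, b1_ca, coeff_mk] at h1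
    have h2 : (coeff n) (node D 0) = 30 * (2 * ((1 / 60) ^ (2 * (n + 1)) /
      ((2 * (n + 1)).factorial : ℝ)) - (coeff (n + 1)) rr) := h1
    rw [coeff_succ_X_mul, b1_part, hlk, h2]
    have f1 : ((2 * (n + 1)).factorial : ℝ) = (2 * (n + 1)) * ((2 * n + 1).factorial : ℝ) := by
      rw [show 2 * (n + 1) = (2 * n + 1) + 1 by ring, Nat.factorial_succ]
      push_cast
      ring
    have f2 : ((n + 1).factorial : ℝ) = (n + 1) * (n.factorial : ℝ) := by
      rw [Nat.factorial_succ]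
      push_cast
      ring
    have p1 : ((2 * n + 1).factorial : ℝ) ≠ 0 := Nat.cast_ne_zero.mpr (Nat.factorial_ne_zero _)
    have p2 : (n.factorial : ℝ) ≠ 0 := Nat.cast_ne_zero.mpr (Nat.factorial_ne_zero _)
    have p3 : (n + 1 : ℝ) ≠ 0 := by positivity
    have q1 : ε * (ε / 120) ^ (n + 1) = ε ^ n * (1 / 120) ^ (n + 1) := by
      rw [div_pow, pow_succ ε n]
      have : ε * (ε ^ n * ε / 120 ^ (n + 1)) = ε ^ 2 * (ε ^ n / 120 ^ (n + 1)) := by ring
      rw [this, hs, one_div, inv_pow]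
      ring
    have q2 : ε * (30 * ε) ^ (n + 1) = ε ^ n * 30 ^ (n + 1) := by
      rw [mul_pow, pow_succ ε n]
      have : ε * (30 ^ (n + 1) * (ε ^ n * ε)) = ε ^ 2 * (ε ^ n * 30 ^ (n + 1)) := by ring
      rw [this, hs]
      ring
    have q3 : (30 : ℝ) ^ (n + 1) * (1 / 60) ^ (2 * (n + 1)) = (1 / 120) ^ (n + 1) := by
      rw [pow_mul, ← mul_pow]
      norm_num
    rw [f1, f2]
    have f3 : (algebraMap ℚ ℝ) (1 / ((n + 1).factorial : ℚ)) = 1 / ((n + 1) * (n.factorial : ℝ)) := by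
      rw [map_div₀, map_one, map_natCast, f2]
    rw [f3]
    simp only [smul_eq_mul]
    have g : ε * ((ε / 120) ^ (n + 1) * (1 / ((n + 1) * (n.factorial : ℝ))) - 1 / 2 *
        ((2 * (n + 1)) * ((2 * n + 1).factorial : ℝ) / ((n + 1) * (n.factorial : ℝ)) *
          (30 * ε) ^ (n + 1) * (coeff (n + 1)) rr)) =
        ε ^ n * ((1 / 120) ^ (n + 1) * (1 / ((n + 1) * (n.factorial : ℝ))) - 1 / 2 *
        ((2 * (n + 1)) * ((2 * n + 1).factorial : ℝ) / ((n + 1) * (n.factorial : ℝ)) *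
          30 ^ (n + 1) * (coeff (n + 1)) rr)) := by
      linear_combination (1 / ((n + 1) * (n.factorial : ℝ))) * q1 - 1 / 2 *
        ((2 * (n + 1)) * ((2 * n + 1).factorial : ℝ) / ((n + 1) * (n.factorial : ℝ)) *
          (coeff (n + 1)) rr) * q2
    rw [g, ← q3]
    field_simp
    ring

end Pool.Agent.GPC
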