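import Pool.Agent.GPC.Defs
import Pool.Agent.OHG.All

set_option autoImplicit false

open PowerSeries Finset MeasureTheory

namespace Pool.Agent.GPC

open Pool.Agent.OHG

variable {V : Type} [Fintype V] [DecidableEq V]

private theorem F0_restrict : (volume : Measure (V → ℝ)).restrict {u : V → ℝ | ∀ v, 0 < u v} =
    Measure.pi fun _ : V => (volume : Measure ℝ).restrict (Set.Ioi 0) := by
  have hset : {u : V → ℝ | ∀ v, 0 < u v} = Set.univ.pi fun _ : V => Set.Ioi (0 : ℝ) := by
    ext u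
    simp [Set.mem_pi]
  rw [hset, volume_pi, Measure.restrict_pi_pi]

theorem pos_prod (g : V → ℝ → ℝ) :
    ∫ u in {u : V → ℝ | ∀ v, 0 < u v}, ∏ v, g v (u v) = ∏ v, ∫ x in Set.Ioi (0 : ℝ), g v x := by
  rw [F0_restrict, integral_fintype_prod_eq_prod]

private theorem F0_set_meas : MeasurableSet {u : V → ℝ | ∀ v, 0 < u v} := by
  have hset : {u : V → ℝ | ∀ v, 0 < u v} = ⋂ v, {u : V → ℝ | 0 < u v} := by
    ext u
    simp
  rw [hset]
  exact MeasurableSet.iInter fun v => measurableSet_lt measurable_const (measurable_pi_apply v)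

/-- `y ^ k ≤ k! a ^ (-k) exp (a y)` -/
private theorem F0_pow_le {a y : ℝ} (ha : 0 < a) (hy : 0 ≤ y) (k : ℕ) :
    y ^ k ≤ (k.factorial : ℝ) * (a⁻¹) ^ k * Real.exp (a * y) := by
  have h1 := Real.pow_div_factorial_le_exp (a * y) (mul_nonneg ha.le hy) k
  rw [div_le_iff₀ (by positivity), mul_pow] at h1
  calc y ^ k = (a⁻¹) ^ k * (a ^ k * y ^ k) := by
        rw [inv_pow, ← mul_assoc, inv_mul_cancel₀ (pow_ne_zero _ ha.ne'), one_mul]
    _ ≤ (a⁻¹) ^ k * (Real.exp (a * y) * (k.factorial : ℝ)) :=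
        mul_le_mul_of_nonneg_left h1 (by positivity)
    _ = (k.factorial : ℝ) * (a⁻¹) ^ k * Real.exp (a * y) := by ring

/-- one-dimensional integrability -/
private theorem F0_one {θ : ℝ → ℝ} {φ : ℝ⟦X⟧} (hθ : Theta θ φ) (n : ℕ) (q : ℝ) :
    IntegrableOn (fun x : ℝ => |θ x| * (1 + x) ^ n * x ^ (-q)) (Set.Ioi 0) := by
  obtain ⟨C, c, hc, hb⟩ := hθ.bound
  obtain ⟨m, hm⟩ := exists_nat_ge |q|
  have hC : 0 ≤ C := by
    have := hb 1 one_pos
    have h2 : 0 ≤ C * Real.exp (-c * 1 - c / Real.sqrt 1) := (abs_nonneg _).trans this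
    exact nonneg_of_mul_nonneg_left h2 (Real.exp_pos _)
  set A : ℝ := (n.factorial : ℝ) * ((c / 4)⁻¹) ^ n * Real.exp (c / 4) with hA
  set B1 : ℝ := (m.factorial : ℝ) * ((c / 4)⁻¹) ^ m with hB1
  set B2 : ℝ := ((2 * m).factorial : ℝ) * (c⁻¹) ^ (2 * m) with hB2
  have hA0 : 0 ≤ A := by rw [hA]; positivity
  have hB10 : 0 ≤ B1 := by rw [hB1]; positivity
  have hB20 : 0 ≤ B2 := by rw [hB2]; positivity
  have hdom : IntegrableOn (fun x : ℝ => C * A * (B1 + B2) * Real.exp (-(c / 4) * x))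
      (Set.Ioi 0) := (exp_neg_integrableOn_Ioi 0 (by positivity : 0 < c / 4)).const_mul _
  refine hdom.mono' ?_ ?_
  · apply Measurable.aestronglyMeasurable
    exact ((hθ.cont.measurable.norm).mul ((measurable_const.add measurable_id).pow_const n)).mul
      (measurable_id.pow_const (-q))
  · refine (ae_restrict_iff' measurableSet_Ioi).2 (Filter.Eventually.of_forall fun x hx => ?_)
    have hx0 : (0 : ℝ) < x := hx
    rw [Real.norm_eq_abs, abs_of_nonneg (by positivity)]
    have h1 : |θ x| ≤ C * Real.exp (-c * x - c / Real.sqrt x) := hb x hx0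
    have h2 : (1 + x) ^ n ≤ A * Real.exp (c / 4 * x) := by
      have := F0_pow_le (a := c / 4) (y := 1 + x) (by positivity) (by positivity) n
      rw [mul_add, mul_one, Real.exp_add] at this
      rw [hA]
      linarith
    have hs : 0 < Real.sqrt x := Real.sqrt_pos.2 hx0
    have h3 : x ^ (-q) ≤ x ^ m + (x⁻¹) ^ m := by
      rcases le_total 1 x with h | h
      · have : x ^ (-q) ≤ x ^ (m : ℝ) := by
          apply Real.rpow_le_rpow_of_exponent_le h
          exact ((neg_le_abs q).trans hm)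
        rw [Real.rpow_natCast] at this
        have h0 : 0 ≤ (x⁻¹) ^ m := by positivity
        linarith
      · have : x ^ (-q) ≤ x ^ (-(m : ℝ)) := by
          apply Real.rpow_le_rpow_of_exponent_ge hx0 h
          have := (le_abs_self q).trans hm
          linarith
        have e : x ^ (-(m : ℝ)) = (x⁻¹) ^ m := by
          rw [Real.rpow_neg hx0.le, Real.rpow_natCast, inv_pow]
        rw [e] at this
        have h0 : 0 ≤ x ^ m := by positivity
        linarith
    have h4 : x ^ m ≤ B1 * Real.exp (c / 4 * x) :=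
      F0_pow_le (a := c / 4) (by positivity) hx0.le m
    have h5 : (x⁻¹) ^ m ≤ B2 * Real.exp (c / Real.sqrt x) := by
      have := F0_pow_le (a := c) (y := 1 / Real.sqrt x) hc (by positivity) (2 * m)
      have e : (1 / Real.sqrt x) ^ (2 * m) = (x⁻¹) ^ m := by
        rw [pow_mul, div_pow, one_pow, Real.sq_sqrt hx0.le, one_div]
      rw [e, mul_one_div] at this
      exact this
    have h6 : 1 ≤ Real.exp (c / Real.sqrt x) := Real.one_le_exp (by positivity)
    have h7 : 1 ≤ Real.exp (c / 4 * x) := Real.one_le_exp (by positivity)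
    have h8 : x ^ (-q) ≤ (B1 + B2) * (Real.exp (c / 4 * x) * Real.exp (c / Real.sqrt x)) := by
      have h9 : B1 * Real.exp (c / 4 * x) ≤
          B1 * (Real.exp (c / 4 * x) * Real.exp (c / Real.sqrt x)) :=
        mul_le_mul_of_nonneg_left (le_mul_of_one_le_right (Real.exp_pos _).le h6) hB10
      have h10 : B2 * Real.exp (c / Real.sqrt x) ≤
          B2 * (Real.exp (c / 4 * x) * Real.exp (c / Real.sqrt x)) :=
        mul_le_mul_of_nonneg_left (le_mul_of_one_le_left (Real.exp_pos _).le h7) hB20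
      rw [add_mul]
      linarith
    have hx1 : 0 ≤ (1 + x) ^ n := by positivity
    have hx2 : 0 ≤ x ^ (-q) := by positivity
    calc |θ x| * (1 + x) ^ n * x ^ (-q)
        ≤ (C * Real.exp (-c * x - c / Real.sqrt x)) * (A * Real.exp (c / 4 * x)) *
          ((B1 + B2) * (Real.exp (c / 4 * x) * Real.exp (c / Real.sqrt x))) :=
          mul_le_mul (mul_le_mul h1 h2 hx1 (by positivity)) h8 hx2 (by positivity)
      _ = C * A * (B1 + B2) * (Real.exp (-c * x - c / Real.sqrt x) * Real.exp (c / 4 * x) *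
            (Real.exp (c / 4 * x) * Real.exp (c / Real.sqrt x))) := by ring
      _ = C * A * (B1 + B2) * Real.exp (-(c / 2) * x) := by
          rw [← Real.exp_add, ← Real.exp_add, ← Real.exp_add]
          congr 2
          ring
      _ ≤ C * A * (B1 + B2) * Real.exp (-(c / 4) * x) := by
          apply mul_le_mul_of_nonneg_left _ (by positivity)
          apply Real.exp_le_exp.2
          nlinarith

private theorem F0_one_add (s : Finset V) {u : V → ℝ} (hu : ∀ v, 0 ≤ u v) :
    1 + ∑ v ∈ s, u v ≤ ∏ v ∈ s, (1 + u v) := by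
  induction s using Finset.induction_on with
  | empty => simp
  | insert a s ha ih =>
    rw [Finset.sum_insert ha, Finset.prod_insert ha]
    have h1 : 0 ≤ ∑ v ∈ s, u v := Finset.sum_nonneg fun v _ => hu v
    have h2 := mul_le_mul_of_nonneg_left ih (by have := hu a; linarith : 0 ≤ 1 + u a)
    nlinarith [mul_nonneg (hu a) h1]

theorem theta_integrable {θ : V → ℝ → ℝ} {φ : V → ℝ⟦X⟧} (hθ : ∀ v, Theta (θ v) (φ v)) (n : ℕ)
    (q : ℝ) : IntegrableOn (fun u : V → ℝ => (∏ v, |θ v (u v)|) * (1 + ∑ v, u v) ^ n *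
      ∏ v, (u v) ^ (-q)) {u : V → ℝ | ∀ v, 0 < u v} := by
  have hdom : IntegrableOn (fun u : V → ℝ => ∏ v, (|θ v (u v)| * (1 + u v) ^ n * (u v) ^ (-q)))
      {u : V → ℝ | ∀ v, 0 < u v} := by
    unfold IntegrableOn
    rw [F0_restrict]
    exact Integrable.fintype_prod (f := fun v x => |θ v x| * (1 + x) ^ n * x ^ (-q))
      fun v => F0_one (hθ v) n q
  refine hdom.mono' ?_ ?_
  · apply Measurable.aestronglyMeasurable
    apply Measurable.mul
    · apply Measurable.mul
      · apply Finset.measurable_prod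
        intro v _
        exact ((hθ v).cont.measurable.comp (measurable_pi_apply v)).norm
      · apply Measurable.pow_const
        apply measurable_const.add
        apply Finset.measurable_sum
        intro v _
        exact measurable_pi_apply v
    · apply Finset.measurable_prod
      intro v _
      exact (measurable_pi_apply v).pow_const (-q)
  · refine (ae_restrict_iff' F0_set_meas).2 (Filter.Eventually.of_forall fun u hu => ?_)
    have hu0 : ∀ v, 0 < u v := hu
    have hsum : 0 ≤ ∑ v, u v := Finset.sum_nonneg fun v _ => (hu0 v).le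
    have hp1 : 0 ≤ ∏ v, |θ v (u v)| := Finset.prod_nonneg fun v _ => abs_nonneg _
    have hp2 : 0 ≤ ∏ v, (u v) ^ (-q) :=
      Finset.prod_nonneg fun v _ => Real.rpow_nonneg (hu0 v).le _
    rw [Real.norm_eq_abs, abs_of_nonneg (by positivity)]
    have h1 : 1 + ∑ v, u v ≤ ∏ v, (1 + u v) :=
      F0_one_add Finset.univ (fun v => (hu0 v).le)
    have h2 : (1 + ∑ v, u v) ^ n ≤ ∏ v, (1 + u v) ^ n := by
      rw [Finset.prod_pow]
      exact pow_le_pow_left₀ (by positivity) h1 n
    calc (∏ v, |θ v (u v)|) * (1 + ∑ v, u v) ^ n * ∏ v, (u v) ^ (-q)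
        ≤ (∏ v, |θ v (u v)|) * (∏ v, (1 + u v) ^ n) * ∏ v, (u v) ^ (-q) :=
          mul_le_mul_of_nonneg_right (mul_le_mul_of_nonneg_left h2 hp1) hp2
      _ = ∏ v, (|θ v (u v)| * (1 + u v) ^ n * (u v) ^ (-q)) := by
          rw [Finset.prod_mul_distrib, Finset.prod_mul_distrib]

private theorem F0_exp {θ : ℝ → ℝ} {φ : ℝ⟦X⟧} (hθ : Theta θ φ) {C c a : ℝ}
    (hb : ∀ u : ℝ, 0 < u → |θ u| ≤ C * Real.exp (-c * u - c / Real.sqrt u)) (hc : 0 < c)
    (ha : a ≤ c / 2) : IntegrableOn (fun x : ℝ => |θ x| * Real.exp (a * x)) (Set.Ioi 0) := by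
  have hC : 0 ≤ C := by
    have := hb 1 one_pos
    have h2 : 0 ≤ C * Real.exp (-c * 1 - c / Real.sqrt 1) := (abs_nonneg _).trans this
    exact nonneg_of_mul_nonneg_left h2 (Real.exp_pos _)
  have hdom : IntegrableOn (fun x : ℝ => C * Real.exp (-(c / 2) * x))
      (Set.Ioi 0) := (exp_neg_integrableOn_Ioi 0 (by positivity : 0 < c / 2)).const_mul _
  refine hdom.mono' ?_ ?_
  · apply Measurable.aestronglyMeasurable
    exact (hθ.cont.measurable.norm).mul (Real.measurable_exp.comp (measurable_const.mul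
      measurable_id))
  · refine (ae_restrict_iff' measurableSet_Ioi).2 (Filter.Eventually.of_forall fun x hx => ?_)
    have hx0 : (0 : ℝ) < x := hx
    rw [Real.norm_eq_abs, abs_of_nonneg (by positivity)]
    calc |θ x| * Real.exp (a * x)
        ≤ (C * Real.exp (-c * x - c / Real.sqrt x)) * Real.exp (a * x) :=
          mul_le_mul_of_nonneg_right (hb x hx0) (Real.exp_pos _).le
      _ = C * Real.exp (-c * x - c / Real.sqrt x + a * x) := by
          rw [mul_assoc, ← Real.exp_add]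
      _ ≤ C * Real.exp (-(c / 2) * x) := by
          apply mul_le_mul_of_nonneg_left _ hC
          apply Real.exp_le_exp.2
          have h1 : 0 ≤ c / Real.sqrt x := by positivity
          nlinarith

theorem theta_factorial {θ : V → ℝ → ℝ} {φ : V → ℝ⟦X⟧} (hθ : ∀ v, Theta (θ v) (φ v)) :
    ∃ C R : ℝ, ∀ n : ℕ, ∫ u in {u : V → ℝ | ∀ v, 0 < u v}, (∏ v, |θ v (u v)|) * (∑ v, u v) ^ n ≤
      C * R ^ n * n.factorial := by
  choose Cc cc hcc hbb using fun v => (hθ v).bound
  obtain ⟨a, ha, hav⟩ : ∃ a : ℝ, 0 < a ∧ ∀ v, a ≤ cc v / 2 := by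
    have h1 : ∀ᶠ a in nhdsWithin (0 : ℝ) (Set.Ioi 0), ∀ v, a ≤ cc v / 2 := by
      rw [Filter.eventually_all]
      intro v
      have : Set.Iic (cc v / 2) ∈ nhds (0 : ℝ) := Iic_mem_nhds (by have := hcc v; positivity)
      exact mem_nhdsWithin_of_mem_nhds this
    have h2 : ∀ᶠ a in nhdsWithin (0 : ℝ) (Set.Ioi 0), 0 < a := self_mem_nhdsWithin
    obtain ⟨a, h3, h4⟩ := (h1.and h2).exists
    exact ⟨a, h4, h3⟩
  set K : ℝ := ∫ u in {u : V → ℝ | ∀ v, 0 < u v}, ∏ v, (|θ v (u v)| * Real.exp (a * u v)) with hK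
  have hint : IntegrableOn (fun u : V → ℝ => ∏ v, (|θ v (u v)| * Real.exp (a * u v)))
      {u : V → ℝ | ∀ v, 0 < u v} := by
    unfold IntegrableOn
    rw [F0_restrict]
    exact Integrable.fintype_prod (f := fun v x => |θ v x| * Real.exp (a * x))
      fun v => F0_exp (hθ v) (hbb v) (hcc v) (hav v)
  refine ⟨K, a⁻¹, fun n => ?_⟩
  have h1 : ∫ u in {u : V → ℝ | ∀ v, 0 < u v}, (∏ v, |θ v (u v)|) * (∑ v, u v) ^ n ≤
      ∫ u in {u : V → ℝ | ∀ v, 0 < u v}, ((n.factorial : ℝ) * (a⁻¹) ^ n) *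
        ∏ v, (|θ v (u v)| * Real.exp (a * u v)) := by
    apply integral_mono_of_nonneg
    · refine (ae_restrict_iff' F0_set_meas).2 (Filter.Eventually.of_forall fun u hu => ?_)
      have hu0 : ∀ v, 0 < u v := hu
      have hsum : 0 ≤ ∑ v, u v := Finset.sum_nonneg fun v _ => (hu0 v).le
      have hp1 : 0 ≤ ∏ v, |θ v (u v)| := Finset.prod_nonneg fun v _ => abs_nonneg _
      show 0 ≤ (∏ v, |θ v (u v)|) * (∑ v, u v) ^ n
      positivity
    · exact hint.const_mul _
    · refine (ae_restrict_iff' F0_set_meas).2 (Filter.Eventually.of_forall fun u hu => ?_)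
      have hu0 : ∀ v, 0 < u v := hu
      have hsum : 0 ≤ ∑ v, u v := Finset.sum_nonneg fun v _ => (hu0 v).le
      have hp1 : 0 ≤ ∏ v, |θ v (u v)| := Finset.prod_nonneg fun v _ => abs_nonneg _
      show (∏ v, |θ v (u v)|) * (∑ v, u v) ^ n ≤ ((n.factorial : ℝ) * (a⁻¹) ^ n) *
        ∏ v, (|θ v (u v)| * Real.exp (a * u v))
      have h2 := F0_pow_le ha hsum n
      rw [Finset.prod_mul_distrib, ← Real.exp_sum, ← Finset.mul_sum]
      calc (∏ v, |θ v (u v)|) * (∑ v, u v) ^ n
          ≤ (∏ v, |θ v (u v)|) * ((n.factorial : ℝ) * (a⁻¹) ^ n * Real.exp (a * ∑ v, u v)) :=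
            mul_le_mul_of_nonneg_left h2 hp1
        _ = ((n.factorial : ℝ) * (a⁻¹) ^ n) *
            ((∏ v, |θ v (u v)|) * Real.exp (a * ∑ v, u v)) := by ring
  refine h1.trans (le_of_eq ?_)
  rw [integral_const_mul]
  ring

end Pool.Agent.GPC
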