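import Pool.Agent.GPC.Defs
import Pool.Agent.OHG.All
import Pool.Agent.GPC.F0

set_option autoImplicit false

open PowerSeries Finset MeasureTheory

namespace Pool.Agent.GPC

open Pool.Agent.OHG

variable {V : Type} [Fintype V] [DecidableEq V]

/-- The Taylor coefficients of `(1 + x) ^ (-1/2)`. -/
private noncomputable def b2_a (k : ℕ) : ℝ := (-1) ^ k * (Nat.centralBinom k : ℝ) / 4 ^ k

private theorem b2_a_succ (k : ℕ) : ((k : ℝ) + 1) * b2_a (k + 1) = b2_a k * (-(1 / 2) - k) := by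
  have h : ((k : ℝ) + 1) * (Nat.centralBinom (k + 1) : ℝ) =
      2 * (2 * (k : ℝ) + 1) * (Nat.centralBinom k : ℝ) := by
    exact_mod_cast Nat.succ_mul_centralBinom_succ k
  unfold b2_a
  rw [pow_succ (-1 : ℝ), pow_succ (4 : ℝ)]
  have h4 : (4 : ℝ) ^ k ≠ 0 := by positivity
  have e : ((k : ℝ) + 1) * ((-1) ^ k * -1 * (Nat.centralBinom (k + 1) : ℝ) / (4 ^ k * 4)) =
      (-1) ^ k * -1 * (((k : ℝ) + 1) * (Nat.centralBinom (k + 1) : ℝ)) / (4 ^ k * 4) := by ring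
  rw [e, h]
  field_simp
  ring

private theorem b2_a_abs (k : ℕ) : |b2_a k| ≤ 1 := by
  unfold b2_a
  rw [abs_div, abs_mul, abs_pow, abs_neg, abs_one, one_pow, one_mul,
    abs_of_nonneg (Nat.cast_nonneg _), abs_of_pos (by positivity : (0 : ℝ) < 4 ^ k)]
  rw [div_le_one (by positivity)]
  have h : Nat.centralBinom k ≤ 4 ^ k := by
    rw [Nat.centralBinom_eq_two_mul_choose]
    calc (2 * k).choose k ≤ 2 ^ (2 * k) := Nat.choose_le_two_pow _ _
      _ = 4 ^ k := by rw [pow_mul]; norm_num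
  exact_mod_cast h

private theorem b2_choose_succ (a : ℂ) (k : ℕ) :
    ((k : ℂ) + 1) * Ring.choose a (k + 1) = Ring.choose a k * (a - k) := by
  rw [Ring.choose_eq_smul, Ring.choose_eq_smul, descPochhammer_succ_right, Polynomial.smeval_mul,
    Polynomial.smeval_sub, Polynomial.smeval_X, Polynomial.smeval_natCast, Nat.factorial_succ,
    smul_eq_mul, smul_eq_mul]
  have h1 : ((k.factorial : ℕ) : ℂ) ≠ 0 := by exact_mod_cast Nat.factorial_ne_zero k
  have h2 : ((k : ℂ) + 1) ≠ 0 := by exact_mod_cast Nat.succ_ne_zero k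
  push_cast
  field_simp
  simp

private theorem b2_choose (k : ℕ) : Ring.choose (-(1 / 2) : ℂ) k = (b2_a k : ℂ) := by
  induction k with
  | zero => simp [b2_a]
  | succ k ih =>
    have h1 := b2_choose_succ (-(1 / 2) : ℂ) k
    have h2 : ((k : ℂ) + 1) * (b2_a (k + 1) : ℂ) = (b2_a k : ℂ) * (-(1 / 2) - k) := by
      have h := congrArg (fun x : ℝ => (x : ℂ)) (b2_a_succ k)
      push_cast at h
      exact h
    have h3 : ((k : ℂ) + 1) ≠ 0 := by exact_mod_cast Nat.succ_ne_zero k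
    apply mul_left_cancel₀ h3
    rw [h1, h2, ih]

private theorem b2_hasSum {x : ℂ} (hx : ‖x‖ < 1) :
    HasSum (fun k : ℕ => (b2_a k : ℂ) * x ^ k) ((1 + x) ^ (-(1 / 2) : ℂ)) := by
  have h := (Complex.one_add_cpow_hasFPowerSeriesOnBall_zero (a := (-(1 / 2) : ℂ))).hasSum
    (y := x) (by
      rw [← ENNReal.ofReal_one, Metric.eball_ofReal]
      simpa using hx)
  rw [zero_add] at h
  have e : (fun n => (binomialSeries ℂ (-(1 / 2) : ℂ) n) fun _ => x) =
      fun k : ℕ => (b2_a k : ℂ) * x ^ k := by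
    funext n
    rw [binomialSeries_apply, b2_choose]
    simp
  rwa [e] at h

/-- The remainder of the series for small `x`. -/
private theorem b2_rem {x : ℂ} (hx : ‖x‖ ≤ 1 / 2) (n : ℕ) :
    ‖(1 + x) ^ (-(1 / 2) : ℂ) - ∑ k ∈ range n, (b2_a k : ℂ) * x ^ k‖ ≤ 2 * ‖x‖ ^ n := by
  have h := b2_hasSum (lt_of_le_of_lt hx (by norm_num))
  have h1 := (hasSum_nat_add_iff' n).2 h
  have hg : HasSum (fun k : ℕ => ‖x‖ ^ n * ‖x‖ ^ k) (‖x‖ ^ n * (1 - ‖x‖)⁻¹) :=
    (hasSum_geometric_of_lt_one (norm_nonneg _) (lt_of_le_of_lt hx (by norm_num))).mul_left _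
  have h2 : ‖(1 + x) ^ (-(1 / 2) : ℂ) - ∑ k ∈ range n, (b2_a k : ℂ) * x ^ k‖ ≤
      ‖x‖ ^ n * (1 - ‖x‖)⁻¹ := by
    rw [← h1.tsum_eq, ← hg.tsum_eq]
    refine tsum_of_norm_bounded hg ?_ |>.trans (le_of_eq hg.tsum_eq.symm)
    intro k
    rw [norm_mul, norm_pow, pow_add, Complex.norm_real, Real.norm_eq_abs]
    calc |b2_a (k + n)| * (‖x‖ ^ k * ‖x‖ ^ n) ≤ 1 * (‖x‖ ^ k * ‖x‖ ^ n) := by
          gcongr; exact b2_a_abs _
      _ = ‖x‖ ^ n * ‖x‖ ^ k := by ring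
  refine h2.trans ?_
  have h3 : (1 - ‖x‖)⁻¹ ≤ 2 := by
    rw [inv_le_comm₀ (by linarith) (by norm_num)]
    linarith
  calc ‖x‖ ^ n * (1 - ‖x‖)⁻¹ ≤ ‖x‖ ^ n * 2 := by gcongr
    _ = 2 * ‖x‖ ^ n := by ring

/-- Lower bound of `|1 + 120 ε h u|`. -/
private theorem b2_low {ε : ℝ} {h : ℂ} (hh : h ∈ UH) (u : ℝ) :
    h.im / ‖h‖ ≤ ‖1 + 120 * ε * h * u‖ := by
  have hi : 0 < h.im := hh
  have h0 : h ≠ 0 := by rintro rfl; simp at hi
  have hn : 0 < ‖h‖ := norm_pos_iff.2 h0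
  rw [div_le_iff₀ hn]
  have h1 : ((starRingEnd ℂ) h * (1 + 120 * ε * h * u)).im = -h.im := by
    have e : (starRingEnd ℂ) h * (1 + 120 * ε * h * u) =
        (starRingEnd ℂ) h + ((120 * ε * u * Complex.normSq h : ℝ) : ℂ) := by
      have := Complex.mul_conj h
      push_cast
      rw [← this]
      ring
    rw [e]
    simp
  calc h.im = |((starRingEnd ℂ) h * (1 + 120 * ε * h * u)).im| := by
        rw [h1, abs_neg, abs_of_pos hi]
    _ ≤ ‖(starRingEnd ℂ) h * (1 + 120 * ε * h * u)‖ := Complex.abs_im_le_norm _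
    _ = ‖1 + 120 * ε * h * u‖ * ‖h‖ := by rw [norm_mul, Complex.norm_conj, mul_comm]

private theorem b2_one_le {h : ℂ} (hh : h ∈ UH) : 1 ≤ ‖h‖ / h.im := by
  have hi : 0 < h.im := hh
  rw [le_div_iff₀ hi, one_mul]
  exact (le_abs_self _).trans (Complex.abs_im_le_norm h)

/-- Bounds of negative powers of `1 + 120 ε h u`. -/
private theorem b2_pow {ε : ℝ} {h : ℂ} (hh : h ∈ UH) (u : ℝ) {s : ℝ} (hs : 0 ≤ s) :
    ‖(1 + 120 * ε * h * u) ^ ((-s : ℝ) : ℂ)‖ ≤ (‖h‖ / h.im) ^ s := by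
  have hi : 0 < h.im := hh
  have h0 : h ≠ 0 := by rintro rfl; simp at hi
  have hn : 0 < ‖h‖ := norm_pos_iff.2 h0
  rw [Complex.norm_cpow_real]
  have hl := b2_low (ε := ε) hh u
  have hd : 0 < h.im / ‖h‖ := div_pos hi hn
  calc ‖1 + 120 * ε * h * u‖ ^ (-s) ≤ (h.im / ‖h‖) ^ (-s) :=
        Real.rpow_le_rpow_of_nonpos hd hl (by linarith)
    _ = (‖h‖ / h.im) ^ s := by
        rw [Real.rpow_neg hd.le, ← Real.inv_rpow hd.le, inv_div]

private theorem b2_half : (-(1 / 2) : ℂ) = ((-(1 / 2 : ℝ) : ℝ) : ℂ) := by push_cast; ring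

/-- The main bound. -/
private theorem b2_main {ε : ℝ} (hε : ε = 1 ∨ ε = -1) {h : ℂ} (hh : h ∈ UH) {u : ℝ} (hu : 0 < u)
    (n : ℕ) :
    ‖(1 + 120 * ε * h * u) ^ (-(1 / 2) : ℂ) -
      ∑ k ∈ range n, (b2_a k : ℂ) * (120 * ε * h * u) ^ k‖ ≤
      2 * (480 * ‖h‖ * u) ^ n * (‖h‖ / h.im) := by
  have h1 := b2_one_le hh
  have hx : ‖120 * (ε : ℂ) * h * u‖ = 120 * ‖h‖ * u := by
    have he : ‖(ε : ℂ)‖ = 1 := by
      rcases hε with rfl | rfl <;> simp
    rw [norm_mul, norm_mul, norm_mul, he, Complex.norm_real, Real.norm_eq_abs, abs_of_pos hu]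
    norm_num
  have hn : 0 ≤ ‖h‖ := norm_nonneg _
  by_cases hc : 120 * ‖h‖ * u ≤ 1 / 2
  · have h2 := b2_rem (x := 120 * ε * h * u) (by rw [hx]; exact hc) n
    rw [hx] at h2
    refine h2.trans ?_
    have h3 : (120 * ‖h‖ * u) ^ n ≤ (480 * ‖h‖ * u) ^ n := by
      apply pow_le_pow_left₀ (by positivity)
      have : 0 ≤ ‖h‖ * u := by positivity
      nlinarith
    calc 2 * (120 * ‖h‖ * u) ^ n ≤ 2 * (480 * ‖h‖ * u) ^ n * 1 := by
          rw [mul_one]; exact mul_le_mul_of_nonneg_left h3 (by norm_num)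
      _ ≤ 2 * (480 * ‖h‖ * u) ^ n * (‖h‖ / h.im) := by
          apply mul_le_mul_of_nonneg_left h1 (by positivity)
  · push Not at hc
    have hy : 2 ≤ 480 * ‖h‖ * u := by nlinarith
    have hy1 : (1 : ℝ) ≤ (480 * ‖h‖ * u) ^ n := one_le_pow₀ (by linarith)
    have h2 : ‖(1 + 120 * ε * h * u) ^ (-(1 / 2) : ℂ)‖ ≤ ‖h‖ / h.im := by
      rw [b2_half]
      refine (b2_pow hh u (by norm_num)).trans ?_
      calc (‖h‖ / h.im) ^ (1 / 2 : ℝ) ≤ (‖h‖ / h.im) ^ (1 : ℝ) :=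
            Real.rpow_le_rpow_of_exponent_le h1 (by norm_num)
        _ = ‖h‖ / h.im := Real.rpow_one _
    have h3 : ‖∑ k ∈ range n, (b2_a k : ℂ) * (120 * ε * h * u) ^ k‖ ≤ (480 * ‖h‖ * u) ^ n := by
      refine (norm_sum_le _ _).trans ?_
      have h4 : ∀ k ∈ range n, ‖(b2_a k : ℂ) * (120 * ε * h * u) ^ k‖ ≤
          (480 * ‖h‖ * u) ^ k := by
        intro k _
        rw [norm_mul, norm_pow, hx, Complex.norm_real, Real.norm_eq_abs]
        calc |b2_a k| * (120 * ‖h‖ * u) ^ k ≤ 1 * (480 * ‖h‖ * u) ^ k := by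
              apply mul_le_mul (b2_a_abs k) _ (by positivity) (by norm_num)
              apply pow_le_pow_left₀ (by positivity)
              nlinarith
          _ = _ := one_mul _
      refine (sum_le_sum h4).trans ?_
      clear h4 hy1
      induction n with
      | zero => simp
      | succ n ih =>
        rw [sum_range_succ, pow_succ]
        have hp : 0 ≤ (480 * ‖h‖ * u) ^ n := by positivity
        nlinarith
    calc ‖(1 + 120 * ε * h * u) ^ (-(1 / 2) : ℂ) -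
        ∑ k ∈ range n, (b2_a k : ℂ) * (120 * ε * h * u) ^ k‖
        ≤ ‖h‖ / h.im + (480 * ‖h‖ * u) ^ n := (norm_sub_le _ _).trans (add_le_add h2 h3)
      _ ≤ 2 * (480 * ‖h‖ * u) ^ n * (‖h‖ / h.im) := by nlinarith

/-- Integrals of `u ^ n |θ u|`. -/
private theorem b2_theta {θ : ℝ → ℝ} {φ : ℝ⟦X⟧} (hθ : Theta θ φ) :
    ∃ C R : ℝ, 0 ≤ C ∧ 0 ≤ R ∧ ∀ n : ℕ,
      IntegrableOn (fun u => u ^ n * |θ u|) (Set.Ioi (0 : ℝ)) ∧
      ∫ u in Set.Ioi (0 : ℝ), u ^ n * |θ u| ≤ C * R ^ n * n.factorial := by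
  obtain ⟨C, c, hc, hb⟩ := hθ.bound
  have hC : 0 ≤ C := by
    have h1 := (abs_nonneg _).trans (hb 1 one_pos)
    exact nonneg_of_mul_nonneg_left h1 (Real.exp_pos _)
  have hb' : ∀ u : ℝ, 0 < u → |θ u| ≤ C * Real.exp (-(c * u)) := by
    intro u hu
    refine (hb u hu).trans (mul_le_mul_of_nonneg_left (Real.exp_le_exp.2 ?_) hC)
    have : 0 ≤ c / Real.sqrt u := by positivity
    linarith
  have hi : ∀ n : ℕ, IntegrableOn (fun u => u ^ n * (C * Real.exp (-(c * u))))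
      (Set.Ioi (0 : ℝ)) := by
    intro n
    have h1 := integrableOn_rpow_mul_exp_neg_mul_rpow (s := (n : ℝ)) (p := 1) (b := c)
      (by have : (0 : ℝ) ≤ n := Nat.cast_nonneg n; linarith) one_pos hc
    refine (h1.const_mul C).congr ?_
    filter_upwards [self_mem_ae_restrict measurableSet_Ioi] with u hu
    rw [Real.rpow_natCast, Real.rpow_one, neg_mul]
    ring
  have hi' : ∀ n : ℕ, IntegrableOn (fun u => u ^ n * |θ u|) (Set.Ioi (0 : ℝ)) := by
    intro n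
    refine Integrable.mono' (hi n) ?_ ?_
    · exact ((continuous_pow n).mul hθ.cont.abs).aestronglyMeasurable
    · filter_upwards [self_mem_ae_restrict measurableSet_Ioi] with u hu
      have hu' : (0 : ℝ) < u := hu
      rw [Real.norm_eq_abs, abs_mul, abs_abs, abs_of_nonneg (by positivity)]
      exact mul_le_mul_of_nonneg_left (hb' u hu') (by positivity)
  refine ⟨C / c, 1 / c, by positivity, by positivity, fun n => ⟨hi' n, ?_⟩⟩
  have h2 : ∫ u in Set.Ioi (0 : ℝ), u ^ n * |θ u| ≤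
      ∫ u in Set.Ioi (0 : ℝ), u ^ n * (C * Real.exp (-(c * u))) := by
    refine setIntegral_mono_on (hi' n) (hi n) measurableSet_Ioi ?_
    intro u hu
    have hu' : (0 : ℝ) < u := hu
    exact mul_le_mul_of_nonneg_left (hb' u hu') (by positivity)
  refine h2.trans (le_of_eq ?_)
  have h3 := Real.integral_rpow_mul_exp_neg_mul_Ioi (a := (n : ℝ) + 1) (r := c)
    (by positivity) hc
  have h4 : ∫ u in Set.Ioi (0 : ℝ), u ^ n * (C * Real.exp (-(c * u))) =
      C * ∫ u in Set.Ioi (0 : ℝ), u ^ ((n : ℝ) + 1 - 1) * Real.exp (-(c * u)) := by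
    rw [← integral_const_mul]
    refine setIntegral_congr_fun measurableSet_Ioi fun u _ => ?_
    simp only [add_sub_cancel_right, Real.rpow_natCast]
    ring
  rw [h4, h3, Real.Gamma_nat_eq_factorial, Real.rpow_add_one (by positivity), Real.rpow_natCast]
  ring

private theorem b2_meas {θ : ℝ → ℝ} {φ : ℝ⟦X⟧} (hθ : Theta θ φ) {ε : ℝ} {h : ℂ} (a : ℂ) :
    AEStronglyMeasurable (fun u : ℝ => (θ u : ℂ) * (1 + 120 * ε * h * u) ^ a)
      (volume.restrict (Set.Ioi (0 : ℝ))) := by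
  apply Measurable.aestronglyMeasurable
  apply Measurable.mul
  · exact (Complex.continuous_ofReal.comp hθ.cont).measurable
  · exact Measurable.pow_const (by fun_prop) a

private theorem b2_int {θ : ℝ → ℝ} {φ : ℝ⟦X⟧} (hθ : Theta θ φ) {ε : ℝ} {h : ℂ} (hh : h ∈ UH) :
    IntegrableOn (fun u : ℝ => (θ u : ℂ) * (1 + 120 * ε * h * u) ^ (-(1 / 2) : ℂ))
      (Set.Ioi (0 : ℝ)) := by
  obtain ⟨C, R, hC, hR, hi⟩ := b2_theta hθ
  have h0 := ((hi 0).1.mul_const ((‖h‖ / h.im) ^ (1 / 2 : ℝ)))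
  refine Integrable.mono' h0 (b2_meas hθ _) ?_
  filter_upwards with u
  rw [norm_mul, Complex.norm_real, Real.norm_eq_abs, pow_zero, one_mul]
  apply mul_le_mul_of_nonneg_left _ (abs_nonneg _)
  rw [b2_half]
  exact b2_pow hh u (by norm_num)

private theorem b2_diff {ε : ℝ} (hε : ε = 1 ∨ ε = -1) {θ : ℝ → ℝ} {φ : ℝ⟦X⟧} (hθ : Theta θ φ) :
    DifferentiableOn ℂ (fun h => ∫ u in Set.Ioi (0 : ℝ),
      (θ u : ℂ) * (1 + 120 * ε * h * u) ^ (-(1 / 2) : ℂ)) UH := by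
  intro h₀ hh₀
  have hi₀ : 0 < h₀.im := hh₀
  obtain ⟨C, R, hC, hR, hi⟩ := b2_theta hθ
  set s : Set ℂ := Metric.ball h₀ (h₀.im / 2) with hs
  have hs0 : s ∈ nhds h₀ := Metric.ball_mem_nhds _ (by linarith)
  have hsub : ∀ h ∈ s, h₀.im / 2 ≤ h.im ∧ ‖h‖ ≤ 2 * ‖h₀‖ := by
    intro h hh
    have h1 : ‖h - h₀‖ < h₀.im / 2 := by rwa [hs, mem_ball_iff_norm] at hh
    have h2 : |(h - h₀).im| ≤ ‖h - h₀‖ := Complex.abs_im_le_norm _
    rw [Complex.sub_im] at h2
    have h3 := (abs_le.1 h2).1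
    have h4 : h₀.im ≤ ‖h₀‖ := (le_abs_self _).trans (Complex.abs_im_le_norm h₀)
    have h5 : ‖h‖ ≤ ‖h - h₀‖ + ‖h₀‖ := by
      calc ‖h‖ = ‖(h - h₀) + h₀‖ := by rw [sub_add_cancel]
        _ ≤ _ := norm_add_le _ _
    exact ⟨by linarith, by linarith⟩
  have hsU : ∀ h ∈ s, h ∈ UH := fun h hh =>
    show 0 < h.im from lt_of_lt_of_le (by linarith) (hsub h hh).1
  set M : ℝ := 4 * ‖h₀‖ / h₀.im with hM
  have hM0 : 0 ≤ M := by positivity
  have hsM : ∀ h ∈ s, ‖h‖ / h.im ≤ M := by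
    intro h hh
    obtain ⟨h1, h2⟩ := hsub h hh
    have h3 : 0 < h.im := hsU h hh
    rw [hM, div_le_div_iff₀ h3 hi₀]
    have : 0 ≤ ‖h₀‖ := norm_nonneg _
    nlinarith
  have key := hasDerivAt_integral_of_dominated_loc_of_deriv_le
    (μ := volume.restrict (Set.Ioi (0 : ℝ)))
    (F := fun (h : ℂ) (u : ℝ) => (θ u : ℂ) * (1 + 120 * ε * h * u) ^ (-(1 / 2) : ℂ))
    (F' := fun (h : ℂ) (u : ℝ) => (θ u : ℂ) *
      ((-(1 / 2) : ℂ) * (1 + 120 * ε * h * u) ^ ((-(1 / 2) : ℂ) - 1) * (120 * ε * u)))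
    (x₀ := h₀) (s := s)
    (bound := fun u : ℝ => 60 * M ^ (3 / 2 : ℝ) * (u ^ 1 * |θ u|)) hs0 ?_ ?_ ?_ ?_ ?_ ?_
  · exact key.2.differentiableAt.differentiableWithinAt
  · filter_upwards with h
    exact b2_meas hθ _
  · exact b2_int hθ hh₀
  · apply Measurable.aestronglyMeasurable
    apply Measurable.mul
    · exact (Complex.continuous_ofReal.comp hθ.cont).measurable
    · apply Measurable.mul
      · exact (Measurable.pow_const (by fun_prop) _).const_mul _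
      · fun_prop
  · filter_upwards [self_mem_ae_restrict measurableSet_Ioi] with u hu h hh
    have hu' : (0 : ℝ) < u := hu
    have he : ((-(1 / 2) : ℂ) - 1) = ((-(3 / 2 : ℝ) : ℝ) : ℂ) := by push_cast; ring
    have h1 := b2_pow (ε := ε) (hsU h hh) u (s := 3 / 2) (by norm_num)
    have h2 : (‖h‖ / h.im) ^ (3 / 2 : ℝ) ≤ M ^ (3 / 2 : ℝ) :=
      Real.rpow_le_rpow (le_trans zero_le_one (b2_one_le (hsU h hh))) (hsM h hh) (by norm_num)
    have he1 : ‖(ε : ℂ)‖ = 1 := by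
      rcases hε with rfl | rfl <;> simp
    rw [he, norm_mul, norm_mul, norm_mul, norm_mul, norm_mul, he1, Complex.norm_real,
      Complex.norm_real, Real.norm_eq_abs, Real.norm_eq_abs, abs_of_pos hu']
    have h3 : ‖(-(1 / 2) : ℂ)‖ = 1 / 2 := by rw [norm_neg]; norm_num
    have h4 : ‖(120 : ℂ)‖ = 120 := by norm_num
    rw [h3, h4]
    calc |θ u| * (1 / 2 * ‖(1 + 120 * ε * h * u) ^ ((-(3 / 2 : ℝ) : ℝ) : ℂ)‖ * (120 * 1 * u))
        ≤ |θ u| * (1 / 2 * M ^ (3 / 2 : ℝ) * (120 * 1 * u)) := by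
          gcongr
          exact h1.trans h2
      _ = 60 * M ^ (3 / 2 : ℝ) * (u ^ 1 * |θ u|) := by ring
  · exact (hi 1).1.const_mul _
  · filter_upwards [self_mem_ae_restrict measurableSet_Ioi] with u hu h hh
    have hu' : (0 : ℝ) < u := hu
    have hsl : 1 + 120 * (ε : ℂ) * h * u ∈ Complex.slitPlane := by
      rw [Complex.mem_slitPlane_iff]
      right
      have h1 : (1 + 120 * (ε : ℂ) * h * u).im = 120 * ε * h.im * u := by
        have e : (1 + 120 * (ε : ℂ) * h * u) = 1 + ((120 * ε * u : ℝ) : ℂ) * h := by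
          push_cast; ring
        rw [e, Complex.add_im, Complex.im_ofReal_mul, Complex.one_im]
        ring
      rw [h1]
      have h2 : 0 < h.im := hsU h hh
      have h3 : ε ≠ 0 := by rcases hε with rfl | rfl <;> norm_num
      positivity
    have hd : HasDerivAt (fun h : ℂ => 1 + 120 * (ε : ℂ) * h * u) (120 * ε * u) h := by
      have h1 : HasDerivAt (fun h : ℂ => 1 + 120 * (ε : ℂ) * h * u) (120 * (ε : ℂ) * 1 * u) h :=
        (((hasDerivAt_id h).const_mul _).mul_const _).const_add _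
      rwa [mul_one] at h1
    exact (hd.cpow_const hsl).const_mul _

theorem hg_bad {ε : ℝ} (hε : ε = 1 ∨ ε = -1) {θ : ℝ → ℝ} (hθ : Theta θ rr) :
    HG (fun h => ∫ u in Set.Ioi (0 : ℝ), (θ u : ℂ) * (1 + 120 * ε * h * u) ^ (-(1 / 2) : ℂ))
      (PowerSeries.mk fun n => ((2 * n).factorial : ℝ) / n.factorial * (30 * ε) ^ n *
        coeff n rr) := by
  refine ⟨b2_diff hε hθ, ?_⟩
  obtain ⟨C, R, hC, hR, hi⟩ := b2_theta hθ
  refine ⟨2 * C, 480 * R, 1, fun n h hh _ => ?_⟩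
  have hi0 : 0 < h.im := hh
  -- the coefficients
  have hcoef : ∀ k : ℕ, ((coeff k (PowerSeries.mk fun n => ((2 * n).factorial : ℝ) /
      n.factorial * (30 * ε) ^ n * coeff n rr) : ℝ) : ℂ) * h ^ k =
      ∫ u in Set.Ioi (0 : ℝ), (θ u : ℂ) * ((b2_a k : ℂ) * (120 * ε * h * u) ^ k) := by
    intro k
    have h1 : ∫ u in Set.Ioi (0 : ℝ), (θ u : ℂ) * ((b2_a k : ℂ) * (120 * ε * h * u) ^ k) =
        ((b2_a k : ℂ) * (120 * ε * h) ^ k) *
          ∫ u in Set.Ioi (0 : ℝ), ((u ^ k * θ u : ℝ) : ℂ) := by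
      rw [← integral_const_mul]
      refine setIntegral_congr_fun measurableSet_Ioi fun u _ => ?_
      simp only [mul_pow]
      push_cast
      ring
    rw [h1, integral_complex_ofReal, hθ.moment k, coeff_mk]
    have h2 : ((2 * k).factorial : ℝ) / k.factorial * (30 * ε) ^ k =
        b2_a k * (120 * ε) ^ k * ((-1) ^ k * k.factorial) := by
      unfold b2_a
      have h3 : ((2 * k).factorial : ℝ) =
          (Nat.centralBinom k : ℝ) * k.factorial * k.factorial := by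
        have h4 := Nat.choose_mul_factorial_mul_factorial (n := 2 * k) (k := k) (by omega)
        have h5 : 2 * k - k = k := by omega
        rw [h5] at h4
        rw [Nat.centralBinom_eq_two_mul_choose]
        exact_mod_cast h4.symm
      rw [h3]
      have h6 : (k.factorial : ℝ) ≠ 0 := by exact_mod_cast Nat.factorial_ne_zero k
      have h7 : ((-1 : ℝ) ^ k) * (-1) ^ k = 1 := by
        rw [← mul_pow]; norm_num
      have h8 : (120 * ε) ^ k = 4 ^ k * (30 * ε) ^ k := by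
        rw [← mul_pow]; congr 1; ring
      rw [h8]
      have h9 : (4 : ℝ) ^ k ≠ 0 := by positivity
      calc (Nat.centralBinom k : ℝ) * k.factorial * k.factorial / k.factorial * (30 * ε) ^ k
          = (Nat.centralBinom k : ℝ) * k.factorial * (30 * ε) ^ k * 1 := by
            field_simp
        _ = (Nat.centralBinom k : ℝ) * k.factorial * (30 * ε) ^ k * ((-1) ^ k * (-1) ^ k) := by
            rw [h7]
        _ = _ := by
            field_simp
    have h3 : (((2 * k).factorial : ℝ) / k.factorial * (30 * ε) ^ k * coeff k rr : ℝ) =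
        b2_a k * (120 * ε) ^ k * ((-1) ^ k * k.factorial * coeff k rr) := by
      rw [h2]; ring
    rw [h3]
    push_cast
    rw [mul_pow _ h k]
    ring
  have hint : ∀ k : ℕ, IntegrableOn (fun u : ℝ => (θ u : ℂ) *
      ((b2_a k : ℂ) * (120 * ε * h * u) ^ k)) (Set.Ioi (0 : ℝ)) := by
    intro k
    have h1 := ((hi k).1).const_mul ‖(b2_a k : ℂ) * (120 * ε * h) ^ k‖
    refine Integrable.mono' h1 ?_ ?_
    · apply Continuous.aestronglyMeasurable
      have := hθ.cont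
      fun_prop
    · filter_upwards [self_mem_ae_restrict measurableSet_Ioi] with u hu
      have hu' : (0 : ℝ) < u := hu
      have e : (θ u : ℂ) * ((b2_a k : ℂ) * (120 * ε * h * u) ^ k) =
          ((b2_a k : ℂ) * (120 * ε * h) ^ k) * ((u ^ k : ℝ) : ℂ) * (θ u : ℂ) := by
        rw [mul_pow _ (u : ℂ) k]
        push_cast
        ring
      rw [e, norm_mul, norm_mul, Complex.norm_real, Complex.norm_real, Real.norm_eq_abs,
        Real.norm_eq_abs, abs_of_nonneg (by positivity : (0 : ℝ) ≤ u ^ k), mul_assoc]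
  have hsum : (∫ u in Set.Ioi (0 : ℝ), (θ u : ℂ) * (1 + 120 * ε * h * u) ^ (-(1 / 2) : ℂ)) -
      ∑ k ∈ range n, ((coeff k (PowerSeries.mk fun n => ((2 * n).factorial : ℝ) /
      n.factorial * (30 * ε) ^ n * coeff n rr) : ℝ) : ℂ) * h ^ k =
      ∫ u in Set.Ioi (0 : ℝ), (θ u : ℂ) * ((1 + 120 * ε * h * u) ^ (-(1 / 2) : ℂ) -
        ∑ k ∈ range n, (b2_a k : ℂ) * (120 * ε * h * u) ^ k) := by
    rw [sum_congr rfl fun k _ => hcoef k, ← integral_finsetSum _ fun k _ => hint k,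
      ← integral_sub (b2_int hθ hh) (integrable_finsetSum _ fun k _ => hint k)]
    refine setIntegral_congr_fun measurableSet_Ioi fun u _ => ?_
    simp only [mul_sub, mul_sum]
  rw [hsum]
  have hb : ‖∫ u in Set.Ioi (0 : ℝ), (θ u : ℂ) * ((1 + 120 * ε * h * u) ^ (-(1 / 2) : ℂ) -
        ∑ k ∈ range n, (b2_a k : ℂ) * (120 * ε * h * u) ^ k)‖ ≤
      ∫ u in Set.Ioi (0 : ℝ), 2 * (480 * ‖h‖) ^ n * (‖h‖ / h.im) * (u ^ n * |θ u|) := by
    refine norm_integral_le_of_norm_le ((hi n).1.const_mul _) ?_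
    filter_upwards [self_mem_ae_restrict measurableSet_Ioi] with u hu
    have hu' : (0 : ℝ) < u := hu
    rw [norm_mul, Complex.norm_real, Real.norm_eq_abs]
    calc |θ u| * ‖(1 + 120 * ε * h * u) ^ (-(1 / 2) : ℂ) -
        ∑ k ∈ range n, (b2_a k : ℂ) * (120 * ε * h * u) ^ k‖
        ≤ |θ u| * (2 * (480 * ‖h‖ * u) ^ n * (‖h‖ / h.im)) :=
          mul_le_mul_of_nonneg_left (b2_main hε hh hu' n) (abs_nonneg _)
      _ = 2 * (480 * ‖h‖) ^ n * (‖h‖ / h.im) * (u ^ n * |θ u|) := by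
          rw [mul_pow _ u n]; ring
  refine hb.trans ?_
  rw [integral_const_mul]
  have hpos : 0 ≤ 2 * (480 * ‖h‖) ^ n * (‖h‖ / h.im) := by positivity
  refine (mul_le_mul_of_nonneg_left (hi n).2 hpos).trans (le_of_eq ?_)
  rw [pow_one, mul_pow, mul_pow]
  ring

end Pool.Agent.GPC
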