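import Pool.Agent.GPC.Defs
import Pool.Agent.OHG.All

set_option autoImplicit false

open PowerSeries Finset MeasureTheory

namespace Pool.Agent.GPC

open Pool.Agent.OHG

variable {V : Type} [Fintype V] [DecidableEq V]

private lemma b3_half : (-(1 / 2) : ℂ) = ((-(1 / 2) : ℝ) : ℂ) := by push_cast; rfl

private lemma b3_re (z : ℂ) (hz : z ≠ 0) :
    (z ^ (-(1 / 2) : ℂ)).re = ‖z‖ ^ (-(1 / 2) : ℝ) * Real.cos (Complex.arg z / 2) := by
  rw [b3_half, Complex.cpow_def_of_ne_zero hz, Complex.exp_re]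
  have h1 : (Complex.log z * ((-(1 / 2) : ℝ) : ℂ)).re = Real.log ‖z‖ * (-(1 / 2)) := by
    rw [Complex.re_mul_ofReal, Complex.log_re]
  have h2 : (Complex.log z * ((-(1 / 2) : ℝ) : ℂ)).im = -(Complex.arg z / 2) := by
    rw [Complex.im_mul_ofReal, Complex.log_im]; ring
  rw [h1, h2, Real.cos_neg, Real.rpow_def_of_pos (norm_pos_iff.mpr hz)]

private lemma b3_norm (z : ℂ) : ‖z ^ (-(1 / 2) : ℂ)‖ = ‖z‖ ^ (-(1 / 2) : ℝ) := by
  rw [b3_half, Complex.norm_cpow_real]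

private lemma b3_sq (z : ℂ) : (z ^ (-(1 / 2) : ℂ)) ^ 2 = z⁻¹ := by
  rw [← Complex.cpow_nat_mul]
  have : ((2 : ℕ) : ℂ) * (-(1 / 2)) = -1 := by push_cast; ring
  rw [this, Complex.cpow_neg_one]

/-- the pointwise estimate -/
private lemma b3_key (s : ℝ) (hs : s ≠ 0) :
    ‖(1 + (s : ℂ) * Complex.I) ^ (-(1 / 2) : ℂ) - ((s : ℂ) * Complex.I) ^ (-(1 / 2) : ℂ)‖ ≤
      2 * |s| ^ (-(3 / 2) : ℝ) := by
  set w : ℂ := (s : ℂ) * Complex.I with hw
  have hwim : w.im = s := by simp [hw]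
  have hwre : w.re = 0 := by simp [hw]
  have hw0 : w ≠ 0 := by
    intro h; rw [h] at hwim; simp at hwim; exact hs hwim.symm
  have h10 : 1 + w ≠ 0 := by
    intro h
    have := congrArg Complex.im h
    simp [hwim] at this; exact hs this
  have hnw : ‖w‖ = |s| := by simp [hw]
  have hspos : 0 < |s| := abs_pos.mpr hs
  have hn1 : |s| ≤ ‖1 + w‖ := by
    have := Complex.abs_im_le_norm (1 + w)
    simpa [hwim] using this
  set a : ℂ := (1 + w) ^ (-(1 / 2) : ℂ) with ha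
  set b : ℂ := w ^ (-(1 / 2) : ℂ) with hb
  have hare : 0 ≤ a.re := by
    rw [ha, b3_re _ h10]
    refine mul_nonneg (Real.rpow_nonneg (norm_nonneg _) _) (Real.cos_nonneg_of_mem_Icc ⟨?_, ?_⟩)
    · have := Complex.neg_pi_lt_arg (1 + w); linarith
    · have := Complex.arg_le_pi (1 + w); linarith
  have hbn : ‖b‖ = |s| ^ (-(1 / 2) : ℝ) := by rw [hb, b3_norm, hnw]
  have hbre : ‖b‖ / 2 ≤ b.re := by
    rw [hbn, hb, b3_re _ hw0, hnw]
    have hcos : 1 / 2 ≤ Real.cos (Complex.arg w / 2) := by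
      have harg : |Complex.arg w| ≤ Real.pi / 2 := by
        rw [Complex.abs_arg_le_pi_div_two_iff]; rw [hwre]
      have h1 : |Complex.arg w / 2| ≤ Real.pi / 3 := by
        rw [abs_div, abs_two]; linarith [Real.pi_pos]
      rw [← Real.cos_abs, ← Real.cos_pi_div_three]
      exact Real.cos_le_cos_of_nonneg_of_le_pi (abs_nonneg _) (by linarith [Real.pi_pos]) h1
    have hp : 0 < |s| ^ (-(1 / 2) : ℝ) := Real.rpow_pos_of_pos hspos _
    nlinarith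
  have hab : ‖b‖ / 2 ≤ ‖a + b‖ := by
    calc ‖b‖ / 2 ≤ (a + b).re := by rw [Complex.add_re]; linarith
      _ ≤ ‖a + b‖ := Complex.re_le_norm _
  have hprod : (a - b) * (a + b) = -(w⁻¹ * (1 + w)⁻¹) := by
    have h1 : (a - b) * (a + b) = a ^ 2 - b ^ 2 := by ring
    rw [h1, ha, hb, b3_sq, b3_sq]
    field_simp
    ring
  have hnorm : ‖a - b‖ * ‖a + b‖ ≤ |s|⁻¹ * |s|⁻¹ := by
    rw [← norm_mul, hprod, norm_neg, norm_mul, norm_inv, norm_inv, hnw]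
    gcongr
  have hp : 0 < |s| ^ (-(1 / 2) : ℝ) := Real.rpow_pos_of_pos hspos _
  have h3 : ‖a - b‖ * (|s| ^ (-(1 / 2) : ℝ) / 2) ≤ |s|⁻¹ * |s|⁻¹ := by
    rw [← hbn]
    exact (mul_le_mul_of_nonneg_left hab (norm_nonneg _)).trans hnorm
  have h4 : |s|⁻¹ * |s|⁻¹ = |s| ^ (-(3 / 2) : ℝ) * |s| ^ (-(1 / 2) : ℝ) := by
    rw [← Real.rpow_neg_one, ← Real.rpow_add hspos, ← Real.rpow_add hspos]; norm_num
  rw [h4] at h3
  have h5 : (‖a - b‖) * |s| ^ (-(1 / 2) : ℝ) ≤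
      (2 * |s| ^ (-(3 / 2) : ℝ)) * |s| ^ (-(1 / 2) : ℝ) := by linarith
  exact le_of_mul_le_mul_right h5 hp

/-- bound of the powers -/
private lemma b3_exp3 (c u : ℝ) (hc : 0 < c) (hu : 0 < u) :
    u ^ (-(3 / 2) : ℝ) * Real.exp (-(c / Real.sqrt u)) ≤ 6 / c ^ 3 := by
  have hsq : 0 < Real.sqrt u := Real.sqrt_pos.mpr hu
  have h1 : u ^ (-(3 / 2) : ℝ) = (1 / Real.sqrt u) ^ 3 := by
    rw [Real.sqrt_eq_rpow, one_div, ← Real.rpow_neg hu.le, ← Real.rpow_natCast,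
      ← Real.rpow_mul hu.le]
    norm_num
  have h2 : (c / Real.sqrt u) ^ 3 / 6 ≤ Real.exp (c / Real.sqrt u) := by
    have := Real.pow_div_factorial_le_exp (c / Real.sqrt u) (by positivity) 3
    simpa [Nat.factorial] using this
  rw [Real.exp_neg, h1]
  have he := Real.exp_pos (c / Real.sqrt u)
  rw [← div_eq_mul_inv, div_le_div_iff₀ he (by positivity)]
  have h3 : (1 / Real.sqrt u) ^ 3 * c ^ 3 = (c / Real.sqrt u) ^ 3 := by
    rw [← mul_pow]; congr 1; ring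
  rw [h3]; linarith

private lemma b3_exp1 (c u : ℝ) (hc : 0 < c) (hu : 0 < u) :
    u ^ (-(1 / 2) : ℝ) * Real.exp (-(c / Real.sqrt u)) ≤ 1 / c := by
  have hsq : 0 < Real.sqrt u := Real.sqrt_pos.mpr hu
  have h1 : u ^ (-(1 / 2) : ℝ) = 1 / Real.sqrt u := by
    rw [Real.sqrt_eq_rpow, Real.rpow_neg hu.le, ← one_div]
  have h2 : (c / Real.sqrt u) ≤ Real.exp (c / Real.sqrt u) := by
    have := Real.add_one_le_exp (c / Real.sqrt u); linarith
  rw [Real.exp_neg, h1]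
  have he := Real.exp_pos (c / Real.sqrt u)
  rw [← div_eq_mul_inv, div_le_div_iff₀ he (by positivity)]
  have h3 : (1 / Real.sqrt u) * c = (c / Real.sqrt u) := by ring
  rw [h3]; linarith

private lemma b3_int_gen {f : ℝ → ℂ} {K c : ℝ} (hc : 0 < c) (hf : ContinuousOn f (Set.Ioi 0))
    (hb : ∀ u : ℝ, 0 < u → ‖f u‖ ≤ K * Real.exp (-c * u)) :
    IntegrableOn f (Set.Ioi 0) := by
  have hi : IntegrableOn (fun u : ℝ => K * Real.exp (-c * u)) (Set.Ioi 0) :=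
    (exp_neg_integrableOn_Ioi 0 hc).const_mul K
  refine Integrable.mono' hi (hf.aestronglyMeasurable measurableSet_Ioi) ?_
  rw [ae_restrict_iff' measurableSet_Ioi]
  exact Filter.Eventually.of_forall fun u hu => hb u hu

theorem asy_bad {ε : ℝ} (hε : ε = 1 ∨ ε = -1) {θ : ℝ → ℝ} (hθ : Theta θ rr) :
    ∃ C : ℝ, ∀ τ : ℝ, 1 ≤ τ →
    ‖(∫ u in Set.Ioi (0 : ℝ),
        (θ u : ℂ) * (1 + 120 * ε * (Complex.I * τ) * u) ^ (-(1 / 2) : ℂ)) -
      (120 * ε * Complex.I) ^ (-(1 / 2) : ℂ) * ((τ ^ (-(1 / 2) : ℝ) : ℝ) : ℂ) *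
        ((∫ u in Set.Ioi (0 : ℝ), u ^ (-(1 / 2) : ℝ) * θ u : ℝ) : ℂ)‖ ≤
      C * τ ^ (-(3 / 2) : ℝ) := by
  obtain ⟨C, c, hc, hbd⟩ := hθ.bound
  have hC : 0 ≤ C := by
    by_contra h
    push Not at h
    have h1 := hbd 1 one_pos
    have h2 := abs_nonneg (θ 1)
    have h3 := Real.exp_pos (-c * 1 - c / Real.sqrt 1)
    nlinarith
  have hεabs : |ε| = 1 := by rcases hε with h | h <;> simp [h]
  have hε0 : ε ≠ 0 := by intro h; rw [h] at hεabs; simp at hεabs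
  -- bounds
  have hθb : ∀ u : ℝ, 0 < u → |θ u| ≤ C * (Real.exp (-c * u) * Real.exp (-(c / Real.sqrt u))) := by
    intro u hu
    rw [← Real.exp_add]
    have := hbd u hu
    rwa [sub_eq_add_neg] at this
  have hθ3 : ∀ u : ℝ, 0 < u → u ^ (-(3 / 2) : ℝ) * |θ u| ≤ C * (6 / c ^ 3) * Real.exp (-c * u) := by
    intro u hu
    have hp : 0 < u ^ (-(3 / 2) : ℝ) := Real.rpow_pos_of_pos hu _
    calc u ^ (-(3 / 2) : ℝ) * |θ u| ≤ u ^ (-(3 / 2) : ℝ) *
          (C * (Real.exp (-c * u) * Real.exp (-(c / Real.sqrt u)))) :=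
          mul_le_mul_of_nonneg_left (hθb u hu) hp.le
      _ = C * (u ^ (-(3 / 2) : ℝ) * Real.exp (-(c / Real.sqrt u))) * Real.exp (-c * u) := by ring
      _ ≤ C * (6 / c ^ 3) * Real.exp (-c * u) := by
          have := b3_exp3 c u hc hu
          gcongr
  have hθ1 : ∀ u : ℝ, 0 < u → u ^ (-(1 / 2) : ℝ) * |θ u| ≤ C * (1 / c) * Real.exp (-c * u) := by
    intro u hu
    have hp : 0 < u ^ (-(1 / 2) : ℝ) := Real.rpow_pos_of_pos hu _
    calc u ^ (-(1 / 2) : ℝ) * |θ u| ≤ u ^ (-(1 / 2) : ℝ) *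
          (C * (Real.exp (-c * u) * Real.exp (-(c / Real.sqrt u)))) :=
          mul_le_mul_of_nonneg_left (hθb u hu) hp.le
      _ = C * (u ^ (-(1 / 2) : ℝ) * Real.exp (-(c / Real.sqrt u))) * Real.exp (-c * u) := by ring
      _ ≤ C * (1 / c) * Real.exp (-c * u) := by
          have := b3_exp1 c u hc hu
          gcongr
  have hθ0 : ∀ u : ℝ, 0 < u → |θ u| ≤ C * Real.exp (-c * u) := by
    intro u hu
    calc |θ u| ≤ C * (Real.exp (-c * u) * Real.exp (-(c / Real.sqrt u))) := hθb u hu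
      _ ≤ C * (Real.exp (-c * u) * 1) := by
          gcongr
          rw [Real.exp_le_one_iff]
          have : 0 ≤ c / Real.sqrt u := by positivity
          linarith
      _ = C * Real.exp (-c * u) := by ring
  have hcont : ContinuousOn θ (Set.Ioi 0) := hθ.cont.continuousOn
  have hcontC : ContinuousOn (fun u : ℝ => (θ u : ℂ)) (Set.Ioi 0) :=
    Complex.continuous_ofReal.comp_continuousOn hcont
  have hpow : ∀ p : ℝ, ContinuousOn (fun u : ℝ => u ^ p) (Set.Ioi 0) := by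
    intro p u hu
    exact (Real.continuousAt_rpow_const u p (Or.inl (ne_of_gt hu))).continuousWithinAt
  -- integrability of `u^(-1/2) θ`
  have hint1 : IntegrableOn (fun u : ℝ => ((u ^ (-(1 / 2) : ℝ) * θ u : ℝ) : ℂ)) (Set.Ioi 0) := by
    refine b3_int_gen (K := C * (1 / c)) hc ?_ ?_
    · exact Complex.continuous_ofReal.comp_continuousOn ((hpow _).mul hcont)
    · intro u hu
      rw [Complex.norm_real, Real.norm_eq_abs, abs_mul,
        abs_of_pos (Real.rpow_pos_of_pos hu _)]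
      exact hθ1 u hu
  have hint3 : IntegrableOn (fun u : ℝ => u ^ (-(3 / 2) : ℝ) * |θ u|) (Set.Ioi 0) := by
    have hi : IntegrableOn (fun u : ℝ => (C * (6 / c ^ 3)) * Real.exp (-c * u)) (Set.Ioi 0) :=
      (exp_neg_integrableOn_Ioi 0 hc).const_mul _
    refine Integrable.mono' hi ((((hpow _).mul hcont.abs)).aestronglyMeasurable
      measurableSet_Ioi) ?_
    rw [ae_restrict_iff' measurableSet_Ioi]
    refine Filter.Eventually.of_forall fun u hu => ?_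
    have hu' : 0 < u := hu
    rw [Real.norm_eq_abs, abs_of_nonneg (mul_nonneg (Real.rpow_nonneg hu'.le _) (abs_nonneg _))]
    exact hθ3 u hu
  refine ⟨2 * (120 : ℝ) ^ (-(3 / 2) : ℝ) * ∫ u in Set.Ioi (0 : ℝ), u ^ (-(3 / 2) : ℝ) * |θ u|, ?_⟩
  intro τ hτ
  have hτ0 : 0 < τ := by linarith
  -- the base
  have hbase : ∀ u : ℝ, (120 * (ε : ℂ) * (Complex.I * τ) * u) = ((120 * ε * τ * u : ℝ) : ℂ) *
      Complex.I := by
    intro u; push_cast; ring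
  have hs0 : ∀ u : ℝ, 0 < u → 120 * ε * τ * u ≠ 0 := by
    intro u hu
    have : (120 : ℝ) ≠ 0 := by norm_num
    exact mul_ne_zero (mul_ne_zero (mul_ne_zero this hε0) hτ0.ne') hu.ne'
  have habs : ∀ u : ℝ, 0 < u → |120 * ε * τ * u| = 120 * τ * u := by
    intro u hu
    rw [abs_mul, abs_mul, abs_mul, hεabs, abs_of_pos hτ0, abs_of_pos hu]
    norm_num
  -- splitting of the power
  have hI0 : (120 * (ε : ℂ) * Complex.I) ≠ 0 := by
    have : (ε : ℂ) ≠ 0 := Complex.ofReal_ne_zero.mpr hε0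
    exact mul_ne_zero (mul_ne_zero (by norm_num) this) Complex.I_ne_zero
  have hsplit : ∀ u : ℝ, 0 < u →
      (((120 * ε * τ * u : ℝ) : ℂ) * Complex.I) ^ (-(1 / 2) : ℂ) =
        (120 * ε * Complex.I) ^ (-(1 / 2) : ℂ) * ((τ ^ (-(1 / 2) : ℝ) : ℝ) : ℂ) *
          ((u ^ (-(1 / 2) : ℝ) : ℝ) : ℂ) := by
    intro u hu
    have hτu : 0 < τ * u := mul_pos hτ0 hu
    have h1 : ((120 * ε * τ * u : ℝ) : ℂ) * Complex.I =
        ((τ * u : ℝ) : ℂ) * (120 * ε * Complex.I) := by push_cast; ring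
    have h2 : ((τ * u : ℝ) : ℂ) * (120 * ε * Complex.I) ≠ 0 :=
      mul_ne_zero (Complex.ofReal_ne_zero.mpr hτu.ne') hI0
    rw [h1, Complex.cpow_def_of_ne_zero h2, Complex.log_ofReal_mul hτu hI0, add_mul,
      Complex.exp_add, ← Complex.cpow_def_of_ne_zero hI0]
    have h3 : Complex.exp (((Real.log (τ * u) : ℝ) : ℂ) * (-(1 / 2) : ℂ)) =
        ((τ ^ (-(1 / 2) : ℝ) : ℝ) : ℂ) * ((u ^ (-(1 / 2) : ℝ) : ℝ) : ℂ) := by
      rw [b3_half, ← Complex.ofReal_mul, ← Complex.ofReal_exp, ← Complex.ofReal_mul,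
        ← Real.mul_rpow hτ0.le hu.le, Real.rpow_def_of_pos hτu]
    rw [h3]; ring
  have hdiff : ∀ u : ℝ, 0 < u →
      ‖(θ u : ℂ) * (1 + 120 * ε * (Complex.I * τ) * u) ^ (-(1 / 2) : ℂ) -
        (120 * ε * Complex.I) ^ (-(1 / 2) : ℂ) * ((τ ^ (-(1 / 2) : ℝ) : ℝ) : ℂ) *
          ((u ^ (-(1 / 2) : ℝ) * θ u : ℝ) : ℂ)‖ ≤
      (2 * (120 : ℝ) ^ (-(3 / 2) : ℝ) * τ ^ (-(3 / 2) : ℝ)) * (u ^ (-(3 / 2) : ℝ) * |θ u|) := by
    intro u hu
    have h1 : (θ u : ℂ) * (1 + 120 * ε * (Complex.I * τ) * u) ^ (-(1 / 2) : ℂ) -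
        (120 * ε * Complex.I) ^ (-(1 / 2) : ℂ) * ((τ ^ (-(1 / 2) : ℝ) : ℝ) : ℂ) *
          ((u ^ (-(1 / 2) : ℝ) * θ u : ℝ) : ℂ) =
        (θ u : ℂ) * ((1 + ((120 * ε * τ * u : ℝ) : ℂ) * Complex.I) ^ (-(1 / 2) : ℂ) -
          (((120 * ε * τ * u : ℝ) : ℂ) * Complex.I) ^ (-(1 / 2) : ℂ)) := by
      rw [hsplit u hu, hbase u]; push_cast; ring
    rw [h1, norm_mul, Complex.norm_real, Real.norm_eq_abs]
    have h2 := b3_key (120 * ε * τ * u) (hs0 u hu)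
    rw [habs u hu] at h2
    have h3 : (120 * τ * u) ^ (-(3 / 2) : ℝ) =
        (120 : ℝ) ^ (-(3 / 2) : ℝ) * τ ^ (-(3 / 2) : ℝ) * u ^ (-(3 / 2) : ℝ) := by
      rw [Real.mul_rpow (by positivity) hu.le, Real.mul_rpow (by norm_num) hτ0.le]
    rw [h3] at h2
    calc |θ u| * _ ≤ |θ u| * (2 * ((120 : ℝ) ^ (-(3 / 2) : ℝ) * τ ^ (-(3 / 2) : ℝ) *
          u ^ (-(3 / 2) : ℝ))) := mul_le_mul_of_nonneg_left h2 (abs_nonneg _)
      _ = _ := by ring
  -- integrability of the first integrand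
  have hne : ∀ u : ℝ, (1 + ((120 * ε * τ * u : ℝ) : ℂ) * Complex.I) ∈ Complex.slitPlane := by
    intro u
    left
    simp
  have hint0 : IntegrableOn (fun u : ℝ =>
      (θ u : ℂ) * (1 + 120 * ε * (Complex.I * τ) * u) ^ (-(1 / 2) : ℂ)) (Set.Ioi 0) := by
    refine b3_int_gen (K := C) hc ?_ ?_
    · refine hcontC.mul ?_
      refine Continuous.continuousOn ?_
      refine Continuous.cpow (by fun_prop) continuous_const ?_
      intro u
      rw [hbase u]; exact hne u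
    · intro u hu
      rw [norm_mul, b3_norm, Complex.norm_real, Real.norm_eq_abs]
      have h1 : (1 : ℝ) ≤ ‖(1 + 120 * ε * (Complex.I * τ) * u : ℂ)‖ := by
        rw [hbase u]
        have := Complex.re_le_norm (1 + ((120 * ε * τ * u : ℝ) : ℂ) * Complex.I)
        simpa using this
      have h2 : ‖(1 + 120 * ε * (Complex.I * τ) * u : ℂ)‖ ^ (-(1 / 2) : ℝ) ≤ 1 :=
        Real.rpow_le_one_of_one_le_of_nonpos h1 (by norm_num)
      calc |θ u| * _ ≤ |θ u| * 1 := mul_le_mul_of_nonneg_left h2 (abs_nonneg _)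
        _ ≤ _ := by rw [mul_one]; exact hθ0 u hu
  have hofR : ((∫ u in Set.Ioi (0 : ℝ), u ^ (-(1 / 2) : ℝ) * θ u : ℝ) : ℂ) =
      ∫ u in Set.Ioi (0 : ℝ), ((u ^ (-(1 / 2) : ℝ) * θ u : ℝ) : ℂ) := integral_ofReal.symm
  rw [hofR, ← integral_const_mul, ← integral_sub hint0 (hint1.const_mul _)]
  refine (norm_integral_le_integral_norm _).trans ?_
  calc (∫ u in Set.Ioi (0 : ℝ), ‖(θ u : ℂ) * (1 + 120 * ε * (Complex.I * τ) * u) ^ (-(1 / 2) : ℂ) -
        (120 * ε * Complex.I) ^ (-(1 / 2) : ℂ) * ((τ ^ (-(1 / 2) : ℝ) : ℝ) : ℂ) *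
          ((u ^ (-(1 / 2) : ℝ) * θ u : ℝ) : ℂ)‖)
      ≤ ∫ u in Set.Ioi (0 : ℝ), (2 * (120 : ℝ) ^ (-(3 / 2) : ℝ) * τ ^ (-(3 / 2) : ℝ)) *
          (u ^ (-(3 / 2) : ℝ) * |θ u|) := by
        refine setIntegral_mono_on ?_ (hint3.const_mul _) measurableSet_Ioi
          (fun u hu => hdiff u hu)
        exact (hint0.sub (hint1.const_mul _)).norm
    _ = _ := by rw [integral_const_mul]; ring

end Pool.Agent.GPC
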