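import Pool.Agent.GPC.Defs
import Pool.Agent.OHG.All

set_option autoImplicit false

open PowerSeries Finset MeasureTheory

namespace Pool.Agent.GPC

open Pool.Agent.OHG

variable {V : Type} [Fintype V] [DecidableEq V]

private theorem g1_bound (a : ℝ) {R : ℝ} {z : ℂ} (hz : ‖z‖ ≤ R) (m : ℕ) :
    ‖(a : ℂ) ^ (2 * m) * z ^ m / ((2 * m + 1).factorial : ℂ)‖ ≤
      (|a| ^ 2 * R) ^ m / (m.factorial : ℝ) := by
  rw [norm_div, norm_mul, norm_pow, norm_pow, Complex.norm_natCast, Complex.norm_real,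
    Real.norm_eq_abs, mul_pow, ← pow_mul]
  have h0 : 0 ≤ |a| ^ (2 * m) := by positivity
  have h1 : ‖z‖ ^ m ≤ R ^ m := pow_le_pow_left₀ (norm_nonneg z) hz m
  have hR : 0 ≤ R := (norm_nonneg z).trans hz
  have h2 : (m.factorial : ℝ) ≤ ((2 * m + 1).factorial : ℝ) := by
    exact_mod_cast Nat.factorial_le (by omega)
  have h3 : (0 : ℝ) < (m.factorial : ℝ) := by exact_mod_cast Nat.factorial_pos m
  exact div_le_div₀ (by positivity) (mul_le_mul_of_nonneg_left h1 h0) h3 h2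

theorem differentiable_Sa (a : ℝ) : Differentiable ℂ (Sa a) := by
  intro z
  have h : DifferentiableOn ℂ (fun w : ℂ => ∑' m : ℕ, (a : ℂ) ^ (2 * m) * w ^ m /
      ((2 * m + 1).factorial : ℂ)) (Metric.ball 0 (‖z‖ + 1)) := by
    refine Complex.differentiableOn_tsum_of_summable_norm
      (u := fun m => (|a| ^ 2 * (‖z‖ + 1)) ^ m / (m.factorial : ℝ))
      (Real.summable_pow_div_factorial _) (fun m => ?_) Metric.isOpen_ball (fun m w hw => ?_)
    · fun_prop
    · rw [mem_ball_zero_iff] at hw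
      exact g1_bound a hw.le m
  have h2 : DifferentiableOn ℂ (Sa a) (Metric.ball 0 (‖z‖ + 1)) := h
  exact h2.differentiableAt (Metric.isOpen_ball.mem_nhds (by
    rw [mem_ball_zero_iff]
    linarith))

private theorem g1_zero (a : ℝ) : Sa a 0 = 1 := by
  unfold Sa
  rw [tsum_eq_single 0]
  · simp
  · intro m hm
    rw [zero_pow hm]
    simp

private theorem g1_zero' (z : ℂ) : Sa 0 z = 1 := by
  unfold Sa
  rw [tsum_eq_single 0]
  · simp
  · intro m hm
    have : 2 * m ≠ 0 := by omega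
    rw [Complex.ofReal_zero, zero_pow this]
    simp

theorem Sa_sq {a : ℝ} {w : ℂ} (ha : a ≠ 0) (hw : w ≠ 0) :
    Sa a (w ^ 2) = Complex.sinh (a * w) / (a * w) := by
  have ha' : (a : ℂ) ≠ 0 := by exact_mod_cast ha
  have haw : (a : ℂ) * w ≠ 0 := mul_ne_zero ha' hw
  have h := (Complex.hasSum_sinh ((a : ℂ) * w)).div_const ((a : ℂ) * w)
  rw [← h.tsum_eq]
  unfold Sa
  refine tsum_congr fun m => ?_
  rw [pow_succ ((a : ℂ) * w) (2 * m), mul_pow, ← pow_mul w 2 m]
  field_simp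

private theorem g1_cosh (z : ℂ) : ‖Complex.cosh z‖ ≤ Real.exp |z.re| := by
  rw [Complex.cosh]
  have h1 : ‖Complex.exp z + Complex.exp (-z)‖ ≤ Real.exp |z.re| + Real.exp |z.re| := by
    refine (norm_add_le _ _).trans (add_le_add ?_ ?_)
    · rw [Complex.norm_exp]
      exact Real.exp_le_exp.2 (le_abs_self _)
    · rw [Complex.norm_exp, Complex.neg_re]
      exact Real.exp_le_exp.2 (neg_le_abs _)
  rw [norm_div, Complex.norm_two]
  linarith

private theorem g1_sinh (z : ℂ) : ‖Complex.sinh z‖ ≤ ‖z‖ * Real.exp |z.re| := by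
  have h := norm_image_sub_le_of_norm_deriv_le_segment_01'
    (f := fun t : ℝ => Complex.sinh ((t : ℂ) * z)) (f' := fun t : ℝ => Complex.cosh ((t : ℂ) * z) * z)
    (C := ‖z‖ * Real.exp |z.re|) ?_ ?_
  · simpa using h
  · intro t _
    have h1 : HasDerivAt (fun s : ℂ => Complex.sinh (s * z)) (Complex.cosh ((t : ℂ) * z) * z) (t : ℂ) := by
      have h2 : HasDerivAt (fun s : ℂ => s * z) z (t : ℂ) := by
        simpa using (hasDerivAt_id (t : ℂ)).mul_const z
      exact h2.csinh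
    exact h1.comp_ofReal.hasDerivWithinAt
  · intro t ht
    rw [norm_mul, mul_comm]
    refine mul_le_mul_of_nonneg_left ((g1_cosh _).trans (Real.exp_le_exp.2 ?_)) (norm_nonneg _)
    rw [Complex.re_ofReal_mul, abs_mul, abs_of_nonneg ht.1]
    have h3 : t * |z.re| ≤ 1 * |z.re| := mul_le_mul_of_nonneg_right ht.2.le (abs_nonneg _)
    linarith

theorem Sa_norm_le {a : ℝ} (ha : 0 ≤ a) (w : ℂ) : ‖Sa a (w ^ 2)‖ ≤ Real.exp (a * |w.re|) := by
  have h1 : 1 ≤ Real.exp (a * |w.re|) := Real.one_le_exp (mul_nonneg ha (abs_nonneg _))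
  rcases ha.eq_or_lt with h0 | h0
  · subst h0
    rw [g1_zero', norm_one]
    exact h1
  · by_cases hw : w = 0
    · rw [hw, zero_pow two_ne_zero, g1_zero, norm_one, ← hw]
      exact h1
    · rw [Sa_sq h0.ne' hw, norm_div]
      have haw : 0 < ‖(a : ℂ) * w‖ := norm_pos_iff.2 (mul_ne_zero (by exact_mod_cast h0.ne') hw)
      rw [div_le_iff₀ haw, mul_comm (Real.exp (a * |w.re|))]
      refine (g1_sinh _).trans (le_of_eq ?_)
      rw [Complex.re_ofReal_mul, abs_mul, abs_of_pos h0]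

theorem Sa_half_ne_zero {z : ℂ} (hz : -2 < z.re) : Sa (1 / 2) z ≠ 0 := by
  obtain ⟨w, hw⟩ := IsAlgClosed.exists_pow_nat_eq z (n := 2) two_pos
  by_cases hw0 : w = 0
  · rw [← hw, hw0, zero_pow two_ne_zero, g1_zero]
    exact one_ne_zero
  rw [← hw, Sa_sq (by norm_num) hw0]
  intro h
  have h2 : ((1 / 2 : ℝ) : ℂ) * w ≠ 0 := mul_ne_zero (by norm_num) hw0
  have h3 : Complex.sinh (((1 / 2 : ℝ) : ℂ) * w) = 0 := (div_eq_zero_iff.1 h).resolve_right h2
  have h4 : Complex.sin ((((1 / 2 : ℝ) : ℂ) * w) * Complex.I) = 0 := by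
    rw [Complex.sin_mul_I, h3, zero_mul]
  obtain ⟨k, hk⟩ := Complex.sin_eq_zero_iff.1 h4
  have hk0 : k ≠ 0 := by
    rintro rfl
    rw [Int.cast_zero, zero_mul, mul_eq_zero] at hk
    rcases hk with h5 | h5
    · exact h2 h5
    · exact Complex.I_ne_zero h5
  have h5 : z = ((-(4 * (k : ℝ) ^ 2 * Real.pi ^ 2) : ℝ) : ℂ) := by
    have h6 : w * Complex.I = 2 * ((k : ℂ) * Real.pi) := by
      rw [← hk]
      push_cast
      ring
    have h7 : (w * Complex.I) ^ 2 = -z := by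
      rw [mul_pow, hw, Complex.I_sq]
      ring
    rw [h6] at h7
    have h8 : z = -((2 * ((k : ℂ) * Real.pi)) ^ 2) := by rw [h7, neg_neg]
    rw [h8]
    push_cast
    ring
  have h6 : z.re = -(4 * (k : ℝ) ^ 2 * Real.pi ^ 2) := by
    rw [h5, Complex.ofReal_re]
  have h7 : (1 : ℝ) ≤ (k : ℝ) ^ 2 := by
    have h8 : (1 : ℤ) ≤ k ^ 2 := Int.one_le_abs (pow_ne_zero 2 hk0) |>.trans (le_of_eq (abs_of_nonneg (sq_nonneg k)))
    exact_mod_cast h8
  have h8 : (1 : ℝ) ≤ Real.pi ^ 2 := by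
    have := Real.pi_gt_three
    nlinarith
  nlinarith

theorem Sa_pos (a : ℝ) {r : ℝ} (hr : 0 ≤ r) : ∃ t : ℝ, 0 < t ∧ Sa a (r : ℂ) = (t : ℂ) := by
  refine ⟨∑' m : ℕ, a ^ (2 * m) * r ^ m / ((2 * m + 1).factorial : ℝ), ?_, ?_⟩
  · have hs : Summable fun m : ℕ => a ^ (2 * m) * r ^ m / ((2 * m + 1).factorial : ℝ) := by
      refine Summable.of_norm_bounded (g := fun m => (|a| ^ 2 * r) ^ m / (m.factorial : ℝ))
        (Real.summable_pow_div_factorial _) (fun m => ?_)
      have h := g1_bound a (R := r) (z := (r : ℂ)) (by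
        rw [Complex.norm_real, Real.norm_eq_abs, abs_of_nonneg hr]) m
      refine le_trans (le_of_eq ?_) h
      rw [← Complex.norm_real]
      congr 1
      push_cast
      rfl
    refine hs.tsum_pos (fun m => ?_) 0 ?_
    · rw [pow_mul]
      positivity
    · simp
  · unfold Sa
    rw [Complex.ofReal_tsum]
    refine tsum_congr fun m => ?_
    push_cast
    rfl

end Pool.Agent.GPC
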