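import Pool.Agent.GPC.Defs
import Pool.Agent.OHG.All
import Pool.Agent.GPC.G1

set_option autoImplicit false

open PowerSeries Finset MeasureTheory

namespace Pool.Agent.GPC

open Pool.Agent.OHG

variable {V : Type} [Fintype V] [DecidableEq V]

private lemma g2_sqrt (z : ℂ) : ∃ w : ℂ, w ^ 2 = z ∧ 0 ≤ w.re := by
  obtain ⟨w, hw⟩ := IsAlgClosed.exists_pow_nat_eq z (n := 2) (by norm_num)
  rcases le_total 0 w.re with h | h
  · exact ⟨w, hw, h⟩
  · exact ⟨-w, by rw [neg_sq, hw], by simpa using h⟩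

private lemma g2_norm {z w : ℂ} (hw : w ^ 2 = z) : ‖z‖ = ‖w‖ ^ 2 := by
  rw [← hw, norm_pow]

private lemma g2_re {z w : ℂ} (hw : w ^ 2 = z) : 2 * w.re ^ 2 = ‖z‖ + z.re := by
  have h1 : ‖z‖ = w.re ^ 2 + w.im ^ 2 := by
    rw [g2_norm hw, Complex.sq_norm, Complex.normSq_apply]; ring
  have h2 : z.re = w.re ^ 2 - w.im ^ 2 := by
    rw [← hw, pow_two, Complex.mul_re]; ring
  rw [h1, h2]; ring

private lemma g2_sinh (w : ℂ) : Real.sinh w.re ≤ ‖Complex.sinh w‖ := by
  have h1 : Complex.sinh w = (Complex.exp w - Complex.exp (-w)) / 2 := rfl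
  have h2 : Real.exp w.re - Real.exp (-w.re) ≤ ‖Complex.exp w - Complex.exp (-w)‖ := by
    have := norm_sub_norm_le (Complex.exp w) (Complex.exp (-w))
    rw [Complex.norm_exp, Complex.norm_exp, Complex.neg_re] at this
    exact this
  rw [h1, norm_div, Real.sinh_eq]
  have h3 : ‖(2 : ℂ)‖ = 2 := by simp
  rw [h3]
  linarith

private lemma g2_prod (l : Multiset ℝ) (hl : ∀ a ∈ l, 0 ≤ a) (w : ℂ) (hw : 0 ≤ w.re) :
    ‖(l.map fun a => Sa a (w ^ 2)).prod‖ ≤ Real.exp (l.sum * w.re) := by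
  induction l using Multiset.induction_on with
  | empty => simp
  | cons a l ih =>
    rw [Multiset.map_cons, Multiset.prod_cons, norm_mul, Multiset.sum_cons, add_mul, Real.exp_add]
    have h1 := Sa_norm_le (hl a (Multiset.mem_cons_self a l)) w
    rw [abs_of_nonneg hw] at h1
    have h2 := ih (fun b hb => hl b (Multiset.mem_cons_of_mem hb))
    exact mul_le_mul h1 h2 (norm_nonneg _) (Real.exp_pos _).le

private lemma g2_inv {w : ℂ} (hw : 1 ≤ w.re) :
    ‖(Sa (1 / 2) (w ^ 2))⁻¹‖ ≤ 2 * ‖w‖ * Real.exp (-(w.re / 2)) := by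
  have hw0 : w ≠ 0 := by
    rintro rfl
    simp at hw
    linarith
  have hn : 0 < ‖w‖ := norm_pos_iff.2 hw0
  have h1 := Sa_sq (a := 1 / 2) (w := w) (by norm_num) hw0
  have hc : (((1 / 2 : ℝ) : ℝ) : ℂ) * w = w / 2 := by push_cast; ring
  rw [hc] at h1
  have h2 : ‖Sa (1 / 2) (w ^ 2)‖ = ‖Complex.sinh (w / 2)‖ / (‖w‖ / 2) := by
    rw [h1, norm_div, norm_div]
    simp
  have h3 : Real.sinh (w.re / 2) ≤ ‖Complex.sinh (w / 2)‖ := by
    have := g2_sinh (w / 2)
    have h4 : (w / 2).re = w.re / 2 := by simp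
    rwa [h4] at this
  have h5 : Real.exp (w.re / 2) / 4 ≤ Real.sinh (w.re / 2) := by
    rw [Real.sinh_eq]
    have h6 : Real.exp (-(w.re / 2)) ≤ Real.exp (w.re / 2) / 2 := by
      have h7 : Real.exp (w.re / 2) = Real.exp (-(w.re / 2)) * Real.exp w.re := by
        rw [← Real.exp_add]; congr 1; ring
      have h8 : (2 : ℝ) ≤ Real.exp w.re := by
        have := Real.add_one_le_exp w.re
        linarith
      rw [h7]
      have h9 := Real.exp_pos (-(w.re / 2))
      nlinarith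
    linarith
  have h10 : 0 < Real.exp (w.re / 2) := Real.exp_pos _
  have h11 : Real.exp (w.re / 2) / (2 * ‖w‖) ≤ ‖Sa (1 / 2) (w ^ 2)‖ := by
    rw [h2, div_le_div_iff₀ (by positivity) (by positivity)]
    nlinarith
  rw [norm_inv]
  have h12 : 2 * ‖w‖ * Real.exp (-(w.re / 2)) = (Real.exp (w.re / 2) / (2 * ‖w‖))⁻¹ := by
    rw [Real.exp_neg, inv_div]
    field_simp
  rw [h12]
  exact inv_anti₀ (by positivity) h11

theorem quot_decay (l : Multiset ℝ) (s : ℕ) (hl : ∀ a ∈ l, 0 ≤ a) (hs : l.sum < s / 2) :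
    ∃ C ε : ℝ, 0 < ε ∧ ∀ z : ℂ, -1 ≤ z.re →
      ‖(l.map fun a => Sa a z).prod * ((Sa (1 / 2) z)⁻¹) ^ s‖ ≤
        C * Real.exp (-ε * Real.sqrt ‖z‖) := by
  obtain ⟨δ, hδ⟩ : ∃ δ : ℝ, δ = s / 2 - l.sum := ⟨_, rfl⟩
  have hδ0 : 0 < δ := by rw [hδ]; linarith
  -- the compact part
  have hcont : ContinuousOn (fun z : ℂ => (l.map fun a => Sa a z).prod * ((Sa (1 / 2) z)⁻¹) ^ s)
      (Metric.closedBall (0 : ℂ) 5 ∩ {z | -1 ≤ z.re}) := by
    apply ContinuousOn.mul
    · apply Continuous.continuousOn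
      have : ∀ l : Multiset ℝ, Continuous (fun z : ℂ => (l.map fun a => Sa a z).prod) := by
        intro l
        induction l using Multiset.induction_on with
        | empty => simpa using continuous_const
        | cons a l ih =>
          simp only [Multiset.map_cons, Multiset.prod_cons]
          exact (differentiable_Sa a).continuous.mul ih
      exact this l
    · apply ContinuousOn.pow
      apply ContinuousOn.inv₀
      · exact (differentiable_Sa _).continuous.continuousOn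
      · intro z hz
        apply Sa_half_ne_zero
        have : -1 ≤ z.re := hz.2
        linarith
  have hcomp : IsCompact (Metric.closedBall (0 : ℂ) 5 ∩ {z : ℂ | -1 ≤ z.re}) := by
    apply (isCompact_closedBall (0 : ℂ) 5).inter_right
    exact isClosed_le continuous_const Complex.continuous_re
  obtain ⟨C0, hC0⟩ := hcomp.exists_bound_of_continuousOn hcont
  refine ⟨|C0| * Real.exp (δ / 4 * Real.sqrt 5) + 2 ^ s * (s.factorial * (4 / δ) ^ s), δ / 4,
    by positivity, ?_⟩
  intro z hz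
  by_cases h5 : ‖z‖ ≤ 5
  · have h1 := hC0 z ⟨by simpa using h5, hz⟩
    have h2 : (1 : ℝ) ≤ Real.exp (δ / 4 * Real.sqrt 5) * Real.exp (-(δ / 4) * Real.sqrt ‖z‖) := by
      rw [← Real.exp_add]
      apply Real.one_le_exp
      have h3 : Real.sqrt ‖z‖ ≤ Real.sqrt 5 := Real.sqrt_le_sqrt h5
      nlinarith
    have h4 : 0 ≤ |C0| := abs_nonneg _
    have h6 : 0 ≤ 2 ^ s * (s.factorial * (4 / δ) ^ s) * Real.exp (-(δ / 4) * Real.sqrt ‖z‖) := by
      positivity
    calc ‖(l.map fun a => Sa a z).prod * ((Sa (1 / 2) z)⁻¹) ^ s‖ ≤ C0 := h1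
      _ ≤ |C0| * 1 := by rw [mul_one]; exact le_abs_self _
      _ ≤ |C0| * (Real.exp (δ / 4 * Real.sqrt 5) * Real.exp (-(δ / 4) * Real.sqrt ‖z‖)) :=
          mul_le_mul_of_nonneg_left h2 h4
      _ ≤ _ := by rw [add_mul]; linarith
  · push Not at h5
    obtain ⟨w, hw, hwr⟩ := g2_sqrt z
    have hn := g2_norm hw
    have hr := g2_re hw
    have hsq : Real.sqrt ‖z‖ = ‖w‖ := by rw [hn, Real.sqrt_sq (norm_nonneg _)]
    have hw2 : ‖w‖ / 2 ≤ w.re := by
      by_contra hcon
      push Not at hcon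
      nlinarith
    have hw1 : 1 ≤ w.re := by
      by_contra hcon
      push Not at hcon
      nlinarith
    have hw5 : 0 < ‖w‖ := by
      by_contra hcon
      have : ‖w‖ = 0 := le_antisymm (not_lt.1 hcon) (norm_nonneg _)
      rw [this] at hn
      simp at hn
      rw [hn] at h5
      simp at h5
      linarith
    rw [hsq, norm_mul, norm_pow]
    have hp := g2_prod l hl w hwr
    have hi := g2_inv hw1
    rw [hw] at hi
    have hp' : ‖(l.map fun a => Sa a z).prod‖ ≤ Real.exp (l.sum * w.re) := by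
      rw [← hw]; exact hp
    have hfac : (δ / 4 * ‖w‖) ^ s / s.factorial ≤ Real.exp (δ / 4 * ‖w‖) :=
      Real.pow_div_factorial_le_exp _ (by positivity) s
    have hws : ‖w‖ ^ s ≤ s.factorial * (4 / δ) ^ s * Real.exp (δ / 4 * ‖w‖) := by
      have h7 : ‖w‖ ^ s = s.factorial * (4 / δ) ^ s * ((δ / 4 * ‖w‖) ^ s / s.factorial) := by
        have hf : ((s.factorial : ℕ) : ℝ) ≠ 0 := by positivity
        rw [mul_pow, div_pow, div_pow]
        field_simp
      calc ‖w‖ ^ s = s.factorial * (4 / δ) ^ s * ((δ / 4 * ‖w‖) ^ s / s.factorial) := h7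
        _ ≤ _ := mul_le_mul_of_nonneg_left hfac (by positivity)
    calc ‖(l.map fun a => Sa a z).prod‖ * ‖(Sa (1 / 2) z)⁻¹‖ ^ s
        ≤ Real.exp (l.sum * w.re) * (2 * ‖w‖ * Real.exp (-(w.re / 2))) ^ s := by
          apply mul_le_mul hp' (pow_le_pow_left₀ (norm_nonneg _) hi s) (by positivity)
            (Real.exp_pos _).le
      _ = 2 ^ s * ‖w‖ ^ s * Real.exp (-(δ * w.re)) := by
          rw [mul_pow, mul_pow, ← Real.exp_nat_mul]
          have : Real.exp (-(δ * w.re)) = Real.exp (l.sum * w.re) * Real.exp (s * -(w.re / 2)) := by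
            rw [← Real.exp_add]; congr 1; rw [hδ]; ring
          rw [this]; ring
      _ ≤ 2 ^ s * (s.factorial * (4 / δ) ^ s * Real.exp (δ / 4 * ‖w‖)) *
            Real.exp (-(δ * w.re)) := by
          apply mul_le_mul_of_nonneg_right _ (Real.exp_pos _).le
          exact mul_le_mul_of_nonneg_left hws (by positivity)
      _ ≤ 2 ^ s * (s.factorial * (4 / δ) ^ s * Real.exp (δ / 4 * ‖w‖)) *
            Real.exp (-(δ / 2 * ‖w‖)) := by
          apply mul_le_mul_of_nonneg_left _ (by positivity)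
          apply Real.exp_le_exp.2
          nlinarith
      _ = 2 ^ s * (s.factorial * (4 / δ) ^ s) * Real.exp (-(δ / 4) * ‖w‖) := by
          have : Real.exp (-(δ / 4) * ‖w‖) =
              Real.exp (δ / 4 * ‖w‖) * Real.exp (-(δ / 2 * ‖w‖)) := by
            rw [← Real.exp_add]; congr 1; ring
          rw [this]; ring
      _ ≤ _ := by
          apply mul_le_mul_of_nonneg_right _ (Real.exp_pos _).le
          have : 0 ≤ |C0| * Real.exp (δ / 4 * Real.sqrt 5) := by positivity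
          linarith

end Pool.Agent.GPC
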