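import Pool.Agent.GPC.Defs
import Pool.Agent.OHG.All
import Pool.Agent.GPC.G1

set_option autoImplicit false

open PowerSeries Finset MeasureTheory

namespace Pool.Agent.GPC

open Pool.Agent.OHG

variable {V : Type} [Fintype V] [DecidableEq V]

/-- `f` is the sum of the power series `φ` on the unit ball. -/
private def g3_Rep (φ : ℂ⟦X⟧) (f : ℂ → ℂ) : Prop :=
  ∀ z : ℂ, ‖z‖ < 1 → HasSum (fun j => coeff j φ * z ^ j) (f z)

private theorem g3_one : g3_Rep 1 (fun _ => 1) := by
  intro z _
  have h := hasSum_single (f := fun j => coeff j (1 : ℂ⟦X⟧) * z ^ j) 0 (by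
    intro n hn
    simp [PowerSeries.coeff_one, hn])
  simpa using h

private theorem g3_mul {φ ψ : ℂ⟦X⟧} {f g : ℂ → ℂ} (hf : g3_Rep φ f) (hg : g3_Rep ψ g) :
    g3_Rep (φ * ψ) (fun z => f z * g z) := by
  intro z hz
  have h1 := hf z hz
  have h2 := hg z hz
  have s1 : Summable fun j => ‖coeff j φ * z ^ j‖ := h1.summable.norm
  have s2 : Summable fun j => ‖coeff j ψ * z ^ j‖ := h2.summable.norm
  have h3 := (summable_norm_sum_mul_antidiagonal_of_summable_norm s1 s2).of_norm.hasSum
  rw [← tsum_mul_tsum_eq_tsum_sum_antidiagonal_of_summable_norm s1 s2, h1.tsum_eq,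
    h2.tsum_eq] at h3
  refine h3.congr_fun ?_ |> fun h => h
  intro n
  rw [PowerSeries.coeff_mul, Finset.sum_mul]
  refine Finset.sum_congr rfl fun p hp => ?_
  rw [← Finset.HasAntidiagonal.mem_antidiagonal.1 hp, pow_add]
  ring

private theorem g3_pow {φ : ℂ⟦X⟧} {f : ℂ → ℂ} (hf : g3_Rep φ f) (s : ℕ) :
    g3_Rep (φ ^ s) (fun z => f z ^ s) := by
  induction s with
  | zero => simpa using g3_one
  | succ n ih => simpa [pow_succ] using g3_mul ih hf

private theorem g3_fps {φ : ℂ⟦X⟧} {f : ℂ → ℂ} (hf : g3_Rep φ f) :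
    HasFPowerSeriesOnBall f (FormalMultilinearSeries.ofScalars ℂ fun n => coeff n φ) 0 1 where
  r_le := by
    refine ENNReal.le_of_forall_nnreal_lt fun r hr => ?_
    have hr1 : (r : ℝ) < 1 := by exact_mod_cast hr
    refine FormalMultilinearSeries.le_radius_of_summable _ ?_
    have h := (hf (r : ℂ) (by simpa using hr1)).summable.norm
    refine h.congr fun n => ?_
    rw [FormalMultilinearSeries.ofScalars_norm]
    simp
  r_pos := one_pos
  hasSum := by
    intro y hy
    have hy1 : ‖y‖ < 1 := by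
      have h := hy
      rw [Metric.mem_eball, edist_zero_right] at h
      have h2 : (‖y‖₊ : ENNReal) < 1 := by simpa [enorm_eq_nnnorm] using h
      exact_mod_cast h2
    have h := hf y hy1
    rw [zero_add]
    refine h.congr_fun ?_ |> fun h => h
    intro n
    rw [FormalMultilinearSeries.ofScalars_apply_eq]
    simp

private theorem g3_unique {φ ψ : ℂ⟦X⟧} {f : ℂ → ℂ} (hf : g3_Rep φ f) (hg : g3_Rep ψ f) :
    φ = ψ := by
  have h := (g3_fps hf).hasFPowerSeriesAt.eq_formalMultilinearSeries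
    (g3_fps hg).hasFPowerSeriesAt
  have h2 := FormalMultilinearSeries.ofScalars_series_injective (𝕜 := ℂ) (E := ℂ) h
  ext n
  exact congrFun h2 n

private theorem g3_congr {φ : ℂ⟦X⟧} {f g : ℂ → ℂ} (hf : g3_Rep φ f)
    (h : ∀ z : ℂ, ‖z‖ < 1 → f z = g z) : g3_Rep φ g := by
  intro z hz
  rw [← h z hz]
  exact hf z hz

private theorem g3_sa (a : ℝ) : g3_Rep ((sa a).map Complex.ofRealHom) (Sa a) := by
  intro z _
  have hs : Summable fun m : ℕ => (a : ℂ) ^ (2 * m) * z ^ m / ((2 * m + 1).factorial : ℂ) := by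
    have h1 : Summable fun m : ℕ => ‖(a : ℂ) ^ 2 * z‖ ^ m / (m.factorial : ℝ) :=
      Real.summable_pow_div_factorial _
    refine Summable.of_norm_bounded h1 fun m => ?_
    rw [norm_div, pow_mul, ← mul_pow, norm_pow]
    have h2 : ‖((2 * m + 1).factorial : ℂ)‖ = ((2 * m + 1).factorial : ℝ) := by simp
    rw [h2]
    refine div_le_div_of_nonneg_left (by positivity) (by positivity) ?_
    exact_mod_cast Nat.factorial_le (by omega)
  have h := hs.hasSum
  have h2 : (∑' m : ℕ, (a : ℂ) ^ (2 * m) * z ^ m / ((2 * m + 1).factorial : ℂ)) = Sa a z := rfl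
  rw [h2] at h
  refine h.congr_fun ?_ |> fun h => h
  intro m
  simp only [sa, PowerSeries.coeff_map, PowerSeries.coeff_mk]
  simp only [Complex.ofRealHom_eq_coe]
  push_cast
  ring

private theorem g3_inv :
    g3_Rep (((sa (1 / 2))⁻¹).map Complex.ofRealHom) (fun z => (Sa (1 / 2) z)⁻¹) := by
  have hd : DifferentiableOn ℂ (fun z => (Sa (1 / 2) z)⁻¹) (Metric.closedBall 0 (1 : NNReal)) := by
    intro z hz
    have hz1 : ‖z‖ ≤ 1 := by simpa using hz
    have hre : -2 < z.re := by
      have := Complex.abs_re_le_norm z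
      have h2 := neg_abs_le z.re
      linarith
    exact ((differentiable_Sa (1 / 2)) z).inv (Sa_half_ne_zero hre) |>.differentiableWithinAt
  have hp := hd.hasFPowerSeriesOnBall (by norm_num)
  set p := cauchyPowerSeries (fun z => (Sa (1 / 2) z)⁻¹) 0 (1 : NNReal) with hpd
  set χ : ℂ⟦X⟧ := PowerSeries.mk fun n => p.coeff n with hχ
  have hχr : g3_Rep χ (fun z => (Sa (1 / 2) z)⁻¹) := by
    intro z hz
    have hz2 : z ∈ Metric.eball (0 : ℂ) ((1 : NNReal) : ENNReal) := by
      rw [Metric.mem_eball, edist_zero_right]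
      have h2 : (‖z‖₊ : ENNReal) < 1 := by exact_mod_cast hz
      simpa [enorm_eq_nnnorm] using h2
    have h := hp.hasSum hz2
    rw [zero_add] at h
    refine h.congr_fun ?_ |> fun h => h
    intro n
    rw [hχ, PowerSeries.coeff_mk]
    rw [FormalMultilinearSeries.apply_eq_pow_smul_coeff]
    rw [smul_eq_mul, mul_comm]
  have h1 : g3_Rep (χ * (sa (1 / 2)).map Complex.ofRealHom) (fun _ => 1) := by
    refine g3_congr (g3_mul hχr (g3_sa (1 / 2))) fun z hz => ?_
    have hre : -2 < z.re := by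
      have := Complex.abs_re_le_norm z
      have h2 := neg_abs_le z.re
      linarith
    exact inv_mul_cancel₀ (Sa_half_ne_zero hre)
  have h2 : χ * (sa (1 / 2)).map Complex.ofRealHom = 1 := g3_unique h1 g3_one
  have hc : constantCoeff (sa (1 / 2)) ≠ 0 := by
    rw [← PowerSeries.coeff_zero_eq_constantCoeff_apply, sa, PowerSeries.coeff_mk]
    simp
  have h3 : (sa (1 / 2)) * (sa (1 / 2))⁻¹ = 1 := PowerSeries.mul_inv_cancel _ hc
  have h4 : (sa (1 / 2)).map Complex.ofRealHom * ((sa (1 / 2))⁻¹).map Complex.ofRealHom = 1 := by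
    rw [← map_mul, h3, map_one]
  have h5 : χ = ((sa (1 / 2))⁻¹).map Complex.ofRealHom := by
    calc χ = χ * ((sa (1 / 2)).map Complex.ofRealHom *
          ((sa (1 / 2))⁻¹).map Complex.ofRealHom) := by rw [h4, mul_one]
      _ = _ := by rw [← mul_assoc, h2, one_mul]
  rw [← h5]
  exact hχr

private theorem g3_prod (l : Multiset ℝ) :
    g3_Rep (((l.map sa).prod).map Complex.ofRealHom) (fun z => (l.map fun a => Sa a z).prod) := by
  induction l using Multiset.induction_on with
  | empty => simpa using g3_one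
  | cons a l ih =>
    simp only [Multiset.map_cons, Multiset.prod_cons, map_mul]
    exact g3_mul (g3_sa a) ih

theorem quot_ser (l : Multiset ℝ) (s : ℕ) {z : ℂ} (hz : ‖z‖ < 1) :
    HasSum (fun j => ((coeff j ((l.map sa).prod * ((sa (1 / 2))⁻¹) ^ s) : ℝ) : ℂ) * z ^ j)
      ((l.map fun a => Sa a z).prod * ((Sa (1 / 2) z)⁻¹) ^ s) := by
  have h := g3_mul (g3_prod l) (g3_pow g3_inv s) z hz
  refine h.congr_fun ?_ |> fun h => h
  intro j
  rw [← map_pow, ← map_mul, PowerSeries.coeff_map]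
  rfl

end Pool.Agent.GPC
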