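import Pool.Agent.GPC.Defs
import Pool.Agent.OHG.All
import Pool.Agent.GPC.G1
import Pool.Agent.GPC.G2
import Pool.Agent.GPC.G3

set_option autoImplicit false

open PowerSeries Finset MeasureTheory

namespace Pool.Agent.GPC

open Pool.Agent.OHG

variable {V : Type} [Fintype V] [DecidableEq V]

private theorem g4_prod_diff (l : Multiset ℝ) :
    Differentiable ℂ (fun z => (l.map fun a => Sa a z).prod) := by
  induction l using Multiset.induction with
  | empty =>
    simp only [Multiset.map_zero, Multiset.prod_zero]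
    exact differentiable_const _
  | cons a l ih =>
    simp only [Multiset.map_cons, Multiset.prod_cons]
    exact (differentiable_Sa a).mul ih

private theorem g4_prod_pos (l : Multiset ℝ) {r : ℝ} (hr : 0 ≤ r) :
    ∃ t : ℝ, 0 < t ∧ (l.map fun a => Sa a (r : ℂ)).prod = (t : ℂ) := by
  induction l using Multiset.induction with
  | empty =>
    refine ⟨1, one_pos, ?_⟩
    simp only [Multiset.map_zero, Multiset.prod_zero, Complex.ofReal_one]
  | cons a l ih =>
    obtain ⟨t, ht, h1⟩ := ih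
    obtain ⟨t', ht', h2⟩ := Sa_pos a hr
    refine ⟨t' * t, mul_pos ht' ht, ?_⟩
    rw [Multiset.map_cons, Multiset.prod_cons, h1, h2, Complex.ofReal_mul]

theorem good_quot (l : Multiset ℝ) (s : ℕ) (hl : ∀ a ∈ l, 0 ≤ a) (hs : l.sum < s / 2) :
    Good (fun z => (l.map fun a => Sa a z).prod * ((Sa (1 / 2) z)⁻¹) ^ s)
      ((l.map sa).prod * ((sa (1 / 2))⁻¹) ^ s) where
  diff := by
    refine (g4_prod_diff l).differentiableOn.mul (DifferentiableOn.pow ?_ s)
    exact (differentiable_Sa (1 / 2)).differentiableOn.inv fun z hz => Sa_half_ne_zero hz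
  ser := fun z hz => quot_ser l s hz
  decay := quot_decay l s hl hs
  pos := by
    intro r hr
    obtain ⟨t, ht, h1⟩ := g4_prod_pos l hr
    obtain ⟨t', ht', h2⟩ := Sa_pos (1 / 2) hr
    refine ⟨t * (t'⁻¹) ^ s, by positivity, ?_⟩
    show (l.map fun a => Sa a (r : ℂ)).prod * ((Sa (1 / 2) (r : ℂ))⁻¹) ^ s = _
    rw [h1, h2]
    push_cast
    rfl

private theorem g4_add {Φ Ψ : ℂ → ℂ} {φ ψ : ℝ⟦X⟧} (h1 : Good Φ φ) (h2 : Good Ψ ψ) :
    Good (fun z => Φ z + Ψ z) (φ + ψ) where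
  diff := h1.diff.add h2.diff
  ser := by
    intro z hz
    have h := (h1.ser z hz).add (h2.ser z hz)
    have he : (fun j => ((coeff j (φ + ψ) : ℝ) : ℂ) * z ^ j) =
        fun j => ((coeff j φ : ℝ) : ℂ) * z ^ j + ((coeff j ψ : ℝ) : ℂ) * z ^ j := by
      funext j
      rw [map_add, Complex.ofReal_add, add_mul]
    rw [he]
    exact h
  decay := by
    obtain ⟨C1, e1, he1, hd1⟩ := h1.decay
    obtain ⟨C2, e2, he2, hd2⟩ := h2.decay
    refine ⟨|C1| + |C2|, min e1 e2, lt_min he1 he2, ?_⟩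
    intro z hz
    have hs : 0 ≤ Real.sqrt ‖z‖ := Real.sqrt_nonneg _
    have a1 : Real.exp (-e1 * Real.sqrt ‖z‖) ≤ Real.exp (-(min e1 e2) * Real.sqrt ‖z‖) :=
      Real.exp_le_exp.2 (mul_le_mul_of_nonneg_right (neg_le_neg (min_le_left _ _)) hs)
    have a2 : Real.exp (-e2 * Real.sqrt ‖z‖) ≤ Real.exp (-(min e1 e2) * Real.sqrt ‖z‖) :=
      Real.exp_le_exp.2 (mul_le_mul_of_nonneg_right (neg_le_neg (min_le_right _ _)) hs)
    calc ‖Φ z + Ψ z‖ ≤ ‖Φ z‖ + ‖Ψ z‖ := norm_add_le _ _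
      _ ≤ C1 * Real.exp (-e1 * Real.sqrt ‖z‖) + C2 * Real.exp (-e2 * Real.sqrt ‖z‖) :=
          add_le_add (hd1 z hz) (hd2 z hz)
      _ ≤ |C1| * Real.exp (-(min e1 e2) * Real.sqrt ‖z‖) +
          |C2| * Real.exp (-(min e1 e2) * Real.sqrt ‖z‖) := by
          refine add_le_add ?_ ?_
          · exact (mul_le_mul_of_nonneg_right (le_abs_self C1) (Real.exp_pos _).le).trans
              (mul_le_mul_of_nonneg_left a1 (abs_nonneg _))
          · exact (mul_le_mul_of_nonneg_right (le_abs_self C2) (Real.exp_pos _).le).trans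
              (mul_le_mul_of_nonneg_left a2 (abs_nonneg _))
      _ = (|C1| + |C2|) * Real.exp (-(min e1 e2) * Real.sqrt ‖z‖) := by ring
  pos := by
    intro r hr
    obtain ⟨t, ht, h3⟩ := h1.pos r hr
    obtain ⟨t', ht', h4⟩ := h2.pos r hr
    refine ⟨t + t', add_pos ht ht', ?_⟩
    show Φ r + Ψ r = _
    rw [h3, h4, Complex.ofReal_add]

private theorem g4_smul {Φ : ℂ → ℂ} {φ : ℝ⟦X⟧} {c : ℝ} (hc : 0 < c) (h1 : Good Φ φ) :
    Good (fun z => (c : ℂ) * Φ z) (c • φ) where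
  diff := h1.diff.const_mul _
  ser := by
    intro z hz
    have h := (h1.ser z hz).mul_left (c : ℂ)
    have he : (fun j => ((coeff j (c • φ) : ℝ) : ℂ) * z ^ j) =
        fun j => (c : ℂ) * (((coeff j φ : ℝ) : ℂ) * z ^ j) := by
      funext j
      rw [map_smul, smul_eq_mul, Complex.ofReal_mul, mul_assoc]
    rw [he]
    exact h
  decay := by
    obtain ⟨C, e, he, hd⟩ := h1.decay
    refine ⟨c * C, e, he, ?_⟩
    intro z hz
    rw [norm_mul, Complex.norm_real, Real.norm_of_nonneg hc.le, mul_assoc]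
    exact mul_le_mul_of_nonneg_left (hd z hz) hc.le
  pos := by
    intro r hr
    obtain ⟨t, ht, h3⟩ := h1.pos r hr
    refine ⟨c * t, mul_pos hc ht, ?_⟩
    show (c : ℂ) * Φ r = _
    rw [h3, Complex.ofReal_mul]

private theorem g4_one {a : ℝ} (ha : 0 ≤ a) (ha' : a < 1 / 2) :
    Good (fun z => Sa a z * (Sa (1 / 2) z)⁻¹) (sa a * (sa (1 / 2))⁻¹) := by
  have h := good_quot {a} 1 (by
    intro b hb
    rw [Multiset.mem_singleton] at hb
    rw [hb]
    exact ha) (by
    rw [Multiset.sum_singleton, Nat.cast_one]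
    exact ha')
  simpa only [Multiset.map_singleton, Multiset.prod_singleton, pow_one] using h

theorem good_RR : Good RR rr := by
  have h1 := g4_smul (c := 1 / 30) (by norm_num)
    (g4_one (a := 1 / 60) (by norm_num) (by norm_num))
  have h2 := g4_smul (c := 11 / 30) (by norm_num)
    (g4_one (a := 11 / 60) (by norm_num) (by norm_num))
  have h3 := g4_smul (c := 19 / 30) (by norm_num)
    (g4_one (a := 19 / 60) (by norm_num) (by norm_num))
  have h4 := g4_smul (c := 29 / 30) (by norm_num)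
    (g4_one (a := 29 / 60) (by norm_num) (by norm_num))
  have h := g4_add (g4_add (g4_add h1 h2) h3) h4
  have e1 : RR = fun z =>
      ((1 / 30 : ℝ) : ℂ) * (Sa (1 / 60) z * (Sa (1 / 2) z)⁻¹) +
        ((11 / 30 : ℝ) : ℂ) * (Sa (11 / 60) z * (Sa (1 / 2) z)⁻¹) +
        ((19 / 30 : ℝ) : ℂ) * (Sa (19 / 60) z * (Sa (1 / 2) z)⁻¹) +
        ((29 / 30 : ℝ) : ℂ) * (Sa (29 / 60) z * (Sa (1 / 2) z)⁻¹) := by
    funext z
    unfold RR
    ring
  have e2 : rr = (1 / 30 : ℝ) • (sa (1 / 60) * (sa (1 / 2))⁻¹) +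
      (11 / 30 : ℝ) • (sa (11 / 60) * (sa (1 / 2))⁻¹) +
      (19 / 30 : ℝ) • (sa (19 / 60) * (sa (1 / 2))⁻¹) +
      (29 / 30 : ℝ) • (sa (29 / 60) * (sa (1 / 2))⁻¹) := by
    unfold rr
    simp only [add_mul, smul_mul_assoc]
  rw [e1, e2]
  exact h

end Pool.Agent.GPC
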