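import Pool.Agent.GPC.Defs
import Pool.Agent.OHG.All

set_option autoImplicit false

open PowerSeries Finset MeasureTheory

namespace Pool.Agent.GPC

open Pool.Agent.OHG

variable {V : Type} [Fintype V] [DecidableEq V]

private lemma t2_dom {ε : ℝ} (hε : 0 < ε) (t : ℝ) :
    Real.exp (-ε * Real.sqrt |t|) ≤ (1 + 24 / ε ^ 4) * (1 + t ^ 2)⁻¹ := by
  have h0 : 0 ≤ ε * Real.sqrt |t| := by positivity
  have h1 := Real.pow_div_factorial_le_exp (ε * Real.sqrt |t|) h0 4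
  have h3 : Real.sqrt |t| ^ 4 = t ^ 2 := by
    have h4 := Real.sq_sqrt (abs_nonneg t)
    calc Real.sqrt |t| ^ 4 = (Real.sqrt |t| ^ 2) ^ 2 := by ring
      _ = |t| ^ 2 := by rw [h4]
      _ = t ^ 2 := sq_abs t
  rw [mul_pow, h3] at h1
  have h5 : ((Nat.factorial 4 : ℕ) : ℝ) = 24 := by norm_num [Nat.factorial]
  rw [h5] at h1
  have e1 : Real.exp (-ε * Real.sqrt |t|) ≤ 1 := by
    rw [Real.exp_le_one_iff]
    linarith
  have e2 : Real.exp (-ε * Real.sqrt |t|) * t ^ 2 ≤ 24 / ε ^ 4 := by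
    rw [le_div_iff₀ (by positivity)]
    have e3 : Real.exp (-ε * Real.sqrt |t|) * Real.exp (ε * Real.sqrt |t|) = 1 := by
      rw [← Real.exp_add]
      have : -ε * Real.sqrt |t| + ε * Real.sqrt |t| = 0 := by ring
      rw [this, Real.exp_zero]
    have e4 := mul_le_mul_of_nonneg_left h1 (Real.exp_pos (-ε * Real.sqrt |t|)).le
    rw [e3] at e4
    have e5 : Real.exp (-ε * Real.sqrt |t|) * (ε ^ 4 * t ^ 2 / 24) =
        Real.exp (-ε * Real.sqrt |t|) * t ^ 2 * ε ^ 4 / 24 := by ring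
    rw [e5] at e4
    linarith
  rw [← div_eq_mul_inv, le_div_iff₀ (by positivity)]
  linarith [e1, e2]

private lemma t2_norm_exp (u : ℝ) (z : ℂ) : ‖Complex.exp (u * z)‖ = Real.exp (u * z.re) := by
  rw [Complex.norm_exp, Complex.re_ofReal_mul]

private lemma t2_bound {Φ : ℂ → ℂ} {C ε : ℝ} (hε : 0 < ε)
    (hdec : ∀ z : ℂ, -1 ≤ z.re → ‖Φ z‖ ≤ C * Real.exp (-ε * Real.sqrt ‖z‖)) (u : ℝ) (z : ℂ)
    (hz : -1 ≤ z.re) :
    ‖Φ z * Complex.exp (u * z)‖ ≤ |C| * Real.exp (-ε * Real.sqrt |z.im|) * Real.exp (u * z.re) := by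
  rw [norm_mul, t2_norm_exp]
  refine mul_le_mul_of_nonneg_right ?_ (Real.exp_pos _).le
  refine (hdec z hz).trans ?_
  refine mul_le_mul (le_abs_self C) ?_ (Real.exp_pos _).le (abs_nonneg C)
  rw [Real.exp_le_exp]
  have h1 : Real.sqrt |z.im| ≤ Real.sqrt ‖z‖ := Real.sqrt_le_sqrt (Complex.abs_im_le_norm z)
  have h2 := mul_le_mul_of_nonneg_left h1 hε.le
  linarith

private lemma t2_int {Φ : ℂ → ℂ} {φ : ℝ⟦X⟧} (hΦ : Good Φ φ) {d : ℝ} (hd : -1 ≤ d) (u : ℝ) :
    Integrable (fun t : ℝ => Φ (d + Complex.I * t) * Complex.exp (u * (d + Complex.I * t))) := by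
  obtain ⟨C, ε, hε, hdec⟩ := hΦ.decay
  have hre : ∀ t : ℝ, ((d : ℂ) + Complex.I * (t : ℂ)).re = d := fun t => by simp
  have him : ∀ t : ℝ, ((d : ℂ) + Complex.I * (t : ℂ)).im = t := fun t => by simp
  have hc1 : Continuous fun t : ℝ => (d : ℂ) + Complex.I * (t : ℂ) := by fun_prop
  have hc2 : Continuous fun t : ℝ => Φ (d + Complex.I * t) :=
    hΦ.diff.continuousOn.comp_continuous hc1 (fun t => by
      show -2 < ((d : ℂ) + Complex.I * (t : ℂ)).re
      rw [hre]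
      linarith)
  have hc3 : Continuous fun t : ℝ => Φ (d + Complex.I * t) *
      Complex.exp (u * (d + Complex.I * t)) := hc2.mul (by fun_prop)
  refine Integrable.mono' (integrable_inv_one_add_sq.const_mul
    (|C| * (1 + 24 / ε ^ 4) * Real.exp (u * d))) hc3.aestronglyMeasurable
    (Filter.Eventually.of_forall fun t => ?_)
  have h1 := t2_bound hε hdec u ((d : ℂ) + Complex.I * (t : ℂ)) (by rw [hre]; exact hd)
  rw [hre, him] at h1
  refine h1.trans ?_
  have h2 := t2_dom hε t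
  have h3 := mul_le_mul_of_nonneg_left h2 (mul_nonneg (abs_nonneg C) (Real.exp_pos (u * d)).le)
  calc |C| * Real.exp (-ε * Real.sqrt |t|) * Real.exp (u * d)
      = |C| * Real.exp (u * d) * Real.exp (-ε * Real.sqrt |t|) := by ring
    _ ≤ |C| * Real.exp (u * d) * ((1 + 24 / ε ^ 4) * (1 + t ^ 2)⁻¹) := h3
    _ = |C| * (1 + 24 / ε ^ 4) * Real.exp (u * d) * (1 + t ^ 2)⁻¹ := by ring

private lemma t2_rect {F : ℂ → ℂ} (hF : DifferentiableOn ℂ F {z | -2 < z.re}) {c : ℝ}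
    (hc : -1 ≤ c) (R : ℝ) :
    (∫ t in (-R)..R, F (c + Complex.I * t)) - (∫ t in (-R)..R, F ((-1 : ℝ) + Complex.I * t)) =
      Complex.I * ((∫ x in (-1 : ℝ)..c, F (x + (-R : ℝ) * Complex.I)) -
        ∫ x in (-1 : ℝ)..c, F (x + (R : ℝ) * Complex.I)) := by
  have h := Complex.integral_boundary_rect_eq_zero_of_differentiableOn F
    (⟨-1, -R⟩ : ℂ) (⟨c, R⟩ : ℂ) (hF.mono (by
      intro z hz
      have h1 : z.re ∈ Set.uIcc (-1 : ℝ) c := hz.1
      rw [Set.uIcc_of_le hc] at h1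
      show -2 < z.re
      linarith [h1.1]))
  simp only [smul_eq_mul] at h
  have e1 : ∀ t : ℝ, (c : ℂ) + (t : ℂ) * Complex.I = c + Complex.I * t := fun t => by ring
  have e2 : ∀ t : ℝ, ((-1 : ℝ) : ℂ) + (t : ℂ) * Complex.I = ((-1 : ℝ) : ℂ) + Complex.I * t :=
    fun t => by ring
  simp only [e1, e2] at h
  have hI : Complex.I * Complex.I = -1 := Complex.I_mul_I
  linear_combination (-Complex.I) * h + ((∫ t in (-R)..R, F (c + Complex.I * t)) -
    (∫ t in (-R)..R, F ((-1 : ℝ) + Complex.I * t))) * hI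

theorem thc_eq {Φ : ℂ → ℂ} {φ : ℝ⟦X⟧} (hΦ : Good Φ φ) {c : ℝ} (hc : -1 ≤ c) (u : ℝ) :
    thc Φ c u = thc Φ (-1) u := by
  obtain ⟨C, ε, hε, hdec⟩ := hΦ.decay
  obtain ⟨F, hF⟩ : ∃ F : ℂ → ℂ, F = fun z => Φ z * Complex.exp (u * z) := ⟨_, rfl⟩
  have hFd : DifferentiableOn ℂ F {z | -2 < z.re} := by
    rw [hF]
    exact hΦ.diff.mul (by fun_prop)
  have hint : ∀ d : ℝ, -1 ≤ d → Integrable (fun t : ℝ => F (d + Complex.I * t)) := by
    intro d hd
    rw [hF]
    exact t2_int hΦ hd u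
  have hlim : ∀ d : ℝ, -1 ≤ d → Filter.Tendsto
      (fun R : ℝ => ∫ t in (-R)..R, F (d + Complex.I * t)) Filter.atTop
      (nhds (∫ t : ℝ, F (d + Complex.I * t))) := fun d hd =>
    intervalIntegral_tendsto_integral (hint d hd) Filter.tendsto_neg_atTop_atBot Filter.tendsto_id
  have hexp : Filter.Tendsto (fun R : ℝ => Real.exp (-ε * Real.sqrt R)) Filter.atTop (nhds 0) :=
    Real.tendsto_exp_atBot.comp (Real.tendsto_sqrt_atTop.const_mul_atTop_of_neg (by linarith))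
  obtain ⟨M, hM⟩ : ∃ M : ℝ, M = Real.exp (|u| * (|c| + 1)) := ⟨_, rfl⟩
  have hbd : ∀ R s : ℝ, 0 ≤ R → |s| = R →
      ‖∫ x in (-1 : ℝ)..c, F (x + (s : ℝ) * Complex.I)‖ ≤
        |C| * Real.exp (-ε * Real.sqrt R) * M * |c - -1| := by
    intro R s _ hs
    refine intervalIntegral.norm_integral_le_of_norm_le_const fun x hx => ?_
    rw [Set.uIoc_of_le hc] at hx
    have hre : ((x : ℂ) + (s : ℂ) * Complex.I).re = x := by simp
    have him : ((x : ℂ) + (s : ℂ) * Complex.I).im = s := by simp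
    have h1 := t2_bound hε hdec u ((x : ℂ) + (s : ℂ) * Complex.I) (by rw [hre]; exact hx.1.le)
    rw [hre, him, hs] at h1
    rw [hF]
    refine h1.trans ?_
    refine mul_le_mul_of_nonneg_left ?_ (mul_nonneg (abs_nonneg C) (Real.exp_pos _).le)
    rw [hM, Real.exp_le_exp]
    have h2 : |x| ≤ |c| + 1 := by
      rw [abs_le]
      have h3 := le_abs_self c
      have h4 := abs_nonneg c
      exact ⟨by linarith [hx.1], by linarith [hx.2]⟩
    calc u * x ≤ |u * x| := le_abs_self _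
      _ = |u| * |x| := abs_mul u x
      _ ≤ |u| * (|c| + 1) := mul_le_mul_of_nonneg_left h2 (abs_nonneg u)
  have hzero : Filter.Tendsto (fun R : ℝ => (∫ t in (-R)..R, F (c + Complex.I * t)) -
      (∫ t in (-R)..R, F ((-1 : ℝ) + Complex.I * t))) Filter.atTop (nhds 0) := by
    have hg : Filter.Tendsto (fun R : ℝ => 2 * |C| * M * |c - -1| *
        Real.exp (-ε * Real.sqrt R)) Filter.atTop (nhds 0) := by
      have := hexp.const_mul (2 * |C| * M * |c - -1|)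
      rwa [mul_zero] at this
    refine squeeze_zero_norm' ?_ hg
    filter_upwards [Filter.eventually_ge_atTop (0 : ℝ)] with R hR
    rw [t2_rect hFd hc R, norm_mul, Complex.norm_I, one_mul]
    refine (norm_sub_le _ _).trans ?_
    have h1 := hbd R (-R) hR (by rw [abs_neg, abs_of_nonneg hR])
    have h2 := hbd R R hR (abs_of_nonneg hR)
    linarith
  have h1 := (hlim c hc).sub (hlim (-1) le_rfl)
  have h2 := tendsto_nhds_unique h1 hzero
  have h3 := sub_eq_zero.1 h2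
  rw [hF] at h3
  unfold thc
  exact congrArg (fun x : ℂ => (((1 / (2 * Real.pi) : ℝ)) : ℂ) * x) h3

end Pool.Agent.GPC
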