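import Pool.Agent.GPC.Defs
import Pool.Agent.OHG.All
import Pool.Agent.GPC.T2

set_option autoImplicit false

open PowerSeries Finset MeasureTheory

namespace Pool.Agent.GPC

open Pool.Agent.OHG

variable {V : Type} [Fintype V] [DecidableEq V]

private lemma t3_exp_bound {δ : ℝ} (hδ : 0 < δ) (t : ℝ) :
    Real.exp (-(δ * Real.sqrt |t|)) ≤ (1 + 24 / δ ^ 4) * (1 + t ^ 2)⁻¹ := by
  have h1 : (0 : ℝ) < 1 + t ^ 2 := by positivity
  rw [← div_eq_mul_inv, le_div_iff₀ h1]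
  have hs : 0 ≤ δ * Real.sqrt |t| := by positivity
  have h2 : (δ * Real.sqrt |t|) ^ 4 / 24 ≤ Real.exp (δ * Real.sqrt |t|) := by
    have := Real.pow_div_factorial_le_exp (δ * Real.sqrt |t|) hs 4
    have h24 : ((Nat.factorial 4 : ℕ) : ℝ) = 24 := by norm_num [Nat.factorial]
    rwa [h24] at this
  have h3 : (δ * Real.sqrt |t|) ^ 4 = δ ^ 4 * t ^ 2 := by
    have : Real.sqrt |t| ^ 4 = t ^ 2 := by
      have h4 : Real.sqrt |t| ^ 2 = |t| := Real.sq_sqrt (abs_nonneg t)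
      calc Real.sqrt |t| ^ 4 = (Real.sqrt |t| ^ 2) ^ 2 := by ring
        _ = |t| ^ 2 := by rw [h4]
        _ = t ^ 2 := sq_abs t
    rw [mul_pow, this]
  rw [h3] at h2
  have h5 : t ^ 2 * Real.exp (-(δ * Real.sqrt |t|)) ≤ 24 / δ ^ 4 := by
    rw [Real.exp_neg, ← div_eq_mul_inv, div_le_div_iff₀ (Real.exp_pos _) (by positivity)]
    linarith
  have h6 : Real.exp (-(δ * Real.sqrt |t|)) ≤ 1 := by
    rw [Real.exp_le_one_iff]
    linarith
  nlinarith

private lemma t3_line {Φ : ℂ → ℂ} {C0 ε : ℝ} (hC0 : 0 ≤ C0)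
    (hd : ∀ z : ℂ, -1 ≤ z.re → ‖Φ z‖ ≤ C0 * Real.exp (-ε * Real.sqrt ‖z‖))
    {κ u δ m : ℝ} (hκ : -1 ≤ κ) (hδ : 0 < δ)
    (hm : ∀ t : ℝ, m + δ * Real.sqrt |t| ≤ ε * Real.sqrt ‖(κ : ℂ) + Complex.I * t‖) :
    ‖thc Φ κ u‖ ≤ (1 / (2 * Real.pi)) * (C0 * Real.exp (u * κ - m) * (1 + 24 / δ ^ 4) *
      ∫ t : ℝ, (1 + t ^ 2)⁻¹) := by
  unfold thc
  rw [norm_mul, Complex.norm_real, Real.norm_eq_abs,
    abs_of_nonneg (by positivity : (0 : ℝ) ≤ 1 / (2 * Real.pi))]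
  refine mul_le_mul_of_nonneg_left ?_ (by positivity)
  rw [← integral_const_mul]
  refine norm_integral_le_of_norm_le (integrable_inv_one_add_sq.const_mul _) ?_
  filter_upwards with t
  have hre : -1 ≤ ((κ : ℂ) + Complex.I * t).re := by simpa using hκ
  have h1 := hd _ hre
  have h2 : ‖Complex.exp ((u : ℂ) * ((κ : ℂ) + Complex.I * t))‖ = Real.exp (u * κ) := by
    rw [Complex.norm_exp]
    congr 1
    simp
  rw [norm_mul, h2]
  have h3 : Real.exp (-ε * Real.sqrt ‖(κ : ℂ) + Complex.I * t‖) ≤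
      Real.exp (-m) * Real.exp (-(δ * Real.sqrt |t|)) := by
    rw [← Real.exp_add, Real.exp_le_exp]
    have := hm t
    linarith
  have h4 := t3_exp_bound hδ t
  calc ‖Φ ((κ : ℂ) + Complex.I * t)‖ * Real.exp (u * κ)
      ≤ (C0 * Real.exp (-ε * Real.sqrt ‖(κ : ℂ) + Complex.I * t‖)) * Real.exp (u * κ) :=
        mul_le_mul_of_nonneg_right h1 (Real.exp_pos _).le
    _ ≤ (C0 * (Real.exp (-m) * Real.exp (-(δ * Real.sqrt |t|)))) * Real.exp (u * κ) := by
        gcongr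
    _ ≤ (C0 * (Real.exp (-m) * ((1 + 24 / δ ^ 4) * (1 + t ^ 2)⁻¹))) * Real.exp (u * κ) := by
        gcongr
    _ = C0 * Real.exp (u * κ - m) * (1 + 24 / δ ^ 4) * (1 + t ^ 2)⁻¹ := by
        rw [sub_eq_add_neg, Real.exp_add]
        ring

theorem thc_bound {Φ : ℂ → ℂ} {φ : ℝ⟦X⟧} (hΦ : Good Φ φ) :
    ∃ C c : ℝ, 0 < c ∧ ∀ u : ℝ, 0 < u →
      ‖thc Φ (-1) u‖ ≤ C * Real.exp (-c * u - c / Real.sqrt u) := by
  obtain ⟨C0, ε, hε, hd⟩ := hΦ.decay
  have hC0 : 0 ≤ C0 := by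
    have h := hd 0 (by simp)
    simp only [norm_zero, Real.sqrt_zero, mul_zero, Real.exp_zero, mul_one] at h
    exact (norm_nonneg _).trans h
  set I0 : ℝ := ∫ t : ℝ, (1 + t ^ 2)⁻¹ with hI0
  have hI0n : 0 ≤ I0 := by
    rw [hI0]
    exact integral_nonneg fun t => by positivity
  set A : ℝ := (1 / (2 * Real.pi)) * (C0 * (1 + 24 / ε ^ 4) * I0) with hA
  set B : ℝ := (1 / (2 * Real.pi)) * (C0 * Real.exp 1 * (1 + 24 / (ε / 2) ^ 4) * I0) with hB
  have hAn : 0 ≤ A := by rw [hA]; positivity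
  have hBn : 0 ≤ B := by rw [hB]; positivity
  refine ⟨max A B, min (1 / 2) (ε / 4), lt_min (by norm_num) (by linarith), fun u hu => ?_⟩
  -- the line `Re z = -1`
  have hnorm : ∀ κ t : ℝ, |t| ≤ ‖(κ : ℂ) + Complex.I * t‖ ∧ |κ| ≤ ‖(κ : ℂ) + Complex.I * t‖ := by
    intro κ t
    constructor
    · have := Complex.abs_im_le_norm ((κ : ℂ) + Complex.I * t)
      simpa using this
    · have := Complex.abs_re_le_norm ((κ : ℂ) + Complex.I * t)
      simpa using this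
  have h1 : ‖thc Φ (-1) u‖ ≤ A * Real.exp (-u) := by
    have h := t3_line (u := u) (κ := -1) (δ := ε) (m := 0) hC0 hd le_rfl hε (fun t => by
      rw [zero_add]
      exact mul_le_mul_of_nonneg_left (Real.sqrt_le_sqrt (hnorm (-1) t).1) hε.le)
    refine h.trans (le_of_eq ?_)
    rw [hA]
    have : u * -1 - 0 = -u := by ring
    rw [this]
    ring
  -- the line `Re z = 1 / u`
  have hsu : 0 < Real.sqrt u := Real.sqrt_pos.2 hu
  have h2 : ‖thc Φ (-1) u‖ ≤ B * Real.exp (-(ε / 2 / Real.sqrt u)) := by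
    have hiu : 0 < 1 / u := by positivity
    rw [← thc_eq hΦ (c := 1 / u) (by linarith) u]
    have h := t3_line (u := u) (κ := 1 / u) (δ := ε / 2) (m := ε / 2 / Real.sqrt u) hC0 hd
      (by linarith) (by linarith) (fun t => by
        have e1 := Real.sqrt_le_sqrt (hnorm (1 / u) t).1
        have e2 := Real.sqrt_le_sqrt (hnorm (1 / u) t).2
        have e3 : Real.sqrt |1 / u| = 1 / Real.sqrt u := by
          rw [abs_of_pos hiu, Real.sqrt_div zero_le_one, Real.sqrt_one]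
        rw [e3] at e2
        have e4 : ε / 2 / Real.sqrt u = ε / 2 * (1 / Real.sqrt u) := by ring
        rw [e4]
        nlinarith)
    refine h.trans (le_of_eq ?_)
    rw [hB]
    have e5 : u * (1 / u) - ε / 2 / Real.sqrt u = 1 + -(ε / 2 / Real.sqrt u) := by
      field_simp
      ring
    rw [e5, Real.exp_add]
    ring
  -- geometric mean
  have hM : 0 ≤ max A B := le_max_of_le_left hAn
  have h3 : ‖thc Φ (-1) u‖ ^ 2 ≤
      (max A B * Real.exp (-(u / 2) - ε / 4 / Real.sqrt u)) ^ 2 := by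
    have e6 : (max A B * Real.exp (-(u / 2) - ε / 4 / Real.sqrt u)) ^ 2 =
        (max A B * Real.exp (-u)) * (max A B * Real.exp (-(ε / 2 / Real.sqrt u))) := by
      rw [mul_pow, ← Real.exp_nat_mul]
      have e7 : ((2 : ℕ) : ℝ) * (-(u / 2) - ε / 4 / Real.sqrt u) =
          -u + -(ε / 2 / Real.sqrt u) := by
        push_cast
        ring
      rw [e7, Real.exp_add]
      ring
    rw [e6, sq]
    refine mul_le_mul ?_ ?_ (norm_nonneg _) (by positivity)
    · exact h1.trans (mul_le_mul_of_nonneg_right (le_max_left _ _) (Real.exp_pos _).le)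
    · exact h2.trans (mul_le_mul_of_nonneg_right (le_max_right _ _) (Real.exp_pos _).le)
  have h4 := le_of_sq_le_sq h3 (by positivity)
  refine h4.trans (mul_le_mul_of_nonneg_left ?_ hM)
  rw [Real.exp_le_exp]
  have m1 := min_le_left (1 / 2) (ε / 4)
  have m2 := min_le_right (1 / 2) (ε / 4)
  have e8 : min (1 / 2) (ε / 4) * u ≤ 1 / 2 * u := mul_le_mul_of_nonneg_right m1 hu.le
  have e9 : min (1 / 2) (ε / 4) / Real.sqrt u ≤ ε / 4 / Real.sqrt u :=
    div_le_div_of_nonneg_right m2 hsu.le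
  linarith

end Pool.Agent.GPC
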