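import Pool.Agent.GPC.Defs
import Pool.Agent.OHG.All

set_option autoImplicit false

open PowerSeries Finset MeasureTheory

namespace Pool.Agent.GPC

open Pool.Agent.OHG

variable {V : Type} [Fintype V] [DecidableEq V]

private theorem t1_lim (Y s : ℂ) (hs : s ∈ Complex.slitPlane) :
    Filter.Tendsto (fun t : ℝ => Complex.log (Y + s * t) - (Real.log t : ℂ)) Filter.atTop
      (nhds (Complex.log s)) := by
  have hs0 : s ≠ 0 := Complex.slitPlane_ne_zero hs
  have h1 : Filter.Tendsto (fun t : ℝ => Y / (t : ℂ) + s) Filter.atTop (nhds s) := by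
    have h2 : Filter.Tendsto (fun t : ℝ => Y * ((t⁻¹ : ℝ) : ℂ)) Filter.atTop (nhds (Y * (0 : ℝ))) :=
      ((Complex.continuous_ofReal.tendsto 0).comp tendsto_inv_atTop_zero).const_mul Y
    have h3 := h2.add_const s
    simp only [Complex.ofReal_zero, mul_zero, zero_add] at h3
    refine h3.congr (fun t => ?_)
    rw [Complex.ofReal_inv, div_eq_mul_inv]
  have h4 : Filter.Tendsto (fun t : ℝ => Complex.log (Y / (t : ℂ) + s)) Filter.atTop
      (nhds (Complex.log s)) := (continuousAt_clog hs).tendsto.comp h1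
  refine h4.congr' ?_
  filter_upwards [Filter.eventually_gt_atTop (0 : ℝ), h1.eventually_ne hs0] with t ht hne
  have ht' : (t : ℂ) ≠ 0 := by exact_mod_cast ht.ne'
  have h5 : Y + s * t = (t : ℂ) * (Y / t + s) := by
    field_simp
  rw [h5, Complex.log_ofReal_mul ht hne, add_sub_cancel_left]

private theorem t1_bound (y z : ℂ) (p : ℝ) (hp : 0 < p) (h : p ≤ ‖z - y‖) :
    1 + ‖z‖ ≤ (1 + (1 + ‖y‖) / p) * ‖z - y‖ := by
  have h1 : ‖z‖ ≤ ‖z - y‖ + ‖y‖ := by
    calc ‖z‖ = ‖(z - y) + y‖ := by rw [sub_add_cancel]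
      _ ≤ _ := norm_add_le _ _
  have h2 : 1 + ‖y‖ ≤ (1 + ‖y‖) / p * ‖z - y‖ := by
    rw [div_mul_eq_mul_div, le_div_iff₀ hp]
    exact mul_le_mul_of_nonneg_left h (by positivity)
  linarith

private theorem t1_line (t : ℝ) : 1 + t ^ 2 ≤ (1 + ‖(-1 : ℂ) + t * Complex.I‖) ^ 2 := by
  have h1 : |t| ≤ ‖(-1 : ℂ) + t * Complex.I‖ := by
    have := Complex.abs_im_le_norm ((-1 : ℂ) + t * Complex.I)
    simpa using this
  have h2 : t ^ 2 = |t| ^ 2 := (sq_abs t).symm
  have h3 := abs_nonneg t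
  nlinarith

private theorem t1_kernel (Y : ℂ) (hY : 0 < Y.re) :
    Integrable (fun t : ℝ => 1 / (Y - Complex.I * t) + 1 / (1 + Complex.I * t)) ∧
    ∫ t : ℝ, (1 / (Y - Complex.I * t) + 1 / (1 + Complex.I * t)) = 2 * Real.pi := by
  have hYs : ∀ t : ℝ, Y - Complex.I * t ∈ Complex.slitPlane := fun t => by
    left; simpa using hY
  have h1s : ∀ t : ℝ, 1 + Complex.I * t ∈ Complex.slitPlane := fun t => by
    left; simp
  have hY0 : ∀ t : ℝ, Y - Complex.I * t ≠ 0 := fun t => Complex.slitPlane_ne_zero (hYs t)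
  have h10 : ∀ t : ℝ, 1 + Complex.I * t ≠ 0 := fun t => Complex.slitPlane_ne_zero (h1s t)
  have hint : Integrable (fun t : ℝ => 1 / (Y - Complex.I * t) + 1 / (1 + Complex.I * t)) := by
    have hb := integrable_inv_one_add_sq.const_mul (‖Y + 1‖ * (1 + ‖1 + Y‖ / Y.re))
    refine hb.mono' ?_ ?_
    · apply Continuous.aestronglyMeasurable
      exact (continuous_const.div (by fun_prop) hY0).add (continuous_const.div (by fun_prop) h10)
    · filter_upwards with t
      have e1 : 1 / (Y - Complex.I * t) + 1 / (1 + Complex.I * t) =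
          (Y + 1) / ((Y - Complex.I * t) * (1 + Complex.I * t)) := by
        field_simp [hY0 t, h10 t]
        ring
      rw [e1, norm_div, norm_mul]
      have e2 : ‖1 + Complex.I * t‖ ^ 2 = 1 + t ^ 2 := by
        rw [← Complex.normSq_eq_norm_sq, Complex.normSq_apply]
        simp
        ring
      have e3 : Y.re ≤ ‖Y - Complex.I * t‖ := by
        have := Complex.abs_re_le_norm (Y - Complex.I * t)
        have h2 : (Y - Complex.I * t).re = Y.re := by simp
        rw [h2, abs_of_pos hY] at this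
        exact this
      have e4 : ‖1 + Complex.I * t‖ ≤ (1 + ‖1 + Y‖ / Y.re) * ‖Y - Complex.I * t‖ := by
        have h3 : ‖1 + Complex.I * t‖ ≤ ‖1 + Y‖ + ‖Y - Complex.I * t‖ := by
          calc ‖1 + Complex.I * t‖ = ‖(1 + Y) - (Y - Complex.I * t)‖ := by congr 1; ring
            _ ≤ _ := norm_sub_le _ _
        have h4 : ‖1 + Y‖ ≤ ‖1 + Y‖ / Y.re * ‖Y - Complex.I * t‖ := by
          rw [div_mul_eq_mul_div, le_div_iff₀ hY]
          exact mul_le_mul_of_nonneg_left e3 (norm_nonneg _)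
        linarith
      have hp1 : 0 < ‖1 + Complex.I * t‖ := norm_pos_iff.2 (h10 t)
      have hp2 : 0 < ‖Y - Complex.I * t‖ := norm_pos_iff.2 (hY0 t)
      rw [← e2, ← div_eq_mul_inv, div_le_div_iff₀ (by positivity) (by positivity)]
      have h5 := mul_le_mul_of_nonneg_left e4 (mul_nonneg (norm_nonneg (Y + 1)) hp1.le)
      nlinarith
  refine ⟨hint, ?_⟩
  have hder : ∀ t : ℝ, HasDerivAt (fun t : ℝ => Complex.I *
      (Complex.log (Y - Complex.I * t) - Complex.log (1 + Complex.I * t)))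
      (1 / (Y - Complex.I * t) + 1 / (1 + Complex.I * t)) t := by
    intro t
    have d0 : HasDerivAt (fun t : ℝ => Complex.I * (t : ℂ)) Complex.I t := by
      have := (Complex.ofRealCLM.hasDerivAt (x := t)).const_mul Complex.I
      simpa using this
    have d1 := (d0.const_sub Y).clog_real (hYs t)
    have d2 := (d0.const_add 1).clog_real (h1s t)
    refine ((d1.sub d2).const_mul Complex.I).congr_deriv ?_
    have hI := Complex.I_mul_I
    field_simp [hY0 t, h10 t]
    linear_combination (-(1 + Complex.I * t) - (Y - Complex.I * t)) * hI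
  have htop : Filter.Tendsto (fun t : ℝ => Complex.I *
      (Complex.log (Y - Complex.I * t) - Complex.log (1 + Complex.I * t))) Filter.atTop
      (nhds (Real.pi : ℂ)) := by
    have l1 := t1_lim Y (-Complex.I) (by right; simp)
    have l2 := t1_lim 1 Complex.I (by right; simp)
    have l3 := (l1.sub l2).const_mul Complex.I
    rw [Complex.log_neg_I, Complex.log_I] at l3
    have e : Complex.I * (-(Real.pi / 2 : ℂ) * Complex.I - (Real.pi : ℂ) / 2 * Complex.I) =
        (Real.pi : ℂ) := by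
      have hI := Complex.I_mul_I
      linear_combination (-(Real.pi : ℂ)) * hI
    rw [e] at l3
    refine l3.congr (fun t => ?_)
    rw [neg_mul, ← sub_eq_add_neg]
    ring
  have hbot : Filter.Tendsto (fun t : ℝ => Complex.I *
      (Complex.log (Y - Complex.I * t) - Complex.log (1 + Complex.I * t))) Filter.atBot
      (nhds (-(Real.pi : ℂ))) := by
    have l1 := t1_lim Y Complex.I (by right; simp)
    have l2 := t1_lim 1 (-Complex.I) (by right; simp)
    have l3 := (l1.sub l2).const_mul Complex.I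
    rw [Complex.log_neg_I, Complex.log_I] at l3
    have e : Complex.I * ((Real.pi : ℂ) / 2 * Complex.I - -(Real.pi / 2 : ℂ) * Complex.I) =
        -(Real.pi : ℂ) := by
      have hI := Complex.I_mul_I
      linear_combination (Real.pi : ℂ) * hI
    rw [e] at l3
    have l4 := l3.comp Filter.tendsto_neg_atBot_atTop
    refine l4.congr (fun t => ?_)
    simp only [Function.comp, Complex.ofReal_neg, mul_neg, neg_mul, neg_neg]
    rw [← sub_eq_add_neg]
    ring
  rw [integral_of_hasDerivAt_of_tendsto hder hint hbot htop]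
  ring

theorem cauchy_line {Φ : ℂ → ℂ} {φ : ℝ⟦X⟧} (hΦ : Good Φ φ) {y : ℂ} (hy : -1 < y.re) :
    (1 / (2 * Real.pi) : ℝ) * ∫ t : ℝ, Φ (-1 + Complex.I * t) / (y - (-1 + Complex.I * t)) =
      Φ y := by
  obtain ⟨C, ε, hε, hdec⟩ := hΦ.decay
  -- polynomial decay
  obtain ⟨A, hA0, hA⟩ : ∃ A : ℝ, 0 ≤ A ∧ ∀ z : ℂ, -1 ≤ z.re → ‖Φ z‖ ≤ A / (1 + ‖z‖) := by
    set m : ℝ := min 1 (ε ^ 2 / 2) with hm
    have hm0 : 0 < m := lt_min one_pos (by positivity)
    have hC0 : 0 ≤ C := by
      have h1 := (norm_nonneg _).trans (hdec 0 (by simp))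
      rw [norm_zero, Real.sqrt_zero, mul_zero, Real.exp_zero, mul_one] at h1
      exact h1
    refine ⟨C / m, by positivity, fun z hz => (hdec z hz).trans ?_⟩
    have h1 : 0 ≤ ‖z‖ := norm_nonneg z
    have h2 : m * (1 + ‖z‖) ≤ Real.exp (ε * Real.sqrt ‖z‖) := by
      have h3 := Real.quadratic_le_exp_of_nonneg (x := ε * Real.sqrt ‖z‖) (by positivity)
      have h4 : (ε * Real.sqrt ‖z‖) ^ 2 = ε ^ 2 * ‖z‖ := by
        rw [mul_pow, Real.sq_sqrt h1]
      have h5 : 0 ≤ ε * Real.sqrt ‖z‖ := by positivity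
      have h6 : m ≤ 1 := min_le_left _ _
      have h7 : m ≤ ε ^ 2 / 2 := min_le_right _ _
      nlinarith [mul_le_mul_of_nonneg_right h7 h1]
    have h3 : Real.exp (-ε * Real.sqrt ‖z‖) ≤ 1 / (m * (1 + ‖z‖)) := by
      rw [neg_mul, Real.exp_neg, ← one_div]
      exact one_div_le_one_div_of_le (by positivity) h2
    calc C * Real.exp (-ε * Real.sqrt ‖z‖) ≤ C * (1 / (m * (1 + ‖z‖))) :=
          mul_le_mul_of_nonneg_left h3 hC0
      _ = C / m / (1 + ‖z‖) := by field_simp
  set U : Set ℂ := {z | -2 < z.re} with hU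
  have hUo : IsOpen U := isOpen_lt continuous_const Complex.continuous_re
  have hyU : y ∈ U := by rw [hU, Set.mem_ofPred_eq]; linarith
  have hz2 : ∀ z ∈ U, z + 2 ≠ 0 := by
    intro z hz h0
    have h1 : (z + 2).re = 0 := by rw [h0]; simp
    rw [hU, Set.mem_ofPred_eq] at hz
    simp at h1
    linarith
  set h : ℂ → ℂ := fun z => Φ z - Φ y * (y + 2) / (z + 2) with hh
  have hhy : h y = 0 := by
    have := hz2 y hyU
    simp only [hh]
    field_simp
    ring
  have hhd : DifferentiableOn ℂ h U := by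
    refine hΦ.diff.sub ?_
    exact (differentiableOn_const _).div ((differentiableOn_id).add_const 2) hz2
  set g : ℂ → ℂ := dslope h y with hg
  have hgd : DifferentiableOn ℂ g U := (Complex.differentiableOn_dslope (hUo.mem_nhds hyU)).2 hhd
  have hgne : ∀ z, z ≠ y → g z = h z / (z - y) := by
    intro z hz
    rw [hg, dslope_of_ne _ hz, slope_def_field, hhy, sub_zero]
  -- bound of `h`
  obtain ⟨B, hB0, hB⟩ : ∃ B : ℝ, 0 ≤ B ∧ ∀ z : ℂ, -1 ≤ z.re → ‖h z‖ ≤ B / (1 + ‖z‖) := by
    refine ⟨A + ‖Φ y * (y + 2)‖ * 4, by positivity, fun z hz => ?_⟩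
    have h1 : 1 ≤ ‖z + 2‖ := by
      have h2 := Complex.re_le_norm (z + 2)
      have h3 : (z + 2).re = z.re + 2 := by simp
      rw [h3] at h2
      linarith
    have h2 : ‖z‖ ≤ ‖z + 2‖ + 2 := by
      calc ‖z‖ = ‖(z + 2) - 2‖ := by rw [add_sub_cancel_right]
        _ ≤ ‖z + 2‖ + ‖(2 : ℂ)‖ := norm_sub_le _ _
        _ = _ := by simp
    have h3 : 1 / ‖z + 2‖ ≤ 4 / (1 + ‖z‖) := by
      rw [div_le_div_iff₀ (by linarith) (by positivity)]
      linarith
    calc ‖h z‖ ≤ ‖Φ z‖ + ‖Φ y * (y + 2) / (z + 2)‖ := norm_sub_le _ _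
      _ ≤ A / (1 + ‖z‖) + ‖Φ y * (y + 2)‖ * (4 / (1 + ‖z‖)) := by
          refine add_le_add (hA z hz) ?_
          rw [norm_div, div_eq_mul_one_div]
          exact mul_le_mul_of_nonneg_left h3 (norm_nonneg _)
      _ = _ := by ring
  -- the line
  have hline : ∀ t : ℝ, ((-1 : ℂ) + t * Complex.I).re = -1 := fun t => by simp
  have hlineU : ∀ t : ℝ, (-1 : ℂ) + t * Complex.I ∈ U := fun t => by
    rw [hU, Set.mem_ofPred_eq, hline]; norm_num
  have hlne : ∀ t : ℝ, (-1 : ℂ) + t * Complex.I ≠ y := by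
    intro t h0
    have h1 := hline t
    rw [h0] at h1
    linarith
  set p : ℝ := y.re + 1 with hp
  have hp0 : 0 < p := by rw [hp]; linarith
  have hply : ∀ t : ℝ, p ≤ ‖((-1 : ℂ) + t * Complex.I) - y‖ := by
    intro t
    have h1 := Complex.abs_re_le_norm (((-1 : ℂ) + t * Complex.I) - y)
    rw [Complex.sub_re, hline, show -1 - y.re = -(y.re + 1) by ring, abs_neg,
      abs_of_pos hp0] at h1
    exact h1
  have hgcont : ContinuousOn g U := hgd.continuousOn
  have hgl : Continuous fun t : ℝ => g ((-1 : ℂ) + t * Complex.I) :=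
    hgcont.comp_continuous (by fun_prop) hlineU
  have hgint : Integrable fun t : ℝ => g ((-1 : ℂ) + t * Complex.I) := by
    refine (integrable_inv_one_add_sq.const_mul (B * (1 + (1 + ‖y‖) / p))).mono'
      hgl.aestronglyMeasurable ?_
    filter_upwards with t
    rw [hgne _ (hlne t), norm_div]
    have h1 := hB _ (hline t).ge
    have h2 := t1_bound y ((-1 : ℂ) + t * Complex.I) p hp0 (hply t)
    have h3 := t1_line t
    set z : ℂ := (-1 : ℂ) + t * Complex.I with hz
    have h4 : 0 < ‖z - y‖ := lt_of_lt_of_le hp0 (hply t)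
    have h5 : 0 ≤ 1 + (1 + ‖y‖) / p := by positivity
    calc ‖h z‖ / ‖z - y‖ ≤ (B / (1 + ‖z‖)) / ‖z - y‖ := by gcongr
      _ ≤ (B / (1 + ‖z‖)) * ((1 + (1 + ‖y‖) / p) / (1 + ‖z‖)) := by
          rw [div_eq_mul_inv _ ‖z - y‖]
          refine mul_le_mul_of_nonneg_left ?_ (by positivity)
          rw [inv_eq_one_div, div_le_div_iff₀ h4 (by positivity), one_mul]
          exact h2
      _ = B * (1 + (1 + ‖y‖) / p) / (1 + ‖z‖) ^ 2 := by field_simp
      _ ≤ B * (1 + (1 + ‖y‖) / p) / (1 + t ^ 2) := by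
          apply div_le_div_of_nonneg_left (by positivity) (by positivity) h3
      _ = _ := by rw [div_eq_mul_inv]
  -- decay of `g` for large arguments
  set r0 : ℝ := 2 * ‖y‖ + 1 with hr0
  have hgdec : ∀ z : ℂ, -1 ≤ z.re → ∀ N : ℝ, r0 ≤ N → N ≤ ‖z‖ → ‖g z‖ ≤ 2 * B / N ^ 2 := by
    intro z hz N hN hzN
    have hy0 := norm_nonneg y
    have hN1 : 1 ≤ N := by linarith
    have h1 : ‖z‖ / 2 ≤ ‖z - y‖ := by
      have h2 := norm_sub_norm_le z y
      linarith
    have hz0 : 0 < ‖z‖ := by linarith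
    have hne : z ≠ y := by
      rintro rfl
      linarith
    rw [hgne z hne, norm_div]
    calc ‖h z‖ / ‖z - y‖ ≤ (B / (1 + ‖z‖)) / (‖z‖ / 2) := by
          have := hB z hz
          gcongr
      _ ≤ (B / N) / (N / 2) := by
          gcongr
          linarith
      _ = 2 * B / N ^ 2 := by field_simp
  -- the rectangle
  have hrect : ∀ N : ℕ, r0 ≤ N →
      ‖∫ t in (-(N : ℝ))..N, g ((-1 : ℂ) + t * Complex.I)‖ ≤ 12 * B / N := by
    intro N hN
    have hN1 : (1 : ℝ) ≤ N := by
      have := norm_nonneg y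
      linarith
    have hN0 : (0 : ℝ) < N := by linarith
    have h1 := Complex.integral_boundary_rect_eq_zero_of_differentiableOn g
      (⟨-1, -(N : ℝ)⟩ : ℂ) (⟨N, N⟩ : ℂ) (hgd.mono (by
        intro z hz
        rw [Complex.mem_reProdIm] at hz
        have h2 := hz.1
        rw [Set.uIcc_of_le (by simp; linarith)] at h2
        rw [hU, Set.mem_ofPred_eq]
        have := h2.1
        simp at this
        linarith))
    simp only [smul_eq_mul] at h1
    have hb1 : ‖∫ x : ℝ in (-1 : ℝ)..N, g (x + ((-(N : ℝ) : ℝ) : ℂ) * Complex.I)‖ ≤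
        2 * B / (N : ℝ) ^ 2 * |(N : ℝ) - (-1)| := by
      apply intervalIntegral.norm_integral_le_of_norm_le_const
      intro x hx
      rw [Set.uIoc_of_le (by linarith)] at hx
      refine hgdec _ ?_ N hN ?_
      · simp; linarith [hx.1]
      · have h3 := Complex.abs_im_le_norm ((x : ℂ) + ((-(N : ℝ) : ℝ) : ℂ) * Complex.I)
        simp at h3
        simpa using h3
    have hb2 : ‖∫ x : ℝ in (-1 : ℝ)..N, g (x + ((N : ℝ) : ℂ) * Complex.I)‖ ≤
        2 * B / (N : ℝ) ^ 2 * |(N : ℝ) - (-1)| := by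
      apply intervalIntegral.norm_integral_le_of_norm_le_const
      intro x hx
      rw [Set.uIoc_of_le (by linarith)] at hx
      refine hgdec _ ?_ N hN ?_
      · simp; linarith [hx.1]
      · have h3 := Complex.abs_im_le_norm ((x : ℂ) + ((N : ℝ) : ℂ) * Complex.I)
        simp at h3
        simpa using h3
    have hb3 : ‖∫ t : ℝ in (-(N : ℝ))..N, g (((N : ℝ) : ℂ) + t * Complex.I)‖ ≤
        2 * B / (N : ℝ) ^ 2 * |(N : ℝ) - (-(N : ℝ))| := by
      apply intervalIntegral.norm_integral_le_of_norm_le_const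
      intro t ht
      refine hgdec _ ?_ N hN ?_
      · simp; linarith
      · have h3 := Complex.abs_re_le_norm (((N : ℝ) : ℂ) + t * Complex.I)
        simp at h3
        simpa using h3
    have hleft : Complex.I * (∫ t : ℝ in (-(N : ℝ))..N, g ((-1 : ℂ) + t * Complex.I)) =
        (∫ x : ℝ in (-1 : ℝ)..N, g (x + ((-(N : ℝ) : ℝ) : ℂ) * Complex.I)) -
        (∫ x : ℝ in (-1 : ℝ)..N, g (x + ((N : ℝ) : ℂ) * Complex.I)) +
        Complex.I * (∫ t : ℝ in (-(N : ℝ))..N, g (((N : ℝ) : ℂ) + t * Complex.I)) := by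
      have h2 : (((-1 : ℝ)) : ℂ) = -1 := by push_cast; ring
      rw [h2] at h1
      exact (sub_eq_zero.1 h1).symm
    have hn : ‖∫ t : ℝ in (-(N : ℝ))..N, g ((-1 : ℂ) + t * Complex.I)‖ =
        ‖Complex.I * (∫ t : ℝ in (-(N : ℝ))..N, g ((-1 : ℂ) + t * Complex.I))‖ := by
      rw [norm_mul, Complex.norm_I, one_mul]
    rw [hn, hleft]
    refine (norm_add_le _ _).trans ?_
    have h4 := norm_sub_le (∫ x : ℝ in (-1 : ℝ)..N, g (x + ((-(N : ℝ) : ℝ) : ℂ) * Complex.I))
      (∫ x : ℝ in (-1 : ℝ)..N, g (x + ((N : ℝ) : ℂ) * Complex.I))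
    rw [norm_mul, Complex.norm_I, one_mul]
    rw [abs_of_pos (by linarith)] at hb1 hb2 hb3
    have h5 : 2 * B / (N : ℝ) ^ 2 * ((N : ℝ) - (-1)) ≤ 4 * B / N := by
      rw [div_mul_eq_mul_div, div_le_div_iff₀ (by positivity) hN0]
      nlinarith [mul_nonneg hB0 (mul_nonneg hN0.le (by linarith : (0 : ℝ) ≤ N - 1))]
    have h6 : 2 * B / (N : ℝ) ^ 2 * ((N : ℝ) - (-(N : ℝ))) = 4 * B / N := by
      field_simp
      ring
    have h7 : 12 * B / N = 4 * B / N + 4 * B / N + 4 * B / N := by ring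
    linarith
  have hzero : ∫ t : ℝ, g ((-1 : ℂ) + t * Complex.I) = 0 := by
    have l1 := intervalIntegral_tendsto_integral hgint
      (Filter.tendsto_neg_atTop_atBot.comp (tendsto_natCast_atTop_atTop (R := ℝ)))
      (tendsto_natCast_atTop_atTop (R := ℝ))
    have l2 : Filter.Tendsto (fun N : ℕ => 12 * B / (N : ℝ)) Filter.atTop (nhds 0) :=
      tendsto_const_div_atTop_nhds_zero_nat _
    have l3 : Filter.Tendsto (fun N : ℕ => ∫ t in (-(N : ℝ))..N,
        g ((-1 : ℂ) + t * Complex.I)) Filter.atTop (nhds 0) := by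
      refine squeeze_zero_norm' ?_ l2
      filter_upwards [(tendsto_natCast_atTop_atTop (R := ℝ)).eventually_ge_atTop r0] with N hN
      exact hrect N hN
    exact tendsto_nhds_unique l1 l3
  -- conclusion
  obtain ⟨kint, kval⟩ := t1_kernel (y + 1) (by simpa using hp0)
  have hpt : ∀ t : ℝ, Φ (-1 + Complex.I * t) / (y - (-1 + Complex.I * t)) =
      -(g ((-1 : ℂ) + t * Complex.I)) + Φ y * (1 / (y + 1 - Complex.I * t) +
        1 / (1 + Complex.I * t)) := by
    intro t
    have e1 : (-1 : ℂ) + t * Complex.I = -1 + Complex.I * t := by ring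
    have h1 := hlne t
    have h2 := hz2 _ (hlineU t)
    rw [hgne _ h1]
    rw [e1] at h1 h2 ⊢
    simp only [hh]
    have h3 : y - (-1 + Complex.I * t) ≠ 0 := sub_ne_zero.2 h1.symm
    have h4 : -1 + Complex.I * t - y ≠ 0 := sub_ne_zero.2 h1
    have h5 : y + 1 - Complex.I * t ≠ 0 := by
      intro h0; apply h3; rw [← h0]; ring
    have h6 : 1 + Complex.I * t ≠ 0 := by
      intro h0; apply h2; rw [← h0]; ring
    have e3 : -1 + Complex.I * t - y = -(y + 1 - Complex.I * t) := by ring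
    have e4 : y - (-1 + Complex.I * t) = y + 1 - Complex.I * t := by ring
    have e5 : -1 + Complex.I * t + 2 = 1 + Complex.I * t := by ring
    rw [e3, e4, e5]
    field_simp
    ring
  have hfin : ∫ t : ℝ, Φ (-1 + Complex.I * t) / (y - (-1 + Complex.I * t)) =
      Φ y * (2 * Real.pi) := by
    have hneg : Integrable fun t : ℝ => -(g ((-1 : ℂ) + t * Complex.I)) := hgint.neg
    rw [integral_congr_ae (Filter.Eventually.of_forall hpt),
      integral_add hneg (kint.const_mul (Φ y)), integral_neg, hzero, neg_zero, zero_add,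
      integral_const_mul, kval]
  rw [hfin]
  have hpi : (Real.pi : ℂ) ≠ 0 := by exact_mod_cast Real.pi_ne_zero
  push_cast
  field_simp

end Pool.Agent.GPC
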