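import Pool.Agent.GPC.Defs
import Pool.Agent.OHG.All
import Pool.Agent.GPC.T1
import Pool.Agent.GPC.T3

set_option autoImplicit false

open PowerSeries Finset MeasureTheory

namespace Pool.Agent.GPC

open Pool.Agent.OHG

variable {V : Type} [Fintype V] [DecidableEq V]

private theorem t4_exp (e t : ℝ) (he : 0 < e) :
    Real.exp (-e * Real.sqrt |t|) ≤ (1 + 24 / e ^ 4) * (1 + t ^ 2)⁻¹ := by
  have hs : 0 ≤ Real.sqrt |t| := Real.sqrt_nonneg _
  have h4 : (Real.sqrt |t|) ^ 4 = t ^ 2 := by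
    calc (Real.sqrt |t|) ^ 4 = ((Real.sqrt |t|) ^ 2) ^ 2 := by ring
      _ = |t| ^ 2 := by rw [Real.sq_sqrt (abs_nonneg t)]
      _ = t ^ 2 := sq_abs t
  have hx : 0 ≤ e * Real.sqrt |t| := mul_nonneg he.le hs
  have h1 := Real.pow_div_factorial_le_exp (e * Real.sqrt |t|) hx 4
  have h1' : e ^ 4 * t ^ 2 ≤ 24 * Real.exp (e * Real.sqrt |t|) := by
    have h24 : ((Nat.factorial 4 : ℕ) : ℝ) = 24 := by norm_num [Nat.factorial]
    rw [h24, div_le_iff₀ (by norm_num), mul_pow, h4] at h1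
    linarith
  have h2 : (1 : ℝ) ≤ Real.exp (e * Real.sqrt |t|) := Real.one_le_exp hx
  have he4 : 0 < e ^ 4 := pow_pos he 4
  have h3 : t ^ 2 ≤ 24 / e ^ 4 * Real.exp (e * Real.sqrt |t|) := by
    rw [div_mul_eq_mul_div, le_div_iff₀ he4]
    linarith
  have h5 : 1 + t ^ 2 ≤ (1 + 24 / e ^ 4) * Real.exp (e * Real.sqrt |t|) := by
    rw [add_mul, one_mul]
    exact add_le_add h2 h3
  have hpos : 0 < 1 + t ^ 2 := by positivity
  rw [← div_eq_mul_inv, le_div_iff₀ hpos]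
  have h6 : Real.exp (-e * Real.sqrt |t|) * Real.exp (e * Real.sqrt |t|) = 1 := by
    rw [← Real.exp_add]
    have : -e * Real.sqrt |t| + e * Real.sqrt |t| = 0 := by ring
    rw [this, Real.exp_zero]
  calc Real.exp (-e * Real.sqrt |t|) * (1 + t ^ 2)
      ≤ Real.exp (-e * Real.sqrt |t|) * ((1 + 24 / e ^ 4) * Real.exp (e * Real.sqrt |t|)) :=
        mul_le_mul_of_nonneg_left h5 (Real.exp_pos _).le
    _ = (1 + 24 / e ^ 4) * (Real.exp (-e * Real.sqrt |t|) * Real.exp (e * Real.sqrt |t|)) := by ring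
    _ = 1 + 24 / e ^ 4 := by rw [h6, mul_one]

private theorem t4_cont {Φ : ℂ → ℂ} {φ : ℝ⟦X⟧} (hΦ : Good Φ φ) :
    Continuous fun t : ℝ => Φ (((-1 : ℝ) : ℂ) + Complex.I * t) := by
  refine ContinuousOn.comp_continuous hΦ.diff.continuousOn (by fun_prop) ?_
  intro t
  change -2 < (((-1 : ℝ) : ℂ) + Complex.I * t).re
  simp

private theorem t4_int {Φ : ℂ → ℂ} {φ : ℝ⟦X⟧} (hΦ : Good Φ φ) :
    Integrable fun t : ℝ => Φ (((-1 : ℝ) : ℂ) + Complex.I * t) := by
  obtain ⟨C, e, he, hb⟩ := hΦ.decay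
  have hi : Integrable fun t : ℝ => |C| * ((1 + 24 / e ^ 4) * (1 + t ^ 2)⁻¹) :=
    (integrable_inv_one_add_sq.const_mul _).const_mul _
  refine hi.mono' (t4_cont hΦ).aestronglyMeasurable (Filter.Eventually.of_forall fun t => ?_)
  have h1 := hb (((-1 : ℝ) : ℂ) + Complex.I * t) (by simp)
  have h2 : |t| ≤ ‖((-1 : ℝ) : ℂ) + Complex.I * t‖ := by
    have h := Complex.abs_im_le_norm (((-1 : ℝ) : ℂ) + Complex.I * t)
    have h' : (((-1 : ℝ) : ℂ) + Complex.I * t).im = t := by simp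
    rwa [h'] at h
  have h3 : Real.exp (-e * Real.sqrt ‖((-1 : ℝ) : ℂ) + Complex.I * t‖) ≤
      Real.exp (-e * Real.sqrt |t|) := by
    apply Real.exp_le_exp.2
    have := Real.sqrt_le_sqrt h2
    nlinarith
  calc ‖Φ (((-1 : ℝ) : ℂ) + Complex.I * t)‖
      ≤ C * Real.exp (-e * Real.sqrt ‖((-1 : ℝ) : ℂ) + Complex.I * t‖) := h1
    _ ≤ |C| * Real.exp (-e * Real.sqrt ‖((-1 : ℝ) : ℂ) + Complex.I * t‖) :=
        mul_le_mul_of_nonneg_right (le_abs_self C) (Real.exp_pos _).le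
    _ ≤ |C| * Real.exp (-e * Real.sqrt |t|) := mul_le_mul_of_nonneg_left h3 (abs_nonneg _)
    _ ≤ |C| * ((1 + 24 / e ^ 4) * (1 + t ^ 2)⁻¹) :=
        mul_le_mul_of_nonneg_left (t4_exp e t he) (abs_nonneg _)

theorem thc_cont {Φ : ℂ → ℂ} {φ : ℝ⟦X⟧} (hΦ : Good Φ φ) : Continuous (thc Φ (-1)) := by
  have h1 : (thc Φ (-1)) = fun u : ℝ => ((1 / (2 * Real.pi) : ℝ) : ℂ) * (Complex.exp (-(u : ℂ)) *
      ∫ t : ℝ, Φ (((-1 : ℝ) : ℂ) + Complex.I * t) * Complex.exp (Complex.I * (u * t))) := by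
    funext u
    unfold thc
    rw [← integral_const_mul (Complex.exp (-(u : ℂ)))]
    congr 1
    refine integral_congr_ae (Filter.Eventually.of_forall fun t => ?_)
    change Φ (((-1 : ℝ) : ℂ) + Complex.I * t) *
        Complex.exp ((u : ℂ) * (((-1 : ℝ) : ℂ) + Complex.I * t)) =
      Complex.exp (-(u : ℂ)) *
        (Φ (((-1 : ℝ) : ℂ) + Complex.I * t) * Complex.exp (Complex.I * (u * t)))
    have h : Complex.exp ((u : ℂ) * (((-1 : ℝ) : ℂ) + Complex.I * t)) =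
        Complex.exp (-(u : ℂ)) * Complex.exp (Complex.I * (u * t)) := by
      rw [← Complex.exp_add]
      congr 1
      push_cast
      ring
    rw [h]
    ring
  rw [h1]
  have h2 : Continuous fun u : ℝ => ∫ t : ℝ,
      Φ (((-1 : ℝ) : ℂ) + Complex.I * t) * Complex.exp (Complex.I * (u * t)) := by
    refine continuous_of_dominated (bound := fun t : ℝ => ‖Φ (((-1 : ℝ) : ℂ) + Complex.I * t)‖)
      ?_ ?_ (t4_int hΦ).norm ?_
    · intro u
      exact ((t4_cont hΦ).mul (by fun_prop)).aestronglyMeasurable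
    · intro u
      refine Filter.Eventually.of_forall fun t => ?_
      rw [norm_mul]
      have : ‖Complex.exp (Complex.I * (u * t))‖ = 1 := by
        rw [Complex.norm_exp]
        have : (Complex.I * ((u : ℂ) * (t : ℂ))).re = 0 := by simp
        rw [this, Real.exp_zero]
      rw [this, mul_one]
    · refine Filter.Eventually.of_forall fun t => ?_
      fun_prop
  fun_prop

theorem thc_laplace {Φ : ℂ → ℂ} {φ : ℝ⟦X⟧} (hΦ : Good Φ φ) {y : ℝ} (hy : 0 ≤ y) :
    ∫ u in Set.Ioi (0 : ℝ), Complex.exp (-(u * y)) * thc Φ (-1) u = Φ y := by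
  set F : ℝ → ℝ → ℂ := fun u t => Φ (((-1 : ℝ) : ℂ) + Complex.I * t) *
    Complex.exp ((((-1 : ℝ) : ℂ) + Complex.I * t - y) * u) with hF
  have hFc : Continuous (Function.uncurry F) := by
    have h1 : Continuous fun p : ℝ × ℝ => Φ (((-1 : ℝ) : ℂ) + Complex.I * p.2) :=
      (t4_cont hΦ).comp continuous_snd
    have h2 : Continuous fun p : ℝ × ℝ =>
        Complex.exp ((((-1 : ℝ) : ℂ) + Complex.I * p.2 - y) * p.1) := by fun_prop
    exact h1.mul h2
  have hbd : Integrable (fun p : ℝ × ℝ => Real.exp (-p.1) *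
      ‖Φ (((-1 : ℝ) : ℂ) + Complex.I * p.2)‖)
      ((volume.restrict (Set.Ioi (0 : ℝ))).prod volume) := by
    have he : Integrable (fun u : ℝ => Real.exp (-u)) (volume.restrict (Set.Ioi (0 : ℝ))) :=
      integrableOn_exp_neg_Ioi 0
    exact he.mul_prod (t4_int hΦ).norm
  have hFi : Integrable (Function.uncurry F)
      ((volume.restrict (Set.Ioi (0 : ℝ))).prod volume) := by
    refine hbd.mono' hFc.aestronglyMeasurable ?_
    have hm : MeasurableSet {p : ℝ × ℝ | 0 < p.1} := measurableSet_lt measurable_const measurable_fst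
    have hae : ∀ᵐ p ∂((volume.restrict (Set.Ioi (0 : ℝ))).prod (volume : Measure ℝ)), 0 < p.1 := by
      have h0 : ∀ᵐ u ∂(volume.restrict (Set.Ioi (0 : ℝ))), 0 < u :=
        ae_restrict_mem measurableSet_Ioi
      exact Measure.quasiMeasurePreserving_fst.ae h0
    filter_upwards [hae] with p hp
    change ‖Φ (((-1 : ℝ) : ℂ) + Complex.I * p.2) *
      Complex.exp ((((-1 : ℝ) : ℂ) + Complex.I * p.2 - y) * p.1)‖ ≤ _
    rw [norm_mul, mul_comm]
    refine mul_le_mul_of_nonneg_right ?_ (norm_nonneg _)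
    rw [Complex.norm_exp]
    apply Real.exp_le_exp.2
    have : ((((-1 : ℝ) : ℂ) + Complex.I * p.2 - y) * p.1).re = (-1 - y) * p.1 := by
      simp
    rw [this]
    nlinarith
  have h1 : ∀ u : ℝ, Complex.exp (-(u * y)) * thc Φ (-1) u =
      ((1 / (2 * Real.pi) : ℝ) : ℂ) * ∫ t : ℝ, F u t := by
    intro u
    unfold thc
    rw [mul_left_comm, ← integral_const_mul]
    congr 1
    refine integral_congr_ae (Filter.Eventually.of_forall fun t => ?_)
    change Complex.exp (-((u : ℂ) * (y : ℂ))) * (Φ (((-1 : ℝ) : ℂ) + Complex.I * t) *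
        Complex.exp ((u : ℂ) * (((-1 : ℝ) : ℂ) + Complex.I * t))) =
      Φ (((-1 : ℝ) : ℂ) + Complex.I * t) *
        Complex.exp ((((-1 : ℝ) : ℂ) + Complex.I * t - y) * u)
    have h : Complex.exp ((((-1 : ℝ) : ℂ) + Complex.I * t - y) * u) =
        Complex.exp (-((u : ℂ) * (y : ℂ))) *
          Complex.exp ((u : ℂ) * (((-1 : ℝ) : ℂ) + Complex.I * t)) := by
      rw [← Complex.exp_add]
      congr 1
      ring
    rw [h]
    ring
  have h2 : ∀ t : ℝ, ∫ u in Set.Ioi (0 : ℝ), F u t =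
      Φ (-1 + Complex.I * t) / (y - (-1 + Complex.I * t)) := by
    intro t
    change ∫ u in Set.Ioi (0 : ℝ), Φ (((-1 : ℝ) : ℂ) + Complex.I * t) *
        Complex.exp ((((-1 : ℝ) : ℂ) + Complex.I * t - y) * u) = _
    rw [integral_const_mul, integral_exp_mul_complex_Ioi (by simp; linarith)]
    have e1 : (((-1 : ℝ) : ℂ)) = -1 := by push_cast; rfl
    rw [e1]
    simp only [Complex.ofReal_zero, mul_zero, Complex.exp_zero]
    rw [← neg_sub (y : ℂ), neg_div_neg_eq, mul_one_div]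
  calc ∫ u in Set.Ioi (0 : ℝ), Complex.exp (-(u * y)) * thc Φ (-1) u
      = ∫ u in Set.Ioi (0 : ℝ), ((1 / (2 * Real.pi) : ℝ) : ℂ) * ∫ t : ℝ, F u t := by
        simp_rw [h1]
    _ = ((1 / (2 * Real.pi) : ℝ) : ℂ) * ∫ u in Set.Ioi (0 : ℝ), ∫ t : ℝ, F u t :=
        integral_const_mul _ _
    _ = ((1 / (2 * Real.pi) : ℝ) : ℂ) * ∫ t : ℝ, ∫ u in Set.Ioi (0 : ℝ), F u t := by
        rw [integral_integral_swap hFi]
    _ = ((1 / (2 * Real.pi) : ℝ) : ℂ) *
          ∫ t : ℝ, Φ (-1 + Complex.I * t) / (y - (-1 + Complex.I * t)) := by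
        simp_rw [h2]
    _ = Φ y := cauchy_line hΦ (by
        rw [Complex.ofReal_re]
        linarith)

end Pool.Agent.GPC
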