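import Pool.Agent.GPC.Defs
import Pool.Agent.OHG.All
import Pool.Agent.GPC.T1
import Pool.Agent.GPC.T3
import Pool.Agent.GPC.T4

set_option autoImplicit false

open PowerSeries Finset MeasureTheory

namespace Pool.Agent.GPC

open Pool.Agent.OHG

variable {V : Type} [Fintype V] [DecidableEq V]

private theorem t5_onball {a : ℕ → ℂ} {f : ℂ → ℂ} {ρ : ℝ} (hρ : 0 < ρ)
    (ha : ∀ y : ℂ, ‖y‖ < ρ → HasSum (fun j => a j * y ^ j) (f y)) :
    HasFPowerSeriesOnBall f (FormalMultilinearSeries.ofScalars ℂ a) 0 (ENNReal.ofReal (ρ / 2)) := by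
  have hρ2 : 0 < ρ / 2 := by positivity
  constructor
  · refine FormalMultilinearSeries.le_radius_of_summable_norm (r := Real.toNNReal (ρ / 2)) _ ?_
    have h1 := ha ((ρ / 2 : ℝ) : ℂ) (by
      rw [Complex.norm_real, Real.norm_eq_abs, abs_of_pos hρ2]
      linarith)
    refine h1.summable.norm.congr fun j => ?_
    rw [FormalMultilinearSeries.ofScalars_norm, norm_mul, norm_pow, Complex.norm_real,
      Real.norm_eq_abs, abs_of_pos hρ2, Real.coe_toNNReal _ hρ2.le]
  · exact ENNReal.ofReal_pos.2 hρ2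
  · intro y hy
    rw [Metric.mem_eball, edist_zero_right, ← ofReal_norm, ENNReal.ofReal_lt_ofReal_iff hρ2] at hy
    rw [zero_add]
    refine (ha y (by linarith)).congr_fun fun j => ?_
    rw [FormalMultilinearSeries.ofScalars_apply_eq, smul_eq_mul]

private theorem t5_unique {a b : ℕ → ℂ} {f : ℂ → ℂ} {ρ : ℝ} (hρ : 0 < ρ)
    (ha : ∀ y : ℂ, ‖y‖ < ρ → HasSum (fun j => a j * y ^ j) (f y))
    (hb : ∀ y : ℂ, ‖y‖ < ρ → HasSum (fun j => b j * y ^ j) (f y)) : a = b :=
  FormalMultilinearSeries.ofScalars_series_injective ℂ ℂ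
    ((t5_onball hρ ha).hasFPowerSeriesAt.eq_formalMultilinearSeries
      (t5_onball hρ hb).hasFPowerSeriesAt)

private theorem t5_exp_sqrt {ε : ℝ} (hε : 0 < ε) (x : ℝ) :
    Real.exp (-ε * Real.sqrt |x|) ≤ (1 + 24 / ε ^ 4) * (1 + x ^ 2)⁻¹ := by
  have hs : 0 ≤ Real.sqrt |x| := Real.sqrt_nonneg _
  have h0 : 0 ≤ ε * Real.sqrt |x| := by positivity
  have h1 : 1 ≤ Real.exp (ε * Real.sqrt |x|) := Real.one_le_exp h0
  have h2 := Real.pow_div_factorial_le_exp (ε * Real.sqrt |x|) h0 4
  have h3 : Real.sqrt |x| ^ 4 = x ^ 2 := by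
    calc Real.sqrt |x| ^ 4 = (Real.sqrt |x| ^ 2) ^ 2 := by ring
      _ = x ^ 2 := by rw [Real.sq_sqrt (abs_nonneg x), sq_abs]
  have h4 : x ^ 2 ≤ 24 / ε ^ 4 * Real.exp (ε * Real.sqrt |x|) := by
    have h5 : (ε * Real.sqrt |x|) ^ 4 / ((4).factorial : ℝ) = ε ^ 4 / 24 * x ^ 2 := by
      rw [mul_pow, h3]
      norm_num [Nat.factorial]
      ring
    rw [h5] at h2
    have h6 : 0 < ε ^ 4 := by positivity
    calc x ^ 2 = 24 / ε ^ 4 * (ε ^ 4 / 24 * x ^ 2) := by field_simp
      _ ≤ 24 / ε ^ 4 * Real.exp (ε * Real.sqrt |x|) := by gcongr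
  have hx : 0 < 1 + x ^ 2 := by positivity
  rw [show -ε * Real.sqrt |x| = -(ε * Real.sqrt |x|) by ring, Real.exp_neg, ← div_eq_mul_inv,
    le_div_iff₀ hx, inv_mul_le_iff₀ (Real.exp_pos _)]
  nlinarith

private theorem t5_cont {Φ : ℂ → ℂ} {φ : ℝ⟦X⟧} (hΦ : Good Φ φ) :
    Continuous fun t : ℝ => Φ (-1 + Complex.I * t) := by
  refine hΦ.diff.continuousOn.comp_continuous (by fun_prop) fun t => ?_
  simp only [Set.mem_ofPred_eq, Complex.add_re, Complex.neg_re, Complex.one_re, Complex.mul_re,
    Complex.I_re, Complex.I_im, Complex.ofReal_re, Complex.ofReal_im]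
  norm_num

private theorem t5_int {Φ : ℂ → ℂ} {φ : ℝ⟦X⟧} (hΦ : Good Φ φ) :
    Integrable fun t : ℝ => Φ (-1 + Complex.I * t) := by
  obtain ⟨C, ε, hε, hd⟩ := hΦ.decay
  have hi : Integrable fun t : ℝ => |C| * ((1 + 24 / ε ^ 4) * (1 + t ^ 2)⁻¹) :=
    (integrable_inv_one_add_sq.const_mul _).const_mul _
  refine hi.mono' (t5_cont hΦ).aestronglyMeasurable (Filter.Eventually.of_forall fun t => ?_)
  have h1 := hd (-1 + Complex.I * t) (by simp)
  refine h1.trans ?_
  have h2 : |t| ≤ ‖(-1 + Complex.I * t : ℂ)‖ := by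
    have := Complex.abs_im_le_norm (-1 + Complex.I * t : ℂ)
    simpa using this
  have h3 : Real.exp (-ε * Real.sqrt ‖(-1 + Complex.I * t : ℂ)‖) ≤
      Real.exp (-ε * Real.sqrt |t|) := by
    apply Real.exp_le_exp.2
    have := Real.sqrt_le_sqrt h2
    nlinarith
  calc C * Real.exp (-ε * Real.sqrt ‖(-1 + Complex.I * t : ℂ)‖)
      ≤ |C| * Real.exp (-ε * Real.sqrt ‖(-1 + Complex.I * t : ℂ)‖) := by
        gcongr
        exact le_abs_self C
    _ ≤ |C| * ((1 + 24 / ε ^ 4) * (1 + t ^ 2)⁻¹) := by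
        gcongr
        exact h3.trans (t5_exp_sqrt hε t)

private theorem t5_thc {Φ : ℂ → ℂ} (u : ℝ) :
    thc Φ (-1) u = ((1 / (2 * Real.pi) : ℝ) : ℂ) *
      ∫ t : ℝ, Φ (-1 + Complex.I * t) * Complex.exp (u * (-1 + Complex.I * t)) := by
  unfold thc
  simp only [Complex.ofReal_neg, Complex.ofReal_one]

/-- the Laplace transform at complex points -/
private theorem t5_laplace {Φ : ℂ → ℂ} {φ : ℝ⟦X⟧} (hΦ : Good Φ φ) {y : ℂ} (hy : -1 < y.re) :
    ∫ u in Set.Ioi (0 : ℝ), Complex.exp (-(u * y)) * thc Φ (-1) u = Φ y := by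
  have hI : Integrable (Function.uncurry fun (u t : ℝ) =>
      Complex.exp (-(u * y)) * (Φ (-1 + Complex.I * t) * Complex.exp (u * (-1 + Complex.I * t))))
      ((volume.restrict (Set.Ioi (0 : ℝ))).prod volume) := by
    have h1 : IntegrableOn (fun u : ℝ => Real.exp (-(1 + y.re) * u)) (Set.Ioi 0) := by
      have := integrableOn_exp_mul_Ioi (a := -(1 + y.re)) (by linarith) 0
      exact this
    have h2 := (t5_int hΦ).norm
    have h3 := Integrable.mul_prod h1 h2
    refine h3.mono' ?_ (Filter.Eventually.of_forall fun p => ?_)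
    · have hc := t5_cont hΦ
      have h4 : Continuous fun p : ℝ × ℝ => Φ (-1 + Complex.I * p.2) := hc.comp continuous_snd
      have : Continuous fun p : ℝ × ℝ => Complex.exp (-(p.1 * y)) *
          (Φ (-1 + Complex.I * p.2) * Complex.exp (p.1 * (-1 + Complex.I * p.2))) :=
        Continuous.mul (by fun_prop) (h4.mul (by fun_prop))
      exact this.aestronglyMeasurable
    · obtain ⟨u, t⟩ := p
      simp only [Function.uncurry]
      rw [norm_mul, norm_mul, Complex.norm_exp, Complex.norm_exp]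
      have e1 : (-((u : ℂ) * y)).re = -(u * y.re) := by simp
      have e2 : ((u : ℂ) * (-1 + Complex.I * t)).re = -u := by simp
      rw [e1, e2, show -(1 + y.re) * u = -(u * y.re) + -u by ring, Real.exp_add]
      apply le_of_eq
      ring
  have hc := cauchy_line hΦ hy
  calc ∫ u in Set.Ioi (0 : ℝ), Complex.exp (-(u * y)) * thc Φ (-1) u
      = ∫ u in Set.Ioi (0 : ℝ), ((1 / (2 * Real.pi) : ℝ) : ℂ) * ∫ t : ℝ,
          Complex.exp (-(u * y)) *
            (Φ (-1 + Complex.I * t) * Complex.exp (u * (-1 + Complex.I * t))) := by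
        refine integral_congr_ae (Filter.Eventually.of_forall fun u => ?_)
        simp only
        rw [t5_thc, integral_const_mul]
        ring
    _ = ((1 / (2 * Real.pi) : ℝ) : ℂ) * ∫ t : ℝ, ∫ u in Set.Ioi (0 : ℝ),
          Complex.exp (-(u * y)) *
            (Φ (-1 + Complex.I * t) * Complex.exp (u * (-1 + Complex.I * t))) := by
        rw [integral_const_mul, integral_integral_swap hI]
    _ = ((1 / (2 * Real.pi) : ℝ) : ℂ) *
          ∫ t : ℝ, Φ (-1 + Complex.I * t) / (y - (-1 + Complex.I * t)) := by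
        congr 1
        refine integral_congr_ae (Filter.Eventually.of_forall fun t => ?_)
        simp only
        have e1 : ∀ u : ℝ, Complex.exp (-(u * y)) *
            (Φ (-1 + Complex.I * t) * Complex.exp (u * (-1 + Complex.I * t))) =
            Φ (-1 + Complex.I * t) * Complex.exp ((-(y - (-1 + Complex.I * t))) * u) := by
          intro u
          rw [show (-(y - (-1 + Complex.I * t))) * (u : ℂ) =
            -(u * y) + u * (-1 + Complex.I * t) by ring, Complex.exp_add]
          ring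
        have hre : (-(y - (-1 + Complex.I * t))).re < 0 := by
          simp
          linarith
        have hne : y - (-1 + Complex.I * t) ≠ 0 := by
          intro h0
          rw [h0] at hre
          simp at hre
        simp_rw [e1]
        rw [integral_const_mul, integral_exp_mul_complex_Ioi hre]
        simp only [Complex.ofReal_zero, mul_zero, Complex.exp_zero]
        field_simp
    _ = Φ y := hc

theorem thc_moment {Φ : ℂ → ℂ} {φ : ℝ⟦X⟧} (hΦ : Good Φ φ) (j : ℕ) :
    ∫ u in Set.Ioi (0 : ℝ), (u : ℂ) ^ j * thc Φ (-1) u =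
      (-1) ^ j * j.factorial * ((coeff j φ : ℝ) : ℂ) := by
  obtain ⟨C, c, hc, hb⟩ := thc_bound hΦ
  have hcont := thc_cont hΦ
  have hb' : ∀ u : ℝ, 0 < u → ‖thc Φ (-1) u‖ ≤ |C| * Real.exp (-c * u) := by
    intro u hu
    refine (hb u hu).trans ?_
    calc C * Real.exp (-c * u - c / Real.sqrt u) ≤ |C| * Real.exp (-c * u - c / Real.sqrt u) := by
          gcongr
          exact le_abs_self C
      _ ≤ |C| * Real.exp (-c * u) := by
          gcongr
          have : 0 ≤ c / Real.sqrt u := by positivity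
          linarith
  have key : (fun j : ℕ => (-1 : ℂ) ^ j / (j.factorial : ℂ) *
      ∫ u in Set.Ioi (0 : ℝ), (u : ℂ) ^ j * thc Φ (-1) u) = fun j => ((coeff j φ : ℝ) : ℂ) := by
    refine t5_unique (f := Φ) (ρ := min c 1) (by positivity) ?_ ?_
    · intro y hy
      have hyc : ‖y‖ < c := lt_of_lt_of_le hy (min_le_left _ _)
      have hy1 : ‖y‖ < 1 := lt_of_lt_of_le hy (min_le_right _ _)
      have hre : -1 < y.re := by
        have := Complex.abs_re_le_norm y
        have := neg_le_of_abs_le this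
        linarith
      rw [← t5_laplace hΦ hre]
      have hs := hasSum_integral_of_dominated_convergence (μ := volume.restrict (Set.Ioi (0 : ℝ)))
        (F := fun (j : ℕ) (u : ℝ) => (-(u * y)) ^ j / (j.factorial : ℂ) * thc Φ (-1) u)
        (f := fun u : ℝ => Complex.exp (-(u * y)) * thc Φ (-1) u)
        (fun (j : ℕ) (u : ℝ) => (u * ‖y‖) ^ j / (j.factorial : ℝ) * (|C| * Real.exp (-c * u)))
        (fun j => by
          have : Continuous fun u : ℝ => (-(u * y)) ^ j / (j.factorial : ℂ) * thc Φ (-1) u := by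
            fun_prop
          exact this.aestronglyMeasurable)
        (fun j => by
          refine (ae_restrict_iff' measurableSet_Ioi).2 (Filter.Eventually.of_forall fun u hu => ?_)
          have hu0 : 0 < u := hu
          rw [norm_mul, norm_div, norm_pow, norm_neg, norm_mul, Complex.norm_real,
            Real.norm_eq_abs, abs_of_pos hu0, Complex.norm_natCast]
          gcongr
          exact hb' u hu0)
        (Filter.Eventually.of_forall fun u => (Real.summable_pow_div_factorial _).mul_right _)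
        (by
          have e1 : (fun u : ℝ => ∑' j : ℕ,
              (u * ‖y‖) ^ j / (j.factorial : ℝ) * (|C| * Real.exp (-c * u))) =
              fun u : ℝ => |C| * Real.exp (-(c - ‖y‖) * u) := by
            funext u
            have h1 := (NormedSpace.expSeries_div_hasSum_exp (u * ‖y‖ : ℝ)).mul_right
              (|C| * Real.exp (-c * u))
            rw [h1.tsum_eq, ← Real.exp_eq_exp_ℝ,
              show -(c - ‖y‖) * u = u * ‖y‖ + -c * u by ring, Real.exp_add]
            ring
          rw [e1]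
          exact (integrableOn_exp_mul_Ioi (a := -(c - ‖y‖)) (by linarith) 0).const_mul _)
        (Filter.Eventually.of_forall fun u => by
          have h1 := (NormedSpace.expSeries_div_hasSum_exp (-(u * y) : ℂ)).mul_right
            (thc Φ (-1) u)
          rw [← Complex.exp_eq_exp_ℂ] at h1
          exact h1)
      refine hs.congr_fun fun j => ?_
      have e2 : ∀ u : ℝ, (-(u * y)) ^ j / (j.factorial : ℂ) * thc Φ (-1) u =
          ((-1 : ℂ) ^ j / (j.factorial : ℂ) * y ^ j) * ((u : ℂ) ^ j * thc Φ (-1) u) := by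
        intro u
        rw [show (-(u * y) : ℂ) = (-1) * u * y by ring, mul_pow, mul_pow]
        ring
      simp_rw [e2]
      rw [integral_const_mul]
      ring
    · intro y hy
      exact hΦ.ser y (lt_of_lt_of_le hy (min_le_right _ _))
  have h1 := congrFun key j
  have hf : (j.factorial : ℂ) ≠ 0 := by exact_mod_cast j.factorial_ne_zero
  have h2 : ((-1 : ℂ) ^ j) * (-1) ^ j = 1 := by rw [← mul_pow]; simp
  rw [← h1]
  calc ∫ u in Set.Ioi (0 : ℝ), (u : ℂ) ^ j * thc Φ (-1) u
      = (((-1 : ℂ) ^ j) * (-1) ^ j) * ∫ u in Set.Ioi (0 : ℝ), (u : ℂ) ^ j * thc Φ (-1) u := by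
        rw [h2, one_mul]
    _ = _ := by
        field_simp

end Pool.Agent.GPC
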