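import Pool.Agent.GPC.Defs
import Pool.Agent.OHG.All
import Pool.Agent.GPC.T3
import Pool.Agent.GPC.T4
import Pool.Agent.GPC.T5

set_option autoImplicit false

open PowerSeries Finset MeasureTheory

namespace Pool.Agent.GPC

open Pool.Agent.OHG

variable {V : Type} [Fintype V] [DecidableEq V]

private theorem t6_rpow {c q : ℝ} (hc : 0 < c) (hq : 0 < q) :
    ∃ K : ℝ, 0 ≤ K ∧ ∀ u : ℝ, 0 < u → u ^ (-q) * Real.exp (-(c / Real.sqrt u)) ≤ K := by
  obtain ⟨n, hn⟩ := exists_nat_ge (2 * q)
  refine ⟨1 + n.factorial / c ^ n, by positivity, fun u hu => ?_⟩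
  have hK : 0 ≤ (n.factorial : ℝ) / c ^ n := by positivity
  rcases le_or_gt 1 u with h1 | h1
  · have e1 : u ^ (-q) ≤ 1 := Real.rpow_le_one_of_one_le_of_nonpos h1 (by linarith)
    have e2 : Real.exp (-(c / Real.sqrt u)) ≤ 1 := Real.exp_le_one_iff.2 (by
      have : 0 ≤ c / Real.sqrt u := by positivity
      linarith)
    have e3 := mul_le_mul e1 e2 (Real.exp_pos _).le zero_le_one
    linarith
  · set s : ℝ := u ^ (-(1 / 2) : ℝ) with hs
    have hs1 : 1 ≤ s := Real.one_le_rpow_of_pos_of_le_one_of_nonpos hu h1.le (by norm_num)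
    have hs0 : 0 ≤ s := by linarith
    have e1 : c / Real.sqrt u = c * s := by
      rw [hs, Real.rpow_neg hu.le, Real.sqrt_eq_rpow, div_eq_mul_inv]
    have e2 : u ^ (-q) = s ^ (2 * q) := by
      rw [hs, ← Real.rpow_mul hu.le]
      congr 1
      ring
    have e3 : s ^ (2 * q) ≤ s ^ n := by
      rw [← Real.rpow_natCast]
      exact Real.rpow_le_rpow_of_exponent_le hs1 hn
    have e4 := Real.pow_div_factorial_le_exp (c * s) (by positivity) n
    have e5 : s ^ n ≤ n.factorial / c ^ n * Real.exp (c * s) := by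
      have hcn : 0 < c ^ n := by positivity
      have hf : (0 : ℝ) < n.factorial := by positivity
      rw [mul_pow] at e4
      calc s ^ n = n.factorial / c ^ n * (c ^ n * s ^ n / n.factorial) := by field_simp
        _ ≤ n.factorial / c ^ n * Real.exp (c * s) := by gcongr
    rw [e1, e2, Real.exp_neg]
    calc s ^ (2 * q) * (Real.exp (c * s))⁻¹
        ≤ (n.factorial / c ^ n * Real.exp (c * s)) * (Real.exp (c * s))⁻¹ := by
          gcongr
          exact e3.trans e5
      _ = n.factorial / c ^ n := by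
          rw [mul_assoc, mul_inv_cancel₀ (Real.exp_pos _).ne', mul_one]
      _ ≤ 1 + n.factorial / c ^ n := by linarith

theorem theta_exists {Φ : ℂ → ℂ} {φ : ℝ⟦X⟧} (hΦ : Good Φ φ) : ∃ θ : ℝ → ℝ, Theta θ φ := by
  obtain ⟨C, c, hc, hb⟩ := thc_bound hΦ
  have hcont := thc_cont hΦ
  have hθc : Continuous fun u : ℝ => (thc Φ (-1) u).re := Complex.continuous_re.comp hcont
  have hC : 0 ≤ C := by
    have h1 := (norm_nonneg _).trans (hb 1 one_pos)
    exact nonneg_of_mul_nonneg_left h1 (Real.exp_pos _)
  -- bounds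
  have hb1 : ∀ u : ℝ, 0 < u → |(thc Φ (-1) u).re| ≤ C * Real.exp (-c * u - c / Real.sqrt u) :=
    fun u hu => (Complex.abs_re_le_norm _).trans (hb u hu)
  have hb2 : ∀ u : ℝ, 0 < u → ‖thc Φ (-1) u‖ ≤ C * Real.exp (-c * u) := by
    intro u hu
    refine (hb u hu).trans ?_
    gcongr
    have : 0 ≤ c / Real.sqrt u := by positivity
    linarith
  -- integrability of u ^ j * thc
  have hij : ∀ j : ℕ, Integrable (fun u : ℝ => (u : ℂ) ^ j * thc Φ (-1) u)
      (volume.restrict (Set.Ioi 0)) := by
    intro j
    have h1 := (integrableOn_rpow_mul_exp_neg_mul_rpow (s := j) (p := 1) (b := c)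
      (by have : (0 : ℝ) ≤ j := Nat.cast_nonneg j; linarith) one_pos hc).const_mul C
    refine Integrable.mono' h1 ?_ ?_
    · have : Continuous fun u : ℝ => (u : ℂ) ^ j * thc Φ (-1) u := by fun_prop
      exact this.aestronglyMeasurable
    · refine (ae_restrict_iff' measurableSet_Ioi).2 (Filter.Eventually.of_forall fun u hu => ?_)
      have hu0 : 0 < u := hu
      rw [norm_mul, norm_pow, Complex.norm_real, Real.norm_eq_abs, abs_of_pos hu0,
        Real.rpow_natCast, Real.rpow_one]
      calc u ^ j * ‖thc Φ (-1) u‖ ≤ u ^ j * (C * Real.exp (-c * u)) := by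
            gcongr
            exact hb2 u hu0
        _ = _ := by ring
  refine ⟨fun u => (thc Φ (-1) u).re, hθc, ⟨C, c, hc, hb1⟩, fun j => ?_, fun q hq => ?_⟩
  · -- moments
    have h1 := thc_moment hΦ j
    have h2 := integral_re (hij j)
    have h3 : ∀ u : ℝ, RCLike.re ((u : ℂ) ^ j * thc Φ (-1) u) = u ^ j * (thc Φ (-1) u).re := by
      intro u
      rw [RCLike.re_to_complex, ← Complex.ofReal_pow, Complex.re_ofReal_mul]
    simp_rw [h3] at h2
    rw [h2, h1, RCLike.re_to_complex]
    have h4 : ((-1 : ℂ) ^ j * (j.factorial : ℂ) * ((coeff j φ : ℝ) : ℂ)) =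
        (((-1 : ℝ) ^ j * (j.factorial : ℝ) * coeff j φ : ℝ) : ℂ) := by
      push_cast
      ring
    rw [h4, Complex.ofReal_re]
  · -- positivity
    obtain ⟨K, hK0, hK⟩ := t6_rpow hc hq
    -- integrability of u ^ (-q) * θ
    have hbq : ∀ u : ℝ, 0 < u → u ^ (-q) * |(thc Φ (-1) u).re| ≤ C * K * Real.exp (-c * u) := by
      intro u hu
      have h1 := hK u hu
      calc u ^ (-q) * |(thc Φ (-1) u).re|
          ≤ u ^ (-q) * (C * Real.exp (-c * u - c / Real.sqrt u)) := by
            gcongr
            exact hb1 u hu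
        _ = C * (u ^ (-q) * Real.exp (-(c / Real.sqrt u))) * Real.exp (-c * u) := by
            rw [sub_eq_add_neg, Real.exp_add]
            ring
        _ ≤ C * K * Real.exp (-c * u) := by gcongr
    have hexp : IntegrableOn (fun u : ℝ => Real.exp (-c * u)) (Set.Ioi 0) :=
      integrableOn_exp_mul_Ioi (a := -c) (by linarith) 0
    have hqm : Measurable fun u : ℝ => (thc Φ (-1) u).re := hθc.measurable
    have hintq : IntegrableOn (fun u : ℝ => u ^ (-q) * |(thc Φ (-1) u).re|) (Set.Ioi 0) := by
      refine Integrable.mono' (hexp.const_mul (C * K)) ?_ ?_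
      · exact ((measurable_id.pow_const (-q)).mul hqm.abs).aestronglyMeasurable
      · refine (ae_restrict_iff' measurableSet_Ioi).2 (Filter.Eventually.of_forall fun u hu => ?_)
        have hu0 : 0 < u := hu
        rw [Real.norm_eq_abs, abs_of_nonneg (by positivity)]
        exact hbq u hu0
    have hΓ := Real.Gamma_pos_of_pos hq
    -- Fubini
    set f : ℝ × ℝ → ℝ := fun p =>
      p.2 ^ (q - 1) * Real.exp (-(p.1 * p.2)) * (thc Φ (-1) p.1).re with hf
    have hfm : Measurable f := by
      have h1 : Measurable fun p : ℝ × ℝ => (thc Φ (-1) p.1).re := hqm.comp measurable_fst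
      have h2 : Measurable fun p : ℝ × ℝ => p.2 ^ (q - 1) := measurable_snd.pow_const _
      exact (h2.mul (by fun_prop)).mul h1
    have hgam : ∀ u : ℝ, 0 < u →
        ∫ y in Set.Ioi (0 : ℝ), y ^ (q - 1) * Real.exp (-(u * y)) = u ^ (-q) * Real.Gamma q := by
      intro u hu
      rw [Real.integral_rpow_mul_exp_neg_mul_Ioi hq hu, one_div, Real.inv_rpow hu.le,
        Real.rpow_neg hu.le]
    have hgi : ∀ u : ℝ, 0 < u →
        IntegrableOn (fun y : ℝ => y ^ (q - 1) * Real.exp (-(u * y))) (Set.Ioi 0) := by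
      intro u hu
      have h1 := integrableOn_rpow_mul_exp_neg_mul_rpow (s := q - 1) (p := 1) (b := u)
        (by linarith) one_pos hu
      simp_rw [Real.rpow_one, neg_mul] at h1
      exact h1
    have hI : Integrable f ((volume.restrict (Set.Ioi (0 : ℝ))).prod
        (volume.restrict (Set.Ioi (0 : ℝ)))) := by
      rw [integrable_prod_iff hfm.aestronglyMeasurable]
      refine ⟨?_, ?_⟩
      · refine (ae_restrict_iff' measurableSet_Ioi).2 (Filter.Eventually.of_forall fun u hu => ?_)
        exact (hgi u hu).mul_const (thc Φ (-1) u).re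
      · refine (hintq.mul_const (Real.Gamma q)).congr ?_
        refine (ae_restrict_iff' measurableSet_Ioi).2 (Filter.Eventually.of_forall fun u hu => ?_)
        have hu0 : 0 < u := hu
        have h1 : ∫ y in Set.Ioi (0 : ℝ), ‖f (u, y)‖ =
            ∫ y in Set.Ioi (0 : ℝ),
              y ^ (q - 1) * Real.exp (-(u * y)) * |(thc Φ (-1) u).re| := by
          refine setIntegral_congr_fun measurableSet_Ioi fun y hy => ?_
          have hy0 : 0 < y := hy
          simp only [hf]
          rw [Real.norm_eq_abs, abs_mul, abs_mul, abs_of_pos (Real.exp_pos _),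
            abs_of_pos (Real.rpow_pos_of_pos hy0 _)]
        simp only
        rw [h1, integral_mul_const, hgam u hu0]
        ring
    have hswap := integral_integral_swap (f := fun u y => f (u, y)) hI
    -- the left side
    have hL : ∫ u in Set.Ioi (0 : ℝ), ∫ y in Set.Ioi (0 : ℝ), f (u, y) =
        Real.Gamma q * ∫ u in Set.Ioi (0 : ℝ), u ^ (-q) * (thc Φ (-1) u).re := by
      rw [← integral_const_mul]
      refine setIntegral_congr_fun measurableSet_Ioi fun u hu => ?_
      simp only [hf]
      rw [integral_mul_const, hgam u hu]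
      ring
    -- the inner integral on the right side
    have hin : ∀ y : ℝ, 0 < y → ∫ u in Set.Ioi (0 : ℝ), f (u, y) =
        y ^ (q - 1) * (Φ (y : ℂ)).re := by
      intro y hy
      have h1 := thc_laplace hΦ hy.le
      have h2 : Integrable (fun u : ℝ => Complex.exp (-(u * y)) * thc Φ (-1) u)
          (volume.restrict (Set.Ioi 0)) := by
        have h3 := (hij 0).norm
        refine h3.mono' ?_ ?_
        · have : Continuous fun u : ℝ => Complex.exp (-(u * y)) * thc Φ (-1) u := by fun_prop
          exact this.aestronglyMeasurable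
        · refine (ae_restrict_iff' measurableSet_Ioi).2
            (Filter.Eventually.of_forall fun u hu => ?_)
          have hu0 : 0 < u := hu
          rw [norm_mul, Complex.norm_exp]
          have e1 : (-((u : ℂ) * (y : ℂ))).re = -(u * y) := by
            rw [← Complex.ofReal_mul, ← Complex.ofReal_neg, Complex.ofReal_re]
          rw [e1]
          have e2 : Real.exp (-(u * y)) ≤ 1 := Real.exp_le_one_iff.2 (by
            have : 0 < u * y := by positivity
            linarith)
          calc Real.exp (-(u * y)) * ‖thc Φ (-1) u‖ ≤ 1 * ‖thc Φ (-1) u‖ := by gcongr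
            _ = _ := by simp
      have h4 := integral_re h2
      have h5 : ∀ u : ℝ, RCLike.re (Complex.exp (-(u * y)) * thc Φ (-1) u) =
          Real.exp (-(u * y)) * (thc Φ (-1) u).re := by
        intro u
        have e3 : Complex.exp (-((u : ℂ) * (y : ℂ))) = ((Real.exp (-(u * y)) : ℝ) : ℂ) := by
          push_cast
          ring_nf
        rw [RCLike.re_to_complex, e3, Complex.re_ofReal_mul]
      simp_rw [h5] at h4
      rw [h1, RCLike.re_to_complex] at h4
      rw [← h4, ← integral_const_mul]
      refine setIntegral_congr_fun measurableSet_Ioi fun u hu => ?_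
      simp only [hf]
      ring
    have hR : ∫ y in Set.Ioi (0 : ℝ), ∫ u in Set.Ioi (0 : ℝ), f (u, y) =
        ∫ y in Set.Ioi (0 : ℝ), y ^ (q - 1) * (Φ (y : ℂ)).re :=
      setIntegral_congr_fun measurableSet_Ioi fun y hy => hin y hy
    have hpos : 0 < ∫ y in Set.Ioi (0 : ℝ), y ^ (q - 1) * (Φ (y : ℂ)).re := by
      have hp : ∀ y : ℝ, 0 < y → 0 < y ^ (q - 1) * (Φ (y : ℂ)).re := by
        intro y hy
        obtain ⟨t, ht, hΦt⟩ := hΦ.pos y hy.le
        rw [hΦt, Complex.ofReal_re]
        exact mul_pos (Real.rpow_pos_of_pos hy _) ht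
      have hint : IntegrableOn (fun y : ℝ => y ^ (q - 1) * (Φ (y : ℂ)).re) (Set.Ioi 0) := by
        refine hI.integral_prod_right.congr ?_
        exact (ae_restrict_iff' measurableSet_Ioi).2
          (Filter.Eventually.of_forall fun y hy => hin y hy)
      rw [setIntegral_pos_iff_support_of_nonneg_ae ?_ hint]
      · have h1 : Set.Ioi (0 : ℝ) ⊆
            Function.support (fun y : ℝ => y ^ (q - 1) * (Φ (y : ℂ)).re) ∩ Set.Ioi 0 :=
          fun y hy => ⟨(hp y hy).ne', hy⟩
        refine lt_of_lt_of_le ?_ (measure_mono h1)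
        rw [Real.volume_Ioi]
        exact ENNReal.coe_lt_top
      · exact (ae_restrict_iff' measurableSet_Ioi).2
          (Filter.Eventually.of_forall fun y hy => (hp y hy).le)
    rw [hL, hR] at hswap
    rw [← hswap] at hpos
    exact (mul_pos_iff_of_pos_left hΓ).1 hpos

end Pool.Agent.GPC
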