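import Pool.Agent.GPC.Defs
import Pool.Agent.OHG.All

set_option autoImplicit false

open PowerSeries Finset MeasureTheory

namespace Pool.Agent.GPC

open Pool.Agent.OHG

variable {V : Type} [Fintype V] [DecidableEq V]

private theorem U5_entire (s : ℝ⟦X⟧) (f : ℂ → ℂ) (K : ℝ) (hK : 0 ≤ K)
    (hs : ∀ k, |coeff k s| ≤ K ^ k / (k.factorial : ℝ))
    (hf : ∀ h ∈ UH, HasSum (fun k => ((coeff k s : ℝ) : ℂ) * h ^ k) (f h))
    (hd : DifferentiableOn ℂ f UH) : HG f s := by
  refine ⟨hd, Real.exp K, K, 0, ?_⟩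
  intro n h hh hh1
  have h1 : HasSum (fun j => ((coeff (j + n) s : ℝ) : ℂ) * h ^ (j + n))
      (f h - ∑ k ∈ range n, ((coeff k s : ℝ) : ℂ) * h ^ k) :=
    (hasSum_nat_add_iff' n).2 (hf h hh)
  have h2 : HasSum (fun j : ℕ => (K * ‖h‖) ^ n * ((K * ‖h‖) ^ j / (j.factorial : ℝ)))
      ((K * ‖h‖) ^ n * Real.exp (K * ‖h‖)) := by
    rw [Real.exp_eq_exp_ℝ]
    exact (NormedSpace.expSeries_div_hasSum_exp (K * ‖h‖)).mul_left _
  have h3 : ‖f h - ∑ k ∈ range n, ((coeff k s : ℝ) : ℂ) * h ^ k‖
      ≤ (K * ‖h‖) ^ n * Real.exp (K * ‖h‖) := by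
    apply h1.norm_le_of_bounded h2
    intro j
    rw [norm_mul, norm_pow, Complex.norm_real, Real.norm_eq_abs]
    have h4 : |coeff (j + n) s| ≤ K ^ (j + n) / (j.factorial : ℝ) := by
      refine (hs (j + n)).trans ?_
      apply div_le_div_of_nonneg_left (by positivity) (by positivity)
      exact_mod_cast Nat.factorial_le (Nat.le_add_right j n)
    calc |coeff (j + n) s| * ‖h‖ ^ (j + n)
        ≤ K ^ (j + n) / (j.factorial : ℝ) * ‖h‖ ^ (j + n) :=
          mul_le_mul_of_nonneg_right h4 (by positivity)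
      _ = (K * ‖h‖) ^ n * ((K * ‖h‖) ^ j / (j.factorial : ℝ)) := by
          rw [mul_pow, mul_pow, pow_add, pow_add]
          ring
  refine h3.trans ?_
  rw [pow_zero, mul_one, mul_pow]
  have h5 : Real.exp (K * ‖h‖) ≤ Real.exp K :=
    Real.exp_le_exp.2 (mul_le_of_le_one_right hK hh1)
  have h6 : (1 : ℝ) ≤ (n.factorial : ℝ) := by exact_mod_cast Nat.one_le_iff_ne_zero.2 n.factorial_ne_zero
  have h7 : 0 ≤ K ^ n * ‖h‖ ^ n := by positivity
  calc K ^ n * ‖h‖ ^ n * Real.exp (K * ‖h‖)
      ≤ K ^ n * ‖h‖ ^ n * Real.exp K := mul_le_mul_of_nonneg_left h5 h7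
    _ = Real.exp K * K ^ n * 1 * ‖h‖ ^ n := by ring
    _ ≤ Real.exp K * K ^ n * (n.factorial : ℝ) * ‖h‖ ^ n := by
        apply mul_le_mul_of_nonneg_right _ (by positivity)
        exact mul_le_mul_of_nonneg_left h6 (by positivity)

private theorem U5_sinhc_hasSum {z : ℂ} (hz : z ≠ 0) :
    HasSum (fun n : ℕ => (z ^ (2 * n) / ((2 * n + 1).factorial : ℂ))) (Complex.sinh z / z) := by
  have h1 := (Complex.hasSum_sinh z).div_const z
  refine h1.congr_fun ?_
  intro n
  rw [pow_succ]
  field_simp

theorem hg_exp (κ : ℝ) : HG (fun h => Complex.exp (κ * h)) (rescale κ (PowerSeries.exp ℝ)) := by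
  apply U5_entire _ _ |κ| (abs_nonneg κ)
  · intro k
    rw [PowerSeries.coeff_rescale, PowerSeries.coeff_exp, abs_mul, abs_pow]
    simp only [map_div₀, map_one, map_natCast]
    rw [abs_of_nonneg (by positivity : (0 : ℝ) ≤ 1 / (k.factorial : ℝ)), mul_one_div]
  · intro h _
    have h1 := NormedSpace.expSeries_div_hasSum_exp ((κ : ℂ) * h)
    rw [← Complex.exp_eq_exp_ℂ] at h1
    refine h1.congr_fun ?_
    intro k
    rw [PowerSeries.coeff_rescale, PowerSeries.coeff_exp]
    simp only [map_div₀, map_one, map_natCast]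
    push_cast
    rw [mul_pow]
    ring
  · apply Differentiable.differentiableOn
    fun_prop

theorem hg_sinhc : HG (fun h => Complex.sinh (h / 2) / (h / 2)) sinhcHalf := by
  have hne : ∀ h ∈ UH, h / 2 ≠ 0 := by
    intro h hh h0
    have h1 : h = 0 := by
      have := (div_eq_zero_iff.1 h0)
      rcases this with h2 | h2
      · exact h2
      · norm_num at h2
    have h3 : (0 : ℝ) < h.im := hh
    rw [h1] at h3
    simp at h3
  apply U5_entire _ _ (1 / 2) (by norm_num)
  · intro k
    unfold sinhcHalf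
    rw [coeff_mk]
    split_ifs with hk
    · rw [abs_of_nonneg (by positivity)]
      apply div_le_div_of_nonneg_left (by positivity) (by positivity)
      exact_mod_cast Nat.factorial_le (Nat.le_succ k)
    · rw [abs_zero]
      positivity
  · intro h hh
    have h1 := U5_sinhc_hasSum (hne h hh)
    have hinj : Function.Injective (fun n : ℕ => 2 * n) := fun a b hab => by
      have : 2 * a = 2 * b := hab
      omega
    refine (hinj.hasSum_iff ?_).1 ?_
    · intro k hk
      have hodd : ¬ Even k := by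
        intro he
        obtain ⟨m, hm⟩ := he
        exact hk ⟨m, by dsimp only; omega⟩
      unfold sinhcHalf
      rw [coeff_mk, if_neg hodd]
      simp
    · refine h1.congr_fun ?_
      intro n
      have heven : Even (2 * n) := even_two_mul n
      simp only [Function.comp]
      unfold sinhcHalf
      rw [coeff_mk, if_pos heven]
      push_cast
      rw [div_pow, div_pow, one_pow]
      ring
  · intro h hh
    apply DifferentiableAt.differentiableWithinAt
    apply DifferentiableAt.div
    · fun_prop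
    · fun_prop
    · exact hne h hh

end Pool.Agent.GPC
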