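import Pool.Agent.GPC.Defs
import Pool.Agent.OHG.All

set_option autoImplicit false

open PowerSeries Finset MeasureTheory

namespace Pool.Agent.GPC

open Pool.Agent.OHG

variable {V : Type} [Fintype V] [DecidableEq V]

private lemma u6_norm_pos {h : ℂ} (hh : h ∈ UH) : 0 < ‖h‖ := by
  have h0 : 0 < h.im := hh
  have hne : h ≠ 0 := by
    intro h1
    rw [h1] at h0
    simp at h0
  exact norm_pos_iff.mpr hne

private lemma u6_one_le {h : ℂ} (hh : h ∈ UH) : 1 ≤ ‖h‖ / h.im := by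
  have h0 : 0 < h.im := hh
  rw [le_div_iff₀ h0, one_mul]
  exact le_trans (le_abs_self _) (Complex.abs_im_le_norm h)

theorem HG.div {f : ℂ → ℂ} {s : ℝ⟦X⟧} (hf : HG f (X * s)) : HG (fun h => f h / h) s := by
  obtain ⟨C, R, A, hb⟩ := hf.bound
  refine ⟨?_, |C| * |R|, 2 * |R|, A, ?_⟩
  · refine hf.diff.div differentiableOn_id ?_
    intro x hx
    exact norm_pos_iff.mp (u6_norm_pos hx)
  · intro n h hh hh1
    have hpos := u6_norm_pos hh
    have hne : h ≠ 0 := norm_pos_iff.mp hpos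
    have h1 := u6_one_le hh
    have hb1 := hb (n + 1) h hh hh1
    have e1 : f h / h - ∑ k ∈ range n, ((coeff k s : ℝ) : ℂ) * h ^ k =
        (f h - ∑ k ∈ range (n + 1), ((coeff k (X * s) : ℝ) : ℂ) * h ^ k) / h := by
      rw [Finset.sum_range_succ' (fun k => ((coeff k (X * s) : ℝ) : ℂ) * h ^ k) n]
      have e2 : ∀ k ∈ range n, ((coeff (k + 1) (X * s) : ℝ) : ℂ) * h ^ (k + 1) =
          (((coeff k s : ℝ) : ℂ) * h ^ k) * h := by
        intro k _
        rw [PowerSeries.coeff_succ_X_mul]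
        ring
      rw [Finset.sum_congr rfl e2, ← Finset.sum_mul, PowerSeries.coeff_zero_X_mul]
      field_simp
      simp
    rw [e1, norm_div, div_le_iff₀ hpos]
    refine le_trans hb1 ?_
    have hq : 0 ≤ (‖h‖ / h.im) ^ A := by positivity
    have hfac : (((n + 1).factorial : ℕ) : ℝ) ≤ 2 ^ n * (n.factorial : ℝ) := by
      rw [Nat.factorial_succ]
      push_cast
      have h2 : ((n : ℝ) + 1) ≤ 2 ^ n := by
        have := Nat.lt_two_pow_self (n := n)
        have h3 : n + 1 ≤ 2 ^ n := this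
        exact_mod_cast h3
      exact mul_le_mul_of_nonneg_right h2 (by positivity)
    have hCR : C * R ^ (n + 1) ≤ |C| * |R| ^ (n + 1) := by
      refine le_trans (le_abs_self _) ?_
      rw [abs_mul, abs_pow]
    calc C * R ^ (n + 1) * ((n + 1).factorial : ℝ) * ‖h‖ ^ (n + 1) * (‖h‖ / h.im) ^ A
        ≤ |C| * |R| ^ (n + 1) * (2 ^ n * (n.factorial : ℝ)) * ‖h‖ ^ (n + 1) *
          (‖h‖ / h.im) ^ A := by
          apply mul_le_mul_of_nonneg_right _ hq
          apply mul_le_mul_of_nonneg_right _ (by positivity)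
          exact mul_le_mul hCR hfac (by positivity) (by positivity)
      _ = |C| * |R| * (2 * |R|) ^ n * (n.factorial : ℝ) * ‖h‖ ^ n * (‖h‖ / h.im) ^ A * ‖h‖ := by
          rw [mul_pow]
          ring

theorem HG.sub {f g : ℂ → ℂ} {s t : ℝ⟦X⟧} (hf : HG f s) (hg : HG g t) :
    HG (fun h => f h - g h) (s - t) := by
  obtain ⟨C, R, A, hb⟩ := hf.bound
  obtain ⟨C', R', A', hb'⟩ := hg.bound
  refine ⟨hf.diff.sub hg.diff, |C| + |C'|, max |R| |R'|, max A A', ?_⟩
  intro n h hh hh1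
  have h1 := u6_one_le hh
  have e1 : f h - g h - ∑ k ∈ range n, ((coeff k (s - t) : ℝ) : ℂ) * h ^ k =
      (f h - ∑ k ∈ range n, ((coeff k s : ℝ) : ℂ) * h ^ k) -
        (g h - ∑ k ∈ range n, ((coeff k t : ℝ) : ℂ) * h ^ k) := by
    have e2 : ∀ k ∈ range n, ((coeff k (s - t) : ℝ) : ℂ) * h ^ k =
        ((coeff k s : ℝ) : ℂ) * h ^ k - ((coeff k t : ℝ) : ℂ) * h ^ k := by
      intro k _
      rw [map_sub]
      push_cast
      ring
    rw [Finset.sum_congr rfl e2, Finset.sum_sub_distrib]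
    ring
  rw [e1]
  refine le_trans (norm_sub_le _ _) ?_
  have key : ∀ (C0 R0 : ℝ) (A0 : ℕ), |R0| ≤ max |R| |R'| → A0 ≤ max A A' →
      C0 * R0 ^ n * n.factorial * ‖h‖ ^ n * (‖h‖ / h.im) ^ A0 ≤
      |C0| * (max |R| |R'|) ^ n * n.factorial * ‖h‖ ^ n * (‖h‖ / h.im) ^ (max A A') := by
    intro C0 R0 A0 hR hA
    have hCR : C0 * R0 ^ n ≤ |C0| * (max |R| |R'|) ^ n := by
      refine le_trans (le_abs_self _) ?_
      rw [abs_mul, abs_pow]
      exact mul_le_mul_of_nonneg_left (pow_le_pow_left₀ (abs_nonneg _) hR n) (abs_nonneg _)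
    have hp : (‖h‖ / h.im) ^ A0 ≤ (‖h‖ / h.im) ^ (max A A') := pow_le_pow_right₀ h1 hA
    have hq : 0 ≤ (‖h‖ / h.im) ^ A0 := by positivity
    have hmax : (0 : ℝ) ≤ max |R| |R'| := le_trans (abs_nonneg _) (le_max_left _ _)
    apply mul_le_mul _ hp hq (by positivity)
    apply mul_le_mul_of_nonneg_right _ (by positivity)
    exact mul_le_mul_of_nonneg_right hCR (by positivity)
  have k1 := key C R A (le_max_left _ _) (le_max_left _ _)
  have k2 := key C' R' A' (le_max_right _ _) (le_max_right _ _)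
  have b1 := hb n h hh hh1
  have b2 := hb' n h hh hh1
  calc _ ≤ |C| * (max |R| |R'|) ^ n * n.factorial * ‖h‖ ^ n * (‖h‖ / h.im) ^ (max A A') +
        |C'| * (max |R| |R'|) ^ n * n.factorial * ‖h‖ ^ n * (‖h‖ / h.im) ^ (max A A') :=
        add_le_add (le_trans b1 k1) (le_trans b2 k2)
    _ = _ := by ring

theorem HG.smul {f : ℂ → ℂ} {s : ℝ⟦X⟧} (c : ℝ) (hf : HG f s) :
    HG (fun h => (c : ℂ) * f h) (c • s) := by
  obtain ⟨C, R, A, hb⟩ := hf.bound
  refine ⟨hf.diff.const_mul (c : ℂ), |c| * C, R, A, ?_⟩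
  intro n h hh hh1
  have e1 : (c : ℂ) * f h - ∑ k ∈ range n, ((coeff k (c • s) : ℝ) : ℂ) * h ^ k =
      (c : ℂ) * (f h - ∑ k ∈ range n, ((coeff k s : ℝ) : ℂ) * h ^ k) := by
    rw [mul_sub, Finset.mul_sum]
    refine congrArg₂ _ rfl (Finset.sum_congr rfl ?_)
    intro k _
    rw [PowerSeries.coeff_smul, smul_eq_mul]
    push_cast
    ring
  rw [e1, norm_mul, Complex.norm_real, Real.norm_eq_abs]
  calc |c| * ‖f h - ∑ k ∈ range n, ((coeff k s : ℝ) : ℂ) * h ^ k‖
      ≤ |c| * (C * R ^ n * n.factorial * ‖h‖ ^ n * (‖h‖ / h.im) ^ A) :=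
        mul_le_mul_of_nonneg_left (hb n h hh hh1) (abs_nonneg _)
    _ = _ := by ring

end Pool.Agent.GPC
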