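import Pool.Agent.GPC.Defs
import Pool.Agent.OHG.All
import Pool.Agent.GPC.B1
import Pool.Agent.GPC.B2
import Pool.Agent.GPC.B3
import Pool.Agent.GPC.G4
import Pool.Agent.GPC.T6
import Pool.Agent.GPC.U5
import Pool.Agent.GPC.U6

set_option autoImplicit false

open PowerSeries Finset MeasureTheory

namespace Pool.Agent.GPC

open Pool.Agent.OHG

variable {V : Type} [Fintype V] [DecidableEq V]

/-- the integral. -/
private noncomputable def b4_I (θ : ℝ → ℝ) (ε : ℝ) (h : ℂ) : ℂ :=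
  ∫ u in Set.Ioi (0 : ℝ), (θ u : ℂ) * (1 + 120 * ε * h * u) ^ (-(1 / 2) : ℂ)

private noncomputable def b4_m (θ : ℝ → ℝ) : ℝ := ∫ u in Set.Ioi (0 : ℝ), u ^ (-(1 / 2) : ℝ) * θ u

private noncomputable def b4_rho (θ : ℝ → ℝ) (ε : ℝ) : ℂ :=
  -(1 / 2) * (120 * ε * Complex.I) ^ (-(1 / 2) : ℂ) * (b4_m θ : ℂ)

private noncomputable def b4_F (θ : ℝ → ℝ) (ε : ℝ) (h : ℂ) : ℂ :=
  ((ε : ℂ) * (Complex.exp (((ε / 120 : ℝ) : ℂ) * h) - ((1 / 2 : ℝ) : ℂ) * b4_I θ ε h)) / h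

private theorem b4_rho_ne {θ : ℝ → ℝ} (hθ : Theta θ rr) {ε : ℝ} (hε : ε = 1 ∨ ε = -1) :
    b4_rho θ ε ≠ 0 := by
  have hm : 0 < b4_m θ := by
    have := hθ.pos (1 / 2) (by norm_num)
    exact this
  have h0 : (ε : ℂ) ≠ 0 := by
    rcases hε with h | h <;> rw [h] <;> norm_num
  unfold b4_rho
  refine mul_ne_zero (mul_ne_zero (by norm_num) ?_) (by exact_mod_cast hm.ne')
  rw [Complex.cpow_def_of_ne_zero]
  · exact Complex.exp_ne_zero _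
  · exact mul_ne_zero (mul_ne_zero (by norm_num) h0) Complex.I_ne_zero

private theorem b4_key {θ : ℝ → ℝ} (hθ : Theta θ rr) {ε : ℝ} (hε : ε = 1 ∨ ε = -1) :
    ∃ C : ℝ, ∀ τ : ℝ, 1 ≤ τ →
    ‖b4_F θ ε (Complex.I * τ) - (-(Complex.I * ε)) * ((τ ^ (-1 : ℝ) : ℝ) : ℂ) *
      Complex.exp (Complex.I * ((ε / 120 : ℝ) : ℂ) * τ) *
      (1 + ((τ ^ (-(1 / 2) : ℝ) : ℝ) : ℂ) * (b4_rho θ ε *
        Complex.exp (-(Complex.I * ((ε / 120 : ℝ) : ℂ) * τ))))‖ ≤ C * τ ^ (-(1 : ℝ) - 1) := by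
  obtain ⟨C, hC⟩ := asy_bad hε hθ
  refine ⟨|C|, ?_⟩
  intro τ hτ
  have hτ0 : (0 : ℝ) < τ := by linarith
  have hτc : (τ : ℂ) ≠ 0 := by exact_mod_cast hτ0.ne'
  have h1 := hC τ hτ
  have hI : Complex.I ^ 2 = -1 := Complex.I_sq
  have hinv : (Complex.I * (τ : ℂ))⁻¹ = -(Complex.I * (τ : ℂ)⁻¹) := by
    rw [mul_inv, Complex.inv_I]; ring
  have hpow : ((τ ^ (-1 : ℝ) : ℝ) : ℂ) = (τ : ℂ)⁻¹ := by
    rw [Real.rpow_neg_one]; push_cast; rfl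
  have hexp : Complex.exp (Complex.I * ((ε / 120 : ℝ) : ℂ) * τ) *
      Complex.exp (-(Complex.I * ((ε / 120 : ℝ) : ℂ) * τ)) = 1 := by
    rw [← Complex.exp_add, add_neg_cancel, Complex.exp_zero]
  have heq : b4_F θ ε (Complex.I * τ) - (-(Complex.I * ε)) * ((τ ^ (-1 : ℝ) : ℝ) : ℂ) *
      Complex.exp (Complex.I * ((ε / 120 : ℝ) : ℂ) * τ) *
      (1 + ((τ ^ (-(1 / 2) : ℝ) : ℝ) : ℂ) * (b4_rho θ ε *
        Complex.exp (-(Complex.I * ((ε / 120 : ℝ) : ℂ) * τ)))) =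
      (Complex.I * ε * (τ : ℂ)⁻¹ * (1 / 2)) *
      (b4_I θ ε (Complex.I * τ) - (120 * ε * Complex.I) ^ (-(1 / 2) : ℂ) *
        ((τ ^ (-(1 / 2) : ℝ) : ℝ) : ℂ) * (b4_m θ : ℂ)) := by
    have he : Complex.exp (((ε / 120 : ℝ) : ℂ) * (Complex.I * τ)) =
        Complex.exp (Complex.I * ((ε / 120 : ℝ) : ℂ) * τ) := by
      congr 1; ring
    rw [b4_F, div_eq_mul_inv, hinv, hpow, he, b4_rho]
    generalize Complex.exp (Complex.I * ((ε / 120 : ℝ) : ℂ) * τ) = E at hexp ⊢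
    generalize Complex.exp (-(Complex.I * ((ε / 120 : ℝ) : ℂ) * τ)) = E' at hexp ⊢
    generalize (120 * ε * Complex.I) ^ (-(1 / 2) : ℂ) = r
    push_cast
    linear_combination (-(1 / 2) * Complex.I * ε * (τ : ℂ)⁻¹ *
      ((τ ^ (-(1 / 2) : ℝ) : ℝ) : ℂ) * r * (b4_m θ : ℂ)) * hexp
  rw [heq, norm_mul]
  have hn : ‖Complex.I * ε * (τ : ℂ)⁻¹ * (1 / 2)‖ ≤ τ⁻¹ := by
    rw [norm_mul, norm_mul, norm_mul, Complex.norm_I, norm_inv, Complex.norm_real,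
      Complex.norm_real, Real.norm_eq_abs, Real.norm_eq_abs, abs_of_pos hτ0]
    have h2 : |ε| = 1 := by rcases hε with h | h <;> rw [h] <;> norm_num
    rw [h2]
    have h3 : ‖(1 / 2 : ℂ)‖ ≤ 1 := by norm_num
    have h4 : 0 < τ⁻¹ := inv_pos.mpr hτ0
    nlinarith [norm_nonneg (1 / 2 : ℂ)]
  have h5 : τ ^ (-(3 / 2) : ℝ) ≤ τ ^ (-1 : ℝ) :=
    Real.rpow_le_rpow_of_exponent_le hτ (by norm_num)
  have h6 : ‖b4_I θ ε (Complex.I * τ) - (120 * ε * Complex.I) ^ (-(1 / 2) : ℂ) *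
        ((τ ^ (-(1 / 2) : ℝ) : ℝ) : ℂ) * (b4_m θ : ℂ)‖ ≤ |C| * τ ^ (-1 : ℝ) := by
    refine le_trans h1 ?_
    refine le_trans (mul_le_mul_of_nonneg_right (le_abs_self C) (by positivity)) ?_
    exact mul_le_mul_of_nonneg_left h5 (abs_nonneg C)
  have h7 : τ ^ (-(1 : ℝ) - 1) = τ⁻¹ * τ ^ (-1 : ℝ) := by
    rw [Real.rpow_sub hτ0, Real.rpow_neg_one, Real.rpow_one]
    field_simp
  rw [h7]
  calc _ ≤ τ⁻¹ * (|C| * τ ^ (-1 : ℝ)) :=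
        mul_le_mul hn h6 (norm_nonneg _) (by positivity)
    _ = _ := by ring

theorem bad_F : ∃ ρ σ : ℂ, ρ ≠ 0 ∧ σ ≠ 0 ∧ ∀ P : Prime, Bad P → ∃ F : ℂ → ℂ, HG F (part P.D) ∧
    ((P.D.sgn 0 = 1 ∧ Asy F 1 (1 / 120) ρ 0) ∨ (P.D.sgn 0 = -1 ∧ Asy F 1 (-(1 / 120)) 0 σ)) := by
  obtain ⟨θ, hθ⟩ := theta_exists good_RR
  refine ⟨b4_rho θ 1, b4_rho θ (-1), b4_rho_ne hθ (Or.inl rfl), b4_rho_ne hθ (Or.inr rfl), ?_⟩
  intro P hP
  have hs : ((P.D.sgn 0 : ℤ) : ℝ) = 1 ∨ ((P.D.sgn 0 : ℤ) : ℝ) = -1 := by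
    rcases P.isGraph.sign 0 with h | h
    · left; rw [h]; norm_num
    · right; rw [h]; norm_num
  refine ⟨b4_F θ (P.D.sgn 0 : ℝ), ?_, ?_⟩
  · have h1 : HG (fun h => (((P.D.sgn 0 : ℤ) : ℝ) : ℂ) *
        (Complex.exp (((((P.D.sgn 0 : ℤ) : ℝ) / 120 : ℝ) : ℂ) * h) -
          ((1 / 2 : ℝ) : ℂ) * b4_I θ ((P.D.sgn 0 : ℤ) : ℝ) h)) (X * part P.D) := by
      rw [part_bad hP]
      exact HG.smul _ (HG.sub (hg_exp _) (HG.smul (1 / 2) (hg_bad hs hθ)))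
    exact HG.div h1
  · rcases P.isGraph.sign 0 with h | h
    · left
      refine ⟨h, -(Complex.I * ((1 : ℝ) : ℂ)), ?_, ?_⟩
      · simp
      · obtain ⟨C, hC⟩ := b4_key hθ (ε := 1) (Or.inl rfl)
        refine ⟨C, ?_⟩
        intro τ hτ
        have h1 := hC τ hτ
        rw [h]
        have h2 : -(Complex.I * τ / 120) = -(Complex.I * ((1 / 120 : ℝ) : ℂ) * τ) := by
          push_cast; ring
        rw [h2]
        simp only [zero_mul, add_zero, Int.cast_one]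
        exact h1
    · right
      refine ⟨h, -(Complex.I * ((-1 : ℝ) : ℂ)), ?_, ?_⟩
      · simp
      · obtain ⟨C, hC⟩ := b4_key hθ (ε := -1) (Or.inr rfl)
        refine ⟨C, ?_⟩
        intro τ hτ
        have h1 := hC τ hτ
        rw [h]
        have h2 : Complex.I * τ / 120 = -(Complex.I * ((-1 / 120 : ℝ) : ℂ) * τ) := by
          push_cast; ring
        have h3 : ((-(1 / 120) : ℝ) : ℂ) = ((-1 / 120 : ℝ) : ℂ) := by push_cast; ring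
        rw [h2, h3]
        simp only [zero_mul, zero_add, Int.cast_neg, Int.cast_one]
        exact h1

end Pool.Agent.GPC
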