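import Pool.Agent.GPC.Defs
import Pool.Agent.OHG.All
import Pool.Agent.GPC.F0

set_option autoImplicit false

open PowerSeries Finset MeasureTheory

namespace Pool.Agent.GPC

open Pool.Agent.OHG

variable {V : Type} [Fintype V] [DecidableEq V]

theorem asy_F {D : Data V} {K : ℂ → (V → ℝ) → ℂ} (hK : IsKer D K) {θ : V → ℝ → ℝ}
    (hθ : ∀ v, Theta (θ v) (node D v)) :
    Asy (fun h => ∫ u in {u : V → ℝ | ∀ v, 0 < u v}, ((∏ v, θ v (u v) : ℝ) : ℂ) * K h u)
      ((3 / 2 : ℝ) * Fintype.card V) 0 0 0 := by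
  obtain ⟨c, hc, C, hasy⟩ := hK.asy
  set S : Set (V → ℝ) := {u : V → ℝ | ∀ v, 0 < u v} with hS
  have hSo : IsOpen S := by
    have : S = Set.pi Set.univ fun _ : V => Set.Ioi (0 : ℝ) := by
      ext u; simp [hS]
    rw [this]
    exact isOpen_set_pi Set.finite_univ fun _ _ => isOpen_Ioi
  have hSm : MeasurableSet S := hSo.measurableSet
  set N := Fintype.card V with hN
  set P : (V → ℝ) → ℂ := fun u => ((∏ v, θ v (u v) : ℝ) : ℂ) with hP
  have hPc : Continuous P := by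
    refine Complex.continuous_ofReal.comp ?_
    exact continuous_finsetProd _ fun v _ => (hθ v).cont.comp (continuous_apply v)
  have hPn : ∀ u, ‖P u‖ = ∏ v, |θ v (u v)| := by
    intro u
    simp only [hP]
    rw [Complex.norm_real, Real.norm_eq_abs, Finset.abs_prod]
  set J : ℝ := ∫ u in S, (∏ v, |θ v (u v)|) * (1 + ∑ v, u v) ^ N * ∏ v, (u v) ^ (-(5 / 2) : ℝ)
    with hJ
  set cF : ℂ := c * ((∏ v, ∫ x in Set.Ioi (0 : ℝ), θ v x * x ^ (-(3 / 2) : ℝ) : ℝ) : ℂ) with hcF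
  have hcF0 : cF ≠ 0 := by
    refine mul_ne_zero hc ?_
    have : (0 : ℝ) < ∏ v, ∫ x in Set.Ioi (0 : ℝ), θ v x * x ^ (-(3 / 2) : ℝ) := by
      refine Finset.prod_pos fun v _ => ?_
      have h := (hθ v).pos (3 / 2) (by norm_num)
      have e : (∫ x in Set.Ioi (0 : ℝ), θ v x * x ^ (-(3 / 2) : ℝ)) =
          ∫ x in Set.Ioi (0 : ℝ), x ^ (-(3 / 2) : ℝ) * θ v x := by
        congr 1; funext x; ring
      rw [e]; exact h
    exact_mod_cast this.ne'
  have hint0 : IntegrableOn (fun u : V → ℝ => P u * (c * ((∏ v, (u v) ^ (-(3 / 2) : ℝ) : ℝ) : ℂ)))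
      S := by
    have hb := theta_integrable hθ 0 (3 / 2)
    refine Integrable.mono' (hb.const_mul ‖c‖) ?_ ?_
    · refine ContinuousOn.aestronglyMeasurable ?_ hSm
      refine hPc.continuousOn.mul (continuousOn_const.mul ?_)
      refine Complex.continuous_ofReal.comp_continuousOn ?_
      refine continuousOn_finsetProd _ fun v _ => ?_
      refine ContinuousOn.rpow_const (continuous_apply v).continuousOn fun u hu => ?_
      exact Or.inl (hu v).ne'
    · refine (ae_restrict_iff' hSm).2 (Filter.Eventually.of_forall fun u hu => ?_)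
      rw [norm_mul, hPn, norm_mul, Complex.norm_real, Real.norm_eq_abs,
        abs_of_nonneg (Finset.prod_nonneg fun v _ => Real.rpow_nonneg (hu v).le _)]
      rw [pow_zero, mul_one]
      exact le_of_eq (by ring)
  have hcFint : ∫ u in S, P u * (c * ((∏ v, (u v) ^ (-(3 / 2) : ℝ) : ℝ) : ℂ)) = cF := by
    have h1 : ∀ u : V → ℝ, P u * (c * ((∏ v, (u v) ^ (-(3 / 2) : ℝ) : ℝ) : ℂ)) =
        c * ((∏ v, (θ v (u v) * (u v) ^ (-(3 / 2) : ℝ)) : ℝ) : ℂ) := by
      intro u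
      simp only [hP]
      rw [Finset.prod_mul_distrib]
      push_cast
      ring
    simp only [h1]
    rw [integral_const_mul, integral_complex_ofReal]
    rw [pos_prod fun v x => θ v x * x ^ (-(3 / 2) : ℝ)]
  refine ⟨cF, hcF0, C * J, fun τ hτ => ?_⟩
  have hτ0 : 0 < τ := by linarith
  have hUH : Complex.I * (τ : ℂ) ∈ UH := by
    simp [UH, hτ0]
  have hKint : IntegrableOn (fun u : V → ℝ => P u * K (Complex.I * τ) u) S := by
    have hb := theta_integrable hθ 0 0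
    refine Integrable.mono' hb ?_ ?_
    · refine ContinuousOn.aestronglyMeasurable ?_ hSm
      exact hPc.continuousOn.mul (hK.cont _ hUH)
    · refine (ae_restrict_iff' hSm).2 (Filter.Eventually.of_forall fun u hu => ?_)
      rw [norm_mul, hPn]
      have h1 := hK.bound _ hUH u hu
      have h2 : ‖Complex.I * (τ : ℂ)‖ / (Complex.I * (τ : ℂ)).im = 1 := by
        have e1 : ‖Complex.I * (τ : ℂ)‖ = τ := by
          rw [norm_mul, Complex.norm_I, one_mul, Complex.norm_real, Real.norm_eq_abs,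
            abs_of_pos hτ0]
        have e2 : (Complex.I * (τ : ℂ)).im = τ := by simp
        rw [e1, e2]
        exact div_self hτ0.ne'
      rw [h2, one_pow] at h1
      have h3 : (∏ v, (u v) ^ (-(0 : ℝ))) = 1 := by
        refine Finset.prod_eq_one fun v _ => ?_
        rw [neg_zero, Real.rpow_zero]
      rw [pow_zero, mul_one, h3, mul_one]
      calc (∏ v, |θ v (u v)|) * ‖K (Complex.I * τ) u‖ ≤ (∏ v, |θ v (u v)|) * 1 :=
            mul_le_mul_of_nonneg_left h1 (Finset.prod_nonneg fun v _ => abs_nonneg _)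
        _ = _ := mul_one _
  set T : ℝ := τ ^ ((3 / 2 : ℝ) * N) with hT
  have hT0 : 0 < T := Real.rpow_pos_of_pos hτ0 _
  have hmain : ‖((T : ℝ) : ℂ) * (∫ u in S, P u * K (Complex.I * τ) u) - cF‖ ≤ C / τ * J := by
    rw [← hcFint, ← integral_const_mul, ← integral_sub (hKint.const_mul _) hint0]
    have hJ' : C / τ * J = ∫ u in S, C / τ * ((∏ v, |θ v (u v)|) * (1 + ∑ v, u v) ^ N *
        ∏ v, (u v) ^ (-(5 / 2) : ℝ)) := by
      rw [integral_const_mul]
    rw [hJ']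
    refine norm_integral_le_of_norm_le ((theta_integrable hθ N (5 / 2)).const_mul _) ?_
    refine (ae_restrict_iff' hSm).2 (Filter.Eventually.of_forall fun u hu => ?_)
    have e : ((T : ℝ) : ℂ) * (P u * K (Complex.I * τ) u) -
        P u * (c * ((∏ v, (u v) ^ (-(3 / 2) : ℝ) : ℝ) : ℂ)) =
        P u * (((T : ℝ) : ℂ) * K (Complex.I * τ) u -
          c * ((∏ v, (u v) ^ (-(3 / 2) : ℝ) : ℝ) : ℂ)) := by ring
    rw [e, norm_mul, hPn]
    have h1 := hasy τ u hτ hu
    calc (∏ v, |θ v (u v)|) * ‖((T : ℝ) : ℂ) * K (Complex.I * τ) u -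
          c * ((∏ v, (u v) ^ (-(3 / 2) : ℝ) : ℝ) : ℂ)‖
        ≤ (∏ v, |θ v (u v)|) * (C / τ * ((1 + ∑ v, u v) ^ N * ∏ v, (u v) ^ (-(5 / 2) : ℝ))) :=
          mul_le_mul_of_nonneg_left h1 (Finset.prod_nonneg fun v _ => abs_nonneg _)
      _ = _ := by ring
  have hTneg : τ ^ (-((3 / 2 : ℝ) * N)) = T⁻¹ := by rw [Real.rpow_neg hτ0.le]
  have hTneg1 : τ ^ (-((3 / 2 : ℝ) * N) - 1) = T⁻¹ / τ := by
    rw [Real.rpow_sub hτ0, hTneg, Real.rpow_one]
  have hTc : ((T : ℝ) : ℂ) ≠ 0 := by exact_mod_cast hT0.ne'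
  rw [hTneg, hTneg1]
  have e : (∫ u in S, P u * K (Complex.I * τ) u) -
      cF * ((T⁻¹ : ℝ) : ℂ) * Complex.exp (Complex.I * ((0 : ℝ) : ℂ) * τ) *
        (1 + ((τ ^ (-(1 / 2) : ℝ) : ℝ) : ℂ) * (0 * Complex.exp (-(Complex.I * τ / 120)) +
          0 * Complex.exp (Complex.I * τ / 120))) =
      ((T⁻¹ : ℝ) : ℂ) * (((T : ℝ) : ℂ) * (∫ u in S, P u * K (Complex.I * τ) u) - cF) := by
    rw [Complex.ofReal_zero, mul_zero, zero_mul, Complex.exp_zero, mul_one]
    rw [zero_mul, zero_mul, add_zero, mul_zero, add_zero, mul_one, Complex.ofReal_inv]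
    field_simp
  have hgoal : ‖(∫ u in S, P u * K (Complex.I * τ) u) -
      cF * ((T⁻¹ : ℝ) : ℂ) * Complex.exp (Complex.I * ((0 : ℝ) : ℂ) * τ) *
        (1 + ((τ ^ (-(1 / 2) : ℝ) : ℝ) : ℂ) * (0 * Complex.exp (-(Complex.I * τ / 120)) +
          0 * Complex.exp (Complex.I * τ / 120)))‖ ≤ C * J * (T⁻¹ / τ) := by
    rw [e, norm_mul, Complex.norm_real, Real.norm_eq_abs, abs_of_pos (inv_pos.2 hT0)]
    calc T⁻¹ * ‖((T : ℝ) : ℂ) * (∫ u in S, P u * K (Complex.I * τ) u) - cF‖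
        ≤ T⁻¹ * (C / τ * J) := mul_le_mul_of_nonneg_left hmain (inv_pos.2 hT0).le
      _ = C * J * (T⁻¹ / τ) := by ring
  exact hgoal

end Pool.Agent.GPC
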