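import Pool.Agent.GPC.Defs
import Pool.Agent.OHG.All
import Pool.Agent.GPC.F0

set_option autoImplicit false

open PowerSeries Finset MeasureTheory

namespace Pool.Agent.GPC

open Pool.Agent.OHG

variable {V : Type} [Fintype V] [DecidableEq V]

omit [DecidableEq V] in
private theorem F1_meas : MeasurableSet {u : V → ℝ | ∀ v, 0 < u v} := by
  rw [Set.ofPred_forall]
  exact MeasurableSet.iInter fun v => measurableSet_lt measurable_const (measurable_pi_apply v)

private theorem F1_int {D : Data V} {θ : V → ℝ → ℝ} (hθ : ∀ v, Theta (θ v) (node D v)) :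
    Integrable (fun u : V → ℝ => ∏ v, |θ v (u v)|)
      (volume.restrict {u : V → ℝ | ∀ v, 0 < u v}) := by
  have h := theta_integrable hθ 0 0
  have h2 : (fun u : V → ℝ => (∏ v, |θ v (u v)|) * (1 + ∑ v, u v) ^ 0 *
      ∏ v, (u v) ^ (-(0 : ℝ))) = fun u : V → ℝ => ∏ v, |θ v (u v)| := by
    funext u
    simp
  rw [h2] at h
  exact h

private theorem F1_aesm {D : Data V} {K : ℂ → (V → ℝ) → ℂ} (hK : IsKer D K) {θ : V → ℝ → ℝ}
    (hθ : ∀ v, Theta (θ v) (node D v)) {h : ℂ} (hh : h ∈ UH) :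
    AEStronglyMeasurable (fun u : V → ℝ => ((∏ v, θ v (u v) : ℝ) : ℂ) * K h u)
      (volume.restrict {u : V → ℝ | ∀ v, 0 < u v}) := by
  refine ContinuousOn.aestronglyMeasurable ?_ F1_meas
  refine ContinuousOn.mul ?_ (hK.cont h hh)
  refine (Complex.continuous_ofReal.comp ?_).continuousOn
  exact continuous_finsetProd _ fun v _ => (hθ v).cont.comp (continuous_apply v)

theorem diff_F {D : Data V} {K : ℂ → (V → ℝ) → ℂ} (hK : IsKer D K) {θ : V → ℝ → ℝ}
    (hθ : ∀ v, Theta (θ v) (node D v)) :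
    DifferentiableOn ℂ (fun h => ∫ u in {u : V → ℝ | ∀ v, 0 < u v},
      ((∏ v, θ v (u v) : ℝ) : ℂ) * K h u) UH := by
  intro h0 hh0
  have him : 0 < h0.im := hh0
  set r : ℝ := h0.im / 4 with hr
  have hr0 : 0 < r := by positivity
  set N : ℕ := 2 * Fintype.card V with hN
  set M : ℝ := ((‖h0‖ + 2 * r) / (h0.im / 2)) ^ N with hM
  have hM0 : 0 ≤ M := by positivity
  have hIm : ∀ z : ℂ, ‖z - h0‖ ≤ 2 * r → h0.im / 2 ≤ z.im := by
    intro z hz
    have h1 : |(z - h0).im| ≤ ‖z - h0‖ := Complex.abs_im_le_norm _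
    rw [Complex.sub_im] at h1
    have h2 := (abs_le.mp (h1.trans hz)).1
    linarith
  have hUH : ∀ z : ℂ, ‖z - h0‖ ≤ 2 * r → z ∈ UH := by
    intro z hz
    have := hIm z hz
    show 0 < z.im
    linarith
  have hKb : ∀ z : ℂ, ‖z - h0‖ ≤ 2 * r → ∀ u : V → ℝ, (∀ v, 0 < u v) → ‖K z u‖ ≤ M := by
    intro z hz u hu
    refine (hK.bound z (hUH z hz) u hu).trans ?_
    have h1 := hIm z hz
    have h2 : ‖z‖ ≤ ‖h0‖ + 2 * r := by
      have := norm_add_le (z - h0) h0
      rw [sub_add_cancel] at this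
      linarith
    have h3 : 0 < z.im := by linarith
    have h4 : ‖z‖ / z.im ≤ (‖h0‖ + 2 * r) / (h0.im / 2) := by
      apply div_le_div₀ _ h2 (by linarith) h1
      positivity
    exact pow_le_pow_left₀ (by positivity) h4 _
  have hmem : ∀ᵐ u : V → ℝ ∂(volume.restrict {u : V → ℝ | ∀ v, 0 < u v}), ∀ v, 0 < u v :=
    ae_restrict_mem F1_meas
  have hnorm : ∀ u : V → ℝ, ‖((∏ v, θ v (u v) : ℝ) : ℂ)‖ = ∏ v, |θ v (u v)| := by
    intro u
    rw [Complex.norm_real, Real.norm_eq_abs, Finset.abs_prod]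
  have hderiv : ∀ u : V → ℝ, (∀ v, 0 < u v) → ∀ z : ℂ, z ∈ Metric.ball h0 r →
      HasDerivAt (fun h => K h u) (deriv (fun h => K h u) z) z ∧
        ‖deriv (fun h => K h u) z‖ ≤ M / r := by
    intro u hu z hz
    have hz1 : ‖z - h0‖ < r := by rwa [Metric.mem_ball, dist_eq_norm] at hz
    have hd : ∀ y : ℂ, ‖y - z‖ ≤ r → ‖y - h0‖ ≤ 2 * r := by
      intro y hy
      have := norm_add_le (y - z) (z - h0)
      rw [sub_add_sub_cancel] at this
      linarith
    have hopen : IsOpen UH := isOpen_lt continuous_const Complex.continuous_im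
    have hdiff : ∀ y : ℂ, ‖y - z‖ ≤ r → DifferentiableAt ℂ (fun h => K h u) y := fun y hy =>
      (hK.diff u hu).differentiableAt (hopen.mem_nhds (hUH y (hd y hy)))
    refine ⟨(hdiff z (by simpa using hr0.le)).hasDerivAt, ?_⟩
    refine Complex.norm_deriv_le_of_forall_mem_sphere_norm_le hr0 ?_ ?_
    · refine DifferentiableOn.diffContOnCl fun y hy => ?_
      refine (hdiff y ?_).differentiableWithinAt
      have := Metric.closure_ball_subset_closedBall hy
      rwa [Metric.mem_closedBall, dist_eq_norm] at this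
    · intro y hy
      rw [mem_sphere_iff_norm] at hy
      exact hKb y (hd y hy.le) u hu
  have hself : ‖h0 - h0‖ ≤ 2 * r := by simpa using hr0.le
  have key := hasDerivAt_integral_of_dominated_loc_of_deriv_le
    (μ := volume.restrict {u : V → ℝ | ∀ v, 0 < u v}) (x₀ := h0) (s := Metric.ball h0 r)
    (F := fun (h : ℂ) (u : V → ℝ) => ((∏ v, θ v (u v) : ℝ) : ℂ) * K h u)
    (F' := fun (h : ℂ) (u : V → ℝ) => ((∏ v, θ v (u v) : ℝ) : ℂ) * deriv (fun h => K h u) h)
    (bound := fun u => (∏ v, |θ v (u v)|) * (M / r))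
    (Metric.ball_mem_nhds h0 hr0) ?_ ?_ ?_ ?_ ?_ ?_
  · exact key.2.differentiableAt.differentiableWithinAt
  · filter_upwards [Metric.ball_mem_nhds h0 hr0] with z hz
    refine F1_aesm hK hθ (hUH z ?_)
    rw [Metric.mem_ball, dist_eq_norm] at hz
    linarith
  · refine Integrable.mono' ((F1_int hθ).mul_const M) (F1_aesm hK hθ hh0) ?_
    filter_upwards [hmem] with u hu
    rw [norm_mul, hnorm]
    exact mul_le_mul_of_nonneg_left (hKb h0 hself u hu)
      (Finset.prod_nonneg fun v _ => abs_nonneg _)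
  · have hlim : ∀ᵐ u : V → ℝ ∂(volume.restrict {u : V → ℝ | ∀ v, 0 < u v}),
        Filter.Tendsto (fun n : ℕ => ((∏ v, θ v (u v) : ℝ) : ℂ) *
          ((((r / (n + 2) : ℝ) : ℂ))⁻¹ * (K (h0 + ((r / (n + 2) : ℝ) : ℂ)) u - K h0 u)))
          Filter.atTop (nhds (((∏ v, θ v (u v) : ℝ) : ℂ) * deriv (fun h => K h u) h0)) := by
      filter_upwards [hmem] with u hu
      refine Filter.Tendsto.const_mul _ ?_
      have h1 := (hderiv u hu h0 (Metric.mem_ball_self hr0)).1
      rw [hasDerivAt_iff_tendsto_slope_zero] at h1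
      have h2 : Filter.Tendsto (fun n : ℕ => ((r / (n + 2) : ℝ) : ℂ)) Filter.atTop
          (nhdsWithin 0 {0}ᶜ) := by
        rw [tendsto_nhdsWithin_iff]
        constructor
        · have h3 : Filter.Tendsto (fun n : ℕ => r / ((n : ℝ) + 2)) Filter.atTop (nhds 0) := by
            apply Filter.Tendsto.const_div_atTop
            exact Filter.tendsto_atTop_add_const_right _ _ tendsto_natCast_atTop_atTop
          have h4 := (Complex.continuous_ofReal.tendsto 0).comp h3
          rw [Complex.ofReal_zero] at h4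
          exact h4
        · refine Filter.Eventually.of_forall fun n => ?_
          simp only [Set.mem_compl_iff, Set.mem_singleton_iff]
          have : r / ((n : ℝ) + 2) ≠ 0 := by positivity
          exact_mod_cast this
      exact h1.comp h2
    refine aestronglyMeasurable_of_tendsto_ae Filter.atTop (fun n => ?_) hlim
    have hr2 : ‖(h0 + ((r / (n + 2) : ℝ) : ℂ)) - h0‖ ≤ 2 * r := by
      rw [add_sub_cancel_left, Complex.norm_real, Real.norm_eq_abs, abs_of_pos (by positivity)]
      rw [div_le_iff₀ (by positivity)]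
      have : (0 : ℝ) ≤ n := Nat.cast_nonneg n
      nlinarith
    have ha := F1_aesm hK hθ (hUH _ hr2)
    have hb := F1_aesm hK hθ hh0
    have hc := (ha.sub hb).const_mul ((((r / (n + 2) : ℝ) : ℂ))⁻¹)
    refine hc.congr (Filter.Eventually.of_forall fun u => ?_)
    simp only [Pi.sub_apply]
    ring
  · filter_upwards [hmem] with u hu
    intro z hz
    rw [norm_mul, hnorm]
    exact mul_le_mul_of_nonneg_left (hderiv u hu z hz).2
      (Finset.prod_nonneg fun v _ => abs_nonneg _)
  · exact (F1_int hθ).mul_const _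
  · filter_upwards [hmem] with u hu
    intro z hz
    exact (hderiv u hu z hz).1.const_mul _

end Pool.Agent.GPC
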