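import Pool.Agent.GPC.Defs
import Pool.Agent.OHG.All
import Pool.Agent.GPC.F0
import Pool.Agent.GPC.F1

set_option autoImplicit false

open PowerSeries Finset MeasureTheory

namespace Pool.Agent.GPC

open Pool.Agent.OHG

variable {V : Type} [Fintype V] [DecidableEq V]

omit [DecidableEq V] in
private theorem f3_open : IsOpen {u : V → ℝ | ∀ v, 0 < u v} := by
  rw [Set.ofPred_forall]
  exact isOpen_iInter_of_finite fun v => isOpen_lt continuous_const (continuous_apply v)

omit [DecidableEq V] in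
private theorem f3_cont {θ : V → ℝ → ℝ} {φ : V → ℝ⟦X⟧} (hθ : ∀ v, Theta (θ v) (φ v)) :
    Continuous (fun u : V → ℝ => ∏ v, θ v (u v)) :=
  continuous_finsetProd _ fun v _ => (hθ v).cont.comp (continuous_apply v)

private theorem f3_int_pow {θ : V → ℝ → ℝ} {φ : V → ℝ⟦X⟧} (hθ : ∀ v, Theta (θ v) (φ v)) (n : ℕ) :
    IntegrableOn (fun u : V → ℝ => (∏ v, |θ v (u v)|) * (1 + ∑ v, u v) ^ n)
      {u : V → ℝ | ∀ v, 0 < u v} := by
  have h := theta_integrable hθ n 0
  simpa using h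

private theorem f3_int_term {θ : V → ℝ → ℝ} {φ : V → ℝ⟦X⟧} (hθ : ∀ v, Theta (θ v) (φ v))
    (j : V → ℕ) :
    IntegrableOn (fun u : V → ℝ => ∏ v, (θ v (u v) * ((-u v) ^ j v / ((j v).factorial : ℝ))))
      {u : V → ℝ | ∀ v, 0 < u v} := by
  refine Integrable.mono' (f3_int_pow hθ (∑ v, j v)) ?_ ?_
  · refine Continuous.aestronglyMeasurable ?_
    refine continuous_finsetProd _ fun v _ => ?_
    exact ((hθ v).cont.comp (continuous_apply v)).mul
      ((((continuous_apply v).neg).pow _).div_const _)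
  · refine (ae_restrict_iff' f3_open.measurableSet).mpr (Filter.Eventually.of_forall fun u hu => ?_)
    have hu' : ∀ v, 0 < u v := hu
    rw [Real.norm_eq_abs, Finset.abs_prod, ← Finset.prod_pow_eq_pow_sum,
      ← Finset.prod_mul_distrib]
    refine Finset.prod_le_prod (fun v _ => abs_nonneg _) fun v _ => ?_
    rw [abs_mul]
    refine mul_le_mul_of_nonneg_left ?_ (abs_nonneg _)
    rw [abs_div, abs_pow, abs_neg, abs_of_pos (hu' v), Nat.abs_cast]
    have h1 : u v ≤ 1 + ∑ w, u w := by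
      have := Finset.single_le_sum (f := u) (fun w _ => (hu' w).le) (Finset.mem_univ v)
      linarith
    calc u v ^ j v / ((j v).factorial : ℝ) ≤ u v ^ j v :=
          div_le_self (pow_nonneg (hu' v).le _) (by exact_mod_cast (j v).factorial_pos)
      _ ≤ (1 + ∑ w, u w) ^ j v := pow_le_pow_left₀ (hu' v).le h1 _

private theorem f3_kap_eq {D : Data V} {θ : V → ℝ → ℝ} (k : ℕ) (u : V → ℝ) :
    (∏ v, θ v (u v)) * kap D k u = ∑ j ∈ (univ : Finset V).piAntidiag k,
      (∏ v, (θ v (u v) * ((-u v) ^ j v / ((j v).factorial : ℝ)))) * moment D j := by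
  unfold kap
  rw [Finset.mul_sum]
  refine Finset.sum_congr rfl fun j _ => ?_
  rw [Finset.prod_mul_distrib, mul_assoc]

private theorem f3_kap_int {D : Data V} {θ : V → ℝ → ℝ}
    (hθ : ∀ v, Theta (θ v) (node D v)) (k : ℕ) :
    IntegrableOn (fun u : V → ℝ => (∏ v, θ v (u v)) * kap D k u)
      {u : V → ℝ | ∀ v, 0 < u v} := by
  simp only [f3_kap_eq]
  refine integrable_finsetSum _ fun j _ => ?_
  exact (f3_int_term hθ j).mul_const _

private theorem f3_coeff {D : Data V} {θ : V → ℝ → ℝ}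
    (hθ : ∀ v, Theta (θ v) (node D v)) (k : ℕ) :
    ∫ u in {u : V → ℝ | ∀ v, 0 < u v}, (∏ v, θ v (u v)) * kap D k u = coeff k (part D) := by
  simp only [f3_kap_eq]
  rw [integral_finsetSum _ fun j _ => (f3_int_term hθ j).mul_const _]
  unfold part
  rw [coeff_mk]
  refine Finset.sum_congr rfl fun j _ => ?_
  rw [integral_mul_const,
    pos_prod (fun v x => θ v x * ((-x) ^ j v / ((j v).factorial : ℝ)))]
  congr 1
  refine Finset.prod_congr rfl fun v _ => ?_
  have h1 : ∀ x : ℝ, θ v x * ((-x) ^ j v / ((j v).factorial : ℝ)) =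
      ((-1) ^ j v / ((j v).factorial : ℝ)) * (x ^ j v * θ v x) := by
    intro x
    rw [neg_pow]
    ring
  simp only [h1]
  rw [integral_const_mul, (hθ v).moment (j v)]
  have h2 : ((j v).factorial : ℝ) ≠ 0 := by positivity
  have h3 : ((-1 : ℝ) ^ j v) * (-1) ^ j v = 1 := by
    rw [← mul_pow]
    norm_num
  field_simp
  rw [pow_two, h3, one_mul]

theorem hg_F {D : Data V} {K : ℂ → (V → ℝ) → ℂ} (hK : IsKer D K) {θ : V → ℝ → ℝ}
    (hθ : ∀ v, Theta (θ v) (node D v)) :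
    HG (fun h => ∫ u in {u : V → ℝ | ∀ v, 0 < u v}, ((∏ v, θ v (u v) : ℝ) : ℂ) * K h u)
      (part D) := by
  refine ⟨diff_F hK hθ, ?_⟩
  obtain ⟨C₀, R₀, hT⟩ := hK.taylor
  obtain ⟨C₁, R₁, hF⟩ := theta_factorial hθ
  refine ⟨|C₀| * C₁, |R₀| * R₁, 2 * Fintype.card V, fun n h hh _ => ?_⟩
  have him : 0 < h.im := hh
  have hr : 0 ≤ ‖h‖ / h.im := by positivity
  set S : Set (V → ℝ) := {u : V → ℝ | ∀ v, 0 < u v} with hS
  have hSm : MeasurableSet S := f3_open.measurableSet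
  -- integrability of the first term
  have hKint : IntegrableOn (fun u : V → ℝ => ((∏ v, θ v (u v) : ℝ) : ℂ) * K h u) S := by
    refine Integrable.mono' ((f3_int_pow hθ 0).const_mul ((‖h‖ / h.im) ^ (2 * Fintype.card V)))
      ?_ ?_
    · refine ContinuousOn.aestronglyMeasurable ?_ hSm
      exact (Complex.continuous_ofReal.comp (f3_cont hθ)).continuousOn.mul (hK.cont h hh)
    · refine (ae_restrict_iff' hSm).mpr (Filter.Eventually.of_forall fun u hu => ?_)
      rw [norm_mul, Complex.norm_real, Real.norm_eq_abs, Finset.abs_prod, pow_zero, mul_one,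
        mul_comm]
      exact mul_le_mul_of_nonneg_right (hK.bound h hh u hu)
        (Finset.prod_nonneg fun v _ => abs_nonneg _)
  have hterm : ∀ k, IntegrableOn (fun u : V → ℝ => ((∏ v, θ v (u v) : ℝ) : ℂ) *
      (((kap D k u : ℝ) : ℂ) * h ^ k)) S := by
    intro k
    have h1 : (fun u : V → ℝ => ((∏ v, θ v (u v) : ℝ) : ℂ) * (((kap D k u : ℝ) : ℂ) * h ^ k)) =
        fun u => (((∏ v, θ v (u v)) * kap D k u : ℝ) : ℂ) * h ^ k := by
      funext u
      push_cast
      ring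
    rw [h1]
    exact ((f3_kap_int hθ k).ofReal (𝕜 := ℂ)).mul_const _
  have hval : ∀ k, ∫ u in S, ((∏ v, θ v (u v) : ℝ) : ℂ) * (((kap D k u : ℝ) : ℂ) * h ^ k) =
      ((coeff k (part D) : ℝ) : ℂ) * h ^ k := by
    intro k
    have h1 : (fun u : V → ℝ => ((∏ v, θ v (u v) : ℝ) : ℂ) * (((kap D k u : ℝ) : ℂ) * h ^ k)) =
        fun u => (((∏ v, θ v (u v)) * kap D k u : ℝ) : ℂ) * h ^ k := by
      funext u
      push_cast
      ring
    rw [h1, integral_mul_const, integral_complex_ofReal, f3_coeff hθ k]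
  have hsum : ∑ k ∈ range n, ((coeff k (part D) : ℝ) : ℂ) * h ^ k =
      ∫ u in S, ∑ k ∈ range n, ((∏ v, θ v (u v) : ℝ) : ℂ) * (((kap D k u : ℝ) : ℂ) * h ^ k) := by
    rw [integral_finsetSum _ fun k _ => hterm k]
    exact Finset.sum_congr rfl fun k _ => (hval k).symm
  rw [hsum, ← integral_sub hKint (integrable_finsetSum _ fun k _ => hterm k)]
  -- the bound
  have hSn : IntegrableOn (fun u : V → ℝ => (∏ v, |θ v (u v)|) * (∑ v, u v) ^ n) S := by
    refine Integrable.mono' (f3_int_pow hθ n) ?_ ?_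
    · refine Continuous.aestronglyMeasurable ?_
      refine Continuous.mul ?_ ?_
      · exact continuous_finsetProd _ fun v _ =>
          ((hθ v).cont.comp (continuous_apply v)).abs
      · exact (continuous_finsetSum _ fun v _ => continuous_apply v).pow n
    · refine (ae_restrict_iff' hSm).mpr (Filter.Eventually.of_forall fun u hu => ?_)
      have hu' : ∀ v, 0 < u v := hu
      have h0 : 0 ≤ ∑ v, u v := Finset.sum_nonneg fun v _ => (hu' v).le
      have hp : 0 ≤ ∏ v, |θ v (u v)| := Finset.prod_nonneg fun v _ => abs_nonneg _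
      rw [Real.norm_of_nonneg (mul_nonneg hp (pow_nonneg h0 _))]
      exact mul_le_mul_of_nonneg_left (pow_le_pow_left₀ h0 (by linarith) _) hp
  set B : ℝ := |C₀| * (|R₀| * ‖h‖) ^ n * (‖h‖ / h.im) ^ (2 * Fintype.card V) with hB
  have hB0 : 0 ≤ B := by positivity
  refine le_trans (norm_integral_le_of_norm_le (hSn.const_mul B) ?_) ?_
  · refine (ae_restrict_iff' hSm).mpr (Filter.Eventually.of_forall fun u hu => ?_)
    have hu' : ∀ v, 0 < u v := hu
    have h0 : 0 ≤ ∑ v, u v := Finset.sum_nonneg fun v _ => (hu' v).le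
    have hp : 0 ≤ ∏ v, |θ v (u v)| := Finset.prod_nonneg fun v _ => abs_nonneg _
    have h1 : ((∏ v, θ v (u v) : ℝ) : ℂ) * K h u -
        ∑ k ∈ range n, ((∏ v, θ v (u v) : ℝ) : ℂ) * (((kap D k u : ℝ) : ℂ) * h ^ k) =
        ((∏ v, θ v (u v) : ℝ) : ℂ) * (K h u - ∑ k ∈ range n, ((kap D k u : ℝ) : ℂ) * h ^ k) := by
      rw [mul_sub, Finset.mul_sum]
    rw [h1, norm_mul, Complex.norm_real, Real.norm_eq_abs, Finset.abs_prod]
    have h2 := hT n h u hh hu'
    have h3 : C₀ * (R₀ * ‖h‖ * ∑ v, u v) ^ n * (‖h‖ / h.im) ^ (2 * Fintype.card V) ≤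
        B * (∑ v, u v) ^ n := by
      have h4 : C₀ * (R₀ * ‖h‖ * ∑ v, u v) ^ n ≤ |C₀| * (|R₀| * ‖h‖ * ∑ v, u v) ^ n := by
        refine le_trans (le_abs_self _) ?_
        rw [abs_mul, abs_pow, abs_mul, abs_mul, abs_of_nonneg (norm_nonneg h),
          abs_of_nonneg h0]
      calc C₀ * (R₀ * ‖h‖ * ∑ v, u v) ^ n * (‖h‖ / h.im) ^ (2 * Fintype.card V)
          ≤ |C₀| * (|R₀| * ‖h‖ * ∑ v, u v) ^ n * (‖h‖ / h.im) ^ (2 * Fintype.card V) :=
            mul_le_mul_of_nonneg_right h4 (pow_nonneg hr _)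
        _ = B * (∑ v, u v) ^ n := by
            rw [hB, mul_pow _ (∑ v, u v)]
            ring
    calc (∏ v, |θ v (u v)|) * ‖K h u - ∑ k ∈ range n, ((kap D k u : ℝ) : ℂ) * h ^ k‖
        ≤ (∏ v, |θ v (u v)|) * (B * (∑ v, u v) ^ n) :=
          mul_le_mul_of_nonneg_left (h2.trans h3) hp
      _ = B * ((∏ v, |θ v (u v)|) * (∑ v, u v) ^ n) := by ring
  · rw [integral_const_mul]
    calc B * ∫ u in S, (∏ v, |θ v (u v)|) * (∑ v, u v) ^ n
        ≤ B * (C₁ * R₁ ^ n * n.factorial) := mul_le_mul_of_nonneg_left (hF n) hB0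
      _ = |C₀| * C₁ * (|R₀| * R₁) ^ n * n.factorial * ‖h‖ ^ n *
          (‖h‖ / h.im) ^ (2 * Fintype.card V) := by
            rw [hB, mul_pow, mul_pow]
            ring

end Pool.Agent.GPC
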