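import Pool.Agent.GPC.Defs
import Pool.Agent.OHG.All

set_option autoImplicit false

open PowerSeries Finset MeasureTheory

namespace Pool.Agent.GPC

open Pool.Agent.OHG

variable {V : Type} [Fintype V] [DecidableEq V]

/-- The matrix `U ⊗ 1`. -/
private noncomputable def k1_M (U : Matrix V V ℝ) : Matrix (V × Fin 3) (V × Fin 3) ℝ :=
  Matrix.of fun a b => if a.2 = b.2 then U a.1 b.1 else 0

private lemma k1_mulVec (U : Matrix V V ℝ) (Z : V × Fin 3 → ℝ) (v : V) (i : Fin 3) :
    (k1_M U).mulVec Z (v, i) = ∑ j, U v j * Z (j, i) := by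
  simp only [Matrix.mulVec, dotProduct, k1_M, Matrix.of_apply, Fintype.sum_prod_type]
  refine Finset.sum_congr rfl fun j _ => ?_
  rw [Finset.sum_eq_single i]
  · simp
  · intro b _ hb
    rw [if_neg (fun h => hb h.symm)]
    simp
  · simp

private lemma k1_orth (U : Matrix V V ℝ) (hU : U.transpose * U = 1) :
    (k1_M U).transpose * k1_M U = 1 := by
  ext ⟨v, i⟩ ⟨w, j⟩
  simp only [Matrix.mul_apply, Matrix.transpose_apply, k1_M, Matrix.of_apply,
    Fintype.sum_prod_type]
  have h := congrFun (congrFun hU v) w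
  simp only [Matrix.mul_apply, Matrix.transpose_apply] at h
  have h1 : ∀ x : V, ∑ y : Fin 3, ((if y = i then U x v else 0) * if y = j then U x w else 0) =
      if i = j then U x v * U x w else 0 := by
    intro x
    rw [Finset.sum_eq_single i]
    · by_cases hij : i = j
      · simp [hij]
      · simp [hij]
    · intro b _ hb
      simp [hb]
    · simp
  simp only [h1]
  by_cases hij : i = j
  · subst hij
    simp only [if_true]
    rw [h]
    simp [Matrix.one_apply, Prod.ext_iff]
  · simp only [if_neg hij, Finset.sum_const_zero]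
    simp [Matrix.one_apply, Prod.ext_iff, hij]

private lemma k1_det (U : Matrix V V ℝ) (hU : U.transpose * U = 1) :
    |(k1_M U).det| = 1 := by
  have h := congrArg Matrix.det (k1_orth U hU)
  rw [Matrix.det_mul, Matrix.det_transpose, Matrix.det_one] at h
  have h2 : |(k1_M U).det| * |(k1_M U).det| = 1 := by
    rw [← abs_mul, h, abs_one]
  nlinarith [abs_nonneg (k1_M U).det]

private lemma k1_change (U : Matrix V V ℝ) (hU : U.transpose * U = 1)
    (f : (V × Fin 3 → ℝ) → ℂ) :
    ∫ W, f W = ∫ Z, f ((k1_M U).mulVec Z) := by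
  have hdet := k1_det U hU
  have hne : (k1_M U).det ≠ 0 := by
    intro h
    rw [h] at hdet
    simp at hdet
  have hmap := Real.map_matrix_volume_pi_eq_smul_volume_pi hne
  rw [abs_inv, hdet] at hmap
  simp only [inv_one, ENNReal.ofReal_one, one_smul] at hmap
  have hinj : Function.Injective (Matrix.toLin' (k1_M U)) := by
    have hu : IsUnit (k1_M U) := by
      rw [Matrix.isUnit_iff_isUnit_det]
      exact isUnit_iff_ne_zero.2 hne
    intro x y hxy
    simp only [Matrix.toLin'_apply] at hxy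
    exact Matrix.mulVec_injective_of_isUnit hu hxy
  have hemb : MeasurableEmbedding (Matrix.toLin' (k1_M U)) := by
    have hc : Topology.IsClosedEmbedding (Matrix.toLin' (k1_M U)) :=
      LinearMap.isClosedEmbedding_of_injective (LinearMap.ker_eq_bot.2 hinj)
    exact hc.measurableEmbedding
  calc ∫ W, f W = ∫ W, f W ∂(Measure.map (Matrix.toLin' (k1_M U)) volume) := by rw [hmap]
    _ = ∫ Z, f (Matrix.toLin' (k1_M U) Z) := hemb.integral_map f
    _ = ∫ Z, f ((k1_M U).mulVec Z) := by simp only [Matrix.toLin'_apply]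

private lemma k1_norm (U : Matrix V V ℝ) (hU : U.transpose * U = 1) (Z : V × Fin 3 → ℝ) :
    ∑ a, ((k1_M U).mulVec Z) a ^ 2 = ∑ a, Z a ^ 2 := by
  have h : dotProduct ((k1_M U).mulVec Z) ((k1_M U).mulVec Z) = dotProduct Z Z := by
    rw [Matrix.dotProduct_mulVec, Matrix.vecMul_mulVec, ← Matrix.mulVec_transpose]
    rw [k1_orth U hU]
    simp
  simpa [dotProduct, pow_two] using h

private lemma k1_qf (U A : Matrix V V ℝ) (lam : V → ℝ)
    (hA : U.transpose * A * U = Matrix.diagonal lam) (Z : V × Fin 3 → ℝ) :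
    qf A ((k1_M U).mulVec Z) = ∑ a : V × Fin 3, lam a.1 * Z a ^ 2 := by
  unfold qf
  simp only [k1_mulVec, Fintype.sum_prod_type]
  have key : ∀ i : Fin 3, ∑ v, ∑ w, A v w * ((∑ j, U v j * Z (j, i)) * ∑ j, U w j * Z (j, i)) =
      ∑ j, lam j * Z (j, i) ^ 2 := by
    intro i
    set z : V → ℝ := fun j => Z (j, i) with hz
    have h1 : ∑ v, ∑ w, A v w * ((∑ j, U v j * Z (j, i)) * ∑ j, U w j * Z (j, i)) =
        dotProduct (U.mulVec z) (A.mulVec (U.mulVec z)) := by
      simp only [dotProduct, Matrix.mulVec, Finset.mul_sum]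
      refine Finset.sum_congr rfl fun v _ => Finset.sum_congr rfl fun w _ => ?_
      simp only [hz, Finset.sum_mul, Finset.mul_sum]
      refine Finset.sum_congr rfl fun x _ => Finset.sum_congr rfl fun y _ => ?_
      ring
    have h2 : dotProduct (U.mulVec z) (A.mulVec (U.mulVec z)) =
        dotProduct z ((U.transpose * A * U).mulVec z) := by
      rw [← Matrix.mulVec_mulVec, ← Matrix.mulVec_mulVec, Matrix.dotProduct_mulVec z,
        Matrix.vecMul_transpose]
    rw [h1, h2, hA]
    simp only [dotProduct, Matrix.mulVec_diagonal]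
    refine Finset.sum_congr rfl fun j _ => ?_
    simp only [hz]
    ring
  calc ∑ v, ∑ w, A v w * ∑ i : Fin 3, (∑ j, U v j * Z (j, i)) * ∑ j, U w j * Z (j, i)
      = ∑ i : Fin 3, ∑ v, ∑ w, A v w * ((∑ j, U v j * Z (j, i)) * ∑ j, U w j * Z (j, i)) := by
        rw [Finset.sum_comm' (s := (univ : Finset (Fin 3))) (t := fun _ => (univ : Finset V))
          (t' := (univ : Finset V)) (s' := fun _ => (univ : Finset (Fin 3))) (by simp)]
        refine Finset.sum_congr rfl fun v _ => ?_
        rw [Finset.sum_comm' (s := (univ : Finset (Fin 3))) (t := fun _ => (univ : Finset V))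
          (t' := (univ : Finset V)) (s' := fun _ => (univ : Finset (Fin 3))) (by simp)]
        refine Finset.sum_congr rfl fun w _ => ?_
        rw [Finset.mul_sum]
    _ = ∑ i : Fin 3, ∑ j, lam j * Z (j, i) ^ 2 := Finset.sum_congr rfl fun i _ => key i
    _ = ∑ j, ∑ i : Fin 3, lam j * Z (j, i) ^ 2 := Finset.sum_comm

theorem gauss_int (A : Matrix V V ℝ) (hA : A.IsHermitian) {σ η : ℂ}
    (hσ : ∀ i, 0 < (σ + 4 * η * (hA.eigenvalues i : ℂ)).re) :
    ∫ W : V × Fin 3 → ℝ,
      Complex.exp (-σ * ((∑ a, W a ^ 2 : ℝ) : ℂ) / 2 - 2 * η * ((qf A W : ℝ) : ℂ)) =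
    ∏ i, ((2 * Real.pi / (σ + 4 * η * (hA.eigenvalues i : ℂ))) ^ (1 / 2 : ℂ)) ^ 3 := by
  set U : Matrix V V ℝ := (hA.eigenvectorUnitary : Matrix V V ℝ) with hUdef
  have hU : U.transpose * U = 1 := by
    have h := Unitary.coe_star_mul_self hA.eigenvectorUnitary
    rw [Matrix.star_eq_conjTranspose, Matrix.conjTranspose_eq_transpose_of_trivial] at h
    exact h
  have hD : U.transpose * A * U = Matrix.diagonal hA.eigenvalues := by
    have h := hA.conjStarAlgAut_star_eigenvectorUnitary
    rw [Unitary.conjStarAlgAut_star_apply] at h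
    rw [Matrix.star_eq_conjTranspose, Matrix.conjTranspose_eq_transpose_of_trivial] at h
    rw [h]
    rfl
  rw [k1_change U hU]
  have h1 : ∀ Z : V × Fin 3 → ℝ,
      Complex.exp (-σ * ((∑ a, ((k1_M U).mulVec Z) a ^ 2 : ℝ) : ℂ) / 2 -
        2 * η * ((qf A ((k1_M U).mulVec Z) : ℝ) : ℂ)) =
      ∏ a : V × Fin 3, Complex.exp (-((σ + 4 * η * (hA.eigenvalues a.1 : ℂ)) / 2) *
        (Z a : ℂ) ^ 2) := by
    intro Z
    rw [k1_norm U hU, k1_qf U A _ hD, ← Complex.exp_sum]
    congr 1
    push_cast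
    rw [Finset.mul_sum, Finset.sum_div, Finset.mul_sum, ← Finset.sum_sub_distrib]
    refine Finset.sum_congr rfl fun a _ => ?_
    ring
  simp only [h1]
  rw [integral_fintype_prod_volume_eq_prod (fun (a : V × Fin 3) (x : ℝ) =>
    Complex.exp (-((σ + 4 * η * (hA.eigenvalues a.1 : ℂ)) / 2) * (x : ℂ) ^ 2))]
  rw [Fintype.prod_prod_type]
  refine Finset.prod_congr rfl fun i _ => ?_
  have hre : 0 < ((σ + 4 * η * (hA.eigenvalues i : ℂ)) / 2).re := by
    have := hσ i
    rw [Complex.div_ofNat_re]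
    positivity
  simp only [integral_gaussian_complex hre]
  rw [Finset.prod_const, Finset.card_univ, Fintype.card_fin]
  congr 2
  rw [div_div_eq_mul_div, mul_comm]

end Pool.Agent.GPC
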