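import Pool.Agent.GPC.Defs
import Pool.Agent.OHG.All

set_option autoImplicit false

open PowerSeries Finset MeasureTheory

namespace Pool.Agent.GPC

open Pool.Agent.OHG

variable {V : Type} [Fintype V] [DecidableEq V]

theorem Am_herm {L : Matrix V V ℝ} (hL : L.IsHermitian) (u : V → ℝ) : (Am L u).IsHermitian := by
  ext v w
  have h : L w v = L v w := by
    have := hL.apply v w
    simpa using this
  simp only [Matrix.conjTranspose_apply, Am, Matrix.of_apply, star_trivial]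
  rw [h]
  ring

private theorem K3_slit {h : ℂ} (hh : h ∈ UH) (a : ℝ) : 1 + 4 * h * (a : ℂ) ∈ Complex.slitPlane := by
  have hi : 0 < h.im := hh
  rw [Complex.mem_slitPlane_iff]
  by_cases ha : a = 0
  · left
    rw [ha]
    simp
  · right
    have : (1 + 4 * h * (a : ℂ)).im = 4 * h.im * a := by
      simp [Complex.mul_im]
    rw [this]
    positivity

theorem Kf_diff (L : Matrix V V ℝ) (u : V → ℝ) : DifferentiableOn ℂ (fun h => Kf L h u) UH := by
  by_cases hA : (Am L u).IsHermitian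
  · have e : (fun h => Kf L h u) = fun h : ℂ =>
        ∏ i, ((1 + 4 * h * (hA.eigenvalues i : ℂ)) ^ (-(1 / 2) : ℂ)) ^ 3 := by
      funext h
      unfold Kf
      rw [dif_pos hA]
    rw [e]
    apply DifferentiableOn.fun_finsetProd
    intro i _ h hh
    apply DifferentiableAt.differentiableWithinAt
    apply DifferentiableAt.pow
    apply DifferentiableAt.cpow_const
    · fun_prop
    · exact K3_slit hh _
  · have e : (fun h => Kf L h u) = fun _ : ℂ => (0 : ℂ) := by
      funext h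
      unfold Kf
      rw [dif_neg hA]
    rw [e]
    exact differentiableOn_const 0

private theorem K3_low {h : ℂ} (hh : h ∈ UH) (a : ℝ) :
    h.im / ‖h‖ ≤ ‖1 + 4 * h * (a : ℂ)‖ := by
  have hi : 0 < h.im := hh
  have hn : 0 < ‖h‖ := by
    rw [norm_pos_iff]
    intro h0
    rw [h0] at hi
    simp at hi
  rw [div_le_iff₀ hn]
  have h1 : ((starRingEnd ℂ) h * (1 + 4 * h * (a : ℂ))).im = - h.im := by
    simp [Complex.mul_im, Complex.mul_re]
    ring
  have h2 := Complex.abs_im_le_norm ((starRingEnd ℂ) h * (1 + 4 * h * (a : ℂ)))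
  rw [h1, abs_neg, abs_of_pos hi, norm_mul, RCLike.norm_conj, mul_comm] at h2
  exact h2

private theorem K3_factor {h : ℂ} (hh : h ∈ UH) (a : ℝ) :
    ‖((1 + 4 * h * (a : ℂ)) ^ (-(1 / 2) : ℂ)) ^ 3‖ ≤ (‖h‖ / h.im) ^ 2 := by
  have hi : 0 < h.im := hh
  have hn : 0 < ‖h‖ := by
    rw [norm_pos_iff]
    intro h0
    rw [h0] at hi
    simp at hi
  have hle : h.im ≤ ‖h‖ := (le_abs_self _).trans (Complex.abs_im_le_norm h)
  have hlow := K3_low hh a
  have ht : 0 < h.im / ‖h‖ := by positivity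
  have e1 : (-(1 / 2) : ℂ) = ((-(1 / 2) : ℝ) : ℂ) := by push_cast; ring
  rw [norm_pow, e1, Complex.norm_cpow_real]
  have h1 : ‖1 + 4 * h * (a : ℂ)‖ ^ (-(1 / 2) : ℝ) ≤ (h.im / ‖h‖) ^ (-(1 / 2) : ℝ) :=
    Real.rpow_le_rpow_of_nonpos ht hlow (by norm_num)
  have h2 : (h.im / ‖h‖) ^ (-(1 / 2) : ℝ) = (‖h‖ / h.im) ^ ((1 / 2) : ℝ) := by
    rw [Real.rpow_neg ht.le, ← Real.inv_rpow ht.le, inv_div]
  rw [h2] at h1
  have h3 : 1 ≤ ‖h‖ / h.im := by rw [one_le_div hi]; exact hle
  have h4 : (‖1 + 4 * h * (a : ℂ)‖ ^ (-(1 / 2) : ℝ)) ^ 3 ≤ ((‖h‖ / h.im) ^ ((1 / 2) : ℝ)) ^ 3 :=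
    pow_le_pow_left₀ (Real.rpow_nonneg (norm_nonneg _) _) h1 3
  have h5 : ((‖h‖ / h.im) ^ ((1 / 2) : ℝ)) ^ 3 ≤ ((‖h‖ / h.im) ^ ((1 / 2) : ℝ)) ^ 4 :=
    pow_le_pow_right₀ (Real.one_le_rpow h3 (by norm_num)) (by norm_num)
  have h6 : ((‖h‖ / h.im) ^ ((1 / 2) : ℝ)) ^ 4 = (‖h‖ / h.im) ^ 2 := by
    rw [← Real.rpow_natCast, ← Real.rpow_mul (by positivity), ← Real.rpow_natCast]
    norm_num
  rw [h6] at h5
  exact h4.trans h5

theorem Kf_bound (L : Matrix V V ℝ) {h : ℂ} (hh : h ∈ UH) (u : V → ℝ) :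
    ‖Kf L h u‖ ≤ (‖h‖ / h.im) ^ (2 * Fintype.card V) := by
  have hi : 0 < h.im := hh
  unfold Kf
  split_ifs with hA
  · rw [norm_prod, pow_mul]
    have := Finset.prod_le_prod (s := (Finset.univ : Finset V))
      (f := fun i => ‖((1 + 4 * h * (hA.eigenvalues i : ℂ)) ^ (-(1 / 2) : ℂ)) ^ 3‖)
      (g := fun _ => (‖h‖ / h.im) ^ 2) (fun i _ => norm_nonneg _) (fun i _ => K3_factor hh _)
    rw [Finset.prod_const, Finset.card_univ] at this
    exact this
  · rw [norm_zero]
    positivity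

theorem eig_bound (L : Matrix V V ℝ) (u : V → ℝ) (hu : ∀ v, 0 ≤ u v) (hA : (Am L u).IsHermitian)
    (i : V) : |hA.eigenvalues i| ≤ (∑ v, ∑ w, |L v w|) * ∑ v, u v := by
  set x : V → ℝ := ⇑(hA.eigenvectorBasis i) with hx
  have hev : Matrix.mulVec (Am L u) x = (hA.eigenvalues i) • x := hA.mulVec_eigenvectorBasis i
  have hxne : x ≠ 0 := by
    intro h0
    have h1 : hA.eigenvectorBasis i = 0 := by
      ext v
      have := congrFun h0 v
      simpa [hx] using this
    have h2 := hA.eigenvectorBasis.orthonormal.1 i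
    rw [h1, norm_zero] at h2
    exact zero_ne_one h2
  obtain ⟨v, -, hv⟩ := Finset.exists_max_image (Finset.univ : Finset V) (fun v => |x v|)
    ⟨i, Finset.mem_univ i⟩
  have hvpos : 0 < |x v| := by
    rw [abs_pos]
    intro h0
    apply hxne
    funext w
    have := hv w (Finset.mem_univ w)
    rw [h0, abs_zero] at this
    exact abs_eq_zero.1 (le_antisymm this (abs_nonneg _))
  have h1 : (∑ w, Am L u v w * x w) = hA.eigenvalues i * x v := by
    have := congrFun hev v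
    simpa [Matrix.mulVec, dotProduct] using this
  set S : ℝ := ∑ v, u v with hS
  have hSnn : 0 ≤ S := Finset.sum_nonneg fun v _ => hu v
  have hus : ∀ v, u v ≤ S := fun v =>
    Finset.single_le_sum (f := u) (fun w _ => hu w) (Finset.mem_univ v)
  have hent : ∀ w, |Am L u v w| ≤ S * |L v w| := by
    intro w
    have e : Am L u v w = Real.sqrt (u v) * Real.sqrt (u w) * L v w := rfl
    rw [e, abs_mul, abs_of_nonneg (by positivity)]
    apply mul_le_mul_of_nonneg_right _ (abs_nonneg _)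
    calc Real.sqrt (u v) * Real.sqrt (u w) ≤ Real.sqrt S * Real.sqrt S :=
          mul_le_mul (Real.sqrt_le_sqrt (hus v)) (Real.sqrt_le_sqrt (hus w)) (Real.sqrt_nonneg _)
            (Real.sqrt_nonneg _)
      _ = S := Real.mul_self_sqrt hSnn
  have h2 : |hA.eigenvalues i| * |x v| ≤ ((∑ w, |L v w|) * S) * |x v| := by
    rw [← abs_mul, ← h1]
    calc |∑ w, Am L u v w * x w| ≤ ∑ w, |Am L u v w * x w| := Finset.abs_sum_le_sum_abs _ _
      _ ≤ ∑ w, (S * |L v w|) * |x v| := by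
          apply Finset.sum_le_sum
          intro w _
          rw [abs_mul]
          exact mul_le_mul (hent w) (hv w (Finset.mem_univ w)) (abs_nonneg _)
            (mul_nonneg hSnn (abs_nonneg _))
      _ = ((∑ w, |L v w|) * S) * |x v| := by
          rw [← Finset.sum_mul, ← Finset.mul_sum]
          ring
  have h3 : |hA.eigenvalues i| ≤ (∑ w, |L v w|) * S := le_of_mul_le_mul_right h2 hvpos
  refine h3.trans (mul_le_mul_of_nonneg_right ?_ hSnn)
  exact Finset.single_le_sum (f := fun v => ∑ w, |L v w|)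
    (fun v _ => Finset.sum_nonneg fun w _ => abs_nonneg _) (Finset.mem_univ v)

end Pool.Agent.GPC
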