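import Pool.Agent.GPC.Defs
import Pool.Agent.OHG.All
import Pool.Agent.GPC.K1
import Pool.Agent.GPC.K3

set_option autoImplicit false

open PowerSeries Finset MeasureTheory

namespace Pool.Agent.GPC

open Pool.Agent.OHG

variable {V : Type} [Fintype V] [DecidableEq V]

private theorem k2_branch {σ z : ℂ} (hσ : 0 < σ.re) (hz : 0 < (σ * z).re) :
    z ^ (-(1 / 2) : ℂ) = Complex.exp (Complex.log σ / 2 - (Real.log (2 * Real.pi) : ℝ) / 2) *
      (2 * Real.pi / (σ * z)) ^ (1 / 2 : ℂ) := by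
  have hσ0 : σ ≠ 0 := by rintro rfl; simp at hσ
  have hm0 : σ * z ≠ 0 := fun h0 => by rw [h0] at hz; simp at hz
  have hz0 : z ≠ 0 := right_ne_zero_of_mul hm0
  have a1 : |Complex.arg σ| < Real.pi / 2 :=
    Complex.abs_arg_lt_pi_div_two_iff.2 (Or.inl hσ)
  have a2 : |Complex.arg (σ * z)| < Real.pi / 2 :=
    Complex.abs_arg_lt_pi_div_two_iff.2 (Or.inl hz)
  rw [abs_lt] at a1 a2
  have hpi := Real.pi_pos
  have hn1 : Complex.arg σ ≠ Real.pi := by intro h; rw [h] at a1; linarith [a1.2]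
  have hn2 : Complex.arg (σ * z) ≠ Real.pi := by intro h; rw [h] at a2; linarith [a2.2]
  have e1 : Complex.log z = Complex.log (σ * z) - Complex.log σ := by
    have e : z = (σ * z) * σ⁻¹ := by field_simp
    have e2 : Complex.log ((σ * z) * σ⁻¹) = Complex.log (σ * z) + Complex.log σ⁻¹ := by
      rw [Complex.log_mul_eq_add_log_iff hm0 (inv_ne_zero hσ0), Complex.arg_inv, if_neg hn1]
      constructor
      · linarith [a1.2, a2.1]
      · linarith [a1.1, a2.2]
    rw [Complex.log_inv _ hn1, ← e] at e2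
    rw [e2, sub_eq_add_neg]
  have e3 : Complex.log (2 * Real.pi / (σ * z)) =
      (Real.log (2 * Real.pi) : ℝ) - Complex.log (σ * z) := by
    have e : (2 * Real.pi / (σ * z) : ℂ) = ((2 * Real.pi : ℝ) : ℂ) * (σ * z)⁻¹ := by
      push_cast
      rw [div_eq_mul_inv]
    rw [e, Complex.log_ofReal_mul (by positivity) (inv_ne_zero hm0), Complex.log_inv _ hn2,
      sub_eq_add_neg]
  have hd0 : (2 * Real.pi / (σ * z) : ℂ) ≠ 0 := by
    refine div_ne_zero ?_ hm0
    have : (Real.pi : ℂ) ≠ 0 := by exact_mod_cast hpi.ne'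
    exact mul_ne_zero two_ne_zero this
  rw [Complex.cpow_def_of_ne_zero hz0, Complex.cpow_def_of_ne_zero hd0, e1, e3,
    ← Complex.exp_add]
  congr 1
  ring

private theorem k2_qf_cont_u (L : Matrix V V ℝ) (W : V × Fin 3 → ℝ) :
    Continuous fun u : V → ℝ => qf (Am L u) W := by
  unfold qf Am
  simp only [Matrix.of_apply]
  fun_prop

private theorem k2_qf_cont_W (A : Matrix V V ℝ) : Continuous fun W : V × Fin 3 → ℝ => qf A W := by
  unfold qf
  fun_prop

theorem Kf_cont (L : Matrix V V ℝ) (hL : L.IsHermitian) {h : ℂ} (hh : h ∈ UH) :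
    ContinuousOn (Kf L h) {u | ∀ v, 0 < u v} := by
  have hh' : 0 < h.im := hh
  have hne : h ≠ 0 := by rintro rfl; simp at hh'
  have hn : 0 < ‖h‖ := norm_pos_iff.2 hne
  obtain ⟨σ, hσ⟩ : ∃ σ : ℂ, σ = Complex.I * ‖h‖ / h := ⟨_, rfl⟩
  obtain ⟨η, hη⟩ : ∃ η : ℂ, η = Complex.I * ‖h‖ := ⟨_, rfl⟩
  have hση : σ * h = η := by rw [hσ, hη]; field_simp
  have hσre : 0 < σ.re := by
    have hq : 0 < Complex.normSq h := Complex.normSq_pos.2 hne
    rw [hσ, Complex.div_re]
    simp only [Complex.mul_re, Complex.I_re, Complex.ofReal_re, Complex.I_im, Complex.ofReal_im,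
      Complex.mul_im, zero_mul, one_mul, mul_zero, sub_zero, zero_div, zero_add, add_zero]
    positivity
  have hre : ∀ q : ℝ, (σ + 4 * η * (q : ℂ)).re = σ.re := by
    intro q
    rw [hη]
    simp
  have hmul : ∀ q : ℝ, σ * (1 + 4 * h * (q : ℂ)) = σ + 4 * η * (q : ℂ) := by
    intro q
    rw [← hση]
    ring
  have hK : ∀ u : V → ℝ, Kf L h u =
      (Complex.exp (Complex.log σ / 2 - (Real.log (2 * Real.pi) : ℝ) / 2) ^ 3) ^ Fintype.card V *
      ∫ W : V × Fin 3 → ℝ,
        Complex.exp (-σ * ((∑ a, W a ^ 2 : ℝ) : ℂ) / 2 - 2 * η * ((qf (Am L u) W : ℝ) : ℂ)) := by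
    intro u
    have hA : (Am L u).IsHermitian := Am_herm hL u
    rw [gauss_int (Am L u) hA (fun i => by rw [hre]; exact hσre)]
    unfold Kf
    rw [dif_pos hA, ← Finset.card_univ, ← Finset.prod_const, ← Finset.prod_mul_distrib]
    refine Finset.prod_congr rfl fun i _ => ?_
    rw [← mul_pow, ← hmul, ← k2_branch hσre (by rw [hmul, hre]; exact hσre)]
  have hcont : Continuous fun u : V → ℝ => ∫ W : V × Fin 3 → ℝ,
      Complex.exp (-σ * ((∑ a, W a ^ 2 : ℝ) : ℂ) / 2 - 2 * η * ((qf (Am L u) W : ℝ) : ℂ)) := by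
    refine MeasureTheory.continuous_of_dominated
      (bound := fun W : V × Fin 3 → ℝ => Real.exp (-σ.re * (∑ a, W a ^ 2) / 2)) ?_ ?_ ?_ ?_
    · intro u
      have h1 := k2_qf_cont_W (Am L u)
      refine Continuous.aestronglyMeasurable ?_
      fun_prop
    · intro u
      refine Filter.Eventually.of_forall fun W => ?_
      rw [Complex.norm_exp]
      refine le_of_eq ?_
      congr 1
      rw [hη]
      simp [Complex.sub_re, Complex.mul_re, Complex.mul_im]
      try norm_cast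
      try simp
    · have hi := GaussianFourier.integrable_cexp_neg_sum_mul_add (ι := V × Fin 3)
        (b := fun _ => ((σ.re / 2 : ℝ) : ℂ)) (fun _ => by
          rw [Complex.ofReal_re]; linarith) (fun _ => 0)
      have hi' := hi.norm
      refine hi'.congr (Filter.Eventually.of_forall fun W => ?_)
      show ‖Complex.exp _‖ = _
      rw [Complex.norm_exp]
      congr 1
      simp only [zero_mul, Finset.sum_const_zero, add_zero]
      rw [← Finset.mul_sum]
      have e : (-(((σ.re / 2 : ℝ) : ℂ) * ∑ i : V × Fin 3, ((W i : ℝ) : ℂ) ^ 2)) =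
          ((-(σ.re / 2 * ∑ i, W i ^ 2) : ℝ) : ℂ) := by
        push_cast
        ring
      rw [e, Complex.ofReal_re]
      ring
    · refine Filter.Eventually.of_forall fun W => ?_
      have h1 := k2_qf_cont_u L W
      fun_prop
  have : Kf L h = fun u => (Complex.exp (Complex.log σ / 2 -
      (Real.log (2 * Real.pi) : ℝ) / 2) ^ 3) ^ Fintype.card V *
      ∫ W : V × Fin 3 → ℝ,
        Complex.exp (-σ * ((∑ a, W a ^ 2 : ℝ) : ℂ) / 2 - 2 * η * ((qf (Am L u) W : ℝ) : ℂ)) :=
    funext hK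
  rw [this]
  exact (continuous_const.mul hcont).continuousOn

end Pool.Agent.GPC
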