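import Pool.Agent.GPC.Defs
import Pool.Agent.OHG.All
import Pool.Agent.GPC.K1
import Pool.Agent.GPC.K3

set_option autoImplicit false

open PowerSeries Finset MeasureTheory

namespace Pool.Agent.GPC

open Pool.Agent.OHG

variable {V : Type} [Fintype V] [DecidableEq V]

/-- The quadratic form is bounded by `|L| S |W|²`. -/
private lemma k4_qf_bound (L : Matrix V V ℝ) (u : V → ℝ) (hu : ∀ v, 0 ≤ u v)
    (W : V × Fin 3 → ℝ) :
    |qf (Am L u) W| ≤ ((∑ v, ∑ w, |L v w|) * ∑ v, u v) * ∑ a, W a ^ 2 := by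
  have hS : 0 ≤ ∑ v, u v := Finset.sum_nonneg fun v _ => hu v
  have hQ0 : 0 ≤ ∑ a, W a ^ 2 := Finset.sum_nonneg fun a _ => sq_nonneg _
  have hrow : ∀ v, ∑ i : Fin 3, W (v, i) ^ 2 ≤ ∑ a, W a ^ 2 := by
    intro v
    rw [Fintype.sum_prod_type]
    exact Finset.single_le_sum (f := fun v => ∑ i : Fin 3, W (v, i) ^ 2)
      (fun v _ => Finset.sum_nonneg fun i _ => sq_nonneg _) (Finset.mem_univ v)
  have hin : ∀ v w, |∑ i : Fin 3, W (v, i) * W (w, i)| ≤ ∑ a, W a ^ 2 := by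
    intro v w
    have h1 : |∑ i : Fin 3, W (v, i) * W (w, i)| ≤
        ∑ i : Fin 3, (W (v, i) ^ 2 + W (w, i) ^ 2) / 2 := by
      refine (Finset.abs_sum_le_sum_abs _ _).trans (Finset.sum_le_sum fun i _ => ?_)
      rw [abs_le]
      constructor
      · nlinarith [sq_nonneg (W (v, i) + W (w, i))]
      · nlinarith [sq_nonneg (W (v, i) - W (w, i))]
    have h2 : ∑ i : Fin 3, (W (v, i) ^ 2 + W (w, i) ^ 2) / 2 =
        ((∑ i : Fin 3, W (v, i) ^ 2) + ∑ i : Fin 3, W (w, i) ^ 2) / 2 := by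
      rw [← Finset.sum_div, Finset.sum_add_distrib]
    have h3 := hrow v
    have h4 := hrow w
    linarith
  have hsq : ∀ v w, Real.sqrt (u v) * Real.sqrt (u w) ≤ ∑ v, u v := by
    intro v w
    have h1 : Real.sqrt (u v) * Real.sqrt (u w) ≤ (u v + u w) / 2 := by
      have e1 := Real.sq_sqrt (hu v)
      have e2 := Real.sq_sqrt (hu w)
      nlinarith [sq_nonneg (Real.sqrt (u v) - Real.sqrt (u w))]
    have h2 : u v ≤ ∑ v, u v := Finset.single_le_sum (fun v _ => hu v) (Finset.mem_univ v)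
    have h3 : u w ≤ ∑ v, u v := Finset.single_le_sum (fun v _ => hu v) (Finset.mem_univ w)
    linarith
  unfold qf
  refine (Finset.abs_sum_le_sum_abs _ _).trans ?_
  rw [Finset.sum_mul, Finset.sum_mul]
  refine Finset.sum_le_sum fun v _ => ?_
  refine (Finset.abs_sum_le_sum_abs _ _).trans ?_
  rw [Finset.sum_mul, Finset.sum_mul]
  refine Finset.sum_le_sum fun w _ => ?_
  rw [abs_mul]
  have hA : |Am L u v w| ≤ |L v w| * ∑ v, u v := by
    simp only [Am, Matrix.of_apply]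
    rw [abs_mul, abs_of_nonneg (mul_nonneg (Real.sqrt_nonneg _) (Real.sqrt_nonneg _)), mul_comm]
    exact mul_le_mul_of_nonneg_left (hsq v w) (abs_nonneg _)
  exact mul_le_mul hA (hin v w) (abs_nonneg _) (mul_nonneg (abs_nonneg _) hS)

private lemma k4_int (c : ℝ) (hc : 0 < c) :
    Integrable (fun W : V × Fin 3 → ℝ => Real.exp (-(c * ∑ a, W a ^ 2))) := by
  have h := GaussianFourier.integrable_cexp_neg_mul_sum_add (ι := V × Fin 3) (b := (c : ℂ))
    (by simpa using hc) (fun _ => 0)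
  refine (h.norm).congr (Filter.Eventually.of_forall fun W => ?_)
  simp only [Complex.norm_exp]
  congr 1
  have : (-(c : ℂ) * ∑ i, (W i : ℂ) ^ 2 + ∑ i, (0 : ℂ) * (W i : ℂ)) =
      ((-(c * ∑ a, W a ^ 2) : ℝ) : ℂ) := by
    push_cast
    simp
  rw [this, Complex.ofReal_re]

private lemma k4_qf_cont (A : Matrix V V ℝ) : Continuous (fun W : V × Fin 3 → ℝ => qf A W) := by
  unfold qf
  fun_prop

/-- Pointwise bound of the integrand of the moments. -/
private lemma k4_pt (L : Matrix V V ℝ) (u : V → ℝ) (hu : ∀ v, 0 ≤ u v) (k : ℕ)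
    (W : V × Fin 3 → ℝ) :
    |qf (Am L u) W| ^ k * Real.exp (-(∑ a, W a ^ 2) / 2) ≤
      (4 * ((∑ v, ∑ w, |L v w|) * ∑ v, u v)) ^ k * k.factorial *
        Real.exp (-(1 / 4 * ∑ a, W a ^ 2)) := by
  set M := (∑ v, ∑ w, |L v w|) * ∑ v, u v with hM
  set Q := ∑ a, W a ^ 2 with hQ
  have hM0 : 0 ≤ M := mul_nonneg (Finset.sum_nonneg fun v _ => Finset.sum_nonneg fun w _ =>
    abs_nonneg _) (Finset.sum_nonneg fun v _ => hu v)
  have hQ0 : 0 ≤ Q := Finset.sum_nonneg fun a _ => sq_nonneg _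
  have h1 : |qf (Am L u) W| ^ k ≤ (M * Q) ^ k :=
    pow_le_pow_left₀ (abs_nonneg _) (k4_qf_bound L u hu W) k
  have h2 : (Q / 4) ^ k / k.factorial ≤ Real.exp (Q / 4) :=
    Real.pow_div_factorial_le_exp (Q / 4) (by positivity) k
  have hk : (0 : ℝ) < k.factorial := by exact_mod_cast Nat.factorial_pos k
  have h3 : (Q / 4) ^ k ≤ k.factorial * Real.exp (Q / 4) := by
    rw [div_le_iff₀ hk] at h2
    linarith
  have h4 : (M * Q) ^ k = (4 * M) ^ k * (Q / 4) ^ k := by
    rw [← mul_pow]; congr 1; ring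
  have h5 : Real.exp (Q / 4) * Real.exp (-Q / 2) = Real.exp (-(1 / 4 * Q)) := by
    rw [← Real.exp_add]; congr 1; ring
  calc |qf (Am L u) W| ^ k * Real.exp (-Q / 2)
      ≤ (M * Q) ^ k * Real.exp (-Q / 2) :=
        mul_le_mul_of_nonneg_right h1 (Real.exp_pos _).le
    _ = (4 * M) ^ k * (Q / 4) ^ k * Real.exp (-Q / 2) := by rw [h4]
    _ ≤ (4 * M) ^ k * (k.factorial * Real.exp (Q / 4)) * Real.exp (-Q / 2) := by
        apply mul_le_mul_of_nonneg_right _ (Real.exp_pos _).le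
        apply mul_le_mul_of_nonneg_left h3
        positivity
    _ = (4 * M) ^ k * k.factorial * (Real.exp (Q / 4) * Real.exp (-Q / 2)) := by ring
    _ = _ := by rw [h5]

private lemma k4_int_qf (L : Matrix V V ℝ) (u : V → ℝ) (hu : ∀ v, 0 ≤ u v) (k : ℕ) :
    Integrable (fun W : V × Fin 3 → ℝ =>
      |qf (Am L u) W| ^ k * Real.exp (-(∑ a, W a ^ 2) / 2)) := by
  refine Integrable.mono' ((k4_int (V := V) (1 / 4) (by norm_num)).const_mul
    ((4 * ((∑ v, ∑ w, |L v w|) * ∑ v, u v)) ^ k * k.factorial)) ?_ ?_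
  · apply Continuous.aestronglyMeasurable
    have := k4_qf_cont (Am L u)
    fun_prop
  · refine Filter.Eventually.of_forall fun W => ?_
    rw [Real.norm_of_nonneg (by positivity)]
    exact k4_pt L u hu k W

private lemma k4_int_le (L : Matrix V V ℝ) (u : V → ℝ) (hu : ∀ v, 0 ≤ u v) (k : ℕ) :
    ∫ W : V × Fin 3 → ℝ, |qf (Am L u) W| ^ k * Real.exp (-(∑ a, W a ^ 2) / 2) ≤
      (4 * ((∑ v, ∑ w, |L v w|) * ∑ v, u v)) ^ k * k.factorial *
        ∫ W : V × Fin 3 → ℝ, Real.exp (-(1 / 4 * ∑ a, W a ^ 2)) := by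
  rw [← integral_const_mul]
  exact integral_mono (k4_int_qf L u hu k) ((k4_int (V := V) (1 / 4) (by norm_num)).const_mul _)
    fun W => k4_pt L u hu k W

private lemma k4_cpow {z : ℂ} (hz : 0 < z.re) :
    (2 * Real.pi / z : ℂ) ^ (1 / 2 : ℂ) =
      ((Real.sqrt (2 * Real.pi) : ℝ) : ℂ) * z ^ (-(1 / 2) : ℂ) := by
  have hz0 : z ≠ 0 := by rintro rfl; simp at hz
  have harg : z.arg ≠ Real.pi := by
    intro h
    have := Complex.arg_eq_pi_iff.mp h
    linarith [this.1]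
  have hpi : (0 : ℝ) < 2 * Real.pi := by positivity
  have e1 : (2 * Real.pi / z : ℂ) = ((2 * Real.pi : ℝ) : ℂ) * z⁻¹ := by
    push_cast; rw [div_eq_mul_inv]
  have e2 : ((Real.sqrt (2 * Real.pi) : ℝ) : ℂ) = Complex.exp ((Real.log (2 * Real.pi) : ℂ) *
      (1 / 2 : ℂ)) := by
    rw [Real.sqrt_eq_rpow, Real.rpow_def_of_pos hpi]
    push_cast
    rfl
  rw [e1, Complex.cpow_def_of_ne_zero (mul_ne_zero (by exact_mod_cast hpi.ne') (inv_ne_zero hz0)),
    Complex.log_ofReal_mul hpi (inv_ne_zero hz0), Complex.log_inv _ harg,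
    Complex.cpow_def_of_ne_zero hz0, e2, ← Complex.exp_add]
  congr 1
  ring

/-- The Taylor expansion near `0`. -/
private lemma k4_hasSum (L : Matrix V V ℝ) (hL : L.IsHermitian) (u : V → ℝ) (hu : ∀ v, 0 ≤ u v)
    (h : ℂ) (hh : 16 * ((∑ v, ∑ w, |L v w|) * ∑ v, u v) * ‖h‖ ≤ 1) :
    HasSum (fun k : ℕ => (((-2) ^ k / k.factorial * gm (Am L u) k : ℝ) : ℂ) * h ^ k)
      (Kf L h u) := by
  set M := (∑ v, ∑ w, |L v w|) * ∑ v, u v with hM
  have hM0 : 0 ≤ M := mul_nonneg (Finset.sum_nonneg fun v _ => Finset.sum_nonneg fun w _ =>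
    abs_nonneg _) (Finset.sum_nonneg fun v _ => hu v)
  have hA := Am_herm hL u
  set Z : ℝ := Real.sqrt (2 * Real.pi) ^ (3 * Fintype.card V) with hZ
  have hZ0 : Z ≠ 0 := by positivity
  -- the integrals
  let F : ℕ → (V × Fin 3 → ℝ) → ℂ := fun k W =>
    ((-2 * h) ^ k / k.factorial) * ((qf (Am L u) W ^ k * Real.exp (-(∑ a, W a ^ 2) / 2) : ℝ) : ℂ)
  have hFi : ∀ k, Integrable (F k) := by
    intro k
    have hr : Integrable (fun W : V × Fin 3 → ℝ =>
        qf (Am L u) W ^ k * Real.exp (-(∑ a, W a ^ 2) / 2)) := by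
      refine (k4_int_qf L u hu k).mono' ?_ ?_
      · apply Continuous.aestronglyMeasurable
        have := k4_qf_cont (Am L u)
        fun_prop
      · refine Filter.Eventually.of_forall fun W => ?_
        rw [Real.norm_eq_abs, abs_mul, abs_pow, abs_of_pos (Real.exp_pos _)]
    exact hr.ofReal.const_mul _
  have hFn : ∀ k, ∫ W, ‖F k W‖ = (2 * ‖h‖) ^ k / k.factorial *
      ∫ W : V × Fin 3 → ℝ, |qf (Am L u) W| ^ k * Real.exp (-(∑ a, W a ^ 2) / 2) := by
    intro k
    rw [← integral_const_mul]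
    congr 1
    ext W
    simp only [F]
    rw [norm_mul, norm_div, norm_pow, norm_mul, Complex.norm_real, Real.norm_eq_abs, abs_mul,
      abs_pow, abs_of_pos (Real.exp_pos _)]
    simp
  have hsum : Summable fun k => ∫ W, ‖F k W‖ := by
    refine Summable.of_nonneg_of_le (fun k => integral_nonneg fun W => norm_nonneg _) (fun k => ?_)
      ((summable_geometric_of_lt_one (r := (1 / 2 : ℝ)) (by norm_num) (by norm_num)).mul_left
        (∫ W : V × Fin 3 → ℝ, Real.exp (-(1 / 4 * ∑ a, W a ^ 2))))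
    rw [hFn k]
    have hk : (0 : ℝ) < k.factorial := by exact_mod_cast Nat.factorial_pos k
    have hI : 0 ≤ ∫ W : V × Fin 3 → ℝ, Real.exp (-(1 / 4 * ∑ a, W a ^ 2)) :=
      integral_nonneg fun W => (Real.exp_pos _).le
    calc (2 * ‖h‖) ^ k / k.factorial *
        ∫ W : V × Fin 3 → ℝ, |qf (Am L u) W| ^ k * Real.exp (-(∑ a, W a ^ 2) / 2)
        ≤ (2 * ‖h‖) ^ k / k.factorial * ((4 * M) ^ k * k.factorial *
          ∫ W : V × Fin 3 → ℝ, Real.exp (-(1 / 4 * ∑ a, W a ^ 2))) :=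
          mul_le_mul_of_nonneg_left (k4_int_le L u hu k) (by positivity)
      _ = (8 * M * ‖h‖) ^ k * ∫ W : V × Fin 3 → ℝ, Real.exp (-(1 / 4 * ∑ a, W a ^ 2)) := by
          field_simp
          rw [← mul_pow]; ring
      _ ≤ (1 / 2) ^ k * ∫ W : V × Fin 3 → ℝ, Real.exp (-(1 / 4 * ∑ a, W a ^ 2)) := by
          apply mul_le_mul_of_nonneg_right _ hI
          apply pow_le_pow_left₀ (by positivity)
          linarith
      _ = _ := by ring
  have hs := hasSum_integral_of_summable_integral_norm hFi hsum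
  -- the sum of the integrands
  have hpt : ∀ W : V × Fin 3 → ℝ, ∑' k, F k W =
      Complex.exp (-(1 : ℂ) * ((∑ a, W a ^ 2 : ℝ) : ℂ) / 2 - 2 * h * ((qf (Am L u) W : ℝ) : ℂ)) := by
    intro W
    have e := (NormedSpace.expSeries_div_hasSum_exp (𝔸 := ℂ) (-2 * h * (qf (Am L u) W : ℂ)))
    rw [← Complex.exp_eq_exp_ℂ] at e
    have e2 := e.mul_right (Complex.exp (-((∑ a, W a ^ 2 : ℝ) : ℂ) / 2))
    have e3 : (fun k : ℕ => (-2 * h * (qf (Am L u) W : ℂ)) ^ k / (k.factorial : ℂ) *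
        Complex.exp (-((∑ a, W a ^ 2 : ℝ) : ℂ) / 2)) = fun k => F k W := by
      ext k
      simp only [F]
      push_cast
      rw [mul_pow]
      ring
    rw [e3] at e2
    rw [e2.tsum_eq, ← Complex.exp_add]
    congr 1
    ring
  have hre : ∀ i, 0 < ((1 : ℂ) + 4 * h * (hA.eigenvalues i : ℂ)).re := by
    intro i
    have h1 := eig_bound L u hu hA i
    have h2 : ‖4 * h * (hA.eigenvalues i : ℂ)‖ ≤ 1 / 2 := by
      rw [norm_mul, norm_mul, Complex.norm_real, Real.norm_eq_abs]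
      have : ‖(4 : ℂ)‖ = 4 := by simp
      rw [this]
      have h3 : ‖h‖ * |hA.eigenvalues i| ≤ ‖h‖ * M := mul_le_mul_of_nonneg_left h1 (norm_nonneg _)
      nlinarith
    have h3 := Complex.abs_re_le_norm (4 * h * (hA.eigenvalues i : ℂ))
    have h4 := neg_abs_le (4 * h * (hA.eigenvalues i : ℂ)).re
    rw [Complex.add_re, Complex.one_re]
    linarith
  have hg := gauss_int (Am L u) hA (σ := 1) (η := h) hre
  have hprod : (∏ i, ((2 * Real.pi / ((1 : ℂ) + 4 * h * (hA.eigenvalues i : ℂ))) ^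
      (1 / 2 : ℂ)) ^ 3) = (Z : ℂ) * Kf L h u := by
    unfold Kf
    rw [dif_pos hA]
    rw [Finset.prod_congr rfl fun i _ => by rw [k4_cpow (hre i), mul_pow]]
    rw [Finset.prod_mul_distrib, Finset.prod_const, Finset.card_univ, hZ]
    push_cast
    rw [← pow_mul]
  have hint : ∫ W, ∑' k, F k W = (Z : ℂ) * Kf L h u := by
    rw [← hprod, ← hg]
    exact integral_congr_ae (Filter.Eventually.of_forall hpt)
  rw [hint] at hs
  have hs2 := hs.mul_left ((Z : ℂ)⁻¹)
  have hZc : (Z : ℂ) ≠ 0 := by exact_mod_cast hZ0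
  rw [inv_mul_cancel_left₀ hZc] at hs2
  refine hs2.congr_fun ?_
  intro k
  simp only [F]
  rw [integral_const_mul, integral_complex_ofReal]
  unfold gm
  rw [← hZ]
  push_cast
  rw [mul_pow]
  field_simp

theorem Kf_taylor (L : Matrix V V ℝ) (hL : L.IsHermitian) :
    ∃ C R : ℝ, ∀ (n : ℕ) (h : ℂ) (u : V → ℝ), h ∈ UH → (∀ v, 0 < u v) →
    ‖Kf L h u - ∑ k ∈ range n, (((-2) ^ k / k.factorial * gm (Am L u) k : ℝ) : ℂ) * h ^ k‖ ≤
      C * (R * ‖h‖ * ∑ v, u v) ^ n * (‖h‖ / h.im) ^ (2 * Fintype.card V) := by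
  set Z : ℝ := Real.sqrt (2 * Real.pi) ^ (3 * Fintype.card V) with hZ
  have hZ0 : 0 < Z := by positivity
  set I4 := ∫ W : V × Fin 3 → ℝ, Real.exp (-(1 / 4 * ∑ a, W a ^ 2)) with hI4
  have hI0 : 0 ≤ I4 := integral_nonneg fun W => (Real.exp_pos _).le
  set C0 := I4 / Z with hC0
  have hC00 : 0 ≤ C0 := by positivity
  set Λ := ∑ v, ∑ w, |L v w| with hΛ
  have hΛ0 : 0 ≤ Λ := Finset.sum_nonneg fun v _ => Finset.sum_nonneg fun w _ => abs_nonneg _
  refine ⟨1 + 2 * C0, 16 * Λ, fun n h u hh hu => ?_⟩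
  have hu' : ∀ v, 0 ≤ u v := fun v => (hu v).le
  set S := ∑ v, u v with hS
  have hS0 : 0 ≤ S := Finset.sum_nonneg fun v _ => hu' v
  have him : 0 < h.im := hh
  have hq1 : 1 ≤ ‖h‖ / h.im := by
    rw [le_div_iff₀ him, one_mul]
    exact (le_abs_self _).trans (Complex.abs_im_le_norm h)
  have hqp : 1 ≤ (‖h‖ / h.im) ^ (2 * Fintype.card V) := one_le_pow₀ hq1
  set x := 16 * Λ * ‖h‖ * S with hx
  have hx0 : 0 ≤ x := by positivity
  -- the bound of the coefficients
  have hcoef : ∀ k : ℕ, ‖(((-2) ^ k / k.factorial * gm (Am L u) k : ℝ) : ℂ) * h ^ k‖ ≤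
      C0 * (x / 2) ^ k := by
    intro k
    have hk : (0 : ℝ) < k.factorial := by exact_mod_cast Nat.factorial_pos k
    have h1 : |gm (Am L u) k| ≤ (4 * (Λ * S)) ^ k * k.factorial * I4 / Z := by
      unfold gm
      rw [abs_div, ← hZ, abs_of_pos hZ0]
      apply div_le_div_of_nonneg_right _ hZ0.le
      refine (abs_integral_le_integral_abs).trans ?_
      refine le_trans (le_of_eq ?_) (k4_int_le L u hu' k)
      congr 1
      ext W
      rw [abs_mul, abs_pow, abs_of_pos (Real.exp_pos _)]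
    rw [norm_mul, norm_pow, Complex.norm_real, Real.norm_eq_abs, abs_mul, abs_div, abs_pow,
      abs_of_pos hk]
    have h2 : |(-2 : ℝ)| = 2 := by norm_num
    rw [h2]
    calc 2 ^ k / (k.factorial : ℝ) * |gm (Am L u) k| * ‖h‖ ^ k
        ≤ 2 ^ k / (k.factorial : ℝ) * ((4 * (Λ * S)) ^ k * k.factorial * I4 / Z) * ‖h‖ ^ k := by
          apply mul_le_mul_of_nonneg_right _ (by positivity)
          exact mul_le_mul_of_nonneg_left h1 (by positivity)
      _ = C0 * (x / 2) ^ k := by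
          rw [hC0, hx]
          have : (16 * Λ * ‖h‖ * S / 2) ^ k = 2 ^ k * (4 * (Λ * S)) ^ k * ‖h‖ ^ k := by
            rw [← mul_pow, ← mul_pow]; congr 1; ring
          rw [this]
          field_simp
  have key : ‖Kf L h u - ∑ k ∈ range n, (((-2) ^ k / k.factorial * gm (Am L u) k : ℝ) : ℂ) *
      h ^ k‖ ≤ (1 + 2 * C0) * x ^ n * (‖h‖ / h.im) ^ (2 * Fintype.card V) := by
    rcases le_or_gt x 1 with hx1 | hx1
    · have hs := k4_hasSum L hL u hu' h (by
        have : 16 * (Λ * S) * ‖h‖ = x := by rw [hx]; ring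
        rw [this]; exact hx1)
      have hs1 := hs.summable
      have hs2 : Kf L h u - ∑ k ∈ range n, (((-2) ^ k / k.factorial * gm (Am L u) k : ℝ) : ℂ) *
          h ^ k = ∑' k, (((-2) ^ (k + n) / (k + n).factorial * gm (Am L u) (k + n) : ℝ) : ℂ) *
          h ^ (k + n) := by
        rw [← hs.tsum_eq, ← hs1.sum_add_tsum_nat_add n, add_sub_cancel_left]
      rw [hs2]
      have hgeo : HasSum (fun k : ℕ => C0 * x ^ n * (1 / 2) ^ k) (C0 * x ^ n * 2) := by
        have := hasSum_geometric_two.mul_left (C0 * x ^ n)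
        exact this
      have hb : ‖∑' k, (((-2) ^ (k + n) / (k + n).factorial * gm (Am L u) (k + n) : ℝ) : ℂ) *
          h ^ (k + n)‖ ≤ C0 * x ^ n * 2 := by
        refine tsum_of_norm_bounded hgeo fun k => ?_
        refine (hcoef (k + n)).trans ?_
        rw [mul_assoc]
        apply mul_le_mul_of_nonneg_left _ hC00
        rw [div_pow, pow_add, pow_add]
        rw [div_le_iff₀ (by positivity)]
        have e1 : x ^ k ≤ 1 := pow_le_one₀ hx0 hx1
        have e2 : x ^ n * (1 / 2) ^ k * (2 ^ k * 2 ^ n) = x ^ n * 2 ^ n := by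
          rw [one_div, inv_pow]; field_simp
        rw [e2]
        have e3 : (1 : ℝ) ≤ 2 ^ n := one_le_pow₀ (by norm_num)
        calc x ^ k * x ^ n ≤ 1 * x ^ n := mul_le_mul_of_nonneg_right e1 (by positivity)
          _ ≤ x ^ n * 2 ^ n := by rw [one_mul]; exact le_mul_of_one_le_right (by positivity) e3
      refine hb.trans ?_
      have e4 : C0 * x ^ n * 2 ≤ (1 + 2 * C0) * x ^ n := by
        have : 0 ≤ x ^ n := by positivity
        nlinarith
      refine e4.trans (le_mul_of_one_le_right ?_ hqp)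
      positivity
    · refine (norm_sub_le _ _).trans ?_
      have hxn : 1 ≤ x ^ n := one_le_pow₀ hx1.le
      have h1 := Kf_bound L hh u
      have h2 : ‖∑ k ∈ range n, (((-2) ^ k / k.factorial * gm (Am L u) k : ℝ) : ℂ) * h ^ k‖ ≤
          C0 * x ^ n * 2 := by
        refine (norm_sum_le _ _).trans ?_
        have h3 : ∑ k ∈ range n, C0 * x ^ n * (1 / 2) ^ k ≤ C0 * x ^ n * 2 := by
          have hg := hasSum_geometric_two.mul_left (C0 * x ^ n)
          exact sum_le_hasSum (range n) (fun k _ => by positivity) hg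
        refine le_trans (Finset.sum_le_sum fun k hk => ?_) h3
        refine (hcoef k).trans ?_
        rw [mul_assoc]
        apply mul_le_mul_of_nonneg_left _ hC00
        rw [div_pow, one_div, inv_pow, div_eq_mul_inv]
        apply mul_le_mul_of_nonneg_right _ (by positivity)
        exact pow_le_pow_right₀ hx1.le (Finset.mem_range.mp hk).le
      have h4 : ‖Kf L h u‖ ≤ x ^ n * (‖h‖ / h.im) ^ (2 * Fintype.card V) :=
        h1.trans (le_mul_of_one_le_left (by positivity) hxn)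
      have h5 : C0 * x ^ n * 2 ≤ 2 * C0 * x ^ n * (‖h‖ / h.im) ^ (2 * Fintype.card V) := by
        have e : C0 * x ^ n * 2 = 2 * C0 * x ^ n := by ring
        rw [e]
        exact le_mul_of_one_le_right (by positivity) hqp
      calc ‖Kf L h u‖ + ‖∑ k ∈ range n, (((-2) ^ k / k.factorial * gm (Am L u) k : ℝ) : ℂ) *
          h ^ k‖ ≤ x ^ n * (‖h‖ / h.im) ^ (2 * Fintype.card V) +
            2 * C0 * x ^ n * (‖h‖ / h.im) ^ (2 * Fintype.card V) := add_le_add h4 (h2.trans h5)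
        _ = _ := by ring
  exact key

end Pool.Agent.GPC
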