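import Pool.Agent.GPC.Defs
import Pool.Agent.OHG.All

set_option autoImplicit false

open PowerSeries Finset MeasureTheory

namespace Pool.Agent.GPC

open Pool.Agent.OHG

variable {V : Type} [Fintype V] [DecidableEq V]

private noncomputable def k5a_M (k : ℕ) : ℝ := ∫ x : ℝ, x ^ k * Real.exp (-(x ^ 2) / 2)

private lemma k5a_int1 (k : ℕ) :
    Integrable (fun x : ℝ => x ^ k * Real.exp (-(x ^ 2) / 2)) := by
  have h := integrable_rpow_mul_exp_neg_mul_sq (b := 1 / 2) (by norm_num) (s := (k : ℝ))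
    (by have : (0 : ℝ) ≤ k := Nat.cast_nonneg k
        linarith)
  refine h.congr (ae_of_all _ fun x => ?_)
  simp only [Real.rpow_natCast]
  congr 2
  ring

private lemma k5a_rec (k : ℕ) : k5a_M (k + 1) = k * k5a_M (k - 1) := by
  have hd : ∀ x : ℝ, HasDerivAt (fun x : ℝ => x ^ k * Real.exp (-(x ^ 2) / 2))
      (k * (x ^ (k - 1) * Real.exp (-(x ^ 2) / 2)) - x ^ (k + 1) * Real.exp (-(x ^ 2) / 2)) x := by
    intro x
    have h1 : HasDerivAt (fun x : ℝ => x ^ k) (k * x ^ (k - 1)) x := hasDerivAt_pow k x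
    have h2 : HasDerivAt (fun x : ℝ => -(x ^ 2) / 2) (-x) x := by
      have := ((hasDerivAt_pow 2 x).neg).div_const 2
      refine this.congr_deriv ?_
      push_cast
      ring
    have h3 := h1.mul h2.exp
    refine h3.congr_deriv ?_
    rw [pow_succ]
    ring
  have h0 := integral_eq_zero_of_hasDerivAt_of_integrable hd
    (((k5a_int1 (k - 1)).const_mul (k : ℝ)).sub (k5a_int1 (k + 1))) (k5a_int1 k)
  rw [integral_sub ((k5a_int1 (k - 1)).const_mul (k : ℝ)) (k5a_int1 (k + 1)),
    integral_const_mul] at h0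
  unfold k5a_M
  linarith

private lemma k5a_zero : k5a_M 0 = Real.sqrt (2 * Real.pi) := by
  have h := integral_gaussian (1 / 2)
  have e : k5a_M 0 = ∫ x : ℝ, Real.exp (-(1 / 2) * x ^ 2) := by
    unfold k5a_M
    congr 1
    ext x
    rw [pow_zero, one_mul]
    congr 1
    ring
  rw [e, h]
  congr 1
  ring

section general

variable {s : Type} [Fintype s]

private lemma k5a_mon (u : s →₀ ℕ) (c : ℝ) (W : s → ℝ) :
    MvPolynomial.eval W (MvPolynomial.monomial u c) * Real.exp (-(∑ a, W a ^ 2) / 2) =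
      c * ∏ a, (W a ^ u a * Real.exp (-(W a ^ 2) / 2)) := by
  rw [MvPolynomial.eval_monomial, Finsupp.prod_fintype _ _ (by simp), Finset.prod_mul_distrib,
    ← Real.exp_sum, ← Finset.sum_div, Finset.sum_neg_distrib, mul_assoc]

private lemma k5a_integrable (q : MvPolynomial s ℝ) :
    Integrable (fun W : s → ℝ => MvPolynomial.eval W q * Real.exp (-(∑ a, W a ^ 2) / 2)) := by
  induction q using MvPolynomial.induction_on' with
  | monomial u c =>
    simp_rw [k5a_mon]
    exact (Integrable.fintype_prod (μ := fun _ : s => (volume : Measure ℝ))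
      (f := fun a x => x ^ u a * Real.exp (-(x ^ 2) / 2)) fun a => k5a_int1 (u a)).const_mul c
  | add p q hp hq =>
    simp_rw [map_add, add_mul]
    exact hp.add hq

private noncomputable def k5a_E (q : MvPolynomial s ℝ) : ℝ :=
  ∫ W : s → ℝ, MvPolynomial.eval W q * Real.exp (-(∑ a, W a ^ 2) / 2)

private lemma k5a_E_add (p q : MvPolynomial s ℝ) : k5a_E (p + q) = k5a_E p + k5a_E q := by
  unfold k5a_E
  simp_rw [map_add, add_mul]
  exact integral_add (k5a_integrable p) (k5a_integrable q)

private lemma k5a_E_mon (u : s →₀ ℕ) (c : ℝ) :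
    k5a_E (MvPolynomial.monomial u c) = c * ∏ a, k5a_M (u a) := by
  unfold k5a_E
  simp_rw [k5a_mon]
  rw [integral_const_mul]
  congr 1
  exact integral_fintype_prod_volume_eq_prod (𝕜 := ℝ)
    (fun (a : s) (x : ℝ) => x ^ u a * Real.exp (-(x ^ 2) / 2))

private lemma k5a_E_zero : k5a_E (0 : MvPolynomial s ℝ) = 0 := by
  unfold k5a_E
  simp

private lemma k5a_E_sum {ι : Type} (t : Finset ι) (f : ι → MvPolynomial s ℝ) :
    k5a_E (∑ i ∈ t, f i) = ∑ i ∈ t, k5a_E (f i) := by
  classical
  induction t using Finset.induction_on with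
  | empty => simp [k5a_E_zero]
  | insert i t hi ih => rw [Finset.sum_insert hi, Finset.sum_insert hi, k5a_E_add, ih]

private lemma k5a_ibp (a : s) (q : MvPolynomial s ℝ) :
    k5a_E (MvPolynomial.X a * q) = k5a_E (MvPolynomial.pderiv a q) := by
  classical
  induction q using MvPolynomial.induction_on' with
  | monomial u c =>
    rw [MvPolynomial.pderiv_monomial, MvPolynomial.X, MvPolynomial.monomial_mul, one_mul,
      k5a_E_mon, k5a_E_mon, ← Finset.mul_prod_erase univ _ (mem_univ a),
      ← Finset.mul_prod_erase univ _ (mem_univ a)]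
    have h1 : (Finsupp.single a 1 + u : s →₀ ℕ) a = u a + 1 := by
      rw [Finsupp.add_apply, Finsupp.single_eq_same, add_comm]
    have h2 : (u - Finsupp.single a 1 : s →₀ ℕ) a = u a - 1 := by
      rw [Finsupp.tsub_apply, Finsupp.single_eq_same]
    have h3 : ∀ b ∈ univ.erase a, k5a_M ((Finsupp.single a 1 + u : s →₀ ℕ) b) = k5a_M (u b) := by
      intro b hb
      have hb' : b ≠ a := (mem_erase.mp hb).1
      rw [Finsupp.add_apply, Finsupp.single_eq_of_ne hb', zero_add]
    have h4 : ∀ b ∈ univ.erase a, k5a_M ((u - Finsupp.single a 1 : s →₀ ℕ) b) = k5a_M (u b) := by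
      intro b hb
      have hb' : b ≠ a := (mem_erase.mp hb).1
      rw [Finsupp.tsub_apply, Finsupp.single_eq_of_ne hb', Nat.sub_zero]
    rw [h1, h2, Finset.prod_congr rfl h3, Finset.prod_congr rfl h4, k5a_rec]
    ring
  | add p q hp hq => rw [mul_add, map_add, k5a_E_add, k5a_E_add, hp, hq]

private lemma k5a_C (r : ℝ) :
    k5a_E (MvPolynomial.C r : MvPolynomial s ℝ) = r * Real.sqrt (2 * Real.pi) ^ Fintype.card s := by
  rw [← MvPolynomial.monomial_zero', k5a_E_mon]
  simp only [Finsupp.coe_zero, Pi.zero_apply, k5a_zero, Finset.prod_const, Finset.card_univ]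

private lemma k5a_smul (r : ℝ) (q : MvPolynomial s ℝ) : k5a_E (r • q) = r * k5a_E q := by
  unfold k5a_E
  rw [← integral_const_mul]
  congr 1
  ext W
  rw [MvPolynomial.smul_eval]
  ring

end general

private lemma k5a_lap (p : MvPolynomial (V × Fin 3) ℝ) :
    lapM (1 : Matrix V V ℝ) p =
      ∑ a : V × Fin 3, MvPolynomial.pderiv a (MvPolynomial.pderiv a p) := by
  unfold lapM
  simp only [LinearMap.sum_apply, LinearMap.smul_apply, LinearMap.comp_apply, Matrix.one_apply]
  rw [Fintype.sum_prod_type]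
  refine Finset.sum_congr rfl fun v _ => ?_
  rw [Finset.sum_eq_single v]
  · rw [if_pos rfl, one_smul]
    rfl
  · intro w _ hw
    rw [if_neg (fun h => hw h.symm), zero_smul]
  · intro h
    exact absurd (mem_univ v) h

theorem gauss_poly {p : MvPolynomial (V × Fin 3) ℝ} {n : ℕ} (hp : p.IsHomogeneous (2 * n)) :
    (∫ W : V × Fin 3 → ℝ, MvPolynomial.eval W p * Real.exp (-(∑ a, W a ^ 2) / 2)) /
      Real.sqrt (2 * Real.pi) ^ (3 * Fintype.card V) =
    MvPolynomial.constantCoeff ((lapM (1 : Matrix V V ℝ) ^ n) p) / (2 ^ n * n.factorial) := by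
  have hcard : Fintype.card (V × Fin 3) = 3 * Fintype.card V := by
    rw [Fintype.card_prod, Fintype.card_fin, mul_comm]
  have hpi : 0 < Real.sqrt (2 * Real.pi) ^ (3 * Fintype.card V) := by
    have := Real.pi_pos
    positivity
  rw [div_eq_iff hpi.ne']
  change k5a_E p = _
  induction n generalizing p with
  | zero =>
    rw [mul_zero, ← MvPolynomial.totalDegree_zero_iff_isHomogeneous,
      MvPolynomial.totalDegree_eq_zero_iff_eq_C] at hp
    rw [hp, k5a_C, hcard]
    simp
  | succ n ih =>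
    have hl : (lapM (1 : Matrix V V ℝ) p).IsHomogeneous (2 * n) := by
      rw [k5a_lap]
      refine MvPolynomial.IsHomogeneous.sum _ _ _ fun a _ => ?_
      have h1 := (hp.pderiv (i := a)).pderiv (i := a)
      have e : 2 * (n + 1) - 1 - 1 = 2 * n := by omega
      rwa [e] at h1
    have heul := hp.sum_X_mul_pderiv
    have h2 : k5a_E ((2 * (n + 1)) • p) = k5a_E (lapM (1 : Matrix V V ℝ) p) := by
      rw [← heul, k5a_E_sum, k5a_lap, k5a_E_sum]
      exact Finset.sum_congr rfl fun a _ => k5a_ibp a _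
    rw [← Nat.cast_smul_eq_nsmul ℝ, k5a_smul, ih hl] at h2
    have e2 : (lapM (1 : Matrix V V ℝ) ^ (n + 1)) p =
        (lapM (1 : Matrix V V ℝ) ^ n) (lapM (1 : Matrix V V ℝ) p) := by
      rw [pow_succ]
      rfl
    rw [e2, Nat.factorial_succ]
    have hn : (0 : ℝ) < 2 * (n + 1) := by positivity
    have hf : (n.factorial : ℝ) ≠ 0 := by exact_mod_cast n.factorial_ne_zero
    push_cast at h2 ⊢
    have h3 : k5a_E p = (MvPolynomial.constantCoeff ((lapM (1 : Matrix V V ℝ) ^ n)
        (lapM (1 : Matrix V V ℝ) p)) / (2 ^ n * n.factorial) *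
        Real.sqrt (2 * Real.pi) ^ (3 * Fintype.card V)) / (2 * (n + 1)) := by
      rw [eq_div_iff hn.ne', ← h2]
      ring
    rw [h3]
    field_simp
    ring

end Pool.Agent.GPC
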