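import Pool.Agent.GPC.Defs
import Pool.Agent.OHG.All

set_option autoImplicit false

open PowerSeries Finset MeasureTheory

namespace Pool.Agent.GPC

open Pool.Agent.OHG

variable {V : Type} [Fintype V] [DecidableEq V]

private noncomputable def k5b_w {σ : Type} [Fintype σ] (α : σ →₀ ℕ) : ℝ :=
  ∏ i, ((α i).factorial : ℝ)

private noncomputable def k5b_B (σ : Type) [Fintype σ] :
    MvPolynomial σ ℝ →ₗ[ℝ] (MvPolynomial σ ℝ →ₗ[ℝ] ℝ) :=
  (MvPolynomial.basisMonomials σ ℝ).constr ℝ fun α => k5b_w α • MvPolynomial.lcoeff ℝ α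

private lemma k5b_B_monomial {σ : Type} [Fintype σ] (α : σ →₀ ℕ) (c : ℝ)
    (q : MvPolynomial σ ℝ) :
    k5b_B σ (MvPolynomial.monomial α c) q = c * (k5b_w α * MvPolynomial.coeff α q) := by
  have h : MvPolynomial.monomial α c = c • (MvPolynomial.basisMonomials σ ℝ α) := by
    rw [MvPolynomial.coe_basisMonomials, MvPolynomial.smul_monomial, smul_eq_mul, mul_one]
  rw [h, map_smul, k5b_B, Module.Basis.constr_basis]
  simp [MvPolynomial.lcoeff]

private lemma k5b_symm {σ : Type} [Fintype σ] (p q : MvPolynomial σ ℝ) :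
    k5b_B σ p q = k5b_B σ q p := by
  classical
  induction p using MvPolynomial.induction_on' with
  | add p p' hp hp' => rw [map_add, map_add, LinearMap.add_apply, hp, hp']
  | monomial α c =>
    induction q using MvPolynomial.induction_on' with
    | add q q' hq hq' => rw [map_add, map_add, LinearMap.add_apply, hq, hq']
    | monomial β d =>
      rw [k5b_B_monomial, k5b_B_monomial, MvPolynomial.coeff_monomial,
        MvPolynomial.coeff_monomial]
      by_cases h : α = β
      · subst h
        simp only [if_true]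
        ring
      · rw [if_neg (fun h' => h h'.symm), if_neg h]
        ring

private lemma k5b_w_succ {σ : Type} [Fintype σ] (α : σ →₀ ℕ) (a : σ) :
    k5b_w (α + Finsupp.single a 1) = k5b_w α * (α a + 1) := by
  classical
  unfold k5b_w
  rw [← Finset.mul_prod_erase univ _ (Finset.mem_univ a),
    ← Finset.mul_prod_erase univ (fun i => ((α i).factorial : ℝ)) (Finset.mem_univ a)]
  have h1 : ∏ x ∈ univ.erase a, (((α + (Finsupp.single a 1 : σ →₀ ℕ)) x).factorial : ℝ) =
      ∏ x ∈ univ.erase a, ((α x).factorial : ℝ) := by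
    refine Finset.prod_congr rfl fun x hx => ?_
    have hx' : a ≠ x := (Finset.ne_of_mem_erase hx).symm
    rw [Finsupp.add_apply, Finsupp.single_eq_of_ne' hx', add_zero]
  rw [h1, Finsupp.add_apply, Finsupp.single_eq_same, Nat.factorial_succ]
  push_cast
  ring

private lemma k5b_adj_X {σ : Type} [Fintype σ] (a : σ) (p q : MvPolynomial σ ℝ) :
    k5b_B σ (MvPolynomial.X a * p) q = k5b_B σ p (MvPolynomial.pderiv a q) := by
  classical
  induction p using MvPolynomial.induction_on' with
  | add p p' hp hp' => rw [mul_add, map_add, map_add, LinearMap.add_apply, hp, hp',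
      LinearMap.add_apply]
  | monomial α c =>
    rw [MvPolynomial.X, MvPolynomial.monomial_mul, one_mul, add_comm, k5b_B_monomial,
      k5b_B_monomial, k5b_w_succ, MvPolynomial.coeff_pderiv]
    ring

private lemma k5b_one {σ : Type} [Fintype σ] (q : MvPolynomial σ ℝ) :
    k5b_B σ 1 q = MvPolynomial.constantCoeff q := by
  have h : (1 : MvPolynomial σ ℝ) = MvPolynomial.monomial 0 1 := rfl
  rw [h, k5b_B_monomial, MvPolynomial.constantCoeff_eq]
  simp [k5b_w]

private lemma k5b_adj_quad (M : Matrix V V ℝ) (p q : MvPolynomial (V × Fin 3) ℝ) :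
    k5b_B (V × Fin 3) (quadM M * p) q = k5b_B (V × Fin 3) p (lapM M q) := by
  unfold quadM lapM
  rw [Finset.sum_mul, map_sum, LinearMap.sum_apply, LinearMap.sum_apply, map_sum]
  refine Finset.sum_congr rfl fun v _ => ?_
  rw [Finset.sum_mul, map_sum, LinearMap.sum_apply, LinearMap.sum_apply, map_sum]
  refine Finset.sum_congr rfl fun w _ => ?_
  rw [mul_assoc, MvPolynomial.C_mul', map_smul, LinearMap.smul_apply, LinearMap.smul_apply,
    map_smul]
  congr 1
  rw [Finset.sum_mul, map_sum, LinearMap.sum_apply, LinearMap.sum_apply, map_sum]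
  refine Finset.sum_congr rfl fun i _ => ?_
  rw [mul_comm (MvPolynomial.X (v, i)) (MvPolynomial.X (w, i)), mul_assoc, k5b_adj_X, k5b_adj_X]
  rfl

private lemma k5b_iter (M : Matrix V V ℝ) (n : ℕ) (p q : MvPolynomial (V × Fin 3) ℝ) :
    k5b_B (V × Fin 3) (quadM M ^ n * p) q = k5b_B (V × Fin 3) p ((lapM M ^ n) q) := by
  induction n generalizing p q with
  | zero => simp
  | succ n ih =>
    rw [pow_succ, mul_assoc, ih, k5b_adj_quad, pow_succ', Module.End.mul_apply]

theorem fischer (M M' : Matrix V V ℝ) (n : ℕ) :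
    MvPolynomial.constantCoeff ((lapM M ^ n) (quadM M' ^ n)) =
      MvPolynomial.constantCoeff ((lapM M' ^ n) (quadM M ^ n)) := by
  have h1 := k5b_iter M n 1 (quadM M' ^ n)
  have h2 := k5b_iter M' n 1 (quadM M ^ n)
  rw [mul_one, k5b_one] at h1 h2
  rw [← h1, ← h2, k5b_symm]

end Pool.Agent.GPC
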