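import Pool.Agent.GPC.Defs
import Pool.Agent.OHG.All
import Pool.Agent.GPC.K5a
import Pool.Agent.GPC.K5b

set_option autoImplicit false

open PowerSeries Finset MeasureTheory

namespace Pool.Agent.GPC

open Pool.Agent.OHG

variable {V : Type} [Fintype V] [DecidableEq V]

omit [DecidableEq V] in
private theorem k5c_qf (A : Matrix V V ℝ) (W : V × Fin 3 → ℝ) :
    qf A W = MvPolynomial.eval W (quadM A) := by
  simp only [qf, quadM, map_sum, map_mul, MvPolynomial.eval_C, MvPolynomial.eval_X]

omit [DecidableEq V] in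
private theorem k5c_hom (A : Matrix V V ℝ) : (quadM A).IsHomogeneous 2 := by
  unfold quadM
  refine MvPolynomial.IsHomogeneous.sum _ _ _ fun v _ => ?_
  refine MvPolynomial.IsHomogeneous.sum _ _ _ fun w _ => ?_
  have h := (MvPolynomial.isHomogeneous_C (V × Fin 3) (A v w)).mul
    (MvPolynomial.IsHomogeneous.sum (univ : Finset (Fin 3))
      (fun i => (MvPolynomial.X (v, i) * MvPolynomial.X (w, i) : MvPolynomial (V × Fin 3) ℝ)) 2
      fun i _ => by
        have := (MvPolynomial.isHomogeneous_X ℝ (v, i)).mul (MvPolynomial.isHomogeneous_X ℝ (w, i))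
        simpa using this)
  simpa using h

private noncomputable def k5c_psi (u : V → ℝ) :
    MvPolynomial (V × Fin 3) ℝ →ₐ[ℝ] MvPolynomial (V × Fin 3) ℝ :=
  MvPolynomial.aeval fun a => MvPolynomial.C (Real.sqrt (u a.1)) * MvPolynomial.X a

omit [Fintype V] in
private theorem k5c_pderiv (u : V → ℝ) (a : V × Fin 3) (p : MvPolynomial (V × Fin 3) ℝ) :
    MvPolynomial.pderiv a (k5c_psi u p) =
      MvPolynomial.C (Real.sqrt (u a.1)) * k5c_psi u (MvPolynomial.pderiv a p) := by
  induction p using MvPolynomial.induction_on with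
  | C r =>
    simp [k5c_psi]
  | add p q hp hq => simp only [map_add, hp, hq, mul_add]
  | mul_X p b hp =>
    rw [map_mul, Derivation.leibniz, Derivation.leibniz, hp]
    have h1 : k5c_psi u (MvPolynomial.X b) =
        MvPolynomial.C (Real.sqrt (u b.1)) * MvPolynomial.X b := by
      simp [k5c_psi]
    have h2 : MvPolynomial.pderiv a (k5c_psi u (MvPolynomial.X b)) =
        MvPolynomial.C (Real.sqrt (u a.1)) *
          k5c_psi u (MvPolynomial.pderiv a (MvPolynomial.X b)) := by
      rw [h1, MvPolynomial.pderiv_C_mul]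
      by_cases hab : a = b
      · subst hab
        simp
      · rw [MvPolynomial.pderiv_X_of_ne (fun h => hab h.symm)]
        simp
    rw [h2]
    simp only [smul_eq_mul, map_add, map_mul]
    ring

private theorem k5c_lap (L : Matrix V V ℝ) (u : V → ℝ) (p : MvPolynomial (V × Fin 3) ℝ) :
    k5c_psi u (lapM (Am L u) p) = lapM L (k5c_psi u p) := by
  simp only [lapM, LinearMap.sum_apply, LinearMap.smul_apply, LinearMap.comp_apply, map_sum,
    map_smul]
  refine Finset.sum_congr rfl fun v _ => Finset.sum_congr rfl fun w _ => ?_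
  rw [Finset.smul_sum, Finset.smul_sum]
  refine Finset.sum_congr rfl fun i _ => ?_
  simp only [Derivation.coeFn_coe, k5c_pderiv,
    MvPolynomial.pderiv_C_mul, Am, Matrix.of_apply, MvPolynomial.smul_eq_C_mul, map_mul]
  ring

private theorem k5c_lap_pow (L : Matrix V V ℝ) (u : V → ℝ) (n : ℕ)
    (p : MvPolynomial (V × Fin 3) ℝ) :
    k5c_psi u ((lapM (Am L u) ^ n) p) = (lapM L ^ n) (k5c_psi u p) := by
  induction n with
  | zero => simp
  | succ n ih =>
    rw [pow_succ', pow_succ', Module.End.mul_apply, Module.End.mul_apply, k5c_lap, ih]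

omit [Fintype V] [DecidableEq V] in
private theorem k5c_const (u : V → ℝ) (p : MvPolynomial (V × Fin 3) ℝ) :
    MvPolynomial.constantCoeff (k5c_psi u p) = MvPolynomial.constantCoeff p := by
  induction p using MvPolynomial.induction_on with
  | C r => simp [k5c_psi]
  | add p q hp hq => simp only [map_add, hp, hq]
  | mul_X p b hp => simp [k5c_psi]

private theorem k5c_quad_one : quadM (1 : Matrix V V ℝ) = ∑ v, nsq v := by
  unfold quadM nsq
  refine Finset.sum_congr rfl fun v _ => ?_
  rw [Finset.sum_eq_single v]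
  · simp [pow_two]
  · intro w _ hw
    rw [Matrix.one_apply_ne (Ne.symm hw)]
    simp
  · simp

private theorem k5c_psi_quad (u : V → ℝ) (hu : ∀ v, 0 ≤ u v) :
    k5c_psi u (quadM (1 : Matrix V V ℝ)) = ∑ v, MvPolynomial.C (u v) * nsq v := by
  rw [k5c_quad_one, map_sum]
  refine Finset.sum_congr rfl fun v _ => ?_
  unfold nsq
  rw [map_sum, Finset.mul_sum]
  refine Finset.sum_congr rfl fun i _ => ?_
  have h1 : k5c_psi u (MvPolynomial.X (v, i)) =
      MvPolynomial.C (Real.sqrt (u v)) * MvPolynomial.X (v, i) := by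
    simp [k5c_psi]
  rw [map_pow, h1, mul_pow, ← map_pow, Real.sq_sqrt (hu v)]

omit [DecidableEq V] in
private theorem k5c_lap_eq (D : Data V) : lap D = lapM (lkm D) := by
  unfold lap lapM lkm
  simp only [Matrix.of_apply]

theorem gm_eq (D : Data V) (u : V → ℝ) (hu : ∀ v, 0 ≤ u v) (n : ℕ) :
    (-2) ^ n / n.factorial * gm (Am (lkm D) u) n = kap D n u := by
  have h1 : gm (Am (lkm D) u) n =
      MvPolynomial.constantCoeff ((lapM (1 : Matrix V V ℝ) ^ n) (quadM (Am (lkm D) u) ^ n)) /
        (2 ^ n * n.factorial) := by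
    rw [← gauss_poly (p := quadM (Am (lkm D) u) ^ n) (n := n)]
    · unfold gm
      simp only [k5c_qf, map_pow]
    · exact (k5c_hom _).pow n
  rw [h1, fischer, ← k5c_const u, k5c_lap_pow, map_pow, k5c_psi_quad u hu, ← k5c_lap_eq,
    Finset.sum_pow_eq_sum_piAntidiag, map_sum, map_sum, Finset.sum_div, Finset.mul_sum]
  unfold kap
  refine Finset.sum_congr rfl fun j hj => ?_
  have hjn : ∑ v, j v = n := (Finset.mem_piAntidiag.mp hj).1
  have h2 : ((Nat.multinomial univ j : ℕ) : MvPolynomial (V × Fin 3) ℝ) *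
      ∏ v, (MvPolynomial.C (u v) * nsq v) ^ j v =
      ((Nat.multinomial univ j : ℝ) * ∏ v, u v ^ j v) • ∏ v, nsq v ^ j v := by
    rw [MvPolynomial.smul_eq_C_mul]
    simp only [mul_pow, Finset.prod_mul_distrib, map_mul, map_prod, map_pow, map_natCast]
    ring
  rw [h2, map_smul]
  have h3 : MvPolynomial.constantCoeff ((lap D ^ n) (∏ v, nsq v ^ j v)) =
      moment D j * n.factorial := by
    unfold moment
    rw [hjn]
    field_simp
  have h4 : MvPolynomial.constantCoeff (((Nat.multinomial univ j : ℝ) * ∏ v, u v ^ j v) •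
      (lap D ^ n) (∏ v, nsq v ^ j v)) =
      (Nat.multinomial univ j : ℝ) * (∏ v, u v ^ j v) * (moment D j * n.factorial) := by
    rw [MvPolynomial.smul_eq_C_mul, map_mul, MvPolynomial.constantCoeff_C, h3]
  rw [h4]
  have h5 : (∏ v, ((j v).factorial : ℝ)) * (Nat.multinomial univ j : ℝ) = n.factorial := by
    have := Nat.multinomial_spec (univ : Finset V) j
    rw [hjn] at this
    exact_mod_cast this
  have h6 : ∏ v, (-u v) ^ j v / ((j v).factorial : ℝ) =
      (-1) ^ n * (∏ v, u v ^ j v) / ∏ v, ((j v).factorial : ℝ) := by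
    rw [Finset.prod_div_distrib]
    congr 1
    rw [← hjn, ← Finset.prod_pow_eq_pow_sum, ← Finset.prod_mul_distrib]
    refine Finset.prod_congr rfl fun v _ => ?_
    rw [← mul_pow]
    congr 1
    ring
  have h7 : (∏ v, ((j v).factorial : ℝ)) ≠ 0 :=
    Finset.prod_ne_zero_iff.mpr fun v _ => by positivity
  have h8 : (n.factorial : ℝ) ≠ 0 := by positivity
  rw [h6]
  have h9 : (Nat.multinomial univ j : ℝ) = n.factorial / ∏ v, ((j v).factorial : ℝ) := by
    rw [eq_div_iff h7, mul_comm]
    exact h5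
  rw [h9]
  have h10 : ((-2 : ℝ)) ^ n = (-1) ^ n * 2 ^ n := by
    rw [← mul_pow]
    norm_num
  rw [h10]
  field_simp

end Pool.Agent.GPC
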