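import Pool.Agent.GPC.Defs
import Pool.Agent.OHG.All

set_option autoImplicit false

open PowerSeries Finset MeasureTheory

namespace Pool.Agent.GPC

open Pool.Agent.OHG

variable {V : Type} [Fintype V] [DecidableEq V]

private theorem k6a_key {G : SimpleGraph V} (hG : G.IsTree) {v w y u : V} (hwv : G.Adj w v)
    (h1 : G.dist w v + G.dist v y = G.dist w y) (h2 : G.dist w u + G.dist u y = G.dist w y)
    (hu : u ≠ w) : G.dist v u + 1 = G.dist w u := by
  obtain ⟨p, hp⟩ := hG.connected.exists_walk_length_eq_dist w u
  obtain ⟨q, hq⟩ := hG.connected.exists_walk_length_eq_dist u y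
  obtain ⟨r, hr⟩ := hG.connected.exists_walk_length_eq_dist v y
  have hd : G.dist w v = 1 := SimpleGraph.dist_eq_one_iff_adj.2 hwv
  cases p with
  | nil => exact absurd rfl hu
  | cons h p' =>
    have e1 : ((SimpleGraph.Walk.cons h p').append q).IsPath :=
      SimpleGraph.Walk.isPath_of_length_eq_dist _ (by
        rw [SimpleGraph.Walk.length_append, hp, hq, h2])
    have e2 : (SimpleGraph.Walk.cons hwv r).IsPath :=
      SimpleGraph.Walk.isPath_of_length_eq_dist _ (by
        rw [SimpleGraph.Walk.length_cons, hr, ← h1, hd, add_comm])
    have e := (hG.isAcyclic.subsingleton_path _ _).elim ⟨_, e1⟩ ⟨_, e2⟩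
    have e' : (SimpleGraph.Walk.cons h p').append q = SimpleGraph.Walk.cons hwv r :=
      congrArg Subtype.val e
    have hv := congrArg (fun W => SimpleGraph.Walk.getVert W 1) e'
    simp at hv
    have h4 := hG.connected.dist_triangle (u := w) (v := v) (w := u)
    subst hv
    have h3 := SimpleGraph.dist_le p'
    rw [SimpleGraph.Walk.length_cons] at hp
    omega

theorem lk_side {D : Data V} (h : D.IsGraph) {v w y : V} (hw : w ∈ D.nbr v) (hy : D.On w y v) :
    D.lk v y = D.wt v w * mu D v w y ∧ D.lk w y = oth D w v * mu D v w y := by
  have hadj : D.graph.Adj v w := mem_nbr.1 hw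
  have hd : D.graph.dist w v = 1 := SimpleGraph.dist_eq_one_iff_adj.2 hadj.symm
  have hd' : D.graph.dist v w = 1 := SimpleGraph.dist_eq_one_iff_adj.2 hadj
  have hyd : D.graph.dist w v + D.graph.dist v y = D.graph.dist w y := hy
  have tri := fun a b c => h.tree.connected.dist_triangle (u := a) (v := b) (w := c)
  have hwn : ¬ D.On v y w := by
    intro h1
    have h2 : D.graph.dist v w + D.graph.dist w y = D.graph.dist v y := h1
    omega
  -- the nodes on the path from `w` to `y`
  have hon : ∀ u, D.On w y u ↔ u = w ∨ D.On v y u := by
    intro u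
    constructor
    · intro h1
      by_cases hu : u = w
      · exact Or.inl hu
      · right
        have h2 := k6a_key h.tree hadj.symm hyd h1 hu
        have h3 : D.graph.dist w u + D.graph.dist u y = D.graph.dist w y := h1
        change D.graph.dist v u + D.graph.dist u y = D.graph.dist v y
        omega
    · rintro (rfl | h1)
      · change D.graph.dist u u + D.graph.dist u y = D.graph.dist u y
        rw [SimpleGraph.dist_self, zero_add]
      · have h3 : D.graph.dist v u + D.graph.dist u y = D.graph.dist v y := h1
        have h4 := tri w v u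
        have h5 := tri w u y
        change D.graph.dist w u + D.graph.dist u y = D.graph.dist w y
        omega
  -- a neighbour of `w` on the path from `v` to `y` is `v`
  have hnb : ∀ u, D.On v y u → w ∈ D.nbr u → u = v := by
    intro u h1 h2
    have h3 : D.graph.dist v u + D.graph.dist u y = D.graph.dist v y := h1
    have h4 : D.graph.dist w u = 1 := SimpleGraph.dist_eq_one_iff_adj.2 (mem_nbr.1 h2).symm
    have h5 := tri w u y
    have h6 : D.graph.dist v u = 0 := by omega
    exact ((h.tree.connected.dist_eq_zero_iff).1 h6).symm
  have hvv : D.On v y v := by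
    change D.graph.dist v v + D.graph.dist v y = D.graph.dist v y
    rw [SimpleGraph.dist_self, zero_add]
  constructor
  · unfold Data.lk mu
    have hvm : v ∈ univ.filter fun u => D.On v y u := by simpa using hvv
    rw [← mul_prod_erase _ _ hvm, ← mul_prod_erase _ _ hvm, ← mul_assoc]
    congr 1
    · have e : (D.nbr v).filter (fun x => ¬ D.On v y x) =
          insert w ((D.nbr v).filter fun x => ¬ D.On v y x ∧ ¬ (v = v ∧ x = w)) := by
        ext x
        simp only [mem_filter, mem_insert]
        constructor
        · rintro ⟨h1, h2⟩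
          by_cases hx : x = w
          · exact Or.inl hx
          · exact Or.inr ⟨h1, h2, fun h3 => hx h3.2⟩
        · rintro (rfl | h1)
          · exact ⟨hw, hwn⟩
          · exact ⟨h1.1, h1.2.1⟩
      rw [e, prod_insert (by simp)]
      ring
    · refine prod_congr rfl fun u hu => ?_
      congr 1
      refine prod_congr ?_ fun _ _ => rfl
      ext x
      simp only [mem_filter]
      have hne := (mem_erase.1 hu).1
      constructor
      · rintro ⟨h1, h2⟩
        exact ⟨h1, h2, fun h3 => hne h3.1⟩
      · rintro ⟨h1, h2, -⟩
        exact ⟨h1, h2⟩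
  · unfold Data.lk mu
    have hS : (univ.filter fun u => D.On w y u) = insert w (univ.filter fun u => D.On v y u) := by
      ext u
      simp only [mem_filter, mem_univ, true_and, mem_insert]
      exact hon u
    rw [hS, prod_insert (by simpa using hwn)]
    congr 1
    · unfold oth
      congr 1
      refine prod_congr ?_ fun _ _ => rfl
      ext x
      simp only [mem_filter, mem_erase]
      rw [hon x, not_or]
      constructor
      · rintro ⟨h1, h2, h3⟩
        refine ⟨?_, h1⟩
        rintro rfl
        exact h3 hvv
      · rintro ⟨h1, h2⟩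
        refine ⟨h2, (mem_nbr.1 h2).ne', fun h3 => h1 (hnb x h3 ?_)⟩
        exact mem_nbr.2 (mem_nbr.1 h2).symm
    · refine prod_congr rfl fun u hu => ?_
      have hu' : D.On v y u := by simpa using hu
      congr 1
      refine prod_congr ?_ fun _ _ => rfl
      ext x
      simp only [mem_filter]
      rw [hon x, not_or]
      constructor
      · rintro ⟨h1, h2, h3⟩
        exact ⟨h1, h3, fun h4 => h2 h4.2⟩
      · rintro ⟨h1, h2, h3⟩
        refine ⟨h1, ?_, h2⟩
        rintro rfl
        exact h3 ⟨hnb u hu' h1, rfl⟩

end Pool.Agent.GPC
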