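import Pool.Agent.GPC.Defs
import Pool.Agent.OHG.All

set_option autoImplicit false

open PowerSeries Finset MeasureTheory

namespace Pool.Agent.GPC

open Pool.Agent.OHG

variable {V : Type} [Fintype V] [DecidableEq V]

omit [DecidableEq V] in
private theorem K6b_on_self {D : Data V} (h : D.IsGraph) (v u : V) : D.On v v u ↔ u = v := by
  unfold Data.On
  rw [SimpleGraph.dist_self]
  constructor
  · intro h0
    have h1 : D.graph.dist v u = 0 := by omega
    exact ((h.tree.connected.dist_eq_zero_iff).mp h1).symm
  · rintro rfl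
    simp

private theorem K6b_step {D : Data V} (h : D.IsGraph) {w x y : V} (hx : x ∈ D.nbr w)
    (hy : D.On w y x) (u : V) : D.On w y u ↔ u = w ∨ D.On x y u := by
  have hc := h.tree.connected
  have hwx : D.graph.dist w x = 1 := SimpleGraph.dist_eq_one_iff_adj.mpr (mem_nbr.mp hx)
  have hxy : D.graph.dist w y = 1 + D.graph.dist x y := by
    have := hy
    unfold Data.On at this
    omega
  constructor
  · intro hu
    by_cases huw : u = w
    · exact Or.inl huw
    · right
      obtain ⟨p, hp1, hp2⟩ := hc.exists_path_of_dist x y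
      obtain ⟨q, hq1, hq2⟩ := hc.exists_path_of_dist w u
      obtain ⟨r, hr1, hr2⟩ := hc.exists_path_of_dist u y
      have hlen : (q.append r).length = D.graph.dist w y := by
        rw [SimpleGraph.Walk.length_append, hq2, hr2]
        exact hu
      have hP : (q.append r).IsPath := SimpleGraph.Walk.isPath_of_length_eq_dist _ hlen
      have hlen2 : (SimpleGraph.Walk.cons (mem_nbr.mp hx) p).length = D.graph.dist w y := by
        rw [SimpleGraph.Walk.length_cons, hp2]
        omega
      have hQ : (SimpleGraph.Walk.cons (mem_nbr.mp hx) p).IsPath :=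
        SimpleGraph.Walk.isPath_of_length_eq_dist _ hlen2
      have hEq : q.append r = SimpleGraph.Walk.cons (mem_nbr.mp hx) p := by
        have := (h.tree.isAcyclic.subsingleton_path w y).elim ⟨_, hP⟩ ⟨_, hQ⟩
        exact congrArg Subtype.val this
      have hmem : u ∈ (q.append r).support := by
        rw [SimpleGraph.Walk.mem_support_append_iff]
        exact Or.inl q.end_mem_support
      rw [hEq, SimpleGraph.Walk.support_cons, List.mem_cons] at hmem
      rcases hmem with hmem | hmem
      · exact absurd hmem huw
      · unfold Data.On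
        have h1 := congrArg SimpleGraph.Walk.length (p.take_spec hmem)
        rw [SimpleGraph.Walk.length_append, hp2] at h1
        have h2 := SimpleGraph.dist_le (p.takeUntil u hmem)
        have h3 := SimpleGraph.dist_le (p.dropUntil u hmem)
        have h4 : D.graph.dist x y ≤ D.graph.dist x u + D.graph.dist u y := hc.dist_triangle
        omega
  · rintro (rfl | hu)
    · unfold Data.On
      simp
    · unfold Data.On at hu ⊢
      have h1 : D.graph.dist w u ≤ D.graph.dist w x + D.graph.dist x u := hc.dist_triangle
      have h2 : D.graph.dist w y ≤ D.graph.dist w u + D.graph.dist u y := hc.dist_triangle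
      omega

private theorem K6b_adj {D : Data V} (h : D.IsGraph) {w x y : V} (hx : x ∈ D.nbr w)
    (hy : D.On w y x) {u : V} (hu : D.On x y u) (huw : D.graph.Adj u w) : u = x := by
  have hc := h.tree.connected
  have hwx : D.graph.dist w x = 1 := SimpleGraph.dist_eq_one_iff_adj.mpr (mem_nbr.mp hx)
  have hwu : D.graph.dist w u = 1 := SimpleGraph.dist_eq_one_iff_adj.mpr huw.symm
  unfold Data.On at hy hu
  have h2 : D.graph.dist w y ≤ D.graph.dist w u + D.graph.dist u y := hc.dist_triangle
  have h3 : D.graph.dist x u = 0 := by omega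
  exact ((hc.dist_eq_zero_iff).mp h3).symm

private theorem K6b_not {D : Data V} {w x y : V} (hx : x ∈ D.nbr w)
    (hy : D.On w y x) : ¬ D.On x y w := by
  have hwx : D.graph.dist w x = 1 := SimpleGraph.dist_eq_one_iff_adj.mpr (mem_nbr.mp hx)
  unfold Data.On at hy ⊢
  rw [SimpleGraph.dist_comm (u := x) (v := w)]
  omega

theorem mu_side {D : Data V} (h : D.IsGraph) {v w x : V} (hv : v ∈ D.nbr w) (hx : x ∈ D.nbr w)
    (hvx : v ≠ x) : ∃ b : ℤ, ∀ y, D.On w y x → mu D w v y = b * mu D x w y := by
  refine ⟨D.sgn w * (∏ k ∈ D.leaf w, (k : ℤ)) *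
    ∏ z ∈ D.nbr w with z ≠ x ∧ z ≠ v, D.wt w z, fun y hy => ?_⟩
  unfold mu
  have hS : (univ.filter fun u => D.On w y u) = insert w (univ.filter fun u => D.On x y u) := by
    ext u
    simp only [mem_filter, mem_univ, true_and, mem_insert]
    exact K6b_step h hx hy u
  have hnot : w ∉ (univ.filter fun u => D.On x y u) := by
    simp only [mem_filter, mem_univ, true_and]
    exact K6b_not hx hy
  rw [hS, prod_insert hnot]
  congr 1
  · congr 1
    refine prod_congr ?_ fun _ _ => rfl
    ext z
    simp only [mem_filter]
    constructor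
    · rintro ⟨a, b, c⟩
      refine ⟨a, ?_, fun hz => c ⟨trivial, hz⟩⟩
      rintro rfl
      exact b hy
    · rintro ⟨a, b, c⟩
      refine ⟨a, ?_, fun hz => c hz.2⟩
      rw [K6b_step h hx hy z]
      rintro (hz | hz)
      · exact (mem_nbr.mp a).ne' hz
      · exact b (K6b_adj h hx hy hz (mem_nbr.mp a).symm)
  · refine prod_congr rfl fun u hu => ?_
    simp only [mem_filter, mem_univ, true_and] at hu
    have huw : u ≠ w := fun e => K6b_not hx hy (e ▸ hu)
    congr 1
    refine prod_congr ?_ fun _ _ => rfl
    ext z
    simp only [mem_filter]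
    constructor
    · rintro ⟨a, b, c⟩
      rw [K6b_step h hx hy z, not_or] at b
      exact ⟨a, b.2, fun hz => b.1 hz.2⟩
    · rintro ⟨a, b, c⟩
      refine ⟨a, ?_, fun hz => huw hz.1⟩
      rw [K6b_step h hx hy z]
      rintro (hz | hz)
      · refine c ⟨?_, hz⟩
        have hadj : D.graph.Adj u w := hz ▸ mem_nbr.mp a
        exact K6b_adj h hx hy hu hadj
      · exact b hz

theorem mu_self {D : Data V} (h : D.IsGraph) {v w : V} (hv : v ∈ D.nbr w) :
    mu D w v w = oth D w v := by
  unfold mu oth
  have hS : (univ.filter fun u => D.On w w u) = {w} := by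
    ext u
    simp only [mem_filter, mem_univ, true_and, mem_singleton]
    exact K6b_on_self h w u
  rw [hS, prod_singleton]
  congr 1
  refine prod_congr ?_ fun _ _ => rfl
  ext z
  simp only [mem_filter, mem_erase]
  constructor
  · rintro ⟨a, b, c⟩
    exact ⟨fun e => c ⟨trivial, e⟩, a⟩
  · rintro ⟨a, b⟩
    refine ⟨b, ?_, fun e => a e.2⟩
    rw [K6b_on_self h]
    exact (mem_nbr.mp b).ne'

end Pool.Agent.GPC
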