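import Pool.Agent.GPC.Defs
import Pool.Agent.OHG.All

set_option autoImplicit false

open PowerSeries Finset MeasureTheory

namespace Pool.Agent.GPC

open Pool.Agent.OHG

variable {V : Type} [Fintype V] [DecidableEq V]

theorem tree_side {D : Data V} (h : D.IsGraph) {w y : V} (hy : y ≠ w) :
    ∃! x, x ∈ D.nbr w ∧ D.On w y x := by
  obtain ⟨p, hp⟩ := h.tree.connected.exists_walk_length_eq_dist w y
  have hpath : ∀ x (hx : D.graph.Adj w x), D.On w y x →
      ∃ q : D.graph.Walk x y, (SimpleGraph.Walk.cons hx q).IsPath := by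
    intro x hx hon
    obtain ⟨q, hq⟩ := h.tree.connected.exists_walk_length_eq_dist x y
    refine ⟨q, SimpleGraph.Walk.isPath_of_length_eq_dist _ ?_⟩
    unfold Data.On at hon
    rw [SimpleGraph.dist_eq_one_iff_adj.mpr hx] at hon
    rw [SimpleGraph.Walk.length_cons, hq]
    omega
  cases p with
  | nil => exact absurd rfl hy
  | @cons _ x _ hx q =>
    have hwx : D.graph.dist w x = 1 := SimpleGraph.dist_eq_one_iff_adj.mpr hx
    have h1 : D.graph.dist x y ≤ q.length := SimpleGraph.dist_le q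
    have h2 : D.graph.dist w y ≤ D.graph.dist w x + D.graph.dist x y :=
      h.tree.connected.dist_triangle
    rw [SimpleGraph.Walk.length_cons] at hp
    have hon : D.On w y x := by
      unfold Data.On
      omega
    refine ⟨x, ⟨mem_nbr.mpr hx, hon⟩, ?_⟩
    rintro x' ⟨hx', hon'⟩
    obtain ⟨q1, hq1⟩ := hpath x hx hon
    obtain ⟨q2, hq2⟩ := hpath x' (mem_nbr.mp hx') hon'
    have h3 := (h.tree.isAcyclic.subsingleton_path w y).elim ⟨_, hq2⟩ ⟨_, hq1⟩
    have h4 : SimpleGraph.Walk.cons (mem_nbr.mp hx') q2 = SimpleGraph.Walk.cons hx q1 :=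
      congrArg Subtype.val h3
    have h5 := congrArg (fun p : D.graph.Walk w y => p.snd) h4
    simpa using h5

theorem edge_side {D : Data V} (h : D.IsGraph) {v w : V} (hw : w ∈ D.nbr v) (y : V) :
    (D.On w y v ∧ ¬ D.On v y w) ∨ (D.On v y w ∧ ¬ D.On w y v) := by
  have hadj : D.graph.Adj v w := mem_nbr.mp hw
  have h1 : D.graph.dist v w = 1 := SimpleGraph.dist_eq_one_iff_adj.mpr hadj
  have h1' : D.graph.dist w v = 1 := SimpleGraph.dist_eq_one_iff_adj.mpr hadj.symm
  have h2 := h.tree.dist_ne_of_adj y hadj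
  have h3 : D.graph.dist v y ≤ D.graph.dist v w + D.graph.dist w y :=
    h.tree.connected.dist_triangle
  have h4 : D.graph.dist w y ≤ D.graph.dist w v + D.graph.dist v y :=
    h.tree.connected.dist_triangle
  rw [SimpleGraph.dist_comm (u := y) (v := v), SimpleGraph.dist_comm (u := y) (v := w)] at h2
  unfold Data.On
  omega

end Pool.Agent.GPC
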