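import Pool.Agent.GPC.Defs
import Pool.Agent.OHG.All
import Pool.Agent.GPC.K6a
import Pool.Agent.GPC.K6b
import Pool.Agent.GPC.K6c

set_option autoImplicit false

open PowerSeries Finset MeasureTheory

namespace Pool.Agent.GPC

open Pool.Agent.OHG

variable {V : Type} [Fintype V] [DecidableEq V]

/-- The part of the row sum of the side of `v` of the edge `vw`. -/
private noncomputable def k6d_S (D : Data V) (x : V → ℝ) (v w : V) : ℝ :=
  ∑ y with D.On w y v, (mu D v w y : ℝ) * x y

private theorem k6d_row {D : Data V} (h : D.IsGraph) {v w : V} (hw : w ∈ D.nbr v) (x : V → ℝ) :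
    ∑ y, (D.lk v y : ℝ) * x y =
      (D.wt v w : ℝ) * k6d_S D x v w + (oth D v w : ℝ) * k6d_S D x w v := by
  have hv : v ∈ D.nbr w := by
    rw [mem_nbr] at hw ⊢
    exact hw.symm
  have hf : (univ.filter fun y => ¬ D.On w y v) = univ.filter fun y => D.On v y w := by
    ext y
    simp only [mem_filter, mem_univ, true_and]
    rcases edge_side h hw y with ⟨h1, h2⟩ | ⟨h1, h2⟩
    · exact ⟨fun h3 => absurd h1 h3, fun h3 => absurd h3 h2⟩
    · exact ⟨fun _ => h1, fun _ => h2⟩
  rw [← Finset.sum_filter_add_sum_filter_not univ (fun y => D.On w y v), hf]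
  unfold k6d_S
  rw [Finset.mul_sum, Finset.mul_sum]
  congr 1
  · refine Finset.sum_congr rfl fun y hy => ?_
    rw [mem_filter] at hy
    rw [(lk_side h hw hy.2).1]
    push_cast
    ring
  · refine Finset.sum_congr rfl fun y hy => ?_
    rw [mem_filter] at hy
    rw [(lk_side h hv hy.2).2]
    push_cast
    ring

private theorem k6d_S_eq {D : Data V} (h : D.IsGraph) {x : V → ℝ}
    (hx : ∀ v, ∑ y, (D.lk v y : ℝ) * x y = 0) {v w : V} (hw : w ∈ D.nbr v) :
    k6d_S D x v w = 0 := by
  have hv : v ∈ D.nbr w := by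
    rw [mem_nbr] at hw ⊢
    exact hw.symm
  have h1 := k6d_row h hw x
  have h2 := k6d_row h hv x
  rw [hx] at h1 h2
  have h3 : (D.wt v w : ℝ) * D.wt w v - (oth D v w : ℝ) * oth D w v ≠ 0 := by
    have h4 := h.edge_det v w hw
    have h5 : D.lk v w = oth D v w * oth D w v := lk_adj h hw
    rw [h5] at h4
    intro h6
    apply h4
    have h7 : (D.wt v w : ℝ) * D.wt w v = (oth D v w : ℝ) * oth D w v := by linarith
    exact_mod_cast h7
  have h8 : ((D.wt v w : ℝ) * D.wt w v - (oth D v w : ℝ) * oth D w v) * k6d_S D x v w = 0 := by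
    linear_combination (-(D.wt w v : ℝ)) * h1 + (oth D v w : ℝ) * h2
  exact (mul_eq_zero.mp h8).resolve_left h3

private theorem k6d_not_on {D : Data V} (h : D.IsGraph) {w z : V} (hz : z ∈ D.nbr w) :
    ¬ D.On w w z := by
  intro h1
  unfold Data.On at h1
  rw [SimpleGraph.dist_self] at h1
  have h2 : D.graph.dist w z = 0 := by omega
  have h3 := (h.tree.connected.dist_eq_zero_iff).mp h2
  exact (mem_nbr.mp hz).ne h3

private theorem k6d_split {D : Data V} (h : D.IsGraph) {v w : V} (hv : v ∈ D.nbr w) :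
    (univ.filter fun y => D.On v y w) =
      insert w (((D.nbr w).erase v).biUnion fun z => univ.filter fun y => D.On w y z) := by
  have hw : w ∈ D.nbr v := by
    rw [mem_nbr] at hv ⊢
    exact hv.symm
  ext y
  simp only [mem_filter, mem_univ, true_and, mem_insert, mem_biUnion, mem_erase]
  constructor
  · intro h1
    by_cases hy : y = w
    · exact Or.inl hy
    · right
      obtain ⟨z, ⟨hz1, hz2⟩, _⟩ := tree_side h hy
      refine ⟨z, ⟨?_, hz1⟩, hz2⟩
      rintro rfl
      rcases edge_side h hv y with ⟨_, h3⟩ | ⟨_, h3⟩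
      · exact h3 hz2
      · exact h3 h1
  · rintro (rfl | ⟨z, ⟨hz1, hz2⟩, hz3⟩)
    · unfold Data.On
      rw [SimpleGraph.dist_self]
      omega
    · have hy : y ≠ w := by
        rintro rfl
        exact k6d_not_on h hz2 hz3
      obtain ⟨z', ⟨_, _⟩, hu⟩ := tree_side h hy
      have h4 := hu z ⟨hz2, hz3⟩
      rcases edge_side h hv y with ⟨h5, _⟩ | ⟨h5, _⟩
      · exact h5
      · exact absurd ((hu v ⟨hv, h5⟩).trans h4.symm) (Ne.symm hz1)

private theorem k6d_oth {D : Data V} (h : D.IsGraph) {x : V → ℝ}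
    (hx : ∀ v, ∑ y, (D.lk v y : ℝ) * x y = 0) {v w : V} (hv : v ∈ D.nbr w) :
    (oth D w v : ℝ) * x w = 0 := by
  have h0 : k6d_S D x w v = 0 := k6d_S_eq h hx hv
  unfold k6d_S at h0
  rw [k6d_split h hv, Finset.sum_insert] at h0
  · rw [Finset.sum_biUnion] at h0
    · have h1 : ∑ z ∈ (D.nbr w).erase v, ∑ y with D.On w y z, (mu D w v y : ℝ) * x y = 0 := by
        refine Finset.sum_eq_zero fun z hz => ?_
        rw [mem_erase] at hz
        obtain ⟨b, hb⟩ := mu_side h hv hz.2 (Ne.symm hz.1)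
        have hw : w ∈ D.nbr z := by
          have := hz.2
          rw [mem_nbr] at this ⊢
          exact this.symm
        have h2 : ∑ y with D.On w y z, (mu D w v y : ℝ) * x y = (b : ℝ) * k6d_S D x z w := by
          unfold k6d_S
          rw [Finset.mul_sum]
          refine Finset.sum_congr rfl fun y hy => ?_
          rw [mem_filter] at hy
          rw [hb y hy.2]
          push_cast
          ring
        rw [h2, k6d_S_eq h hx hw, mul_zero]
      rw [h1, add_zero, mu_self h hv] at h0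
      exact h0
    · intro z hz z' hz' hne
      rw [Function.onFun, Finset.disjoint_left]
      intro y hy hy'
      rw [mem_filter] at hy hy'
      rw [mem_coe, mem_erase] at hz hz'
      have hyw : y ≠ w := by
        rintro rfl
        exact k6d_not_on h hz.2 hy.2
      obtain ⟨u, _, hu⟩ := tree_side h hyw
      exact hne ((hu z ⟨hz.2, hy.2⟩).trans (hu z' ⟨hz'.2, hy'.2⟩).symm)
  · rw [mem_biUnion]
    rintro ⟨z, hz, hy⟩
    rw [mem_erase] at hz
    rw [mem_filter] at hy
    exact k6d_not_on h hz.2 hy.2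

private theorem k6d_leaf {D : Data V} (h : D.IsGraph) (w : V) :
    D.sgn w * (∏ k ∈ D.leaf w, (k : ℤ)) ≠ 0 := by
  refine mul_ne_zero ?_ ?_
  · rcases h.sign w with h1 | h1 <;> rw [h1] <;> norm_num
  · refine Finset.prod_ne_zero_iff.mpr fun k hk => ?_
    have := h.two_le w k hk
    exact_mod_cast (by omega : k ≠ 0)

private theorem k6d_zero {D : Data V} (h : D.IsGraph) {w v : V} (h0 : oth D w v = 0) :
    ∃ z ∈ D.nbr w, z ≠ v ∧ D.wt w z = 0 := by
  unfold oth at h0
  have h1 := (mul_eq_zero.mp h0).resolve_left (k6d_leaf h w)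
  rw [Finset.prod_eq_zero_iff] at h1
  obtain ⟨z, hz, hz0⟩ := h1
  rw [mem_erase] at hz
  exact ⟨z, hz.2, hz.1, hz0⟩

theorem lkm_det {D : Data V} (h : D.IsGraph) : (lkm D).det ≠ 0 := by
  intro hdet
  obtain ⟨x, hx0, hx⟩ := Matrix.exists_mulVec_eq_zero_iff.mpr hdet
  have hx' : ∀ v, ∑ y, (D.lk v y : ℝ) * x y = 0 := by
    intro v
    have := congrFun hx v
    simpa [Matrix.mulVec, dotProduct, lkm] using this
  apply hx0
  funext w
  rw [Pi.zero_apply]
  by_contra hw
  have hoth : ∀ v ∈ D.nbr w, oth D w v = 0 := by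
    intro v hv
    have h1 := (mul_eq_zero.mp (k6d_oth h hx' hv)).resolve_right hw
    exact_mod_cast h1
  rcases (D.nbr w).eq_empty_or_nonempty with he | ⟨v, hv⟩
  · have hall : ∀ y, y = w := by
      intro y
      by_contra hy
      obtain ⟨z, ⟨hz, _⟩, _⟩ := tree_side h hy
      rw [he] at hz
      exact absurd hz (notMem_empty z)
    have h1 := hx' w
    rw [Finset.sum_eq_single w (fun y _ hy => absurd (hall y) hy)
      (fun hn => absurd (mem_univ w) hn), lk_self h w, he, Finset.prod_empty, mul_one] at h1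
    have h2 := (mul_eq_zero.mp h1).resolve_right hw
    exact k6d_leaf h w (by exact_mod_cast h2)
  · obtain ⟨z, hz, _, hz0⟩ := k6d_zero h (hoth v hv)
    obtain ⟨z', hz', hne, hz'0⟩ := k6d_zero h (hoth z hz)
    have h1 := h.coprime_edge w z hz z' hz' hne.symm
    rw [hz0, hz'0] at h1
    obtain ⟨a, b, hab⟩ := h1
    simp at hab

end Pool.Agent.GPC
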