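import Pool.Agent.GPC.Defs
import Pool.Agent.OHG.All
import Pool.Agent.GPC.K2
import Pool.Agent.GPC.K3

set_option autoImplicit false

open PowerSeries Finset MeasureTheory

namespace Pool.Agent.GPC

open Pool.Agent.OHG

variable {V : Type} [Fintype V] [DecidableEq V]

private lemma K7_sq (w : ℂ) : (w ^ (-(1 / 2) : ℂ)) ^ 2 = w⁻¹ := by
  rw [← Complex.cpow_nat_mul]
  have : ((2 : ℕ) : ℂ) * (-(1 / 2)) = -1 := by push_cast; ring
  rw [this, Complex.cpow_neg_one]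

private lemma K7_re (w : ℂ) (hw : w ≠ 0) : 0 ≤ (w ^ (-(1 / 2) : ℂ)).re := by
  rw [Complex.cpow_def_of_ne_zero hw, Complex.exp_re]
  have h0 : (-(1 / 2) : ℂ) = ((-(1 / 2) : ℝ) : ℂ) := by push_cast; ring
  have h1 : (Complex.log w * (-(1 / 2) : ℂ)).im = -(w.arg / 2) := by
    rw [h0, Complex.im_mul_ofReal, Complex.log_im]; ring
  rw [h1]
  apply mul_nonneg (Real.exp_pos _).le
  have h2 := Complex.neg_pi_lt_arg w
  have h3 := Complex.arg_le_pi w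
  apply Real.cos_nonneg_of_neg_pi_div_two_le_of_le <;> linarith

private lemma K7_norm_add {a b : ℂ} (ha : 0 ≤ a.re) (hb : 0 ≤ b.re) (ha2 : 0 ≤ (a ^ 2).re)
    (hb2 : 0 ≤ (b ^ 2).re) : ‖b‖ ≤ ‖a + b‖ := by
  have h1 : (a ^ 2).re = a.re ^ 2 - a.im ^ 2 := by simp [pow_two]
  have h2 : (b ^ 2).re = b.re ^ 2 - b.im ^ 2 := by simp [pow_two]
  rw [h1] at ha2
  rw [h2] at hb2
  have h3 : |a.im| ≤ a.re := abs_le_of_sq_le_sq (by linarith) ha
  have h4 : |b.im| ≤ b.re := abs_le_of_sq_le_sq (by linarith) hb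
  have h5 : |a.im * b.im| ≤ a.re * b.re := by
    rw [abs_mul]; exact mul_le_mul h3 h4 (abs_nonneg _) ha
  have h6 := neg_abs_le (a.im * b.im)
  rw [← abs_of_nonneg (norm_nonneg b), ← abs_of_nonneg (norm_nonneg (a + b)), ← sq_le_sq,
    Complex.sq_norm, Complex.sq_norm, Complex.normSq_apply, Complex.normSq_apply]
  simp only [Complex.add_re, Complex.add_im]
  nlinarith [sq_nonneg a.re, sq_nonneg a.im]

private lemma K7_cube {a b : ℂ} (ha : 0 ≤ a.re) (hb : 0 ≤ b.re) (ha2 : 0 ≤ (a ^ 2).re)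
    (hb2 : 0 ≤ (b ^ 2).re) (hab : ‖a‖ ≤ ‖b‖) (hb0 : b ≠ 0) :
    ‖a ^ 3 - b ^ 3‖ ≤ 3 * ‖b‖ * ‖a ^ 2 - b ^ 2‖ := by
  have h1 := K7_norm_add ha hb ha2 hb2
  have hb0' : 0 < ‖b‖ := norm_pos_iff.2 hb0
  have h2 : ‖a ^ 2 - b ^ 2‖ = ‖a - b‖ * ‖a + b‖ := by
    rw [← norm_mul]; congr 1; ring
  have h3 : ‖a ^ 3 - b ^ 3‖ = ‖a - b‖ * ‖a ^ 2 + a * b + b ^ 2‖ := by
    rw [← norm_mul]; congr 1; ring
  have h4 : ‖a ^ 2 + a * b + b ^ 2‖ ≤ 3 * ‖b‖ ^ 2 := by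
    calc ‖a ^ 2 + a * b + b ^ 2‖ ≤ ‖a ^ 2 + a * b‖ + ‖b ^ 2‖ := norm_add_le _ _
      _ ≤ ‖a ^ 2‖ + ‖a * b‖ + ‖b ^ 2‖ := by gcongr; exact norm_add_le _ _
      _ = ‖a‖ ^ 2 + ‖a‖ * ‖b‖ + ‖b‖ ^ 2 := by rw [norm_pow, norm_pow, norm_mul]
      _ ≤ ‖b‖ ^ 2 + ‖b‖ * ‖b‖ + ‖b‖ ^ 2 := by gcongr
      _ = 3 * ‖b‖ ^ 2 := by ring
  rw [h3, h2]
  calc ‖a - b‖ * ‖a ^ 2 + a * b + b ^ 2‖ ≤ ‖a - b‖ * (3 * ‖b‖ ^ 2) := by gcongr
    _ = 3 * ‖b‖ * (‖a - b‖ * ‖b‖) := by ring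
    _ ≤ 3 * ‖b‖ * (‖a - b‖ * ‖a + b‖) := by gcongr

private lemma K7_prod {ι : Type} (s : Finset ι) (x y : ι → ℂ) (M δ : ι → ℝ)
    (hx : ∀ i ∈ s, ‖x i‖ ≤ M i) (hy : ∀ i ∈ s, ‖y i‖ ≤ M i)
    (hxy : ∀ i ∈ s, ‖x i - y i‖ ≤ M i * δ i) :
    ‖∏ i ∈ s, x i - ∏ i ∈ s, y i‖ ≤ (∏ i ∈ s, M i) * ∑ i ∈ s, δ i := by
  classical
  induction s using Finset.induction_on with
  | empty => simp
  | insert a s ha ih =>
    rw [prod_insert ha, prod_insert ha, prod_insert ha, sum_insert ha]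
    have ih' := ih (fun i hi => hx i (mem_insert_of_mem hi)) (fun i hi => hy i (mem_insert_of_mem hi))
      (fun i hi => hxy i (mem_insert_of_mem hi))
    have h1 := hx a (mem_insert_self a s)
    have h2 := hxy a (mem_insert_self a s)
    have h3 : ‖∏ i ∈ s, y i‖ ≤ ∏ i ∈ s, M i := by
      rw [norm_prod]
      exact prod_le_prod (fun i _ => norm_nonneg _) (fun i hi => hy i (mem_insert_of_mem hi))
    have h4 : x a * ∏ i ∈ s, x i - y a * ∏ i ∈ s, y i =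
        x a * (∏ i ∈ s, x i - ∏ i ∈ s, y i) + (x a - y a) * ∏ i ∈ s, y i := by ring
    have h5 : 0 ≤ ∏ i ∈ s, M i := (norm_nonneg _).trans h3
    have h6 : 0 ≤ M a := (norm_nonneg _).trans h1
    rw [h4]
    calc _ ≤ ‖x a * (∏ i ∈ s, x i - ∏ i ∈ s, y i)‖ + ‖(x a - y a) * ∏ i ∈ s, y i‖ :=
          norm_add_le _ _
      _ = ‖x a‖ * ‖∏ i ∈ s, x i - ∏ i ∈ s, y i‖ + ‖x a - y a‖ * ‖∏ i ∈ s, y i‖ := by
          rw [norm_mul, norm_mul]
      _ ≤ M a * ((∏ i ∈ s, M i) * ∑ i ∈ s, δ i) + (M a * δ a) * ∏ i ∈ s, M i := by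
          gcongr
          exact (norm_nonneg _).trans h2
      _ = M a * (∏ i ∈ s, M i) * (δ a + ∑ i ∈ s, δ i) := by ring

/-- The limit factors. -/
private noncomputable def K7_b (x : ℝ) : ℂ := (4 * Complex.I * (x : ℂ)) ^ (-(1 / 2) : ℂ)

private lemma K7_b_sq (x : ℝ) : (K7_b x) ^ 2 = (4 * Complex.I * (x : ℂ))⁻¹ := K7_sq _

private lemma K7_ne {x : ℝ} (hx : x ≠ 0) : (4 * Complex.I * (x : ℂ)) ≠ 0 := by
  have : (x : ℂ) ≠ 0 := by exact_mod_cast hx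
  simp [this, Complex.I_ne_zero]

private lemma K7_b_norm {x : ℝ} : ‖K7_b x‖ ^ 2 = (4 * |x|)⁻¹ := by
  rw [← norm_pow, K7_b_sq, norm_inv]
  simp

private lemma K7_b_ne {x : ℝ} (hx : x ≠ 0) : K7_b x ≠ 0 := by
  intro h
  have h1 := K7_b_sq x
  rw [h] at h1
  have h2 := inv_ne_zero (K7_ne hx)
  apply h2
  rw [← h1]; simp

private lemma K7_one {x τ : ℝ} (hx : x ≠ 0) (hτ : 0 < τ) :
    ‖((Real.sqrt τ : ℝ) : ℂ) * (1 + 4 * (Complex.I * τ) * (x : ℂ)) ^ (-(1 / 2) : ℂ)‖ ≤ ‖K7_b x‖ ∧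
    ‖(((Real.sqrt τ : ℝ) : ℂ) * (1 + 4 * (Complex.I * τ) * (x : ℂ)) ^ (-(1 / 2) : ℂ)) ^ 3 -
      K7_b x ^ 3‖ ≤ ‖K7_b x‖ ^ 3 * (3 / τ * ‖K7_b x‖ ^ 2) := by
  set w : ℂ := 1 + 4 * (Complex.I * τ) * (x : ℂ) with hw
  set a : ℂ := ((Real.sqrt τ : ℝ) : ℂ) * w ^ (-(1 / 2) : ℂ) with ha
  set b : ℂ := K7_b x with hb
  have hwre : w.re = 1 := by rw [hw]; simp
  have hwim : w.im = 4 * τ * x := by rw [hw]; simp
  have hw0 : w ≠ 0 := by
    intro h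
    rw [h] at hwre
    simp at hwre
  have hb0 : b ≠ 0 := K7_b_ne hx
  have hare : 0 ≤ a.re := by
    rw [ha, Complex.re_ofReal_mul]
    exact mul_nonneg (Real.sqrt_nonneg _) (K7_re w hw0)
  have hbre : 0 ≤ b.re := K7_re _ (K7_ne hx)
  have ha2 : a ^ 2 = (τ : ℂ) * w⁻¹ := by
    rw [ha, mul_pow, K7_sq, ← Complex.ofReal_pow, Real.sq_sqrt hτ.le]
  have hb2 : b ^ 2 = (4 * Complex.I * (x : ℂ))⁻¹ := K7_b_sq x
  have ha2re : 0 ≤ (a ^ 2).re := by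
    rw [ha2, Complex.re_ofReal_mul, Complex.inv_re, hwre]
    have := Complex.normSq_nonneg w
    positivity
  have hb2re : 0 ≤ (b ^ 2).re := by
    rw [hb2, Complex.inv_re]
    simp
  have hτ0 : (τ : ℂ) ≠ 0 := by exact_mod_cast hτ.ne'
  have hx0 : (x : ℂ) ≠ 0 := by exact_mod_cast hx
  have hwn : 4 * τ * |x| ≤ ‖w‖ := by
    have h := Complex.abs_im_le_norm w
    rw [hwim, abs_mul, abs_mul, abs_of_pos hτ] at h
    simpa using h
  have hx' : 0 < |x| := abs_pos.2 hx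
  have han : ‖a‖ ^ 2 ≤ ‖b‖ ^ 2 := by
    rw [← norm_pow, ha2, K7_b_norm, norm_mul, norm_inv]
    have h1 : ‖(τ : ℂ)‖ = τ := by rw [Complex.norm_real, Real.norm_eq_abs, abs_of_pos hτ]
    rw [h1, ← div_eq_mul_inv, div_le_iff₀ (norm_pos_iff.2 hw0), inv_mul_eq_div,
      le_div_iff₀ (by positivity)]
    nlinarith
  have han' : ‖a‖ ≤ ‖b‖ := by
    have := sq_le_sq.1 han
    rwa [abs_of_nonneg (norm_nonneg _), abs_of_nonneg (norm_nonneg _)] at this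
  refine ⟨han', ?_⟩
  have h1 := K7_cube hare hbre ha2re hb2re han' hb0
  have h2 : a ^ 2 - b ^ 2 = -((1 / τ : ℂ) * (a ^ 2 * b ^ 2)) := by
    rw [ha2, hb2]
    have hI : (4 * Complex.I * (x : ℂ)) ≠ 0 := K7_ne hx
    field_simp
    rw [hw]
    ring
  have h3 : ‖a ^ 2 - b ^ 2‖ ≤ 1 / τ * ‖b‖ ^ 4 := by
    rw [h2, norm_neg, norm_mul, norm_mul, norm_pow, norm_pow]
    have h4 : ‖(1 / τ : ℂ)‖ = 1 / τ := by
      rw [norm_div, norm_one, Complex.norm_real, Real.norm_eq_abs, abs_of_pos hτ]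
    rw [h4]
    have h5 : ‖a‖ ^ 2 * ‖b‖ ^ 2 ≤ ‖b‖ ^ 4 := by
      calc ‖a‖ ^ 2 * ‖b‖ ^ 2 ≤ ‖b‖ ^ 2 * ‖b‖ ^ 2 := by gcongr
        _ = ‖b‖ ^ 4 := by ring
    gcongr
  calc ‖a ^ 3 - b ^ 3‖ ≤ 3 * ‖b‖ * ‖a ^ 2 - b ^ 2‖ := h1
    _ ≤ 3 * ‖b‖ * (1 / τ * ‖b‖ ^ 4) := by gcongr
    _ = ‖b‖ ^ 3 * (3 / τ * ‖b‖ ^ 2) := by ring

private lemma K7_det (L : Matrix V V ℝ) (u : V → ℝ) (hu : ∀ v, 0 < u v) :
    (Am L u).det = (∏ v, u v) * L.det := by
  have h1 : Am L u = Matrix.diagonal (fun v => Real.sqrt (u v)) * L *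
      Matrix.diagonal (fun v => Real.sqrt (u v)) := by
    ext v w
    rw [Matrix.mul_diagonal, Matrix.diagonal_mul]
    simp only [Am, Matrix.of_apply]
    ring
  rw [h1, Matrix.det_mul, Matrix.det_mul, Matrix.det_diagonal]
  have h2 : (∏ v, Real.sqrt (u v)) * (∏ v, Real.sqrt (u v)) = ∏ v, u v := by
    rw [← prod_mul_distrib]
    exact prod_congr rfl fun v _ => Real.mul_self_sqrt (hu v).le
  calc _ = ((∏ v, Real.sqrt (u v)) * (∏ v, Real.sqrt (u v))) * L.det := by ring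
    _ = _ := by rw [h2]

private lemma K7_eig {L : Matrix V V ℝ} {u : V → ℝ} (hA : (Am L u).IsHermitian)
    (hu : ∀ v, 0 < u v) : ∏ i, hA.eigenvalues i = (∏ v, u v) * L.det := by
  rw [← K7_det L u hu, hA.det_eq_prod_eigenvalues]
  simp

private lemma K7_main {L : Matrix V V ℝ} (hL : L.IsHermitian) (hd : L.det ≠ 0) {u : V → ℝ}
    (hu : ∀ v, 0 < u v) {τ : ℝ} (hτ : 0 < τ) :
    ‖((τ ^ ((3 / 2 : ℝ) * Fintype.card V) : ℝ) : ℂ) * Kf L (Complex.I * τ) u -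
      ∏ i, K7_b ((Am_herm hL u).eigenvalues i) ^ 3‖ ≤
    (∏ i, ‖K7_b ((Am_herm hL u).eigenvalues i)‖ ^ 3) *
      ∑ i, (3 / τ * ‖K7_b ((Am_herm hL u).eigenvalues i)‖ ^ 2) := by
  have hA := Am_herm hL u
  have hne : ∀ i, hA.eigenvalues i ≠ 0 := by
    intro i h
    have h1 := K7_eig hA hu
    rw [prod_eq_zero (mem_univ i) h] at h1
    have h2 : (∏ v, u v) ≠ 0 := prod_ne_zero_iff.2 fun v _ => (hu v).ne'
    exact (mul_ne_zero h2 hd) h1.symm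
  have h1 : ((τ ^ ((3 / 2 : ℝ) * Fintype.card V) : ℝ) : ℂ) * Kf L (Complex.I * τ) u =
      ∏ i, (((Real.sqrt τ : ℝ) : ℂ) *
        (1 + 4 * (Complex.I * τ) * ((hA.eigenvalues i : ℝ) : ℂ)) ^ (-(1 / 2) : ℂ)) ^ 3 := by
    unfold Kf
    rw [dif_pos hA]
    have h2 : τ ^ ((3 / 2 : ℝ) * Fintype.card V) = ∏ _i : V, (Real.sqrt τ) ^ 3 := by
      rw [prod_const, card_univ, Real.rpow_mul hτ.le, Real.rpow_natCast]
      congr 1
      rw [Real.sqrt_eq_rpow, ← Real.rpow_natCast, ← Real.rpow_mul hτ.le]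
      congr 1
      norm_num
    rw [h2, Complex.ofReal_prod, ← prod_mul_distrib]
    refine prod_congr rfl fun i _ => ?_
    rw [mul_pow, Complex.ofReal_pow]
  rw [h1]
  apply K7_prod
  · intro i _
    rw [norm_pow]
    exact pow_le_pow_left₀ (norm_nonneg _) (K7_one (hne i) hτ).1 3
  · intro i _
    rw [norm_pow]
  · intro i _
    exact (K7_one (hne i) hτ).2

private lemma K7_est {L : Matrix V V ℝ} (hL : L.IsHermitian) (hd : L.det ≠ 0) {u : V → ℝ}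
    (hu : ∀ v, 0 < u v) {τ : ℝ} (hτ : 0 < τ) :
    (∏ i, ‖K7_b ((Am_herm hL u).eigenvalues i)‖ ^ 3) *
      ∑ i, (3 / τ * ‖K7_b ((Am_herm hL u).eigenvalues i)‖ ^ 2) ≤
    (3 * Fintype.card V * (4 * ((∑ v, ∑ w, |L v w|) + 1)) ^ Fintype.card V *
      (4 ^ Fintype.card V * |L.det|) ^ (-(5 / 2) : ℝ)) / τ *
      ((1 + ∑ v, u v) ^ Fintype.card V * ∏ v, (u v) ^ (-(5 / 2) : ℝ)) := by
  have hA := Am_herm hL u
  have hne : ∀ i, hA.eigenvalues i ≠ 0 := by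
    intro i h
    have h1 := K7_eig hA hu
    rw [prod_eq_zero (mem_univ i) h] at h1
    have h2 : (∏ v, u v) ≠ 0 := prod_ne_zero_iff.2 fun v _ => (hu v).ne'
    exact (mul_ne_zero h2 hd) h1.symm
  set Λ : ℝ := ∑ v, ∑ w, |L v w| with hΛ
  set S : ℝ := ∑ v, u v with hS
  set N : ℕ := Fintype.card V with hN
  have hΛ0 : 0 ≤ Λ := sum_nonneg fun _ _ => sum_nonneg fun _ _ => abs_nonneg _
  have hS0 : 0 ≤ S := sum_nonneg fun v _ => (hu v).le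
  set B : ℝ := ∏ i, ‖K7_b (hA.eigenvalues i)‖ with hB
  have hB0 : 0 ≤ B := prod_nonneg fun _ _ => norm_nonneg _
  set Q : ℝ := 4 * (Λ + 1) * (1 + S) with hQ
  have hQ1 : 1 ≤ Q := by rw [hQ]; nlinarith [mul_nonneg hΛ0 hS0]
  have hB3 : ∏ i, ‖K7_b (hA.eigenvalues i)‖ ^ 3 = B ^ 3 := by rw [hB, prod_pow]
  have hB2 : B ^ 2 = ((4 ^ N * |L.det|) * ∏ v, u v)⁻¹ := by
    rw [hB, ← prod_pow]
    have h1 : ∀ i, ‖K7_b (hA.eigenvalues i)‖ ^ 2 = (4 * |hA.eigenvalues i|)⁻¹ :=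
      fun i => K7_b_norm
    rw [prod_congr rfl fun i _ => h1 i, prod_inv_distrib, prod_mul_distrib, prod_const, card_univ,
      ← abs_prod, K7_eig hA hu, abs_mul, abs_of_pos (prod_pos fun v _ => hu v)]
    congr 1
    ring
  have hU0 : 0 < ∏ v, u v := prod_pos fun v _ => hu v
  have hd0 : 0 < |L.det| := abs_pos.2 hd
  have hB5 : B ^ 5 = (4 ^ N * |L.det|) ^ (-(5 / 2) : ℝ) * ∏ v, (u v) ^ (-(5 / 2) : ℝ) := by
    have h1 : B ^ 5 = (B ^ 2) ^ (5 / 2 : ℝ) := by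
      rw [← Real.rpow_natCast, ← Real.rpow_natCast, ← Real.rpow_mul hB0]
      congr 1
      norm_num
    rw [h1, hB2, Real.inv_rpow (by positivity), ← Real.rpow_neg (by positivity),
      Real.mul_rpow (by positivity) hU0.le]
    congr 1
    rw [Real.finsetProd_rpow]
    exact fun v _ => (hu v).le
  have hone : ∀ i, ‖K7_b (hA.eigenvalues i)‖ ^ 2 ≤ B ^ 2 * Q ^ N := by
    intro i
    have h0 : ∀ j, 1 ≤ ‖K7_b (hA.eigenvalues j)‖ ^ 2 * Q := by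
      intro j
      have h1 : ‖K7_b (hA.eigenvalues j)‖ ^ 2 = (4 * |hA.eigenvalues j|)⁻¹ := K7_b_norm
      have h2 := eig_bound L u (fun v => (hu v).le) hA j
      have h3 : 0 < |hA.eigenvalues j| := abs_pos.2 (hne j)
      rw [h1, inv_mul_eq_div, one_le_div (by positivity), hQ]
      have h4 : (∑ v, ∑ w, |L v w|) * ∑ v, u v = Λ * S := rfl
      rw [h4] at h2
      nlinarith [mul_nonneg hΛ0 hS0]
    have h1 : B ^ 2 * Q ^ N = ∏ j, (‖K7_b (hA.eigenvalues j)‖ ^ 2 * Q) := by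
      rw [prod_mul_distrib, prod_const, card_univ, hB, ← prod_pow]
    rw [h1, ← mul_prod_erase univ _ (mem_univ i)]
    have h2 : 1 ≤ ∏ j ∈ univ.erase i, (‖K7_b (hA.eigenvalues j)‖ ^ 2 * Q) := by
      calc (1 : ℝ) = ∏ j ∈ univ.erase i, (1 : ℝ) := by simp
        _ ≤ _ := prod_le_prod (fun _ _ => zero_le_one) fun j _ => h0 j
    have h3 : 0 ≤ ‖K7_b (hA.eigenvalues i)‖ ^ 2 := by positivity
    calc ‖K7_b (hA.eigenvalues i)‖ ^ 2 = ‖K7_b (hA.eigenvalues i)‖ ^ 2 * 1 * 1 := by ring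
      _ ≤ ‖K7_b (hA.eigenvalues i)‖ ^ 2 * Q *
          ∏ j ∈ univ.erase i, (‖K7_b (hA.eigenvalues j)‖ ^ 2 * Q) := by
        gcongr
  have hsum : ∑ i, (3 / τ * ‖K7_b (hA.eigenvalues i)‖ ^ 2) ≤ N * (3 / τ * (B ^ 2 * Q ^ N)) := by
    calc _ ≤ ∑ _i : V, (3 / τ * (B ^ 2 * Q ^ N)) := by
          refine sum_le_sum fun i _ => ?_
          have := hone i
          gcongr
      _ = _ := by rw [sum_const, card_univ, nsmul_eq_mul]
  calc (∏ i, ‖K7_b (hA.eigenvalues i)‖ ^ 3) * ∑ i, (3 / τ * ‖K7_b (hA.eigenvalues i)‖ ^ 2)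
      ≤ B ^ 3 * (N * (3 / τ * (B ^ 2 * Q ^ N))) := by
        rw [hB3]; gcongr
    _ = 3 * N * Q ^ N / τ * B ^ 5 := by ring
    _ = _ := by
        rw [hB5, hQ, mul_pow]
        ring

private noncomputable def K7_c {L : Matrix V V ℝ} (hL : L.IsHermitian) (u : V → ℝ) : ℂ :=
  ((∏ v, (u v) ^ ((3 / 2) : ℝ) : ℝ) : ℂ) * ∏ i, K7_b ((Am_herm hL u).eigenvalues i) ^ 3

private lemma K7_c_sq {L : Matrix V V ℝ} (hL : L.IsHermitian) {u : V → ℝ} (hu : ∀ v, 0 < u v) :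
    (K7_c hL u) ^ 2 = (((4 * Complex.I) ^ Fintype.card V * (L.det : ℂ)) ^ 3)⁻¹ := by
  have hA := Am_herm hL u
  unfold K7_c
  have hU0 : 0 < ∏ v, u v := prod_pos fun v _ => hu v
  have h1 : (∏ v, (u v) ^ ((3 / 2) : ℝ)) ^ 2 = (∏ v, u v) ^ 3 := by
    rw [← prod_pow, ← prod_pow]
    refine prod_congr rfl fun v _ => ?_
    rw [← Real.rpow_natCast, ← Real.rpow_mul (hu v).le, ← Real.rpow_natCast]
    congr 1
    norm_num
  have h2 : (∏ i, K7_b (hA.eigenvalues i) ^ 3) ^ 2 =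
      (((4 * Complex.I) ^ Fintype.card V * (((∏ v, u v) * L.det : ℝ) : ℂ)) ^ 3)⁻¹ := by
    rw [← K7_eig hA hu, Complex.ofReal_prod, ← prod_pow]
    have h3 : ∀ i, (K7_b (hA.eigenvalues i) ^ 3) ^ 2 =
        ((4 * Complex.I * ((hA.eigenvalues i : ℝ) : ℂ)) ^ 3)⁻¹ := by
      intro i
      rw [← pow_mul, mul_comm 3 2, pow_mul, K7_b_sq, inv_pow]
    rw [prod_congr rfl fun i _ => h3 i, prod_inv_distrib, prod_pow, prod_mul_distrib, prod_const,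
      card_univ]
  rw [mul_pow, ← Complex.ofReal_pow, h1]
  erw [h2]
  have hU : (((∏ v, u v : ℝ)) : ℂ) ≠ 0 := by exact_mod_cast hU0.ne'
  rw [Complex.ofReal_mul, Complex.ofReal_pow]
  generalize (((∏ v, u v : ℝ)) : ℂ) = U at hU ⊢
  generalize (4 * Complex.I) ^ Fintype.card V = T
  rw [mul_pow, mul_pow, mul_pow, mul_inv, mul_inv, mul_inv]
  field_simp

theorem Kf_asy (L : Matrix V V ℝ) (hL : L.IsHermitian) (hd : L.det ≠ 0) :
    ∃ c : ℂ, c ≠ 0 ∧ ∃ C : ℝ, ∀ (τ : ℝ) (u : V → ℝ), 1 ≤ τ → (∀ v, 0 < u v) →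
    ‖((τ ^ ((3 / 2 : ℝ) * Fintype.card V) : ℝ) : ℂ) * Kf L (Complex.I * τ) u -
      c * ((∏ v, (u v) ^ (-(3 / 2) : ℝ) : ℝ) : ℂ)‖ ≤
      C / τ * ((1 + ∑ v, u v) ^ Fintype.card V * ∏ v, (u v) ^ (-(5 / 2) : ℝ)) := by
  set P : Set (V → ℝ) := {u | ∀ v, 0 < u v} with hP
  set C : ℝ := 3 * Fintype.card V * (4 * ((∑ v, ∑ w, |L v w|) + 1)) ^ Fintype.card V *
      (4 ^ Fintype.card V * |L.det|) ^ (-(5 / 2) : ℝ) with hC
  have hC0 : 0 ≤ C := by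
    rw [hC]
    have : 0 ≤ ∑ v, ∑ w, |L v w| := sum_nonneg fun _ _ => sum_nonneg fun _ _ => abs_nonneg _
    positivity
  have hmain : ∀ (τ : ℝ) (u : V → ℝ), 0 < τ → u ∈ P →
      ‖((τ ^ ((3 / 2 : ℝ) * Fintype.card V) : ℝ) : ℂ) * Kf L (Complex.I * τ) u -
        ∏ i, K7_b ((Am_herm hL u).eigenvalues i) ^ 3‖ ≤
      C / τ * ((1 + ∑ v, u v) ^ Fintype.card V * ∏ v, (u v) ^ (-(5 / 2) : ℝ)) :=
    fun τ u hτ hu => (K7_main hL hd hu hτ).trans (K7_est hL hd hu hτ)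
  have hcu : ∀ u ∈ P, ∏ i, K7_b ((Am_herm hL u).eigenvalues i) ^ 3 =
      K7_c hL u * ((∏ v, (u v) ^ (-(3 / 2) : ℝ) : ℝ) : ℂ) := by
    intro u hu
    unfold K7_c
    have h1 : (∏ v, (u v) ^ ((3 / 2) : ℝ)) * ∏ v, (u v) ^ (-(3 / 2) : ℝ) = 1 := by
      rw [← prod_mul_distrib]
      refine prod_eq_one fun v _ => ?_
      rw [← Real.rpow_add (hu v)]
      norm_num
    have h2 : ((∏ v, (u v) ^ ((3 / 2) : ℝ) : ℝ) : ℂ) * ((∏ v, (u v) ^ (-(3 / 2) : ℝ) : ℝ) : ℂ)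
        = 1 := by
      rw [← Complex.ofReal_mul, h1, Complex.ofReal_one]
    calc _ = (((∏ v, (u v) ^ ((3 / 2) : ℝ) : ℝ) : ℂ) *
        ((∏ v, (u v) ^ (-(3 / 2) : ℝ) : ℝ) : ℂ)) *
          ∏ i, K7_b ((Am_herm hL u).eigenvalues i) ^ 3 := by rw [h2, one_mul]
      _ = _ := by ring
  -- continuity
  have hcont : ContinuousOn (K7_c hL) P := by
    have hg : ContinuousOn (fun u : V → ℝ => (∏ v, (u v) ^ ((3 / 2) : ℝ)) *
        ((1 + ∑ v, u v) ^ Fintype.card V * ∏ v, (u v) ^ (-(5 / 2) : ℝ))) P := by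
      have hv : ∀ (q : ℝ) (v : V), ContinuousOn (fun u : V → ℝ => (u v) ^ q) P := by
        intro q v u hu
        exact ((continuous_apply (A := fun _ : V => ℝ) v).continuousAt.rpow_const
          (Or.inl (hu v).ne')).continuousWithinAt
      refine ContinuousOn.mul (continuousOn_finsetProd _ fun v _ => hv _ v) (ContinuousOn.mul ?_
        (continuousOn_finsetProd _ fun v _ => hv _ v))
      exact Continuous.continuousOn (by fun_prop)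
    apply continuousOn_of_locally_uniform_approx_of_continuousWithinAt
    intro x hx U hU
    obtain ⟨ε, hε, hεU⟩ := Metric.mem_uniformity_dist.1 hU
    set G : ℝ := (∏ v, (x v) ^ ((3 / 2) : ℝ)) *
        ((1 + ∑ v, x v) ^ Fintype.card V * ∏ v, (x v) ^ (-(5 / 2) : ℝ)) with hG
    have hG0 : 0 ≤ G := by
      rw [hG]
      have hx0 : ∀ v, 0 ≤ x v := fun v => (hx v).le
      have h1 : 0 ≤ ∑ v, x v := sum_nonneg fun v _ => hx0 v
      have h2 : ∀ q : ℝ, 0 ≤ ∏ v, (x v) ^ q := fun q =>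
        prod_nonneg fun v _ => Real.rpow_nonneg (hx0 v) q
      have h3 := h2 (3 / 2)
      have h4 := h2 (-(5 / 2))
      positivity
    set τ : ℝ := C * (G + 1) / ε + 1 with hτ
    have hτ0 : 0 < τ := by positivity
    have hev : ∀ᶠ y in nhdsWithin x P, (∏ v, (y v) ^ ((3 / 2) : ℝ)) *
        ((1 + ∑ v, y v) ^ Fintype.card V * ∏ v, (y v) ^ (-(5 / 2) : ℝ)) < G + 1 :=
      (hg x hx).eventually (gt_mem_nhds (by linarith))
    have hev2 : ∀ᶠ y in nhdsWithin x P, y ∈ P := self_mem_nhdsWithin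
    refine ⟨_, hev.and hev2, fun u => ((∏ v, (u v) ^ ((3 / 2) : ℝ) : ℝ) : ℂ) *
      (((τ ^ ((3 / 2 : ℝ) * Fintype.card V) : ℝ) : ℂ) * Kf L (Complex.I * τ) u), ?_, ?_⟩
    · have hv : ∀ (q : ℝ) (v : V), ContinuousOn (fun u : V → ℝ => (u v) ^ q) P := by
        intro q v u hu
        exact ((continuous_apply (A := fun _ : V => ℝ) v).continuousAt.rpow_const
          (Or.inl (hu v).ne')).continuousWithinAt
      have h1 : ContinuousOn (fun u : V → ℝ => ∏ v, (u v) ^ ((3 / 2) : ℝ)) P :=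
        continuousOn_finsetProd _ fun v _ => hv _ v
      have hmem : Complex.I * τ ∈ UH := by
        simp only [UH, Set.mem_ofPred_eq, Complex.mul_im, Complex.I_re, Complex.I_im,
          Complex.ofReal_re, Complex.ofReal_im]
        linarith
      exact ((Complex.continuous_ofReal.comp_continuousOn h1).mul
        (continuousOn_const.mul (Kf_cont L hL hmem))) x hx
    · rintro y ⟨hy1, hy2⟩
      apply hεU
      rw [dist_comm, dist_eq_norm]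
      have h1 := hmain τ y hτ0 hy2
      have hy0 : 0 ≤ ∏ v, (y v) ^ ((3 / 2) : ℝ) :=
        prod_nonneg fun v _ => Real.rpow_nonneg (hy2 v).le _
      have h2 : ((∏ v, (y v) ^ ((3 / 2) : ℝ) : ℝ) : ℂ) *
          (((τ ^ ((3 / 2 : ℝ) * Fintype.card V) : ℝ) : ℂ) * Kf L (Complex.I * τ) y) - K7_c hL y =
          ((∏ v, (y v) ^ ((3 / 2) : ℝ) : ℝ) : ℂ) *
          (((τ ^ ((3 / 2 : ℝ) * Fintype.card V) : ℝ) : ℂ) * Kf L (Complex.I * τ) y -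
            ∏ i, K7_b ((Am_herm hL y).eigenvalues i) ^ 3) := by
        unfold K7_c; ring
      rw [h2, norm_mul, Complex.norm_real, Real.norm_eq_abs, abs_of_nonneg hy0]
      calc _ ≤ (∏ v, (y v) ^ ((3 / 2) : ℝ)) *
            (C / τ * ((1 + ∑ v, y v) ^ Fintype.card V * ∏ v, (y v) ^ (-(5 / 2) : ℝ))) := by
            gcongr
        _ = C / τ * ((∏ v, (y v) ^ ((3 / 2) : ℝ)) *
            ((1 + ∑ v, y v) ^ Fintype.card V * ∏ v, (y v) ^ (-(5 / 2) : ℝ))) := by ring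
        _ ≤ C / τ * (G + 1) := by gcongr
        _ < ε := by
            rw [div_mul_eq_mul_div, div_lt_iff₀ hτ0, hτ]
            have : ε * (C * (G + 1) / ε + 1) = C * (G + 1) + ε := by field_simp
            linarith
  have hpre : IsPreconnected P := by
    have h1 : P = Set.pi Set.univ fun _ : V => Set.Ioi (0 : ℝ) := by
      ext u; simp [hP]
    rw [h1]
    exact (convex_pi fun _ _ => convex_Ioi 0).isPreconnected
  have h1P : (fun _ : V => (1 : ℝ)) ∈ P := fun _ => one_pos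
  set c : ℂ := K7_c hL (fun _ => 1) with hc
  have hcne : c ≠ 0 := by
    intro h0
    have h1 := K7_c_sq hL (u := fun _ => 1) h1P
    rw [← hc, h0] at h1
    have h2 : (((4 * Complex.I) ^ Fintype.card V * (L.det : ℂ)) ^ 3)⁻¹ ≠ 0 := by
      have : (L.det : ℂ) ≠ 0 := by exact_mod_cast hd
      simp [this, Complex.I_ne_zero]
    apply h2
    rw [← h1]; simp
  have hconst : ∀ u ∈ P, K7_c hL u = c := by
    have hEq : Set.EqOn ((K7_c hL) ^ 2) ((fun _ => c) ^ 2) P := by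
      intro u hu
      simp only [Pi.pow_apply]
      rw [K7_c_sq hL hu, hc, K7_c_sq hL (u := fun _ => 1) h1P]
    rcases hpre.eq_or_eq_neg_of_sq_eq hcont continuousOn_const hEq (fun _ => hcne) with h | h
    · exact fun u hu => h hu
    · exfalso
      have h2 := h h1P
      simp only [Pi.neg_apply] at h2
      rw [← hc] at h2
      apply hcne
      have h3 : c + c = 0 := by
        nth_rewrite 1 [h2]; ring
      have h4 : 2 * c = 0 := by rw [two_mul]; exact h3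
      exact (mul_eq_zero.1 h4).resolve_left two_ne_zero
  refine ⟨c, hcne, C, fun τ u hτ hu => ?_⟩
  have h1 := hmain τ u (by linarith) hu
  rw [hcu u hu, hconst u hu] at h1
  exact h1

end Pool.Agent.GPC
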