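import Pool.Agent.GPC.Defs
import Pool.Agent.OHG.All
import Pool.Agent.GPC.K2
import Pool.Agent.GPC.K3
import Pool.Agent.GPC.K4
import Pool.Agent.GPC.K5c
import Pool.Agent.GPC.K6d
import Pool.Agent.GPC.K7

set_option autoImplicit false

open PowerSeries Finset MeasureTheory

namespace Pool.Agent.GPC

open Pool.Agent.OHG

variable {V : Type} [Fintype V] [DecidableEq V]

private theorem k8_herm (D : Data V) : (lkm D).IsHermitian := by
  ext v w
  rw [Matrix.conjTranspose_apply, star_trivial]
  unfold lkm
  rw [Matrix.of_apply, Matrix.of_apply, lk_comm]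

theorem isKer {D : Data V} (h : D.IsGraph) : IsKer D (Kf (lkm D)) where
  diff u _ := Kf_diff _ u
  cont x hx := Kf_cont _ (k8_herm D) hx
  bound x hx u _ := Kf_bound _ hx u
  taylor := by
    obtain ⟨C, R, hb⟩ := Kf_taylor (lkm D) (k8_herm D)
    refine ⟨C, R, fun n x u hx hu => ?_⟩
    have := hb n x u hx hu
    simp only [gm_eq D u (fun v => (hu v).le)] at this
    exact this
  asy := Kf_asy _ (k8_herm D) (lkm_det h)

end Pool.Agent.GPC
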