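import Pool.Agent.GPC.Defs
import Pool.Agent.OHG.All

set_option autoImplicit false

open PowerSeries Finset MeasureTheory

namespace Pool.Agent.GPC

open Pool.Agent.OHG

variable {V : Type} [Fintype V] [DecidableEq V]

private lemma n1_card_bound (L : Finset ℕ) (hL : ∀ k ∈ L, 2 ≤ k) :
    ∑ k ∈ L, (1 / (k : ℝ)) ≤ (L.card : ℝ) / 3 + 1 / 6 := by
  have h1 : ∀ k ∈ L, (1 / (k : ℝ)) ≤ 1 / 3 + if k = 2 then (1 / 6 : ℝ) else 0 := by
    intro k hk
    have h2 := hL k hk
    by_cases h : k = 2
    · rw [if_pos h, h]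
      norm_num
    · rw [if_neg h, add_zero]
      have h3 : (3 : ℝ) ≤ k := by
        have : 3 ≤ k := by omega
        exact_mod_cast this
      exact one_div_le_one_div_of_le (by norm_num) h3
  refine (Finset.sum_le_sum h1).trans ?_
  rw [Finset.sum_add_distrib, Finset.sum_const, nsmul_eq_mul, Finset.sum_ite_eq']
  have : (if 2 ∈ L then (1 / 6 : ℝ) else 0) ≤ 1 / 6 := by
    split_ifs <;> norm_num
  linarith

private lemma n1_sorted {a b c : ℕ} (ha : 2 ≤ a) (hab : a < b) (hbc : b < c)
    (h1 : Nat.Coprime a b) (h2 : Nat.Coprime a c) (h3 : Nat.Coprime b c) :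
    (a = 2 ∧ b = 3 ∧ c = 5) ∨ (1 / (a : ℝ)) + 1 / (b : ℝ) + 1 / (c : ℝ) < 1 := by
  have inv : ∀ {m k : ℕ}, 0 < m → m ≤ k → (1 / (k : ℝ)) ≤ 1 / (m : ℝ) := by
    intro m k hm hk
    exact one_div_le_one_div_of_le (by exact_mod_cast hm) (by exact_mod_cast hk)
  rcases Nat.lt_or_ge a 3 with ha3 | ha3
  · have ha2 : a = 2 := by omega
    subst ha2
    rcases Nat.lt_or_ge b 4 with hb | hb
    · have hb3 : b = 3 := by omega
      subst hb3
      rcases Nat.lt_or_ge c 7 with hc | hc
      · have hc' : c = 4 ∨ c = 5 ∨ c = 6 := by omega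
        rcases hc' with rfl | rfl | rfl
        · exact absurd h2 (by decide)
        · exact Or.inl ⟨rfl, rfl, rfl⟩
        · exact absurd h2 (by decide)
      · right
        have := inv (by norm_num : 0 < 7) hc
        push_cast at this ⊢
        linarith
    · have hb4 : b ≠ 4 := by
        rintro rfl
        exact absurd h1 (by decide)
      have hb5 : 5 ≤ b := by omega
      right
      have i1 := inv (by norm_num : 0 < 5) hb5
      have i2 := inv (by norm_num : 0 < 6) (by omega : 6 ≤ c)
      push_cast at i1 i2 ⊢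
      linarith
  · right
    have i0 := inv (by norm_num : 0 < 3) ha3
    have i1 := inv (by norm_num : 0 < 4) (by omega : 4 ≤ b)
    have i2 := inv (by norm_num : 0 < 5) (by omega : 5 ≤ c)
    push_cast at i0 i1 i2 ⊢
    linarith

private lemma n1_three (L : Finset ℕ) (hL : ∀ k ∈ L, 2 ≤ k)
    (hc : ∀ k ∈ L, ∀ l ∈ L, k ≠ l → Nat.Coprime k l) (h3 : L.card = 3) (hne : L ≠ {2, 3, 5}) :
    ∑ k ∈ L, (1 / (k : ℝ)) < 1 := by
  obtain ⟨a, b, c, hab, hac, hbc, rfl⟩ := Finset.card_eq_three.1 h3
  have ma : a ∈ ({a, b, c} : Finset ℕ) := by simp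
  have mb : b ∈ ({a, b, c} : Finset ℕ) := by simp
  have mc : c ∈ ({a, b, c} : Finset ℕ) := by simp
  have cab := hc a ma b mb hab
  have cac := hc a ma c mc hac
  have cbc := hc b mb c mc hbc
  have a2 := hL a ma
  have b2 := hL b mb
  have c2 := hL c mc
  rw [Finset.sum_insert (by simp [hab, hac]), Finset.sum_insert (by simp [hbc]),
    Finset.sum_singleton]
  rcases lt_or_gt_of_ne hab with h1 | h1 <;> rcases lt_or_gt_of_ne hac with h2 | h2 <;>
    rcases lt_or_gt_of_ne hbc with h3 | h3
  · rcases n1_sorted a2 h1 h3 cab cac cbc with ⟨rfl, rfl, rfl⟩ | h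
    · exact absurd rfl hne
    · linarith
  · rcases n1_sorted a2 h2 h3 cac cab cbc.symm with ⟨rfl, rfl, rfl⟩ | h
    · exact absurd (by decide) hne
    · linarith
  · omega
  · rcases n1_sorted c2 h2 h1 cac.symm cbc.symm cab with ⟨rfl, rfl, rfl⟩ | h
    · exact absurd (by decide) hne
    · linarith
  · rcases n1_sorted b2 h1 h2 cab.symm cbc cac with ⟨rfl, rfl, rfl⟩ | h
    · exact absurd (by decide) hne
    · linarith
  · omega
  · rcases n1_sorted b2 h3 h2 cbc cab.symm cac.symm with ⟨rfl, rfl, rfl⟩ | h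
    · exact absurd (by decide) hne
    · linarith
  · rcases n1_sorted c2 h3 h1 cbc.symm cac.symm cab.symm with ⟨rfl, rfl, rfl⟩ | h
    · exact absurd (by decide) hne
    · linarith

theorem sum_inv_lt {P : Prime} (hP : ¬ Bad P) (v : Fin (P.n + 1)) :
    ∑ k ∈ P.D.leaf v, (1 / (k : ℝ)) < ((P.D.val v - 2 : ℕ) : ℝ) := by
  classical
  have hG := P.isGraph
  have hb := n1_card_bound (P.D.leaf v) (hG.two_le v)
  have hv := hG.three_le v
  have hval : P.D.val v = (P.D.leaf v).card + (P.D.nbr v).card := rfl
  set l := (P.D.leaf v).card with hl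
  have key : ∀ m : ℕ, m ≤ P.D.val v - 2 → (m : ℝ) ≤ ((P.D.val v - 2 : ℕ) : ℝ) := by
    intro m hm
    exact_mod_cast hm
  by_cases hn : (P.D.nbr v).card = 0
  · have hll : P.D.val v = l := by omega
    rcases Nat.lt_or_ge l 4 with h4 | h4
    · have h3 : l = 3 := by omega
      have hn0 : P.n = 0 := by
        by_contra hne
        have hnt : Nontrivial (Fin (P.n + 1)) := by
          rw [Fin.nontrivial_iff_two_le]
          omega
        obtain ⟨w, hw⟩ := exists_ne v
        obtain ⟨p⟩ := hG.tree.1.preconnected v w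
        cases p with
        | nil => exact hw rfl
        | cons h p =>
          rename_i x
          have hx : x ∈ P.D.nbr v := by
            unfold Data.nbr
            rw [Finset.mem_filter]
            exact ⟨Finset.mem_univ _, h⟩
          rw [Finset.card_eq_zero] at hn
          rw [hn] at hx
          exact absurd hx (Finset.notMem_empty x)
      have hv0 : v = 0 := by
        apply Fin.ext
        have := v.isLt
        simp only [Fin.val_zero]
        omega
      have hne : P.D.leaf v ≠ {2, 3, 5} := by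
        intro h
        apply hP
        refine ⟨hn0, ?_⟩
        rw [← hv0]
        exact h
      have h := n1_three (P.D.leaf v) (hG.two_le v) (hG.coprime_leaf v) h3 hne
      have := key 1 (by omega)
      push_cast at this
      linarith
    · have := key (l - 2) (by omega)
      have h5 : ((l - 2 : ℕ) : ℝ) = (l : ℝ) - 2 := by
        rw [Nat.cast_sub (by omega)]
        norm_num
      rw [h5] at this
      have h6 : (4 : ℝ) ≤ l := by exact_mod_cast h4
      linarith
  · have hpos : 1 ≤ (P.D.nbr v).card := Nat.pos_of_ne_zero hn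
    rcases Nat.lt_or_ge l 2 with h2 | h2
    · have := key 1 (by omega)
      have h6 : (l : ℝ) ≤ 1 := by
        have : l ≤ 1 := by omega
        exact_mod_cast this
      push_cast at this
      linarith
    · have := key (l - 1) (by omega)
      have h5 : ((l - 1 : ℕ) : ℝ) = (l : ℝ) - 1 := by
        rw [Nat.cast_sub (by omega)]
        norm_num
      rw [h5] at this
      have h6 : (2 : ℝ) ≤ l := by exact_mod_cast h2
      linarith

end Pool.Agent.GPC
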