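import Pool.Agent.GPC.Defs
import Pool.Agent.OHG.All
import Pool.Agent.GPC.G4
import Pool.Agent.GPC.N1

set_option autoImplicit false

open PowerSeries Finset MeasureTheory

namespace Pool.Agent.GPC

open Pool.Agent.OHG

variable {V : Type} [Fintype V] [DecidableEq V]

private theorem n2_sa (k : ℕ) : OHG.sinhc k = sa (1 / (2 * k)) := by
  ext m
  unfold OHG.sinhc sa
  rw [coeff_mk, coeff_mk, one_div_pow, div_div]

theorem good_node {P : Prime} (hP : ¬ Bad P) (v : Fin (P.n + 1)) :
    ∃ Φ : ℂ → ℂ, Good Φ (node P.D v) := by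
  have h := good_quot ((P.D.leaf v).val.map fun k : ℕ => (1 / (2 * k) : ℝ)) (P.D.val v - 2)
    (by
      intro a ha
      obtain ⟨k, _, rfl⟩ := Multiset.mem_map.1 ha
      positivity)
    (by
      have h1 := sum_inv_lt hP v
      have h2 : ((P.D.leaf v).val.map fun k : ℕ => (1 / (2 * k) : ℝ)).sum =
          (∑ k ∈ P.D.leaf v, (1 / (k : ℝ))) / 2 := by
        rw [Finset.sum_div]
        refine Finset.sum_congr rfl fun k _ => ?_
        rw [div_div, mul_comm]
      rw [h2]
      exact div_lt_div_of_pos_right h1 two_pos)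
  have h3 : node P.D v = (((P.D.leaf v).val.map fun k : ℕ => (1 / (2 * k) : ℝ)).map sa).prod *
      ((sa (1 / 2))⁻¹) ^ (P.D.val v - 2) := by
    unfold node
    rw [Multiset.map_map]
    have h4 : sa (1 / 2) = OHG.sinhc 1 := by
      rw [n2_sa]
      norm_num
    rw [h4]
    congr 1
    exact Finset.prod_congr rfl fun k _ => n2_sa k
  rw [h3]
  exact ⟨_, h⟩

end Pool.Agent.GPC
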