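import Pool.Agent.GPC.Defs
import Pool.Agent.OHG.All
import Pool.Agent.GPC.B4
import Pool.Agent.GPC.F2
import Pool.Agent.GPC.F3
import Pool.Agent.GPC.K8
import Pool.Agent.GPC.N2
import Pool.Agent.GPC.T6

set_option autoImplicit false

open PowerSeries Finset MeasureTheory

namespace Pool.Agent.GPC

open Pool.Agent.OHG

theorem prime_F : ∃ ρ σ : ℂ, ρ ≠ 0 ∧ σ ≠ 0 ∧ ∀ P : Prime, ∃ F : ℂ → ℂ, HG F (part P.D) ∧
    ((¬ Bad P ∧ Asy F ((3 / 2 : ℝ) * (P.n + 1)) 0 0 0) ∨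
      (Bad P ∧ P.D.sgn 0 = 1 ∧ Asy F 1 (1 / 120) ρ 0) ∨
      (Bad P ∧ P.D.sgn 0 = -1 ∧ Asy F 1 (-(1 / 120)) 0 σ)) := by
  obtain ⟨ρ, σ, hρ, hσ, hb⟩ := bad_F
  refine ⟨ρ, σ, hρ, hσ, fun P => ?_⟩
  by_cases hP : Bad P
  · obtain ⟨F, h1, h2⟩ := hb P hP
    refine ⟨F, h1, Or.inr ?_⟩
    rcases h2 with ⟨h3, h4⟩ | ⟨h3, h4⟩
    · exact Or.inl ⟨hP, h3, h4⟩
    · exact Or.inr ⟨hP, h3, h4⟩
  · choose Φ hΦ using good_node hP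
    choose θ hθ using fun v => theta_exists (hΦ v)
    have hK := isKer P.isGraph
    refine ⟨_, hg_F hK hθ, Or.inl ⟨hP, ?_⟩⟩
    have := asy_F hK hθ
    rw [Fintype.card_fin, Nat.cast_add, Nat.cast_one] at this
    exact this

end Pool.Agent.GPC
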