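import Pool.Agent.GPC.Defs
import Pool.Agent.OHG.All

set_option autoImplicit false

open PowerSeries Finset MeasureTheory

namespace Pool.Agent.GPC

open Pool.Agent.OHG

variable {V : Type} [Fintype V] [DecidableEq V]

private lemma U3_one_le {h : ℂ} (hh : h ∈ UH) : 1 ≤ ‖h‖ / h.im := by
  have h0 : 0 < h.im := hh
  rw [one_le_div h0]
  exact (le_abs_self _).trans (Complex.abs_im_le_norm h)

/-- A version of the bound with `C ≥ 0`, `R ≥ 1`. -/
private lemma U3_norm {f : ℂ → ℂ} {s : ℝ⟦X⟧} (hf : HG f s) :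
    ∃ (C R : ℝ) (A : ℕ), 0 ≤ C ∧ 1 ≤ R ∧ ∀ (n : ℕ) (h : ℂ), h ∈ UH → ‖h‖ ≤ 1 →
    ‖f h - ∑ k ∈ range n, ((coeff k s : ℝ) : ℂ) * h ^ k‖ ≤
      C * R ^ n * n.factorial * ‖h‖ ^ n * (‖h‖ / h.im) ^ A := by
  obtain ⟨C, R, A, hb⟩ := hf.bound
  refine ⟨|C|, max |R| 1, A, abs_nonneg _, le_max_right _ _, fun n h hh h1 => (hb n h hh h1).trans ?_⟩
  have hq : 0 ≤ (‖h‖ / h.im) ^ A := by
    have := U3_one_le hh
    positivity
  have hR : C * R ^ n ≤ |C| * (max |R| 1) ^ n := by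
    calc C * R ^ n ≤ |C * R ^ n| := le_abs_self _
      _ = |C| * |R| ^ n := by rw [abs_mul, abs_pow]
      _ ≤ |C| * (max |R| 1) ^ n := by gcongr; exact le_max_left _ _
  gcongr

private lemma U3_coeff {f : ℂ → ℂ} {s : ℝ⟦X⟧} {C R : ℝ} {A : ℕ} (hC : 0 ≤ C) (hR : 1 ≤ R)
    (hb : ∀ (n : ℕ) (h : ℂ), h ∈ UH → ‖h‖ ≤ 1 →
      ‖f h - ∑ k ∈ range n, ((coeff k s : ℝ) : ℂ) * h ^ k‖ ≤
      C * R ^ n * n.factorial * ‖h‖ ^ n * (‖h‖ / h.im) ^ A) (k : ℕ) :
    ‖((coeff k s : ℝ) : ℂ)‖ ≤ C * (1 + R) * (2 * R) ^ k * k.factorial := by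
  have hI : Complex.I ∈ UH := by simp [UH]
  have h1 := hb k Complex.I hI (by simp)
  have h2 := hb (k + 1) Complex.I hI (by simp)
  rw [Finset.sum_range_succ] at h2
  simp only [Complex.norm_I, Complex.I_im, one_pow, mul_one, div_one] at h1 h2
  have hnorm : ‖((coeff k s : ℝ) : ℂ)‖ = ‖((coeff k s : ℝ) : ℂ) * Complex.I ^ k‖ := by
    rw [norm_mul, norm_pow, Complex.norm_I, one_pow, mul_one]
  rw [hnorm]
  set S := ∑ k ∈ range k, ((coeff k s : ℝ) : ℂ) * Complex.I ^ k with hS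
  have e : ((coeff k s : ℝ) : ℂ) * Complex.I ^ k =
      (f Complex.I - S) - (f Complex.I - (S + ((coeff k s : ℝ) : ℂ) * Complex.I ^ k)) := by ring
  rw [e]
  refine (norm_sub_le _ _).trans ((add_le_add h1 h2).trans ?_)
  have hk : ((k + 1 : ℕ) : ℝ) ≤ 2 ^ k := by
    exact_mod_cast Nat.succ_le_of_lt (Nat.lt_two_pow_self)
  have hfac : ((k + 1).factorial : ℝ) = ((k + 1 : ℕ) : ℝ) * k.factorial := by
    rw [Nat.factorial_succ]; push_cast; ring
  have hf0 : (0 : ℝ) < k.factorial := by exact_mod_cast Nat.factorial_pos k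
  have hR0 : (0 : ℝ) ≤ R := by linarith
  have h2k : (1 : ℝ) ≤ 2 ^ k := one_le_pow₀ (by norm_num)
  rw [hfac, mul_pow]
  have a1 : C * R ^ k * k.factorial ≤ C * 1 * (2 ^ k * R ^ k) * k.factorial := by
    rw [mul_one]
    have : R ^ k ≤ 2 ^ k * R ^ k := le_mul_of_one_le_left (by positivity) h2k
    gcongr
  have a2 : C * R ^ (k + 1) * (((k + 1 : ℕ) : ℝ) * k.factorial) ≤
      C * R * (2 ^ k * R ^ k) * k.factorial := by
    have : C * R * (2 ^ k * R ^ k) * k.factorial = C * R ^ (k + 1) * (2 ^ k * k.factorial) := by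
      ring
    rw [this]
    gcongr
  calc _ ≤ _ := add_le_add a1 a2
    _ = _ := by ring

private lemma U3_fac {i n : ℕ} (hi : i ≤ n) :
    ((i.factorial : ℝ)) * ((n - i).factorial : ℝ) ≤ n.factorial := by
  have h1 : i.factorial * (n - i).factorial ≤ n.factorial :=
    Nat.le_of_dvd (Nat.factorial_pos n) (Nat.factorial_mul_factorial_dvd_factorial hi)
  exact_mod_cast h1

private lemma U3_sum (a b : ℕ → ℂ) (h : ℂ) (n : ℕ) :
    ∑ k ∈ range n, (∑ p ∈ antidiagonal k, a p.1 * b p.2) * h ^ k =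
      ∑ i ∈ range n, a i * h ^ i * ∑ j ∈ range (n - i), b j * h ^ j := by
  have := Finset.sum_range_diag_flip n (fun i j => (a i * h ^ i) * (b j * h ^ j))
  simp only [← Finset.mul_sum] at this
  rw [← this]
  refine Finset.sum_congr rfl fun k _ => ?_
  rw [Finset.Nat.sum_antidiagonal_eq_sum_range_succ (fun i j => a i * b j), Finset.sum_mul]
  refine Finset.sum_congr rfl fun i hi => ?_
  have hik : i ≤ k := Nat.lt_succ_iff.mp (Finset.mem_range.mp hi)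
  have : h ^ k = h ^ i * h ^ (k - i) := by rw [← pow_add, Nat.add_sub_cancel' hik]
  rw [this]; ring

theorem HG.mul {f g : ℂ → ℂ} {s t : ℝ⟦X⟧} (hf : HG f s) (hg : HG g t) :
    HG (fun h => f h * g h) (s * t) := by
  refine ⟨hf.diff.mul hg.diff, ?_⟩
  obtain ⟨C1, R1, A1, hC1, hR1, b1⟩ := U3_norm hf
  obtain ⟨C2, R2, A2, hC2, hR2, b2⟩ := U3_norm hg
  set R := max R1 R2 with hRdef
  have hR : 1 ≤ R := hR1.trans (le_max_left _ _)
  have hR0 : 0 ≤ R := by linarith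
  refine ⟨C1 * C2 + C1 * (1 + R1) * C2, 4 * R, A1 + A2, fun n h hh h1 => ?_⟩
  have hq := U3_one_le hh
  set q := ‖h‖ / h.im with hqd
  have hq0 : 0 ≤ q := by linarith
  have hfac0 : (0 : ℝ) < n.factorial := by exact_mod_cast Nat.factorial_pos n
  have key : f h * g h - ∑ k ∈ range n, ((coeff k (s * t) : ℝ) : ℂ) * h ^ k =
      (f h - ∑ i ∈ range n, ((coeff i s : ℝ) : ℂ) * h ^ i) * g h +
      ∑ i ∈ range n, ((coeff i s : ℝ) : ℂ) * h ^ i *
        (g h - ∑ j ∈ range (n - i), ((coeff j t : ℝ) : ℂ) * h ^ j) := by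
    have e := U3_sum (fun i => ((coeff i s : ℝ) : ℂ)) (fun j => ((coeff j t : ℝ) : ℂ)) h n
    have e1 : ∑ k ∈ range n, ((coeff k (s * t) : ℝ) : ℂ) * h ^ k =
        ∑ k ∈ range n, (∑ p ∈ antidiagonal k, ((coeff p.1 s : ℝ) : ℂ) * ((coeff p.2 t : ℝ) : ℂ)) *
          h ^ k := by
      refine Finset.sum_congr rfl fun k _ => ?_
      rw [PowerSeries.coeff_mul]
      push_cast
      rfl
    rw [e1, e]
    simp only [mul_sub, Finset.sum_sub_distrib, sub_mul, Finset.sum_mul]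
    ring
  rw [key]
  have hg0 : ‖g h‖ ≤ C2 * q ^ A2 := by
    have := b2 0 h hh h1
    simpa using this
  have hF := b1 n h hh h1
  have hqA2 : 1 ≤ q ^ A2 := one_le_pow₀ hq
  have hqA1 : 1 ≤ q ^ A1 := one_le_pow₀ hq
  have p1 : ‖(f h - ∑ i ∈ range n, ((coeff i s : ℝ) : ℂ) * h ^ i) * g h‖ ≤
      C1 * C2 * (4 * R) ^ n * n.factorial * ‖h‖ ^ n * q ^ (A1 + A2) := by
    rw [norm_mul]
    calc _ ≤ (C1 * R1 ^ n * n.factorial * ‖h‖ ^ n * q ^ A1) * (C2 * q ^ A2) := by gcongr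
      _ = C1 * C2 * R1 ^ n * n.factorial * ‖h‖ ^ n * q ^ (A1 + A2) := by rw [pow_add]; ring
      _ ≤ C1 * C2 * (4 * R) ^ n * n.factorial * ‖h‖ ^ n * q ^ (A1 + A2) := by
        have : R1 ≤ 4 * R := by
          have := le_max_left R1 R2
          linarith
        gcongr
  have p2 : ‖∑ i ∈ range n, ((coeff i s : ℝ) : ℂ) * h ^ i *
        (g h - ∑ j ∈ range (n - i), ((coeff j t : ℝ) : ℂ) * h ^ j)‖ ≤
      C1 * (1 + R1) * C2 * (4 * R) ^ n * n.factorial * ‖h‖ ^ n * q ^ (A1 + A2) := by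
    refine (norm_sum_le _ _).trans ?_
    have hterm : ∀ i ∈ range n, ‖((coeff i s : ℝ) : ℂ) * h ^ i *
        (g h - ∑ j ∈ range (n - i), ((coeff j t : ℝ) : ℂ) * h ^ j)‖ ≤
        C1 * (1 + R1) * C2 * (2 * R) ^ n * n.factorial * ‖h‖ ^ n * q ^ (A1 + A2) := by
      intro i hi
      have hin : i ≤ n := (Finset.mem_range.mp hi).le
      rw [norm_mul, norm_mul, norm_pow]
      have c1 := U3_coeff hC1 hR1 b1 i
      have c2 := b2 (n - i) h hh h1
      have hR1R : R1 ≤ R := le_max_left _ _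
      have hR2R : R2 ≤ R := le_max_right _ _
      calc ‖((coeff i s : ℝ) : ℂ)‖ * ‖h‖ ^ i *
            ‖g h - ∑ j ∈ range (n - i), ((coeff j t : ℝ) : ℂ) * h ^ j‖ ≤
            (C1 * (1 + R1) * (2 * R1) ^ i * i.factorial) * ‖h‖ ^ i *
            (C2 * R2 ^ (n - i) * (n - i).factorial * ‖h‖ ^ (n - i) * q ^ A2) := by gcongr
        _ ≤ (C1 * (1 + R1) * (2 * R) ^ i * i.factorial) * ‖h‖ ^ i *
            (C2 * (2 * R) ^ (n - i) * (n - i).factorial * ‖h‖ ^ (n - i) * q ^ (A1 + A2)) := by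
          have hh1 : R2 ≤ 2 * R := by linarith
          have hh2 : q ^ A2 ≤ q ^ (A1 + A2) := pow_le_pow_right₀ hq (by omega)
          gcongr
        _ = C1 * (1 + R1) * C2 * ((2 * R) ^ i * (2 * R) ^ (n - i)) *
            (i.factorial * (n - i).factorial) * (‖h‖ ^ i * ‖h‖ ^ (n - i)) * q ^ (A1 + A2) := by
          ring
        _ = C1 * (1 + R1) * C2 * (2 * R) ^ n *
            (i.factorial * (n - i).factorial) * ‖h‖ ^ n * q ^ (A1 + A2) := by
          rw [← pow_add, ← pow_add, Nat.add_sub_cancel' hin]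
        _ ≤ _ := by
          have := U3_fac hin
          gcongr
    refine (Finset.sum_le_sum hterm).trans ?_
    rw [Finset.sum_const, Finset.card_range, nsmul_eq_mul]
    have hn : (n : ℝ) ≤ 2 ^ n := by exact_mod_cast (Nat.lt_two_pow_self).le
    have e4 : (4 * R) ^ n = 2 ^ n * (2 * R) ^ n := by rw [← mul_pow]; ring
    rw [e4]
    calc (n : ℝ) * (C1 * (1 + R1) * C2 * (2 * R) ^ n * n.factorial * ‖h‖ ^ n * q ^ (A1 + A2)) ≤
        2 ^ n * (C1 * (1 + R1) * C2 * (2 * R) ^ n * n.factorial * ‖h‖ ^ n * q ^ (A1 + A2)) := by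
          gcongr
      _ = _ := by ring
  calc _ ≤ _ := norm_add_le _ _
    _ ≤ _ := add_le_add p1 p2
    _ = _ := by ring

end Pool.Agent.GPC
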