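import Pool.Agent.GPC.Defs
import Pool.Agent.OHG.All

set_option autoImplicit false

open PowerSeries Finset MeasureTheory

namespace Pool.Agent.GPC

open Pool.Agent.OHG

variable {V : Type} [Fintype V] [DecidableEq V]

private theorem u1_big {h : ℂ → ℂ} {S : Set ℂ} {C B : ℝ}
    (hb : ∀ w ∈ S, ‖h w‖ ≤ C * Real.exp (B * ‖w‖)) :
    ∃ c < (2 : ℝ), ∃ B', h =O[Bornology.cobounded ℂ ⊓ Filter.principal S]
      fun z => Real.exp (B' * ‖z‖ ^ c) := by
  refine ⟨1, by norm_num, B, Asymptotics.IsBigO.of_bound C ?_⟩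
  rw [Filter.eventually_inf_principal]
  refine Filter.Eventually.of_forall fun w hw => ?_
  rw [Real.rpow_one, Real.norm_eq_abs, abs_of_pos (Real.exp_pos _)]
  exact hb w hw

private theorem u1_norm_exp (z : ℂ) : ‖Complex.exp z‖ = Real.exp z.re := Complex.norm_exp z

/-- growth of `f w * exp (l w)`. -/
private theorem u1_growth {f : ℂ → ℂ} {C : ℝ} (hC : 0 ≤ C) (l : ℂ) {w : ℂ} (hf : ‖f w‖ ≤ C) :
    ‖f w * Complex.exp (l * w)‖ ≤ C * Real.exp (‖l‖ * ‖w‖) := by
  rw [norm_mul, u1_norm_exp]
  refine mul_le_mul hf ?_ (Real.exp_pos _).le hC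
  refine Real.exp_le_exp.2 ?_
  calc (l * w).re ≤ ‖l * w‖ := Complex.re_le_norm _
    _ = ‖l‖ * ‖w‖ := norm_mul _ _

private theorem u1_diff {f : ℂ → ℂ} (hf : DifferentiableOn ℂ f {w | -1 < w.re}) (l : ℂ) :
    DifferentiableOn ℂ (fun w => f w * Complex.exp (l * w)) {w | -1 < w.re} :=
  hf.mul ((differentiable_id.const_mul l).cexp).differentiableOn

private theorem u1_dcc {f : ℂ → ℂ} {S T : Set ℂ} (hf : DifferentiableOn ℂ f T)
    (h : closure S ⊆ T) : DiffContOnCl ℂ f S :=
  (hf.mono h).diffContOnCl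

private theorem u1_clI : closure (Set.Ioi (0 : ℝ) ×ℂ Set.Ioi (0 : ℝ)) ⊆ {w | 0 ≤ w.re ∧ 0 ≤ w.im} := by
  rw [Complex.closure_reProdIm, closure_Ioi]
  intro w hw
  rw [Complex.mem_reProdIm] at hw
  exact hw

private theorem u1_clIV : closure (Set.Ioi (0 : ℝ) ×ℂ Set.Iio (0 : ℝ)) ⊆ {w | 0 ≤ w.re ∧ w.im ≤ 0} := by
  rw [Complex.closure_reProdIm, closure_Ioi, closure_Iio]
  intro w hw
  rw [Complex.mem_reProdIm] at hw
  exact hw

/-- quadrant I. -/
private theorem u1_quadI {f : ℂ → ℂ} {c C A : ℝ} (hC : 0 ≤ C) (hc : 0 < c)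
    (hf : DifferentiableOn ℂ f {w | -1 < w.re})
    (hb : ∀ w : ℂ, 0 ≤ w.re → ‖f w‖ ≤ C * Real.exp (-c * ‖w‖))
    (hA : ∀ x : ℝ, 0 ≤ x → ‖f x‖ ≤ C * Real.exp (-A * x)) (w : ℂ) (hr : 0 ≤ w.re)
    (hi : 0 ≤ w.im) : ‖f w‖ ≤ C * Real.exp (-A * w.re - c * w.im) := by
  have hb' : ∀ w : ℂ, 0 ≤ w.re → ‖f w‖ ≤ C := fun w hw =>
    (hb w hw).trans (mul_le_of_le_one_right hC (Real.exp_le_one_iff.2 (by
      have := norm_nonneg w
      nlinarith)))
  set l : ℂ := (A : ℂ) - c * Complex.I with hl
  have h1 : ‖f w * Complex.exp (l * w)‖ ≤ C := by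
    refine PhragmenLindelof.quadrant_I (f := fun w => f w * Complex.exp (l * w)) ?_ ?_ ?_ ?_ hr hi
    · refine u1_dcc (u1_diff hf l) (u1_clI.trans ?_)
      intro z hz
      have h2 : 0 ≤ z.re := hz.1
      change -1 < z.re
      linarith
    · refine u1_big (C := C) (B := ‖l‖) ?_
      intro z hz
      rw [Complex.mem_reProdIm] at hz
      have h2 : 0 < z.re := hz.1
      exact u1_growth hC l (hb' z h2.le)
    · intro x hx
      rw [norm_mul, u1_norm_exp]
      have e : (l * (x : ℂ)).re = A * x := by simp [hl]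
      rw [e]
      calc ‖f x‖ * Real.exp (A * x) ≤ (C * Real.exp (-A * x)) * Real.exp (A * x) :=
            mul_le_mul_of_nonneg_right (hA x hx) (Real.exp_pos _).le
        _ = C := by
          rw [mul_assoc, ← Real.exp_add]
          have : -A * x + A * x = 0 := by ring
          rw [this, Real.exp_zero, mul_one]
    · intro y hy
      rw [norm_mul, u1_norm_exp]
      have e : (l * ((y : ℂ) * Complex.I)).re = c * y := by simp [hl]
      rw [e]
      have h3 := hb ((y : ℂ) * Complex.I) (by simp)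
      have h4 : ‖(y : ℂ) * Complex.I‖ = y := by
        rw [norm_mul, Complex.norm_I, mul_one, Complex.norm_real, Real.norm_eq_abs,
          abs_of_nonneg hy]
      rw [h4] at h3
      calc ‖f ((y : ℂ) * Complex.I)‖ * Real.exp (c * y) ≤
            (C * Real.exp (-c * y)) * Real.exp (c * y) :=
            mul_le_mul_of_nonneg_right h3 (Real.exp_pos _).le
        _ = C := by
          rw [mul_assoc, ← Real.exp_add]
          have : -c * y + c * y = 0 := by ring
          rw [this, Real.exp_zero, mul_one]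
  rw [norm_mul, u1_norm_exp] at h1
  have e : (l * w).re = A * w.re + c * w.im := by
    simp [hl]
  rw [e] at h1
  have h2 : ‖f w‖ = (‖f w‖ * Real.exp (A * w.re + c * w.im)) *
      Real.exp (-A * w.re - c * w.im) := by
    rw [mul_assoc, ← Real.exp_add]
    have : A * w.re + c * w.im + (-A * w.re - c * w.im) = 0 := by ring
    rw [this, Real.exp_zero, mul_one]
  rw [h2]
  exact mul_le_mul_of_nonneg_right h1 (Real.exp_pos _).le

/-- quadrant IV. -/
private theorem u1_quadIV {f : ℂ → ℂ} {c C A : ℝ} (hC : 0 ≤ C) (hc : 0 < c)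
    (hf : DifferentiableOn ℂ f {w | -1 < w.re})
    (hb : ∀ w : ℂ, 0 ≤ w.re → ‖f w‖ ≤ C * Real.exp (-c * ‖w‖))
    (hA : ∀ x : ℝ, 0 ≤ x → ‖f x‖ ≤ C * Real.exp (-A * x)) (w : ℂ) (hr : 0 ≤ w.re)
    (hi : w.im ≤ 0) : ‖f w‖ ≤ C * Real.exp (-A * w.re + c * w.im) := by
  have hb' : ∀ w : ℂ, 0 ≤ w.re → ‖f w‖ ≤ C := fun w hw =>
    (hb w hw).trans (mul_le_of_le_one_right hC (Real.exp_le_one_iff.2 (by
      have := norm_nonneg w
      nlinarith)))
  set l : ℂ := (A : ℂ) + c * Complex.I with hl
  have h1 : ‖f w * Complex.exp (l * w)‖ ≤ C := by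
    refine PhragmenLindelof.quadrant_IV (f := fun w => f w * Complex.exp (l * w)) ?_ ?_ ?_ ?_ hr hi
    · refine u1_dcc (u1_diff hf l) (u1_clIV.trans ?_)
      intro z hz
      have h2 : 0 ≤ z.re := hz.1
      change -1 < z.re
      linarith
    · refine u1_big (C := C) (B := ‖l‖) ?_
      intro z hz
      rw [Complex.mem_reProdIm] at hz
      have h2 : 0 < z.re := hz.1
      exact u1_growth hC l (hb' z h2.le)
    · intro x hx
      rw [norm_mul, u1_norm_exp]
      have e : (l * (x : ℂ)).re = A * x := by simp [hl]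
      rw [e]
      calc ‖f x‖ * Real.exp (A * x) ≤ (C * Real.exp (-A * x)) * Real.exp (A * x) :=
            mul_le_mul_of_nonneg_right (hA x hx) (Real.exp_pos _).le
        _ = C := by
          rw [mul_assoc, ← Real.exp_add]
          have : -A * x + A * x = 0 := by ring
          rw [this, Real.exp_zero, mul_one]
    · intro y hy
      rw [norm_mul, u1_norm_exp]
      have e : (l * ((y : ℂ) * Complex.I)).re = -(c * y) := by simp [hl]
      rw [e]
      have h3 := hb ((y : ℂ) * Complex.I) (by simp)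
      have h4 : ‖(y : ℂ) * Complex.I‖ = -y := by
        rw [norm_mul, Complex.norm_I, mul_one, Complex.norm_real, Real.norm_eq_abs,
          abs_of_nonpos hy]
      rw [h4] at h3
      calc ‖f ((y : ℂ) * Complex.I)‖ * Real.exp (-(c * y)) ≤
            (C * Real.exp (-c * -y)) * Real.exp (-(c * y)) :=
            mul_le_mul_of_nonneg_right h3 (Real.exp_pos _).le
        _ = C := by
          rw [mul_assoc, ← Real.exp_add]
          have : -c * -y + -(c * y) = 0 := by ring
          rw [this, Real.exp_zero, mul_one]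
  rw [norm_mul, u1_norm_exp] at h1
  have e : (l * w).re = A * w.re - c * w.im := by
    simp [hl]
  rw [e] at h1
  have h2 : ‖f w‖ = (‖f w‖ * Real.exp (A * w.re - c * w.im)) *
      Real.exp (-A * w.re + c * w.im) := by
    rw [mul_assoc, ← Real.exp_add]
    have : A * w.re - c * w.im + (-A * w.re + c * w.im) = 0 := by ring
    rw [this, Real.exp_zero, mul_one]
  rw [h2]
  exact mul_le_mul_of_nonneg_right h1 (Real.exp_pos _).le

/-- the improvement step. -/
private theorem u1_step {f : ℂ → ℂ} {c C A : ℝ} (hC : 0 ≤ C) (hc : 0 < c)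
    (hf : DifferentiableOn ℂ f {w | -1 < w.re})
    (hb : ∀ w : ℂ, 0 ≤ w.re → ‖f w‖ ≤ C * Real.exp (-c * ‖w‖))
    (hA : ∀ x : ℝ, 0 ≤ x → ‖f x‖ ≤ C * Real.exp (-A * x)) :
    ∀ x : ℝ, 0 ≤ x → ‖f x‖ ≤ C * Real.exp (-(A + c) * x) := by
  intro x hx
  have hb' : ∀ w : ℂ, 0 ≤ w.re → ‖f w‖ ≤ C := fun w hw =>
    (hb w hw).trans (mul_le_of_le_one_right hC (Real.exp_le_one_iff.2 (by
      have := norm_nonneg w
      nlinarith)))
  set o : ℂ := 1 - Complex.I with ho
  have hre : ∀ z : ℂ, (o * z).re = z.re + z.im := by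
    intro z
    simp [ho]
  have him : ∀ z : ℂ, (o * z).im = z.im - z.re := by
    intro z
    simp [ho]
    ring
  set a : ℝ := A + c with ha
  have hdf : DifferentiableOn ℂ (fun z => f (o * z) * Complex.exp ((a * o : ℂ) * z))
      {z | -1 < z.re + z.im} := by
    refine DifferentiableOn.mul ?_ ((differentiable_id.const_mul _).cexp).differentiableOn
    refine hf.comp (differentiable_id.const_mul o).differentiableOn ?_
    intro z hz
    change -1 < (o * z).re
    rw [hre]
    exact hz
  have key : ∀ z : ℂ, 0 ≤ z.re → 0 ≤ z.im → ‖f (o * z) * Complex.exp ((a * o : ℂ) * z)‖ ≤ C := by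
    intro z hzr hzi
    refine PhragmenLindelof.quadrant_I
      (f := fun z => f (o * z) * Complex.exp ((a * o : ℂ) * z)) ?_ ?_ ?_ ?_ hzr hzi
    · refine u1_dcc hdf (u1_clI.trans ?_)
      intro z hz
      have h2 : 0 ≤ z.re := hz.1
      have h3 : 0 ≤ z.im := hz.2
      change -1 < z.re + z.im
      linarith
    · refine u1_big (C := C) (B := ‖(a * o : ℂ)‖) ?_
      intro z hz
      rw [Complex.mem_reProdIm] at hz
      have h2 : 0 < z.re := hz.1
      have h3 : 0 < z.im := hz.2
      exact u1_growth (f := fun z => f (o * z)) hC (a * o : ℂ) (hb' (o * z) (by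
        rw [hre]
        linarith))
    · intro y hy
      rw [norm_mul, u1_norm_exp]
      have e : ((a * o : ℂ) * (y : ℂ)).re = a * y := by simp [ho]
      rw [e]
      have h3 := u1_quadIV hC hc hf hb hA (o * (y : ℂ)) (by
        rw [hre]
        simpa using hy) (by
        rw [him]
        simpa using hy)
      rw [hre, him] at h3
      simp only [Complex.ofReal_re, Complex.ofReal_im, add_zero, zero_sub] at h3
      calc ‖f (o * (y : ℂ))‖ * Real.exp (a * y) ≤
            (C * Real.exp (-A * y + c * -y)) * Real.exp (a * y) :=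
            mul_le_mul_of_nonneg_right h3 (Real.exp_pos _).le
        _ = C := by
          rw [mul_assoc, ← Real.exp_add]
          have : -A * y + c * -y + a * y = 0 := by rw [ha]; ring
          rw [this, Real.exp_zero, mul_one]
    · intro y hy
      rw [norm_mul, u1_norm_exp]
      have e : ((a * o : ℂ) * ((y : ℂ) * Complex.I)).re = a * y := by simp [ho]
      rw [e]
      have h3 := u1_quadI hC hc hf hb hA (o * ((y : ℂ) * Complex.I)) (by
        rw [hre]
        simpa using hy) (by
        rw [him]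
        simpa using hy)
      rw [hre, him] at h3
      simp only [Complex.mul_re, Complex.mul_im, Complex.ofReal_re, Complex.ofReal_im,
        Complex.I_re, Complex.I_im, mul_zero, mul_one, sub_zero, zero_add, add_zero,
        sub_self] at h3
      calc ‖f (o * ((y : ℂ) * Complex.I))‖ * Real.exp (a * y) ≤
            (C * Real.exp (-A * y - c * y)) * Real.exp (a * y) :=
            mul_le_mul_of_nonneg_right h3 (Real.exp_pos _).le
        _ = C := by
          rw [mul_assoc, ← Real.exp_add]
          have : -A * y - c * y + a * y = 0 := by rw [ha]; ring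
          rw [this, Real.exp_zero, mul_one]
  set z : ℂ := ((x / 2 : ℝ) : ℂ) + ((x / 2 : ℝ) : ℂ) * Complex.I with hz
  have hzx : o * z = (x : ℂ) := by
    apply Complex.ext
    · rw [hre]
      simp [hz]
    · rw [him]
      simp [hz]
  have h1 := key z (by simp [hz]; linarith) (by simp [hz]; linarith)
  rw [norm_mul, u1_norm_exp, mul_assoc, hzx] at h1
  have e : ((a : ℂ) * (x : ℂ)).re = a * x := by simp
  rw [e] at h1
  have h2 : ‖f x‖ = (‖f x‖ * Real.exp (a * x)) * Real.exp (-a * x) := by
    rw [mul_assoc, ← Real.exp_add]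
    have : a * x + -a * x = 0 := by ring
    rw [this, Real.exp_zero, mul_one]
  rw [h2]
  exact mul_le_mul_of_nonneg_right h1 (Real.exp_pos _).le

theorem eq_zero_of_exp_decay {g : ℂ → ℂ} {c C : ℝ} (hc : 0 < c)
    (hd : DifferentiableOn ℂ g {w | 0 < w.re})
    (hb : ∀ w : ℂ, 1 ≤ w.re → ‖g w‖ ≤ C * Real.exp (-c * ‖w‖)) :
    ∀ w : ℂ, 1 ≤ w.re → g w = 0 := by
  have hC : 0 ≤ C := by
    by_contra hneg
    push Not at hneg
    have h1 := hb 1 (by simp)
    have h2 := norm_nonneg (g 1)
    have h3 := Real.exp_pos (-c * ‖(1 : ℂ)‖)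
    nlinarith
  set f : ℂ → ℂ := fun w => g (w + 1) with hf
  have hfd : DifferentiableOn ℂ f {w | -1 < w.re} := by
    refine hd.comp (differentiable_id.add_const 1).differentiableOn ?_
    intro w hw
    have h1 : -1 < w.re := hw
    change 0 < (w + 1).re
    rw [Complex.add_re, Complex.one_re]
    linarith
  have hfb : ∀ w : ℂ, 0 ≤ w.re → ‖f w‖ ≤ C * Real.exp (-c * ‖w‖) := by
    intro w hw
    refine (hb (w + 1) (by rw [Complex.add_re, Complex.one_re]; linarith)).trans ?_
    refine mul_le_mul_of_nonneg_left (Real.exp_le_exp.2 ?_) hC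
    have h1 : ‖w‖ ≤ ‖w + 1‖ := by
      rw [Complex.norm_def, Complex.norm_def]
      refine Real.sqrt_le_sqrt ?_
      rw [Complex.normSq_apply, Complex.normSq_apply, Complex.add_re, Complex.add_im,
        Complex.one_re, Complex.one_im]
      nlinarith
    nlinarith
  have hn : ∀ n : ℕ, ∀ x : ℝ, 0 ≤ x → ‖f x‖ ≤ C * Real.exp (-(n * c) * x) := by
    intro n
    induction n with
    | zero =>
      intro x hx
      refine (hfb x (by simpa using hx)).trans ?_
      refine mul_le_mul_of_nonneg_left (Real.exp_le_exp.2 ?_) hC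
      have := norm_nonneg (x : ℂ)
      push_cast
      nlinarith
    | succ n ih =>
      intro x hx
      have h1 := u1_step (A := n * c) hC hc hfd hfb ih x hx
      have e : -((n : ℝ) * c + c) * x = -(((n + 1 : ℕ) : ℝ) * c) * x := by
        push_cast
        ring
      rw [e] at h1
      exact h1
  have hz := PhragmenLindelof.eq_zero_on_right_half_plane_of_superexponential_decay (f := f)
    ?_ ?_ ?_ ?_
  · intro w hw
    have h1 := hz (show w - 1 ∈ {z : ℂ | 0 ≤ z.re} by
      change 0 ≤ (w - 1).re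
      rw [Complex.sub_re, Complex.one_re]
      linarith)
    simpa [hf] using h1
  · refine u1_dcc hfd ?_
    intro z hz
    have h1 : z ∈ {z : ℂ | 0 ≤ z.re} := by
      have h2 : closure {z : ℂ | 0 < z.re} ⊆ {z : ℂ | 0 ≤ z.re} :=
        closure_minimal (fun z (hz : 0 < z.re) => show 0 ≤ z.re from hz.le)
          (isClosed_le continuous_const Complex.continuous_re)
      exact h2 hz
    have h2 : 0 ≤ z.re := h1
    change -1 < z.re
    linarith
  · refine u1_big (C := C) (B := -c) ?_
    intro w hw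
    exact hfb w (le_of_lt hw)
  · intro n
    obtain ⟨m, hm⟩ := exists_nat_ge (((n : ℝ) + 1) / c)
    have hmc : (n : ℝ) + 1 ≤ m * c := by
      rw [div_le_iff₀ hc] at hm
      exact hm
    have hlim : Filter.Tendsto (fun x : ℝ => C * Real.exp (-x)) Filter.atTop (nhds 0) := by
      have h1 := (Real.tendsto_exp_neg_atTop_nhds_zero).const_mul C
      rw [mul_zero] at h1
      exact h1
    refine squeeze_zero' ?_ ?_ hlim
    · exact Filter.Eventually.of_forall fun x => by positivity
    · refine (Filter.eventually_ge_atTop 0).mono fun x hx => ?_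
      have h1 := hn m x hx
      calc Real.exp x ^ n * ‖f x‖ ≤ Real.exp x ^ n * (C * Real.exp (-(m * c) * x)) :=
            mul_le_mul_of_nonneg_left h1 (by positivity)
        _ = C * Real.exp (n * x + -(m * c) * x) := by
          rw [← Real.exp_nat_mul, Real.exp_add]
          ring
        _ ≤ C * Real.exp (-x) := by
          refine mul_le_mul_of_nonneg_left (Real.exp_le_exp.2 ?_) hC
          nlinarith
  · refine ⟨C, fun x => ?_⟩
    refine (hfb _ (by simp)).trans (mul_le_of_le_one_right hC (Real.exp_le_one_iff.2 (by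
      have := norm_nonneg ((x : ℂ) * Complex.I)
      nlinarith)))

end Pool.Agent.GPC
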