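import Pool.Agent.GPC.Defs
import Pool.Agent.OHG.All
import Pool.Agent.GPC.U1

set_option autoImplicit false

open PowerSeries Finset MeasureTheory

namespace Pool.Agent.GPC

open Pool.Agent.OHG

variable {V : Type} [Fintype V] [DecidableEq V]

private theorem u2_sum (F M y : ℝ)
    (h : ∀ n : ℕ, F * (y ^ n / n.factorial) ≤ M * (1 / 2) ^ n) : F * Real.exp y ≤ M * 2 := by
  have h1 : HasSum (fun n : ℕ => F * (y ^ n / n.factorial)) (F * Real.exp y) := by
    have := (NormedSpace.expSeries_div_hasSum_exp y).mul_left F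
    rwa [← Real.exp_eq_exp_ℝ] at this
  have h2 : HasSum (fun n : ℕ => M * (1 / 2 : ℝ) ^ n) (M * 2) := hasSum_geometric_two.mul_left M
  exact hasSum_le h h1 h2

private theorem u2_bound {f : ℂ → ℂ} {C R : ℝ} {A : ℕ}
    (hb : ∀ (n : ℕ) (h : ℂ), h ∈ UH → ‖h‖ ≤ 1 →
      ‖f h‖ ≤ C * R ^ n * n.factorial * ‖h‖ ^ n * (‖h‖ / h.im) ^ A) (h : ℂ) (hh : h ∈ UH)
    (h1 : ‖h‖ ≤ 1) :
    ‖f h‖ ≤ 2 * |C| * (‖h‖ / h.im) ^ A * Real.exp (-(1 / (2 * max |R| 1 * ‖h‖))) := by
  have him : 0 < h.im := hh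
  have hn0 : 0 < ‖h‖ := by
    rw [norm_pos_iff]
    rintro rfl
    simp at him
  set R1 := max |R| 1 with hR1
  have hR1pos : 0 < R1 := lt_of_lt_of_le one_pos (le_max_right _ _)
  set x := R1 * ‖h‖ with hx
  have hxpos : 0 < x := by positivity
  set Q := (‖h‖ / h.im) ^ A with hQ
  have hQ0 : 0 ≤ Q := by positivity
  have key : ∀ n : ℕ, ‖f h‖ ≤ |C| * Q * (n.factorial * x ^ n) := by
    intro n
    refine (hb n h hh h1).trans ?_
    have e1 : C * R ^ n ≤ |C| * R1 ^ n := by
      refine (le_abs_self _).trans ?_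
      rw [abs_mul, abs_pow]
      refine mul_le_mul_of_nonneg_left ?_ (abs_nonneg _)
      exact pow_le_pow_left₀ (abs_nonneg _) (le_max_left _ _) _
    have e2 : 0 ≤ (n.factorial : ℝ) * ‖h‖ ^ n * Q := by positivity
    calc C * R ^ n * n.factorial * ‖h‖ ^ n * Q
        = C * R ^ n * (n.factorial * ‖h‖ ^ n * Q) := by ring
      _ ≤ |C| * R1 ^ n * (n.factorial * ‖h‖ ^ n * Q) := mul_le_mul_of_nonneg_right e1 e2
      _ = |C| * Q * (n.factorial * x ^ n) := by rw [hx, mul_pow]; ring
  have hs := u2_sum ‖f h‖ (|C| * Q) (1 / (2 * x)) (by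
    intro n
    have hf0 : (0 : ℝ) < n.factorial := by positivity
    have hy : 0 ≤ (1 / (2 * x)) ^ n / n.factorial := by positivity
    calc ‖f h‖ * ((1 / (2 * x)) ^ n / n.factorial)
        ≤ |C| * Q * (n.factorial * x ^ n) * ((1 / (2 * x)) ^ n / n.factorial) :=
          mul_le_mul_of_nonneg_right (key n) hy
      _ = |C| * Q * (1 / 2) ^ n := by
          have e : x * (1 / (2 * x)) = 1 / 2 := by field_simp
          rw [← e, mul_pow x (1 / (2 * x)) n]
          field_simp)
  have hexp : 0 < Real.exp (1 / (2 * x)) := Real.exp_pos _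
  rw [show 2 * R1 * ‖h‖ = 2 * x by rw [hx]; ring, Real.exp_neg]
  rw [← div_eq_mul_inv, le_div_iff₀ hexp]
  linarith

theorem flat_zero {f : ℂ → ℂ} (hf : DifferentiableOn ℂ f UH) {C R : ℝ} {A : ℕ}
    (hb : ∀ (n : ℕ) (h : ℂ), h ∈ UH → ‖h‖ ≤ 1 →
      ‖f h‖ ≤ C * R ^ n * n.factorial * ‖h‖ ^ n * (‖h‖ / h.im) ^ A) :
    ∀ h ∈ UH, f h = 0 := by
  set R1 := max |R| 1 with hR1
  have hR1pos : 0 < R1 := lt_of_lt_of_le one_pos (le_max_right _ _)
  have him : ∀ w : ℂ, (Complex.I / w).im = w.re / ‖w‖ ^ 2 := by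
    intro w
    rw [Complex.div_im, Complex.I_re, Complex.I_im, Complex.sq_norm]
    ring
  have hmem : ∀ w : ℂ, 0 < w.re → Complex.I / w ∈ UH := by
    intro w hw
    have hw0 : 0 < ‖w‖ := by
      rw [norm_pos_iff]
      rintro rfl
      simp at hw
    show 0 < (Complex.I / w).im
    rw [him]
    positivity
  set g : ℂ → ℂ := fun w => f (Complex.I / w) with hg
  have hgd : DifferentiableOn ℂ g {w | 0 < w.re} := by
    refine hf.comp ?_ (fun w hw => hmem w hw)
    intro w hw
    have hw0 : w ≠ 0 := by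
      rintro rfl
      simp at hw
    exact ((differentiableAt_const _).div differentiableAt_id hw0).differentiableWithinAt
  have hgb : ∀ w : ℂ, 1 ≤ w.re → ‖g w‖ ≤
      (2 * |C| * ((4 * R1) ^ A * A.factorial)) * Real.exp (-(1 / (4 * R1)) * ‖w‖) := by
    intro w hw
    have hwn : 1 ≤ ‖w‖ := hw.trans ((le_abs_self _).trans (Complex.abs_re_le_norm w))
    have hwpos : 0 < ‖w‖ := by linarith
    have hre : 0 < w.re := by linarith
    have hnorm : ‖Complex.I / w‖ = 1 / ‖w‖ := by rw [norm_div, Complex.norm_I]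
    have h1 : ‖Complex.I / w‖ ≤ 1 := by
      rw [hnorm, div_le_one hwpos]
      exact hwn
    have h2 := u2_bound hb (Complex.I / w) (hmem w hre) h1
    rw [← hR1] at h2
    have h3 : ‖Complex.I / w‖ / (Complex.I / w).im ≤ ‖w‖ := by
      rw [hnorm, him, div_div_eq_mul_div, div_le_iff₀ hre]
      have e : 1 / ‖w‖ * ‖w‖ ^ 2 = ‖w‖ := by field_simp
      rw [e]
      nlinarith
    have h4 : 0 ≤ ‖Complex.I / w‖ / (Complex.I / w).im := by
      rw [hnorm, him]
      positivity
    have h5 : (‖Complex.I / w‖ / (Complex.I / w).im) ^ A ≤ ‖w‖ ^ A := pow_le_pow_left₀ h4 h3 _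
    have h6 : 1 / (2 * R1 * ‖Complex.I / w‖) = ‖w‖ / (2 * R1) := by
      rw [hnorm]
      field_simp
    rw [h6] at h2
    have h7 : ‖w‖ ^ A ≤ (4 * R1) ^ A * A.factorial * Real.exp (‖w‖ / (4 * R1)) := by
      have := Real.pow_div_factorial_le_exp (x := ‖w‖ / (4 * R1)) (by positivity) A
      have hf0 : (0 : ℝ) < A.factorial := by positivity
      rw [div_le_iff₀ hf0, div_pow, div_le_iff₀ (by positivity)] at this
      linarith
    have h8 : Real.exp (‖w‖ / (4 * R1)) * Real.exp (-(‖w‖ / (2 * R1))) =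
        Real.exp (-(1 / (4 * R1)) * ‖w‖) := by
      rw [← Real.exp_add]
      congr 1
      field_simp
      ring
    calc ‖g w‖ ≤ 2 * |C| * (‖Complex.I / w‖ / (Complex.I / w).im) ^ A *
          Real.exp (-(‖w‖ / (2 * R1))) := h2
      _ ≤ 2 * |C| * ((4 * R1) ^ A * A.factorial * Real.exp (‖w‖ / (4 * R1))) *
          Real.exp (-(‖w‖ / (2 * R1))) := by
          refine mul_le_mul_of_nonneg_right ?_ (Real.exp_pos _).le
          exact mul_le_mul_of_nonneg_left (h5.trans h7) (by positivity)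
      _ = (2 * |C| * ((4 * R1) ^ A * A.factorial)) * (Real.exp (‖w‖ / (4 * R1)) *
          Real.exp (-(‖w‖ / (2 * R1)))) := by ring
      _ = _ := by rw [h8]
  have hg0 := eq_zero_of_exp_decay (by positivity) hgd hgb
  -- identity theorem
  have hopen : IsOpen UH := isOpen_lt continuous_const Complex.continuous_im
  have hconv : Convex ℝ UH := convex_halfSpace_im_gt 0
  have han : AnalyticOnNhd ℂ f UH := hf.analyticOnNhd hopen
  have hz0 : (Complex.I / 2 : ℂ) ∈ UH := hmem 2 (by norm_num)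
  have hev : f =ᶠ[nhds (Complex.I / 2)] 0 := by
    have hc : ContinuousAt (fun z : ℂ => (Complex.I / z).re) (Complex.I / 2) := by
      refine Complex.continuous_re.continuousAt.comp ?_
      refine continuousAt_const.div continuousAt_id ?_
      simp
    have hval : (1 : ℝ) < (Complex.I / (Complex.I / 2)).re := by
      have : Complex.I / (Complex.I / 2) = 2 := by
        field_simp
      rw [this]
      norm_num
    filter_upwards [hc.eventually_const_lt hval, (isOpen_ne (x := (0 : ℂ))).mem_nhds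
      (show (Complex.I / 2 : ℂ) ≠ 0 by simp)] with z hz hz0
    have h1 := hg0 (Complex.I / z) hz.le
    have h2 : Complex.I / (Complex.I / z) = z := by
      have : z ≠ 0 := hz0
      field_simp
    have h3 : g (Complex.I / z) = f z := by
      show f (Complex.I / (Complex.I / z)) = f z
      rw [h2]
    rw [← h3, h1]
    rfl
  intro h hh
  exact han.eqOn_zero_of_preconnected_of_eventuallyEq_zero hconv.isPreconnected hz0 hev hh

end Pool.Agent.GPC
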