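import Pool.Agent.GPC.Defs
import Pool.Agent.OHG.All
import Pool.Agent.GPC.U2

set_option autoImplicit false

open PowerSeries Finset MeasureTheory

namespace Pool.Agent.GPC

open Pool.Agent.OHG

variable {V : Type} [Fintype V] [DecidableEq V]

private theorem u4_one_le {h : ℂ} (hh : h ∈ UH) : 1 ≤ ‖h‖ / h.im := by
  have h0 : 0 < h.im := hh
  rw [le_div_iff₀ h0, one_mul]
  exact (le_abs_self _).trans (Complex.abs_im_le_norm h)

private theorem u4_bound {C R C' R' x q : ℝ} {A A' n m : ℕ} (hC : |C| ≤ C') (hR : |R| ≤ R')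
    (hA : A ≤ A') (hx : 0 ≤ x) (hq : 1 ≤ q) :
    C * R ^ n * m * x ^ n * q ^ A ≤ C' * R' ^ n * m * x ^ n * q ^ A' := by
  have h1 : C * R ^ n ≤ C' * R' ^ n := by
    calc C * R ^ n ≤ |C * R ^ n| := le_abs_self _
      _ = |C| * |R| ^ n := by rw [abs_mul, abs_pow]
      _ ≤ C' * R' ^ n := by
        apply mul_le_mul hC (pow_le_pow_left₀ (abs_nonneg _) hR n) (by positivity)
        exact (abs_nonneg _).trans hC
  have hC' : 0 ≤ C' := (abs_nonneg _).trans hC
  have hR' : 0 ≤ R' := (abs_nonneg _).trans hR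
  have hq0 : 0 ≤ q := zero_le_one.trans hq
  have h2 : C * R ^ n * m * x ^ n ≤ C' * R' ^ n * m * x ^ n := by
    apply mul_le_mul_of_nonneg_right _ (by positivity)
    exact mul_le_mul_of_nonneg_right h1 (by positivity)
  calc C * R ^ n * m * x ^ n * q ^ A ≤ C' * R' ^ n * m * x ^ n * q ^ A :=
        mul_le_mul_of_nonneg_right h2 (by positivity)
    _ ≤ C' * R' ^ n * m * x ^ n * q ^ A' :=
        mul_le_mul_of_nonneg_left (pow_le_pow_right₀ hq hA) (by positivity)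

theorem HG.unique {f g : ℂ → ℂ} {s : ℝ⟦X⟧} (hf : HG f s) (hg : HG g s) :
    ∀ h ∈ UH, f h = g h := by
  obtain ⟨C₁, R₁, A₁, h1⟩ := hf.bound
  obtain ⟨C₂, R₂, A₂, h2⟩ := hg.bound
  have hd : DifferentiableOn ℂ (fun h => f h - g h) UH := hf.diff.sub hg.diff
  have hb : ∀ (n : ℕ) (h : ℂ), h ∈ UH → ‖h‖ ≤ 1 →
      ‖f h - g h‖ ≤ (2 * (|C₁| + |C₂|)) * (|R₁| + |R₂|) ^ n * n.factorial * ‖h‖ ^ n *
        (‖h‖ / h.im) ^ (A₁ + A₂) := by
    intro n h hh hn
    have e1 := (h1 n h hh hn).trans (u4_bound (C' := |C₁| + |C₂|) (R' := |R₁| + |R₂|)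
      (A' := A₁ + A₂) (by linarith [abs_nonneg C₂]) (by linarith [abs_nonneg R₂])
      (Nat.le_add_right _ _) (norm_nonneg h) (u4_one_le hh))
    have e2 := (h2 n h hh hn).trans (u4_bound (C' := |C₁| + |C₂|) (R' := |R₁| + |R₂|)
      (A' := A₁ + A₂) (by linarith [abs_nonneg C₁]) (by linarith [abs_nonneg R₁])
      (Nat.le_add_left _ _) (norm_nonneg h) (u4_one_le hh))
    have e3 : f h - g h = (f h - ∑ k ∈ range n, ((coeff k s : ℝ) : ℂ) * h ^ k) -
        (g h - ∑ k ∈ range n, ((coeff k s : ℝ) : ℂ) * h ^ k) := by ring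
    rw [e3]
    refine (norm_sub_le _ _).trans ((add_le_add e1 e2).trans (le_of_eq ?_))
    ring
  intro h hh
  exact sub_eq_zero.1 (flat_zero hd hb h hh)

theorem hg_one : HG (fun _ => 1) 1 := by
  refine ⟨differentiableOn_const _, 1, 1, 0, ?_⟩
  intro n h hh hn
  rcases Nat.eq_zero_or_pos n with rfl | hpos
  · simp
  · have h1 : ∑ k ∈ range n, ((coeff k (1 : ℝ⟦X⟧) : ℝ) : ℂ) * h ^ k = 1 := by
      rw [Finset.sum_eq_single 0]
      · simp
      · intro k _ hk
        rw [coeff_one, if_neg hk]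
        simp
      · intro h0
        exact absurd (Finset.mem_range.2 hpos) h0
    rw [h1, sub_self, norm_zero]
    positivity

end Pool.Agent.GPC
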