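import Pool.Agent.GPC.Defs
import Pool.Agent.OHG.All
import Pool.Agent.GPC.A1
import Pool.Agent.GPC.A2
import Pool.Agent.GPC.A3
import Pool.Agent.GPC.N3
import Pool.Agent.GPC.U3
import Pool.Agent.GPC.U4
import Pool.Agent.GPC.U5

set_option autoImplicit false

open PowerSeries Finset MeasureTheory

namespace Pool.Agent.GPC

open Pool.Agent.OHG

private theorem z1_isOpen : IsOpen UH := isOpen_lt continuous_const Complex.continuous_im

private theorem z1_prodHG {F : Prime → ℂ → ℂ} (hF : ∀ P, HG (F P) (part P.D))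
    (M : Multiset Prime) :
    HG (fun h => (M.map fun P => F P h).prod) (M.map fun P => part P.D).prod := by
  induction M using Multiset.induction_on with
  | empty => simpa using hg_one
  | cons P M ih => simpa using (hF P).mul ih

private theorem z1_pow {f : ℂ → ℂ} {s : ℝ⟦X⟧} (hf : HG f s) (n : ℕ) :
    HG (fun h => f h ^ n) (s ^ n) := by
  induction n with
  | zero => simpa using hg_one
  | succ n ih => simpa [pow_succ] using ih.mul hf

private theorem z1_prodAsy {F : Prime → ℂ → ℂ} {e w : Prime → ℝ} {a b : Prime → ℂ}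
    (hF : ∀ P, Asy (F P) (e P) (w P) (a P) (b P)) (M : Multiset Prime) :
    Asy (fun h => (M.map fun P => F P h).prod) (M.map e).sum (M.map w).sum (M.map a).sum
      (M.map b).sum := by
  induction M using Multiset.induction_on with
  | empty => simpa using asy_one
  | cons P M ih => simpa using (hF P).mul ih

/-- the entire function -/
private noncomputable def z1_S (h : ℂ) : ℂ := Complex.sinh (h / 2) / (h / 2)

private theorem z1_S_ne {h : ℂ} (hh : h.re ≠ 0) : z1_S h ≠ 0 := by
  have h0 : h ≠ 0 := by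
    rintro rfl
    simp at hh
  unfold z1_S
  refine div_ne_zero ?_ (div_ne_zero h0 two_ne_zero)
  intro hs
  rw [Complex.sinh, div_eq_zero_iff] at hs
  rcases hs with hs | hs
  · have h1 := congrArg norm (sub_eq_zero.1 hs)
    rw [Complex.norm_exp, Complex.norm_exp, Real.exp_eq_exp, Complex.neg_re] at h1
    have h2 : (h / 2).re = h.re / 2 := by
      simp
    rw [h2] at h1
    apply hh
    linarith
  · exact two_ne_zero hs

private theorem z1_cancel {G : ℂ → ℂ} (hG : ContinuousOn G UH) {n : ℕ}
    (hz : ∀ h ∈ UH, z1_S h ^ n * G h = 0) : ∀ h ∈ UH, G h = 0 := by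
  intro h hh
  have h1 : Filter.Tendsto (fun m : ℕ => h + ((1 / ((m : ℝ) + 1) : ℝ) : ℂ)) Filter.atTop
      (nhds h) := by
    have h2 : Filter.Tendsto (fun m : ℕ => ((1 / ((m : ℝ) + 1) : ℝ) : ℂ)) Filter.atTop
        (nhds ((0 : ℝ) : ℂ)) :=
      (Complex.continuous_ofReal.tendsto 0).comp tendsto_one_div_add_atTop_nhds_zero_nat
    simpa using h2.const_add h
  have h3 : Filter.Tendsto (fun m : ℕ => G (h + ((1 / ((m : ℝ) + 1) : ℝ) : ℂ))) Filter.atTop
      (nhds (G h)) :=
    ((hG.continuousAt (z1_isOpen.mem_nhds hh)).tendsto).comp h1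
  have h4 : ∀ᶠ m : ℕ in Filter.atTop, h.re + 1 / ((m : ℝ) + 1) ≠ 0 := by
    by_cases hr : h.re = 0
    · refine Filter.Eventually.of_forall fun m => ?_
      rw [hr, zero_add]
      positivity
    · have h5 : Filter.Tendsto (fun m : ℕ => h.re + 1 / ((m : ℝ) + 1)) Filter.atTop
          (nhds (h.re + 0)) := tendsto_one_div_add_atTop_nhds_zero_nat.const_add _
      rw [add_zero] at h5
      exact h5.eventually_ne hr
  have h6 : ∀ᶠ m : ℕ in Filter.atTop, G (h + ((1 / ((m : ℝ) + 1) : ℝ) : ℂ)) = 0 := by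
    filter_upwards [h4] with m hm
    have h7 : (h + ((1 / ((m : ℝ) + 1) : ℝ) : ℂ)) ∈ UH := by
      show 0 < (h + ((1 / ((m : ℝ) + 1) : ℝ) : ℂ)).im
      rw [Complex.add_im, Complex.ofReal_im, add_zero]
      exact hh
    have h8 : (h + ((1 / ((m : ℝ) + 1) : ℝ) : ℂ)).re ≠ 0 := by
      rw [Complex.add_re, Complex.ofReal_re]
      exact hm
    exact (mul_eq_zero.1 (hz _ h7)).resolve_left (pow_ne_zero _ (z1_S_ne h8))
  have h9 : Filter.Tendsto (fun m : ℕ => G (h + ((1 / ((m : ℝ) + 1) : ℝ) : ℂ))) Filter.atTop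
      (nhds 0) := by
    refine tendsto_const_nhds.congr' ?_
    filter_upwards [h6] with m hm
    exact hm.symm
  exact tendsto_nhds_unique h3 h9

/-- the identity of power series -/
private theorem z1_series {κ κ' : ℝ} {M M' : Multiset Prime} (h : series κ M = series κ' M') :
    rescale κ (PowerSeries.exp ℝ) * sinhcHalf ^ (Multiset.card M') * (M.map fun P => part P.D).prod =
      rescale κ' (PowerSeries.exp ℝ) * sinhcHalf ^ (Multiset.card M) *
        (M'.map fun P => part P.D).prod := by
  have h0 : constantCoeff sinhcHalf ≠ (0 : ℝ) := by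
    rw [← coeff_zero_eq_constantCoeff_apply]
    unfold sinhcHalf
    rw [coeff_mk]
    simp
  have h1 : sinhcHalf * sinhcHalf⁻¹ = (1 : ℝ⟦X⟧) := PowerSeries.mul_inv_cancel _ h0
  have h2 : ∀ N : Multiset Prime, (N.map fun P => sinhcHalf⁻¹ * part P.D).prod =
      sinhcHalf⁻¹ ^ (Multiset.card N) * (N.map fun P => part P.D).prod := by
    intro N
    rw [Multiset.prod_map_mul, Multiset.map_const', Multiset.prod_replicate]
  unfold series at h
  rw [h2, h2] at h
  have h3 : ∀ N : ℕ, sinhcHalf ^ N * sinhcHalf⁻¹ ^ N = (1 : ℝ⟦X⟧) := by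
    intro N
    rw [← mul_pow, h1, one_pow]
  have h4 := congrArg (fun x => x * (sinhcHalf ^ (Multiset.card M) * sinhcHalf ^ (Multiset.card M')))
    h
  have e1 := h3 (Multiset.card M)
  have e2 := h3 (Multiset.card M')
  linear_combination h4 -
    (rescale κ (PowerSeries.exp ℝ) * sinhcHalf ^ (Multiset.card M') *
      (M.map fun P => part P.D).prod) * e1 +
    (rescale κ' (PowerSeries.exp ℝ) * sinhcHalf ^ (Multiset.card M) *
        (M'.map fun P => part P.D).prod) * e2

/-- the identity of functions -/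
private theorem z1_fun {F : Prime → ℂ → ℂ} (hF : ∀ P, HG (F P) (part P.D))
    {κ κ' : ℝ} {M M' : Multiset Prime} (h : series κ M = series κ' M') :
    ∀ x ∈ UH, Complex.exp (κ * x) * z1_S x ^ (Multiset.card M') * (M.map fun P => F P x).prod =
      Complex.exp (κ' * x) * z1_S x ^ (Multiset.card M) * (M'.map fun P => F P x).prod := by
  have h1 := ((hg_exp κ).mul (z1_pow hg_sinhc (Multiset.card M'))).mul (z1_prodHG hF M)
  have h2 := ((hg_exp κ').mul (z1_pow hg_sinhc (Multiset.card M))).mul (z1_prodHG hF M')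
  rw [← z1_series h] at h2
  exact h1.unique h2

private theorem z1_card {F : Prime → ℂ → ℂ} (hF : ∀ P, HG (F P) (part P.D))
    {e w : Prime → ℝ} {a b : Prime → ℂ} (hA : ∀ P, Asy (F P) (e P) (w P) (a P) (b P))
    {κ κ' : ℝ} {M M' : Multiset Prime} (h : series κ M = series κ' M') :
    Multiset.card M ≤ Multiset.card M' := by
  by_contra hlt
  push Not at hlt
  obtain ⟨m, hm⟩ := Nat.exists_eq_add_of_lt hlt
  have h1 := z1_fun hF h
  have hc : ContinuousOn (fun x => Complex.exp (κ * x) * (M.map fun P => F P x).prod -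
      Complex.exp (κ' * x) * z1_S x ^ (m + 1) * (M'.map fun P => F P x).prod) UH := by
    have c1 := ((hg_exp κ).mul (z1_prodHG hF M)).diff.continuousOn
    have c2 := (((hg_exp κ').mul (z1_pow hg_sinhc (m + 1))).mul (z1_prodHG hF M')).diff.continuousOn
    exact c1.sub c2
  have h2 : ∀ x ∈ UH, Complex.exp (κ * x) * (M.map fun P => F P x).prod -
      Complex.exp (κ' * x) * z1_S x ^ (m + 1) * (M'.map fun P => F P x).prod = 0 := by
    refine z1_cancel hc (n := Multiset.card M') fun x hx => ?_
    have := h1 x hx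
    rw [hm] at this
    have e3 : z1_S x ^ (Multiset.card M' + m + 1) =
        z1_S x ^ (Multiset.card M') * z1_S x ^ (m + 1) := by ring
    rw [e3] at this
    linear_combination this
  obtain ⟨T, hT⟩ := (z1_prodAsy hA M).ne_zero
  obtain ⟨k, hk⟩ := exists_nat_ge (|T| / (2 * Real.pi))
  have hπ := Real.pi_pos
  set τ : ℝ := 2 * Real.pi * (k + 1) with hτ
  have hτ0 : 0 < τ := by positivity
  have hτT : T ≤ τ := by
    rw [div_le_iff₀ (by positivity)] at hk
    have := le_abs_self T
    rw [hτ]
    nlinarith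
  have hU : Complex.I * τ ∈ UH := by
    show 0 < (Complex.I * (τ : ℂ)).im
    simpa using hτ0
  have h3 := h2 _ hU
  have hS : z1_S (Complex.I * τ) = 0 := by
    unfold z1_S
    have e4 : Complex.I * (τ : ℂ) / 2 = ((k + 1 : ℕ) : ℤ) * (Real.pi * Complex.I) := by
      rw [hτ]
      push_cast
      ring
    rw [e4]
    have e5 : Complex.sinh ((((k + 1 : ℕ) : ℤ) : ℂ) * (Real.pi * Complex.I)) = 0 := by
      rw [← mul_assoc, Complex.sinh_mul_I, Complex.sin_int_mul_pi, zero_mul]
    rw [e5, zero_div]
  rw [hS, zero_pow (by omega), mul_zero, zero_mul, sub_zero] at h3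
  rcases mul_eq_zero.1 h3 with h4 | h4
  · exact Complex.exp_ne_zero _ h4
  · exact hT τ hτT h4

private theorem z1_sum_cast (M : Multiset Prime) (p : Prime → Prop) [DecidablePred p] (ρ : ℂ) :
    (M.map fun P => if p P then ρ else 0).sum = ρ * (((M.map fun P => if p P then (1 : ℝ) else 0).sum : ℝ) : ℂ) := by
  induction M using Multiset.induction_on with
  | empty => simp
  | cons P M ih =>
    rw [Multiset.map_cons, Multiset.sum_cons, ih, Multiset.map_cons, Multiset.sum_cons]
    by_cases hp : p P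
    · rw [if_pos hp, if_pos hp, Complex.ofReal_add, Complex.ofReal_one]
      ring
    · rw [if_neg hp, if_neg hp, Complex.ofReal_add, Complex.ofReal_zero]
      ring

private theorem z1_countP (M : Multiset Prime) (p : Prime → Prop) [DecidablePred p] :
    (M.map fun P => if p P then (1 : ℝ) else 0).sum = (M.countP p : ℝ) := by
  induction M using Multiset.induction_on with
  | empty => simp
  | cons P M ih =>
    rw [Multiset.map_cons, Multiset.sum_cons, ih, Multiset.countP_cons]
    push_cast
    by_cases hp : p P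
    · simp [hp, add_comm]
    · simp [hp]

open scoped Classical in
theorem pieces' (κ κ' : ℝ) (M M' : Multiset Prime) (h : series κ M = series κ' M') :
    Multiset.card M = Multiset.card M' ∧ (M.map fun P => P.n + 1).sum = (M'.map fun P => P.n + 1).sum
      ∧ κ = κ' ∧ M.countP (fun P => Bad P ∧ P.D.sgn 0 = 1) = M'.countP (fun P => Bad P ∧ P.D.sgn 0 = 1)
      ∧ M.countP (fun P => Bad P ∧ P.D.sgn 0 = -1) =
        M'.countP (fun P => Bad P ∧ P.D.sgn 0 = -1) := by
  obtain ⟨ρ, σ, hρ, hσ, hP⟩ := prime_F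
  choose F hF hA using hP
  set e : Prime → ℝ := fun P => if Bad P then 1 else (3 / 2 : ℝ) * (P.n + 1) with he
  set w : Prime → ℝ := fun P => (if Bad P ∧ P.D.sgn 0 = 1 then 1 else 0) / 120 -
    (if Bad P ∧ P.D.sgn 0 = -1 then 1 else 0) / 120 with hw
  set a : Prime → ℂ := fun P => if Bad P ∧ P.D.sgn 0 = 1 then ρ else 0 with ha
  set b : Prime → ℂ := fun P => if Bad P ∧ P.D.sgn 0 = -1 then σ else 0 with hb
  have hA' : ∀ P, Asy (F P) (e P) (w P) (a P) (b P) := by
    intro P
    rcases hA P with ⟨h1, h2⟩ | ⟨h1, h2, h3⟩ | ⟨h1, h2, h3⟩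
    · simpa [he, hw, ha, hb, h1] using h2
    · simpa [he, hw, ha, hb, h1, h2] using h3
    · simpa [he, hw, ha, hb, h1, h2] using h3
  have hc : Multiset.card M = Multiset.card M' := le_antisymm (z1_card hF hA' h) (z1_card hF hA' h.symm)
  have h1 := z1_fun hF h
  have h2 : ∀ x ∈ UH, Complex.exp (κ * x) * (M.map fun P => F P x).prod -
      Complex.exp (κ' * x) * (M'.map fun P => F P x).prod = 0 := by
    refine z1_cancel ?_ (n := Multiset.card M') fun x hx => ?_
    · exact ((hg_exp κ).mul (z1_prodHG hF M)).diff.continuousOn.sub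
        ((hg_exp κ').mul (z1_prodHG hF M')).diff.continuousOn
    · have := h1 x hx
      rw [hc] at this
      linear_combination this
  have a1 := (asy_exp κ).mul (z1_prodAsy hA' M)
  have a2 := (asy_exp κ').mul (z1_prodAsy hA' M')
  have a3 := a1.congr (g := fun h => Complex.exp (κ' * h) * (M'.map fun P => F P h).prod) (by
    intro τ hτ
    have hU : Complex.I * τ ∈ UH := by
      show 0 < (Complex.I * (τ : ℂ)).im
      simp
      linarith
    exact sub_eq_zero.1 (h2 _ hU))
  obtain ⟨u1, u2, u3, u4⟩ := a3.unique a2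
  have u3' : (M.map a).sum = (M'.map a).sum := by simpa using u3
  have u4' : (M.map b).sum = (M'.map b).sum := by simpa using u4
  rw [ha, z1_sum_cast, z1_sum_cast] at u3'
  rw [hb, z1_sum_cast, z1_sum_cast] at u4'
  have v3 : (M.map fun P => if Bad P ∧ P.D.sgn 0 = 1 then (1 : ℝ) else 0).sum =
      (M'.map fun P => if Bad P ∧ P.D.sgn 0 = 1 then (1 : ℝ) else 0).sum := by
    exact_mod_cast mul_left_cancel₀ hρ u3'
  have v4 : (M.map fun P => if Bad P ∧ P.D.sgn 0 = -1 then (1 : ℝ) else 0).sum =
      (M'.map fun P => if Bad P ∧ P.D.sgn 0 = -1 then (1 : ℝ) else 0).sum := by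
    exact_mod_cast mul_left_cancel₀ hσ u4'
  have k1 : ∀ N : Multiset Prime, (N.map w).sum =
      (N.map fun P => if Bad P ∧ P.D.sgn 0 = 1 then (1 : ℝ) else 0).sum / 120 -
      (N.map fun P => if Bad P ∧ P.D.sgn 0 = -1 then (1 : ℝ) else 0).sum / 120 := by
    intro N
    induction N using Multiset.induction_on with
    | empty => simp
    | cons P N ih =>
      simp only [Multiset.map_cons, Multiset.sum_cons]
      rw [ih, hw]
      ring
  have k2 : ∀ N : Multiset Prime, (3 / 2 : ℝ) * (((N.map fun P => P.n + 1).sum : ℕ) : ℝ) =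
      (N.map e).sum +
      (N.map fun P => if Bad P ∧ P.D.sgn 0 = 1 then (1 : ℝ) else 0).sum / 2 +
      (N.map fun P => if Bad P ∧ P.D.sgn 0 = -1 then (1 : ℝ) else 0).sum / 2 := by
    intro N
    induction N using Multiset.induction_on with
    | empty => simp
    | cons P N ih =>
      simp only [Multiset.map_cons, Multiset.sum_cons]
      have : (3 / 2 : ℝ) * (P.n + 1) = e P + (if Bad P ∧ P.D.sgn 0 = 1 then (1 : ℝ) else 0) / 2 +
          (if Bad P ∧ P.D.sgn 0 = -1 then (1 : ℝ) else 0) / 2 := by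
        by_cases hb : Bad P
        · rcases P.isGraph.sign 0 with hs | hs
          · simp [he, hb, hs, hb.1]
            norm_num
          · simp [he, hb, hs, hb.1]
            norm_num
        · simp [he, hb]
      push_cast at ih ⊢
      linarith
  refine ⟨hc, ?_, ?_, ?_, ?_⟩
  · have e1 := k2 M
    have e2 := k2 M'
    have u1' : (M.map e).sum = (M'.map e).sum := by simpa using u1
    have : (((M.map fun P => P.n + 1).sum : ℕ) : ℝ) = (((M'.map fun P => P.n + 1).sum : ℕ) : ℝ) := by
      linarith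
    exact_mod_cast this
  · have e1 := k1 M
    have e2 := k1 M'
    rw [v3, v4] at e1
    linarith
  · rw [z1_countP, z1_countP] at v3
    exact_mod_cast v3
  · rw [z1_countP, z1_countP] at v4
    exact_mod_cast v4

theorem pieces (κ κ' : ℝ) (M M' : Multiset Prime) (h : series κ M = series κ' M') :
    Multiset.card M = Multiset.card M' ∧ (M.map fun P => P.n + 1).sum = (M'.map fun P => P.n + 1).sum
      ∧ κ = κ' := by
  classical
  obtain ⟨h1, h2, h3, _⟩ := pieces' κ κ' M M' h
  exact ⟨h1, h2, h3⟩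

end Pool.Agent.GPC
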