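import Pool.Agent.GPC.S1
import Pool.Agent.GPC.Z1

/-!
# What the Ohtsuki series knows of the graph homology spheres
-/

set_option autoImplicit false

open PowerSeries Finset

namespace Pool.Agent.GPC

open Pool.Agent.OHG

/-- The number of summands, the number of nodes, the constant `κ`, the Poincaré spheres and the
connected sums of Seifert fibred homology spheres are determined by the Ohtsuki series. -/
theorem determined (κ κ' : ℝ) (M M' : Multiset Prime) (h : series κ M = series κ' M') :
    Multiset.card M = Multiset.card M' ∧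
      (M.map fun P => P.n + 1).sum = (M'.map fun P => P.n + 1).sum ∧ κ = κ' ∧
      (∀ s : ℤ, Multiset.card (M.filter fun P => P.n = 0 ∧ P.D.leaf 0 = {2, 3, 5} ∧ P.D.sgn 0 = s) =
        Multiset.card (M'.filter fun P => P.n = 0 ∧ P.D.leaf 0 = {2, 3, 5} ∧ P.D.sgn 0 = s)) ∧
      ((∀ P ∈ M, P.n = 0) → M = M') := by
  classical
  obtain ⟨h1, h2, h3, h4, h5⟩ := pieces' κ κ' M M' h
  refine ⟨h1, h2, h3, ?_, ?_⟩
  · intro s
    have hb : ∀ (N : Multiset Prime) (s : ℤ),
        N.countP (fun P => Bad P ∧ P.D.sgn 0 = s) =
        Multiset.card (N.filter fun P => P.n = 0 ∧ P.D.leaf 0 = {2, 3, 5} ∧ P.D.sgn 0 = s) := by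
      intro N s
      rw [Multiset.countP_eq_card_filter]
      congr 1
      refine Multiset.filter_congr fun P _ => ?_
      unfold Bad
      rw [and_assoc]
    by_cases hs : s = 1
    · subst hs
      rw [← hb, ← hb]
      convert h4
    by_cases hs' : s = -1
    · subst hs'
      rw [← hb, ← hb]
      convert h5
    · have h0 : ∀ N : Multiset Prime, Multiset.card
          (N.filter fun P => P.n = 0 ∧ P.D.leaf 0 = {2, 3, 5} ∧ P.D.sgn 0 = s) = 0 := by
        intro N
        rw [Multiset.card_eq_zero, Multiset.filter_eq_nil]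
        rintro P _ ⟨_, _, h6⟩
        rcases P.isGraph.sign 0 with h7 | h7
        · exact hs (h6.symm.trans h7)
        · exact hs' (h6.symm.trans h7)
      rw [h0, h0]
  · intro h6
    have h7 : ∀ N : Multiset Prime, (N.map fun P => P.n + 1).sum =
        (N.map fun P => P.n).sum + Multiset.card N := by
      intro N
      rw [Multiset.sum_map_add]
      simp
    have h8 : (M.map fun P => P.n).sum = 0 := by
      rw [Multiset.sum_eq_zero_iff]
      intro x hx
      obtain ⟨P, hP, rfl⟩ := Multiset.mem_map.1 hx
      exact h6 P hP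
    have h9 : (M'.map fun P => P.n).sum = 0 := by
      rw [h7, h7, h8] at h2
      omega
    have h10 : ∀ P ∈ M', P.n = 0 := fun P hP =>
      Multiset.sum_eq_zero_iff.1 h9 _ (Multiset.mem_map_of_mem _ hP)
    refine seifert M M' ?_ h6 h10
    subst h3
    have h11 : rescale κ (PowerSeries.exp ℝ) ≠ 0 := by
      intro h12
      have h13 := congrArg (coeff 0) h12
      rw [coeff_rescale, coeff_exp, map_zero] at h13
      simp at h13
    exact mul_left_cancel₀ h11 h

end Pool.Agent.GPC
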