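import Pool.Agent.OHG.Defs

/-!
# Auxiliary definitions: the Gaussian integral of a graph homology sphere as a function on the upper
half plane
-/

set_option autoImplicit false

open PowerSeries Finset MeasureTheory

namespace Pool.Agent.GPC

open Pool.Agent.OHG

/-- The upper half plane. -/
def UH : Set ℂ := {h | 0 < h.im}

/-- `f` is holomorphic in the upper half plane, with the asymptotic expansion `s` at `0`, of Gevrey
order one, up to the real axis. -/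
structure HG (f : ℂ → ℂ) (s : ℝ⟦X⟧) : Prop where
  diff : DifferentiableOn ℂ f UH
  bound : ∃ (C R : ℝ) (A : ℕ), ∀ (n : ℕ) (h : ℂ), h ∈ UH → ‖h‖ ≤ 1 →
    ‖f h - ∑ k ∈ range n, ((coeff k s : ℝ) : ℂ) * h ^ k‖ ≤
      C * R ^ n * n.factorial * ‖h‖ ^ n * (‖h‖ / h.im) ^ A

/-- `f (i τ) = c τ ^ (-E) exp (i ω τ) (1 + τ ^ (-1/2) (α exp (- i τ / 120) + β exp (i τ / 120)) +
O (1 / τ))` with `c ≠ 0`, for `τ → ∞`. -/
def Asy (f : ℂ → ℂ) (E ω : ℝ) (α β : ℂ) : Prop :=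
  ∃ c : ℂ, c ≠ 0 ∧ ∃ C : ℝ, ∀ τ : ℝ, 1 ≤ τ →
    ‖f (Complex.I * τ) - c * ((τ ^ (-E) : ℝ) : ℂ) * Complex.exp (Complex.I * ω * τ) *
      (1 + ((τ ^ (-(1 / 2) : ℝ) : ℝ) : ℂ) * (α * Complex.exp (-(Complex.I * τ / 120)) +
        β * Complex.exp (Complex.I * τ / 120)))‖ ≤ C * τ ^ (-E - 1)

/-- `sinh (a x) / (a x)` as an entire function of `z = x ^ 2`. -/
noncomputable def Sa (a : ℝ) (z : ℂ) : ℂ :=
  ∑' m : ℕ, (a : ℂ) ^ (2 * m) * z ^ m / ((2 * m + 1).factorial : ℂ)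

/-- `sinh (a x) / (a x)` as a power series in `y = x ^ 2`. -/
noncomputable def sa (a : ℝ) : ℝ⟦X⟧ :=
  PowerSeries.mk fun m => a ^ (2 * m) / ((2 * m + 1).factorial : ℝ)

/-- The functions with an inverse Laplace transform of rapid decay. -/
structure Good (Φ : ℂ → ℂ) (φ : ℝ⟦X⟧) : Prop where
  diff : DifferentiableOn ℂ Φ {z | -2 < z.re}
  ser : ∀ z : ℂ, ‖z‖ < 1 → HasSum (fun j => ((coeff j φ : ℝ) : ℂ) * z ^ j) (Φ z)
  decay : ∃ C ε : ℝ, 0 < ε ∧ ∀ z : ℂ, -1 ≤ z.re → ‖Φ z‖ ≤ C * Real.exp (-ε * Real.sqrt ‖z‖)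
  pos : ∀ r : ℝ, 0 ≤ r → ∃ t : ℝ, 0 < t ∧ Φ (r : ℂ) = (t : ℂ)

/-- The properties of the inverse Laplace transform `θ` of a function with the Taylor series
`φ`. -/
structure Theta (θ : ℝ → ℝ) (φ : ℝ⟦X⟧) : Prop where
  cont : Continuous θ
  bound : ∃ C c : ℝ, 0 < c ∧ ∀ u : ℝ, 0 < u → |θ u| ≤ C * Real.exp (-c * u - c / Real.sqrt u)
  moment : ∀ j : ℕ, ∫ u in Set.Ioi (0 : ℝ), u ^ j * θ u = (-1) ^ j * j.factorial * coeff j φ
  pos : ∀ q : ℝ, 0 < q → 0 < ∫ u in Set.Ioi (0 : ℝ), u ^ (-q) * θ u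

/-- The inverse Laplace transform, as an integral over the line `Re z = c`. -/
noncomputable def thc (Φ : ℂ → ℂ) (c u : ℝ) : ℂ :=
  (1 / (2 * Real.pi) : ℝ) * ∫ t : ℝ, Φ (c + Complex.I * t) * Complex.exp (u * (c + Complex.I * t))

variable {V : Type} [Fintype V] [DecidableEq V]

/-- The matrix of the linking numbers. -/
noncomputable def lkm (D : Data V) : Matrix V V ℝ := Matrix.of fun v w => (D.lk v w : ℝ)

/-- The matrix `√u_v √u_w ℓ_vw`. -/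
noncomputable def Am (L : Matrix V V ℝ) (u : V → ℝ) : Matrix V V ℝ :=
  Matrix.of fun v w => Real.sqrt (u v) * Real.sqrt (u w) * L v w

/-- The quadratic form of a matrix on the vectors `W_v` in `ℝ³`. -/
noncomputable def qf (A : Matrix V V ℝ) (W : V × Fin 3 → ℝ) : ℝ :=
  ∑ v, ∑ w, A v w * ∑ i : Fin 3, W (v, i) * W (w, i)

/-- The Gaussian moments of the quadratic form of a matrix. -/
noncomputable def gm (A : Matrix V V ℝ) (n : ℕ) : ℝ :=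
  (∫ W : V × Fin 3 → ℝ, qf A W ^ n * Real.exp (-(∑ a, W a ^ 2) / 2)) /
    Real.sqrt (2 * Real.pi) ^ (3 * Fintype.card V)

/-- The operator `∑ M_vw ∂_v · ∂_w`. -/
noncomputable def lapM (M : Matrix V V ℝ) :
    MvPolynomial (V × Fin 3) ℝ →ₗ[ℝ] MvPolynomial (V × Fin 3) ℝ :=
  ∑ v, ∑ w, M v w • ∑ i : Fin 3,
    (MvPolynomial.pderiv (v, i)).toLinearMap ∘ₗ (MvPolynomial.pderiv (w, i)).toLinearMap

/-- The polynomial `∑ M_vw X_v · X_w`. -/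
noncomputable def quadM (M : Matrix V V ℝ) : MvPolynomial (V × Fin 3) ℝ :=
  ∑ v, ∑ w, MvPolynomial.C (M v w) * ∑ i : Fin 3, MvPolynomial.X (v, i) * MvPolynomial.X (w, i)

/-- The product of the sign, of the weights of the leaves and of the weights of the edges other than
`vw`, at the node `v`. -/
noncomputable def oth (D : Data V) (v w : V) : ℤ :=
  D.sgn v * (∏ k ∈ D.leaf v, (k : ℤ)) * ∏ x ∈ (D.nbr v).erase w, D.wt v x

/-- The product of the weights adjacent to the path from `v` to `y`, without the weight at `v` of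
the edge `vw`. -/
noncomputable def mu (D : Data V) (v w y : V) : ℤ :=
  ∏ u with D.On v y u,
    (D.sgn u * (∏ k ∈ D.leaf u, (k : ℤ)) *
      ∏ x ∈ D.nbr u with ¬ D.On v y x ∧ ¬ (u = v ∧ x = w), D.wt u x)

open scoped Classical in
/-- `det (1 + 4 h D_u L) ^ (- 3 / 2)`, `D_u` the diagonal matrix of `u`, for `h` in the upper half
plane. -/
noncomputable def Kf (L : Matrix V V ℝ) (h : ℂ) (u : V → ℝ) : ℂ :=
  if hA : (Am L u).IsHermitian then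
    ∏ i, ((1 + 4 * h * (hA.eigenvalues i : ℂ)) ^ (-(1 / 2) : ℂ)) ^ 3
  else 0

/-- The Taylor coefficients of `Kf (lkm D) h u` with respect to `h`. -/
noncomputable def kap (D : Data V) (n : ℕ) (u : V → ℝ) : ℝ :=
  ∑ j ∈ (univ : Finset V).piAntidiag n, (∏ v, (-u v) ^ j v / ((j v).factorial : ℝ)) * moment D j

/-- The properties of the kernel `Kf`. -/
structure IsKer (D : Data V) (K : ℂ → (V → ℝ) → ℂ) : Prop where
  diff : ∀ u : V → ℝ, (∀ v, 0 < u v) → DifferentiableOn ℂ (fun h => K h u) UH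
  cont : ∀ h ∈ UH, ContinuousOn (K h) {u | ∀ v, 0 < u v}
  bound : ∀ h ∈ UH, ∀ u : V → ℝ, (∀ v, 0 < u v) →
    ‖K h u‖ ≤ (‖h‖ / h.im) ^ (2 * Fintype.card V)
  taylor : ∃ C R : ℝ, ∀ (n : ℕ) (h : ℂ) (u : V → ℝ), h ∈ UH → (∀ v, 0 < u v) →
    ‖K h u - ∑ k ∈ range n, ((kap D k u : ℝ) : ℂ) * h ^ k‖ ≤
      C * (R * ‖h‖ * ∑ v, u v) ^ n * (‖h‖ / h.im) ^ (2 * Fintype.card V)
  asy : ∃ c : ℂ, c ≠ 0 ∧ ∃ C : ℝ, ∀ (τ : ℝ) (u : V → ℝ), 1 ≤ τ → (∀ v, 0 < u v) →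
    ‖((τ ^ ((3 / 2 : ℝ) * Fintype.card V) : ℝ) : ℂ) * K (Complex.I * τ) u -
      c * ((∏ v, (u v) ^ (-(3 / 2) : ℝ) : ℝ) : ℂ)‖ ≤
      C / τ * ((1 + ∑ v, u v) ^ Fintype.card V * ∏ v, (u v) ^ (-(5 / 2) : ℝ))

/-- The Poincaré sphere, with one of its orientations. -/
def Bad (P : Prime) : Prop := P.n = 0 ∧ P.D.leaf 0 = {2, 3, 5}

/-- `∑ sinh (j x / 60) / sinh (x / 2)` over `j = 1, 11, 19, 29`, as a function of `z = x ^ 2`. -/
noncomputable def RR (z : ℂ) : ℂ :=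
  ((1 / 30 : ℝ) * Sa (1 / 60) z + (11 / 30 : ℝ) * Sa (11 / 60) z + (19 / 30 : ℝ) * Sa (19 / 60) z +
    (29 / 30 : ℝ) * Sa (29 / 60) z) * (Sa (1 / 2) z)⁻¹

/-- The Taylor series of `RR`. -/
noncomputable def rr : ℝ⟦X⟧ :=
  ((1 / 30 : ℝ) • sa (1 / 60) + (11 / 30 : ℝ) • sa (11 / 60) + (19 / 30 : ℝ) • sa (19 / 60) +
    (29 / 30 : ℝ) • sa (29 / 60)) * (sa (1 / 2))⁻¹

end Pool.Agent.GPC
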