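import Pool.Agent.OHG.All

/-!
# The Gaussian moments of a single node
-/

set_option autoImplicit false

open PowerSeries Finset

namespace Pool.Agent.GPC

open Pool.Agent.OHG

variable {V : Type} [Fintype V] [DecidableEq V]

omit [Fintype V] in
private theorem o1_pd (v w : V) (i : Fin 3) :
    MvPolynomial.pderiv (w, i) (nsq v : MvPolynomial (V × Fin 3) ℝ) =
      if w = v then 2 * MvPolynomial.X (v, i) else 0 := by
  unfold nsq
  rw [map_sum, Finset.sum_eq_single i]
  · rw [MvPolynomial.pderiv_pow, MvPolynomial.pderiv_X]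
    by_cases h : w = v
    · subst h
      simp
    · rw [if_neg h, Pi.single_apply, if_neg (by simp [Ne.symm h]), mul_zero]
  · intro j _ hj
    rw [MvPolynomial.pderiv_pow, MvPolynomial.pderiv_X, Pi.single_apply,
      if_neg (by simp [Prod.ext_iff, hj]), mul_zero]
  · simp

omit [Fintype V] in
private theorem o1_pd_pow (v w : V) (i : Fin 3) (m : ℕ) :
    MvPolynomial.pderiv (w, i) (nsq v ^ m : MvPolynomial (V × Fin 3) ℝ) =
      if w = v then (m : MvPolynomial (V × Fin 3) ℝ) * nsq v ^ (m - 1) * (2 * MvPolynomial.X (v, i))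
      else 0 := by
  rw [MvPolynomial.pderiv_pow, o1_pd]
  split_ifs
  · rfl
  · rw [mul_zero]

private theorem o1_lap (D : Data V) (v : V) (m : ℕ) :
    lap D (nsq v ^ (m + 1)) =
      MvPolynomial.C ((D.lk v v : ℝ) * ((2 * m + 2) * (2 * m + 3))) * nsq v ^ m := by
  have h0 : ∀ p : MvPolynomial (V × Fin 3) ℝ, lap D p = ∑ v, ∑ w, (D.lk v w : ℝ) • ∑ i : Fin 3,
      MvPolynomial.pderiv (v, i) (MvPolynomial.pderiv (w, i) p) := by
    intro p
    simp [lap, LinearMap.sum_apply, LinearMap.smul_apply]
  rw [h0, Finset.sum_eq_single v, Finset.sum_eq_single v]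
  · have h1 : ∀ i : Fin 3, MvPolynomial.pderiv (v, i) (MvPolynomial.pderiv (v, i)
        (nsq v ^ (m + 1) : MvPolynomial (V × Fin 3) ℝ)) =
        (2 * (m : MvPolynomial (V × Fin 3) ℝ) + 2) * nsq v ^ m +
          (2 * (m : MvPolynomial (V × Fin 3) ℝ) + 2) * (2 * (m : MvPolynomial (V × Fin 3) ℝ)) *
            (nsq v ^ (m - 1) * MvPolynomial.X (v, i) ^ 2) := by
      intro i
      rw [o1_pd_pow, if_pos rfl, Nat.add_sub_cancel]
      have e1 : ((m + 1 : ℕ) : MvPolynomial (V × Fin 3) ℝ) * nsq v ^ m * (2 * MvPolynomial.X (v, i)) =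
          MvPolynomial.C (2 * (m + 1) : ℝ) * (nsq v ^ m * MvPolynomial.X (v, i)) := by
        rw [map_mul, map_add, map_ofNat, map_one, map_natCast]
        push_cast
        ring
      rw [e1, MvPolynomial.pderiv_C_mul, MvPolynomial.pderiv_mul, o1_pd_pow, if_pos rfl,
        MvPolynomial.pderiv_X_self, map_mul, map_add, map_ofNat, map_one, map_natCast]
      ring
    rw [Finset.sum_congr rfl fun i _ => h1 i, Finset.sum_add_distrib, ← Finset.mul_sum,
      ← Finset.mul_sum, ← Finset.mul_sum]
    have h2 : (∑ i : Fin 3, MvPolynomial.X (v, i) ^ 2 : MvPolynomial (V × Fin 3) ℝ) = nsq v := rfl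
    rw [h2, Finset.sum_const, Finset.card_univ, Fintype.card_fin, MvPolynomial.smul_eq_C_mul,
      map_mul (MvPolynomial.C)]
    have h3 : (2 * m : MvPolynomial (V × Fin 3) ℝ) * (nsq v ^ (m - 1) * nsq v) =
        2 * m * nsq v ^ m := by
      rcases Nat.eq_zero_or_pos m with rfl | hm
      · simp
      · rw [← pow_succ, Nat.sub_add_cancel hm]
    have h4 : (2 * m + 2 : MvPolynomial (V × Fin 3) ℝ) * (2 * m) * (nsq v ^ (m - 1) * nsq v) =
        (2 * m + 2) * (2 * m * nsq v ^ m) := by
      rw [mul_assoc, h3]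
    rw [h4, map_mul, map_add, map_add, map_mul, map_ofNat, map_ofNat, map_natCast]
    simp only [nsmul_eq_mul]
    push_cast
    ring
  · intro w _ hw
    simp only [o1_pd_pow, if_neg hw, map_zero, Finset.sum_const_zero, smul_zero]
  · simp
  · intro w _ hw
    refine Finset.sum_eq_zero fun x _ => ?_
    have : ∀ i : Fin 3, MvPolynomial.pderiv (w, i) (MvPolynomial.pderiv (x, i)
        (nsq v ^ (m + 1) : MvPolynomial (V × Fin 3) ℝ)) = 0 := by
      intro i
      rw [o1_pd_pow]
      split_ifs with hx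
      · have e1 : ((m + 1 : ℕ) : MvPolynomial (V × Fin 3) ℝ) * nsq v ^ (m + 1 - 1) *
            (2 * MvPolynomial.X (v, i)) =
            MvPolynomial.C (2 * (m + 1) : ℝ) * (nsq v ^ m * MvPolynomial.X (v, i)) := by
          rw [map_mul, map_add, map_ofNat, map_one, map_natCast, Nat.add_sub_cancel]
          push_cast
          ring
        rw [e1, MvPolynomial.pderiv_C_mul, MvPolynomial.pderiv_mul, o1_pd_pow, if_neg hw,
          MvPolynomial.pderiv_X, Pi.single_apply, if_neg (by simp [Ne.symm hw])]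
        simp
      · exact map_zero _
    rw [Finset.sum_congr rfl fun i _ => this i, Finset.sum_const_zero, smul_zero]
  · simp

theorem lap_pow_nsq (D : Data V) (v : V) (m : ℕ) :
    MvPolynomial.constantCoeff ((lap D ^ m) (nsq v ^ m)) =
      (D.lk v v : ℝ) ^ m * (2 * m + 1).factorial := by
  induction m with
  | zero => simp
  | succ m ih =>
    rw [pow_succ, Module.End.mul_apply, o1_lap, ← MvPolynomial.smul_eq_C_mul, map_smul,
      MvPolynomial.smul_eq_C_mul, map_mul, MvPolynomial.constantCoeff_C, ih]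
    have : (2 * (m + 1) + 1).factorial = (2 * m + 3) * ((2 * m + 2) * (2 * m + 1).factorial) := by
      rw [show 2 * (m + 1) + 1 = (2 * m + 2) + 1 by ring, Nat.factorial_succ,
        show 2 * m + 2 = (2 * m + 1) + 1 by ring, Nat.factorial_succ]
    rw [this]
    push_cast
    ring

theorem moment_single (D : Data V) (v : V) (m : ℕ) :
    moment D (Pi.single v m) = (2 * m + 1).factorial / m.factorial * (D.lk v v : ℝ) ^ m := by
  have h1 : (∑ u, (Pi.single v m : V → ℕ) u) = m := by simp
  have h2 : (∏ u, nsq u ^ (Pi.single v m : V → ℕ) u) = (nsq v ^ m : MvPolynomial (V × Fin 3) ℝ) := by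
    rw [Finset.prod_eq_single v] <;> simp +contextual [Pi.single_apply]
  unfold moment
  rw [h1, h2, lap_pow_nsq]
  ring

/-- The series of a diagram with one node. -/
theorem part_one_node (D : Data (Fin 1)) (m : ℕ) :
    coeff m (part D) = coeff m (node D 0) *
      ((2 * m + 1).factorial / m.factorial * (D.lk 0 0 : ℝ) ^ m) := by
  unfold part
  rw [coeff_mk]
  have h : (univ : Finset (Fin 1)).piAntidiag m = {Pi.single 0 m} := by
    ext j
    rw [Finset.mem_piAntidiag, Finset.mem_singleton]
    constructor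
    · rintro ⟨h1, _⟩
      funext i
      have hi : i = 0 := Subsingleton.elim _ _
      subst hi
      simpa using h1
    · rintro rfl
      simp
  rw [h, Finset.sum_singleton, moment_single]
  simp

end Pool.Agent.GPC
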