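import Pool.Agent.GPC.O1
import Pool.Agent.H99.Seif.Final

/-!
# The Seifert fibred homology spheres among the one-node splice diagrams
-/

set_option autoImplicit false

open PowerSeries Finset

namespace Pool.Agent.GPC

open Pool.Agent.OHG

/-- The splice diagram with one node. -/
def oneNode (σ : Bool) (p : Finset ℕ) : Data (Fin 1) where
  graph := ⊥
  leaf := fun _ => p
  sgn := fun _ => if σ then 1 else -1
  wt := fun _ _ => 0

theorem nbr_fin_one (D : Data (Fin 1)) (v : Fin 1) : D.nbr v = ∅ := by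
  unfold Data.nbr
  ext w
  simp only [Finset.mem_filter, Finset.mem_univ, true_and, Finset.notMem_empty, iff_false]
  intro h
  exact h.ne (Subsingleton.elim _ _)

theorem lk_fin_one (D : Data (Fin 1)) : D.lk 0 0 = D.sgn 0 * ∏ k ∈ D.leaf 0, (k : ℤ) := by
  classical
  unfold Data.lk
  have h : (Finset.univ.filter fun u : Fin 1 => D.On 0 0 u) = {0} := by
    ext u
    have hu : u = 0 := Subsingleton.elim _ _
    subst hu
    simp [Data.On]
  have h2 : (∏ u with D.On 0 0 u,
    (D.sgn u * (∏ k ∈ D.leaf u, (k : ℤ)) * ∏ x ∈ D.nbr u with ¬ D.On 0 0 x, D.wt u x)) =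
      ∏ u ∈ (Finset.univ.filter fun u : Fin 1 => D.On 0 0 u),
    (D.sgn u * (∏ k ∈ D.leaf u, (k : ℤ)) * ∏ x ∈ D.nbr u with ¬ D.On 0 0 x, D.wt u x) := by
    congr
  rw [h2, h, Finset.prod_singleton, nbr_fin_one]
  simp

theorem isGraph_oneNode {σ : Bool} {p : Finset ℕ} (hp : H99.Seif.IsSeif p) :
    (oneNode σ p).IsGraph where
  tree := by
    constructor
    · refine ⟨fun v w => ?_⟩
      rw [Subsingleton.elim v w]
    · exact SimpleGraph.isAcyclic_bot
  sign := fun v => by
    unfold oneNode
    cases σ <;> simp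
  two_le := fun _ k hk => hp.2.1 k hk
  coprime_leaf := fun _ k hk l hl hkl => hp.2.2 hk hl hkl
  coprime_mixed := fun v k _ w hw => by
    rw [nbr_fin_one] at hw
    exact absurd hw (Finset.notMem_empty _)
  coprime_edge := fun v w hw => by
    rw [nbr_fin_one] at hw
    exact absurd hw (Finset.notMem_empty _)
  three_le := fun v => by
    unfold Data.val
    rw [nbr_fin_one, Finset.card_empty, Nat.add_zero]
    exact hp.1
  edge_det := fun v w hw => by
    rw [nbr_fin_one] at hw
    exact absurd hw (Finset.notMem_empty _)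
  off := fun _ _ _ => rfl

/-- The one-node splice diagrams as members of `Prime`. -/
def ofIdx (x : H99.Seif.Idx) : Prime := ⟨0, oneNode x.1.1 x.1.2, isGraph_oneNode x.2⟩

theorem exists_ofIdx {P : Prime} (hP : P.n = 0) : ∃ x : H99.Seif.Idx, ofIdx x = P := by
  obtain ⟨n, D, h⟩ := P
  dsimp at hP
  subst hP
  have h0 : H99.Seif.IsSeif (D.leaf 0) := by
    refine ⟨?_, fun k hk => h.two_le 0 k hk, fun k hk l hl hkl => h.coprime_leaf 0 k hk l hl hkl⟩
    have := h.three_le 0
    unfold Data.val at this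
    rw [nbr_fin_one, Finset.card_empty, Nat.add_zero] at this
    exact this
  refine ⟨⟨(decide (D.sgn 0 = 1), D.leaf 0), h0⟩, ?_⟩
  have h1 : oneNode (decide (D.sgn 0 = 1)) (D.leaf 0) = D := by
    obtain ⟨G, leaf, sgn, wt⟩ := D
    unfold oneNode
    congr 1
    · exact (SimpleGraph.ext (funext fun a => funext fun b => by
        rw [Subsingleton.elim a b]
        exact propext ⟨fun h => (h.ne rfl).elim, fun h => (G.loopless.irrefl _ h).elim⟩))
    · funext v
      rw [Subsingleton.elim v 0]
    · funext v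
      rw [Subsingleton.elim v 0]
      rcases h.sign 0 with h2 | h2
      · simp only at h2
        simp [h2]
      · simp only at h2
        simp [h2]
    · funext v w
      have := h.off v w
      rw [nbr_fin_one] at this
      exact (this (Finset.notMem_empty _)).symm
  unfold ofIdx
  congr 1

theorem node_oneNode (σ : Bool) (p : Finset ℕ) :
    node (oneNode σ p) 0 = H99.Seif.phi p := by
  have hs : ∀ k : ℕ, OHG.sinhc k = H99.Seif.E k := fun k => rfl
  unfold node H99.Seif.phi Data.val
  rw [nbr_fin_one, Finset.card_empty, Nat.add_zero]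
  rfl

theorem ohtsuki_oneNode (σ : Bool) (p : Finset ℕ) :
    H99.Seif.ohtsuki 0 σ p = sinhcHalf⁻¹ * part (oneNode σ p) := by
  have h1 : H99.Seif.sinhc = sinhcHalf := rfl
  have h2 : part (oneNode σ p) = H99.Seif.V (H99.Seif.sg σ) p := by
    ext m
    rw [part_one_node, node_oneNode, lk_fin_one]
    unfold H99.Seif.V H99.Seif.om H99.Seif.sg oneNode
    rw [coeff_mk]
    cases σ <;> simp <;> ring
  unfold H99.Seif.ohtsuki
  rw [h1, h2, mul_comm _ (sinhcHalf⁻¹)]
  have h3 : rescale (0 : ℝ) (PowerSeries.exp ℝ) = 1 := by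
    ext n
    rw [coeff_rescale, coeff_exp, coeff_one]
    by_cases hn : n = 0
    · subst hn
      simp
    · rw [zero_pow hn, if_neg hn, zero_mul]
  rw [h3, one_mul]

/-- The Ohtsuki series separates the connected sums of Seifert fibred homology spheres. -/
theorem seifert (M M' : Multiset Prime)
    (h : (M.map fun P => sinhcHalf⁻¹ * part P.D).prod =
      (M'.map fun P => sinhcHalf⁻¹ * part P.D).prod)
    (h1 : ∀ P ∈ M, P.n = 0) (h2 : ∀ P ∈ M', P.n = 0) : M = M' := by
  classical
  have hl : ∀ N : Multiset Prime, (∀ P ∈ N, P.n = 0) →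
      ∃ A : Multiset H99.Seif.Idx, A.map ofIdx = N := by
    intro N
    induction N using Multiset.induction_on with
    | empty => exact fun _ => ⟨0, rfl⟩
    | cons P N ih =>
      intro hN
      obtain ⟨A, hA⟩ := ih fun Q hQ => hN Q (Multiset.mem_cons_of_mem hQ)
      obtain ⟨x, hx⟩ := exists_ofIdx (hN P (Multiset.mem_cons_self _ _))
      exact ⟨x ::ₘ A, by rw [Multiset.map_cons, hx, hA]⟩
  obtain ⟨A, rfl⟩ := hl M h1
  obtain ⟨B, rfl⟩ := hl M' h2
  have hp : ∀ A : Multiset H99.Seif.Idx, ((A.map ofIdx).map fun P => sinhcHalf⁻¹ * part P.D).prod =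
      (Multiset.toFinsupp A).prod fun x e => H99.Seif.ohtsuki ((fun _ => 0) x) x.1.1 x.1.2 ^ e := by
    intro A
    rw [Multiset.map_map, Finset.prod_multiset_map_count, Finsupp.prod, Multiset.toFinsupp_support]
    refine Finset.prod_congr rfl fun x _ => ?_
    rw [Multiset.toFinsupp_apply, ohtsuki_oneNode]
    rfl
  rw [hp, hp] at h
  have := H99.Seif.separation (fun _ => 0) _ _ h
  rw [Multiset.toFinsupp.injective this]

end Pool.Agent.GPC
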